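import Pool.Agent.Q282.CL.Abs

/-!
# Second moments over boxes of integer vectors of sums of functions of the residues modulo primes
-/

set_option autoImplicit false
set_option linter.unusedSectionVars false

namespace H35GS

open Finset
open Q282.CL

/-- the primes up to `X` -/
def PP (X : ℕ) : Finset ℕ := (Icc 1 X).filter Nat.Prime

section

variable {κ : Type} [Fintype κ] [DecidableEq κ]

/-- the box -/
noncomputable def kbox (N : κ → ℤ) (L : κ → ℕ) : Finset (κ → ℤ) :=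
  Fintype.piFinset fun i => Ico (N i) (N i + L i)

/-- the mean over the residues -/
noncomputable def mn (H : (p : ℕ) → (κ → ZMod p) → ℝ) (p : ℕ) : ℝ :=
  if h : p.Prime then haveI : Fact p.Prime := ⟨h⟩; (∑ u : κ → ZMod p, H p u) / (p : ℝ) ^ Fintype.card κ else 0

/-- the variance -/
noncomputable def vr (H : (p : ℕ) → (κ → ZMod p) → ℝ) (p : ℕ) : ℝ := mn (fun p u => H p u ^ 2) p - mn H p ^ 2

lemma av_res (p : ℕ) [hp : NeZero p] (G : (κ → ZMod p) → ℝ) : av G = (∑ u : κ → ZMod p, G u) / (p : ℝ) ^ Fintype.card κ := by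
  unfold av
  rw [Fintype.card_fun, ZMod.card]
  push_cast
  rfl

lemma mn_eq (H : (p : ℕ) → (κ → ZMod p) → ℝ) (p : ℕ) [hp : Fact p.Prime] : mn H p = av (H p) := by
  unfold mn
  rw [dif_pos hp.out, av_res]

lemma kbox_nonempty {N : κ → ℤ} {L : κ → ℕ} (hL : ∀ i, 0 < L i) : Nonempty (kbox N L) := by
  refine ⟨⟨N, ?_⟩⟩
  unfold kbox
  rw [Fintype.mem_piFinset]
  intro i
  rw [mem_Ico]
  have := hL i
  constructor <;> omega

lemma kbox_card (N : κ → ℤ) (L : κ → ℕ) : ((kbox N L).card : ℝ) = ∏ i, (L i : ℝ) := by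
  unfold kbox
  rw [Fintype.card_piFinset]
  push_cast
  refine prod_congr rfl fun i _ => ?_
  rw [Int.card_Ico]
  simp

lemma av_abs_le {α : Type} [Fintype α] [Nonempty α] (f : α → ℝ) (c : ℝ) (h : ∀ a, |f a| ≤ c) : |av f| ≤ c :=
  (abs_av_le f).trans ((av_mono h).trans (le_of_eq (av_const c)))

/-- the number of the elements of an interval in a residue class -/
lemma count_class (m : ℕ) [NeZero m] (v : ZMod m) (N : ℤ) (L : ℕ) :
    |(((Ico N (N + L)).filter fun a : ℤ => (a : ZMod m) = v).card : ℝ) - L / m| ≤ 1 := by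
  have hm : 0 < (m : ℤ) := by exact_mod_cast Nat.pos_of_ne_zero (NeZero.ne m)
  have h1 : ((Ico N (N + L)).filter fun a : ℤ => (a : ZMod m) = v) = (Ico N (N + L)).filter fun a : ℤ => a ≡ (v.val : ℤ) [ZMOD m] := by
    ext a
    rw [mem_filter, mem_filter]
    have : (a : ZMod m) = v ↔ a ≡ (v.val : ℤ) [ZMOD m] := by
      rw [← ZMod.intCast_eq_intCast_iff]
      simp
    rw [this]
  have h2 := Int.Ico_filter_modEq_card (a := N) (b := N + L) hm (v.val : ℤ)
  rw [← h1] at h2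
  obtain ⟨c, hc⟩ : ∃ c, c = ((Ico N (N + L)).filter fun a : ℤ => (a : ZMod m) = v).card := ⟨_, rfl⟩
  rw [← hc] at h2 ⊢
  obtain ⟨x, hx⟩ : ∃ x : ℚ, x = (((N + L : ℤ) - (v.val : ℤ) : ℤ) : ℚ) / ((m : ℤ) : ℚ) := ⟨_, rfl⟩
  obtain ⟨y, hy⟩ : ∃ y : ℚ, y = ((N - (v.val : ℤ) : ℤ) : ℚ) / ((m : ℤ) : ℚ) := ⟨_, rfl⟩
  have hm' : (0 : ℚ) < ((m : ℤ) : ℚ) := by exact_mod_cast hm
  have hxy : x - y = (L : ℚ) / (m : ℚ) := by
    rw [hx, hy]
    push_cast
    ring
  have h3 : (c : ℤ) = max (⌈x⌉ - ⌈y⌉) 0 := by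
    rw [h2, hx, hy]
    push_cast
    rfl
  have hx1 := Int.le_ceil x
  have hx2 := Int.ceil_lt_add_one x
  have hy1 := Int.le_ceil y
  have hy2 := Int.ceil_lt_add_one y
  have hL : 0 ≤ (L : ℚ) / (m : ℚ) := by positivity
  have hle : y ≤ x := by linarith
  have h4 : 0 ≤ ⌈x⌉ - ⌈y⌉ := by
    have := Int.ceil_mono hle
    omega
  rw [max_eq_left h4] at h3
  have h5 : (c : ℚ) = (⌈x⌉ : ℚ) - (⌈y⌉ : ℚ) := by exact_mod_cast h3
  have h6 : |(c : ℚ) - (L : ℚ) / (m : ℚ)| ≤ 1 := by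
    rw [h5, ← hxy, abs_le]
    constructor <;> linarith
  have h7 : ((|(c : ℚ) - (L : ℚ) / (m : ℚ)| : ℚ) : ℝ) ≤ ((1 : ℚ) : ℝ) := by exact_mod_cast h6
  push_cast at h7
  exact h7

lemma prod_dev (s : Finset κ) (c a : κ → ℝ) (ha : ∀ i, 0 ≤ a i) (hc : ∀ i, |c i - a i| ≤ 1) :
    |∏ i ∈ s, c i| ≤ ∏ i ∈ s, (a i + 1) ∧ |∏ i ∈ s, c i - ∏ i ∈ s, a i| ≤ ∏ i ∈ s, (a i + 1) - ∏ i ∈ s, a i := by
  induction s using Finset.induction_on with
  | empty => simp
  | insert j s hj ih =>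
    rw [prod_insert hj, prod_insert hj, prod_insert hj]
    obtain ⟨ih1, ih2⟩ := ih
    obtain ⟨C, hC⟩ : ∃ C, C = ∏ i ∈ s, c i := ⟨_, rfl⟩
    obtain ⟨A, hA⟩ : ∃ A, A = ∏ i ∈ s, a i := ⟨_, rfl⟩
    obtain ⟨B, hB⟩ : ∃ B, B = ∏ i ∈ s, (a i + 1) := ⟨_, rfl⟩
    rw [← hC, ← hB] at ih1
    rw [← hC, ← hA, ← hB] at ih2
    rw [← hC, ← hA, ← hB]
    have h1 := hc j
    have h2 := ha j
    have h3 : |c j| ≤ a j + 1 := by
      have := abs_add_le (c j - a j) (a j)
      rw [sub_add_cancel, abs_of_nonneg h2] at this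
      linarith
    have hB0 : 0 ≤ B := (abs_nonneg _).trans ih1
    constructor
    · rw [abs_mul]
      exact mul_le_mul h3 ih1 (abs_nonneg _) (by linarith)
    · have h4 : c j * C - a j * A = (c j - a j) * C + a j * (C - A) := by ring
      rw [h4]
      refine (abs_add_le _ _).trans ?_
      rw [abs_mul, abs_mul, abs_of_nonneg h2]
      have h5 : |c j - a j| * |C| ≤ 1 * B := mul_le_mul h1 ih1 (abs_nonneg _) zero_le_one
      have h6 : a j * |C - A| ≤ a j * (B - A) := mul_le_mul_of_nonneg_left ih2 h2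
      nlinarith

lemma sum_box (m : ℕ) [NeZero m] (N : κ → ℤ) (L : κ → ℕ) (G : (κ → ZMod m) → ℝ) :
    ∑ t ∈ kbox N L, G (fun i => (t i : ZMod m)) =
      ∑ u : κ → ZMod m, G u * ∏ i, (((Ico (N i) (N i + L i)).filter fun a : ℤ => (a : ZMod m) = u i).card : ℝ) := by
  rw [← sum_fiberwise_of_maps_to (s := kbox N L) (t := univ) (g := fun t i => (t i : ZMod m)) fun t _ => mem_univ _]
  refine sum_congr rfl fun u _ => ?_
  have h1 : ∀ t ∈ (kbox N L).filter (fun t => (fun i => (t i : ZMod m)) = u), G (fun i => (t i : ZMod m)) = G u := fun t ht => by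
    rw [(mem_filter.1 ht).2]
  rw [sum_congr rfl h1, sum_const, nsmul_eq_mul, mul_comm]
  congr 1
  have h2 : (kbox N L).filter (fun t => (fun i => (t i : ZMod m)) = u) =
      Fintype.piFinset fun i => (Ico (N i) (N i + L i)).filter fun a : ℤ => (a : ZMod m) = u i := by
    ext t
    unfold kbox
    rw [mem_filter, Fintype.mem_piFinset, Fintype.mem_piFinset]
    constructor
    · rintro ⟨h, h'⟩ i
      exact mem_filter.2 ⟨h i, congrFun h' i⟩
    · intro h
      exact ⟨fun i => (mem_filter.1 (h i)).1, funext fun i => (mem_filter.1 (h i)).2⟩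
  rw [h2, Fintype.card_piFinset]
  push_cast
  rfl

/-- sums over the box of functions of the residues -/
lemma sum_box_near (m : ℕ) [NeZero m] (N : κ → ℤ) (L : κ → ℕ) (T : ℝ) (hT : 0 < T) (hL : ∀ i, T ≤ L i) (G : (κ → ZMod m) → ℝ) (C : ℝ)
    (hG : ∀ u, |G u| ≤ C) :
    |∑ t ∈ kbox N L, G (fun i => (t i : ZMod m)) - (∏ i, (L i : ℝ)) * av G| ≤
      (∏ i, (L i : ℝ)) * (C * (Real.exp (Fintype.card κ * m / T) - 1)) := by
  have hm : 0 < m := Nat.pos_of_ne_zero (NeZero.ne m)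
  have hm0 : (0 : ℝ) < m := by exact_mod_cast hm
  have hC : 0 ≤ C := (abs_nonneg _).trans (hG 0)
  obtain ⟨a, ha⟩ : ∃ a : κ → ℝ, a = fun i => (L i : ℝ) / m := ⟨_, rfl⟩
  have hL0 : ∀ i, (0 : ℝ) < L i := fun i => hT.trans_le (hL i)
  have ha0 : ∀ i, 0 < a i := fun i => by
    rw [ha]
    have := hL0 i
    positivity
  have hprod : (0 : ℝ) < ∏ i, a i := prod_pos fun i _ => ha0 i
  have hexp : ∏ i, (a i + 1) ≤ (∏ i, a i) * Real.exp (Fintype.card κ * m / T) := by
    have h1 : ∀ i ∈ (univ : Finset κ), a i + 1 ≤ a i * Real.exp (m / T) := by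
      intro i _
      have h2 : 1 / a i ≤ m / T := by
        rw [ha]
        show 1 / ((L i : ℝ) / m) ≤ m / T
        rw [one_div_div]
        exact div_le_div_of_nonneg_left hm0.le hT (hL i)
      have h3 := Real.add_one_le_exp (m / T : ℝ)
      have h4 := ha0 i
      have h5 : a i * (1 / a i + 1) ≤ a i * Real.exp (m / T) := mul_le_mul_of_nonneg_left (by linarith) h4.le
      have h6 : a i * (1 / a i + 1) = a i + 1 := by
        field_simp
        ring
      linarith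
    refine (prod_le_prod (fun i _ => by have := ha0 i; linarith) h1).trans (le_of_eq ?_)
    rw [prod_mul_distrib, prod_const, card_univ, ← Real.exp_nat_mul]
    congr 2
    ring
  rw [sum_box]
  have h1 : (∏ i, (L i : ℝ)) * av G = ∑ u : κ → ZMod m, G u * ∏ i, a i := by
    rw [av_res, ← sum_mul, ha, prod_div_distrib, prod_const, card_univ]
    ring
  rw [h1, ← sum_sub_distrib]
  refine (abs_sum_le_sum_abs _ _).trans ?_
  have h2 : ∀ u ∈ (univ : Finset (κ → ZMod m)), |G u * ∏ i, (((Ico (N i) (N i + L i)).filter fun a : ℤ => (a : ZMod m) = u i).card : ℝ) - G u * ∏ i, a i| ≤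
      C * ((∏ i, a i) * (Real.exp (Fintype.card κ * m / T) - 1)) := by
    intro u _
    rw [← mul_sub, abs_mul]
    refine mul_le_mul (hG u) ?_ (abs_nonneg _) hC
    refine (prod_dev univ _ a (fun i => (ha0 i).le) fun i => ?_).2.trans ?_
    · rw [ha]
      exact count_class m (u i) (N i) (L i)
    · rw [mul_sub, mul_one]
      linarith
  refine (sum_le_sum h2).trans (le_of_eq ?_)
  rw [sum_const, card_univ, Fintype.card_fun, ZMod.card, nsmul_eq_mul, ha, prod_div_distrib, prod_const, card_univ]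
  push_cast
  have : (m : ℝ) ^ Fintype.card κ ≠ 0 := by positivity
  field_simp

/-- two different primes -/
lemma cov_zero (p q : ℕ) [Fact p.Prime] [Fact q.Prime] (hpq : p ≠ q) (f : (κ → ZMod p) → ℝ) (g : (κ → ZMod q) → ℝ) (hf : av f = 0) :
    haveI : NeZero (p * q) := ⟨mul_ne_zero (Nat.Prime.ne_zero Fact.out) (Nat.Prime.ne_zero Fact.out)⟩
    av (fun u : κ → ZMod (p * q) => f (fun i => ZMod.castHom (dvd_mul_right p q) (ZMod p) (u i)) *
      g (fun i => ZMod.castHom (dvd_mul_left q p) (ZMod q) (u i))) = 0 := by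
  haveI : NeZero (p * q) := ⟨mul_ne_zero (Nat.Prime.ne_zero Fact.out) (Nat.Prime.ne_zero Fact.out)⟩
  have hc : Nat.Coprime p q := (Nat.coprime_primes Fact.out Fact.out).2 hpq
  obtain ⟨e, he⟩ : ∃ e : ZMod (p * q) ≃+* ZMod p × ZMod q, e = ZMod.chineseRemainder hc := ⟨_, rfl⟩
  have h1 : ∀ x : ZMod (p * q), e x = (ZMod.castHom (dvd_mul_right p q) (ZMod p) x, ZMod.castHom (dvd_mul_left q p) (ZMod q) x) := by
    intro x
    obtain ⟨z, rfl⟩ := ZMod.intCast_surjective x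
    rw [map_intCast, map_intCast, map_intCast]
    rfl
  have h2 : ∑ u : κ → ZMod (p * q), f (fun i => ZMod.castHom (dvd_mul_right p q) (ZMod p) (u i)) *
      g (fun i => ZMod.castHom (dvd_mul_left q p) (ZMod q) (u i)) = ∑ z : (κ → ZMod p) × (κ → ZMod q), f z.1 * g z.2 := by
    refine Fintype.sum_equiv ((Equiv.arrowCongr (Equiv.refl κ) e.toEquiv).trans
      (Equiv.arrowProdEquivProdArrow κ (fun _ => ZMod p) (fun _ => ZMod q))) _ _ fun u => ?_
    have h3 : ((Equiv.arrowCongr (Equiv.refl κ) e.toEquiv).trans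
      (Equiv.arrowProdEquivProdArrow κ (fun _ => ZMod p) (fun _ => ZMod q))) u = (fun i => (e (u i)).1, fun i => (e (u i)).2) := rfl
    rw [h3]
    dsimp only
    simp only [h1]
  unfold av at hf ⊢
  rw [h2, Fintype.sum_prod_type]
  have h3 : ∑ x : κ → ZMod p, f x = 0 := by
    rw [div_eq_zero_iff] at hf
    rcases hf with h | h
    · exact h
    · exact absurd h (by exact_mod_cast Fintype.card_ne_zero)
  simp only [← mul_sum]
  rw [← sum_mul, h3]
  simp

/-- the second moment -/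
theorem sq_k (X : ℕ) (H : (p : ℕ) → (κ → ZMod p) → ℝ) (w : ℕ → ℝ) (C : ℝ) (hH : ∀ p ∈ PP X, ∀ u, |w p * (H p u - mn H p)| ≤ C)
    (T : ℝ) (hT0 : 0 < T) (N : κ → ℤ) (L : κ → ℕ) (hL : ∀ i, T ≤ L i) :
    av (fun t : kbox N L => (∑ p ∈ PP X, w p * (H p (fun i => ((t : κ → ℤ) i : ZMod p)) - mn H p)) ^ 2) ≤
      ∑ p ∈ PP X, w p ^ 2 * vr H p + (X : ℝ) ^ 2 * (C ^ 2 * (Real.exp (Fintype.card κ * (X : ℝ) ^ 2 / T) - 1)) := by
  classical
  have hL0 : ∀ i, (0 : ℝ) < L i := fun i => hT0.trans_le (hL i)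
  have hprod : (0 : ℝ) < ∏ i, (L i : ℝ) := prod_pos fun i _ => hL0 i
  have hPP : ∀ p ∈ PP X, p.Prime := fun p hp => (mem_filter.1 hp).2
  have hPX : ∀ p ∈ PP X, p ≤ X := fun p hp => (mem_Icc.1 (mem_filter.1 hp).1).2
  obtain ⟨η, hη⟩ : ∃ η : ℝ, η = C ^ 2 * (Real.exp (Fintype.card κ * (X : ℝ) ^ 2 / T) - 1) := ⟨_, rfl⟩
  have hη0 : 0 ≤ η := by
    rw [hη]
    refine mul_nonneg (sq_nonneg _) ?_
    have : 0 ≤ (Fintype.card κ : ℝ) * (X : ℝ) ^ 2 / T := by positivity
    linarith [Real.one_le_exp this]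
  obtain ⟨x, hx⟩ : ∃ x : (p : ℕ) → (κ → ZMod p) → ℝ, x = fun p u => w p * (H p u - mn H p) := ⟨_, rfl⟩
  have hxC : ∀ p ∈ PP X, ∀ u, |x p u| ≤ C := fun p hp u => by
    rw [hx]
    exact hH p hp u
  have hC0 : ∀ p ∈ PP X, 0 ≤ C := fun p hp => (abs_nonneg _).trans (hxC p hp 0)
  have hx0 : ∀ p ∈ PP X, ∀ [Fact p.Prime], av (x p) = 0 := by
    intro p hp _
    rw [hx]
    dsimp only
    rw [av_mul, av_sub, av_const, mn_eq, sub_self, mul_zero]
  have hx2 : ∀ p ∈ PP X, ∀ [Fact p.Prime], av (fun u => x p u * x p u) = w p ^ 2 * vr H p := by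
    intro p hp _
    rw [hx]
    dsimp only
    have h4 : (fun u => w p * (H p u - mn H p) * (w p * (H p u - mn H p))) =
        fun u => w p ^ 2 * (H p u ^ 2 - ((2 * mn H p) * H p u - mn H p ^ 2)) := by
      funext u
      ring
    rw [h4, av_mul, av_sub, av_sub, av_mul, av_const, ← mn_eq]
    unfold vr
    rw [mn_eq (fun p u => H p u ^ 2)]
    ring
  have hcov : ∀ p ∈ PP X, ∀ q ∈ PP X, ∑ t ∈ kbox N L, x p (fun i => (t i : ZMod p)) * x q (fun i => (t i : ZMod q)) ≤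
      (∏ i, (L i : ℝ)) * ((if p = q then w p ^ 2 * vr H p else 0) + η) := by
    intro p hp q hq
    have hpP := hPP p hp
    have hqP := hPP q hq
    haveI : Fact p.Prime := ⟨hpP⟩
    haveI : Fact q.Prime := ⟨hqP⟩
    have hC := hC0 p hp
    by_cases hpq : p = q
    · subst hpq
      rw [if_pos rfl]
      have h1 := sum_box_near p N L T hT0 hL (fun u => x p u * x p u) (C ^ 2) (fun u => by
        rw [abs_mul, pow_two]
        exact mul_le_mul (hxC p hp u) (hxC p hp u) (abs_nonneg _) hC)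
      rw [hx2 p hp] at h1
      have h2 := (abs_le.1 h1).2
      have h3 : C ^ 2 * (Real.exp (Fintype.card κ * (p : ℝ) / T) - 1) ≤ η := by
        rw [hη]
        refine mul_le_mul_of_nonneg_left ?_ (sq_nonneg _)
        refine sub_le_sub_right (Real.exp_le_exp.2 ?_) 1
        refine div_le_div_of_nonneg_right (mul_le_mul_of_nonneg_left ?_ (Nat.cast_nonneg _)) hT0.le
        have h4 : (p : ℝ) ≤ X := by exact_mod_cast hPX p hp
        have h5 : (1 : ℝ) ≤ X := by exact_mod_cast hpP.one_lt.le.trans (hPX p hp)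
        nlinarith
      have h4 := mul_le_mul_of_nonneg_left h3 hprod.le
      rw [mul_add]
      linarith
    · rw [if_neg hpq, zero_add]
      haveI : NeZero (p * q) := ⟨mul_ne_zero hpP.ne_zero hqP.ne_zero⟩
      have h1 := sum_box_near (p * q) N L T hT0 hL (fun u => x p (fun i => ZMod.castHom (dvd_mul_right p q) (ZMod p) (u i)) *
        x q (fun i => ZMod.castHom (dvd_mul_left q p) (ZMod q) (u i))) (C ^ 2) (fun u => by
        rw [abs_mul, pow_two]
        exact mul_le_mul (hxC p hp _) (hxC q hq _) (abs_nonneg _) hC)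
      have h0 := cov_zero (κ := κ) p q hpq (x p) (x q) (hx0 p hp)
      rw [h0, mul_zero, sub_zero] at h1
      simp only [map_intCast] at h1
      have h2 := (abs_le.1 h1).2
      refine h2.trans (mul_le_mul_of_nonneg_left ?_ hprod.le)
      rw [hη]
      refine mul_le_mul_of_nonneg_left ?_ (sq_nonneg _)
      refine sub_le_sub_right (Real.exp_le_exp.2 ?_) 1
      refine div_le_div_of_nonneg_right (mul_le_mul_of_nonneg_left ?_ (Nat.cast_nonneg _)) hT0.le
      have h4 : (p : ℝ) ≤ X := by exact_mod_cast hPX p hp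
      have h5 : (q : ℝ) ≤ X := by exact_mod_cast hPX q hq
      push_cast
      have h6 : (0 : ℝ) ≤ q := Nat.cast_nonneg _
      nlinarith
  have h1 : ∑ t ∈ kbox N L, (∑ p ∈ PP X, x p (fun i => (t i : ZMod p))) ^ 2 =
      ∑ p ∈ PP X, ∑ q ∈ PP X, ∑ t ∈ kbox N L, x p (fun i => (t i : ZMod p)) * x q (fun i => (t i : ZMod q)) := by
    have h2 : ∀ t ∈ kbox N L, (∑ p ∈ PP X, x p (fun i => (t i : ZMod p))) ^ 2 =
        ∑ p ∈ PP X, ∑ q ∈ PP X, x p (fun i => (t i : ZMod p)) * x q (fun i => (t i : ZMod q)) := fun t _ => by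
      rw [sq, sum_mul_sum]
    rw [sum_congr rfl h2, sum_comm]
    refine sum_congr rfl fun p _ => ?_
    rw [sum_comm]
  have h2 : ∑ t ∈ kbox N L, (∑ p ∈ PP X, x p (fun i => (t i : ZMod p))) ^ 2 ≤
      (∏ i, (L i : ℝ)) * (∑ p ∈ PP X, w p ^ 2 * vr H p + (X : ℝ) ^ 2 * η) := by
    rw [h1]
    refine (sum_le_sum fun p hp => sum_le_sum fun q hq => hcov p hp q hq).trans ?_
    simp only [← mul_sum]
    refine mul_le_mul_of_nonneg_left ?_ hprod.le
    have h3 : ∀ p ∈ PP X, ∑ q ∈ PP X, ((if p = q then w p ^ 2 * vr H p else 0) + η) = w p ^ 2 * vr H p + (PP X).card * η := by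
      intro p hp
      rw [sum_add_distrib, sum_ite_eq, if_pos hp, sum_const, nsmul_eq_mul]
    rw [sum_congr rfl h3, sum_add_distrib, sum_const, nsmul_eq_mul]
    have h4 : ((PP X).card : ℝ) ≤ X := by
      have : (PP X).card ≤ X := by
        refine (card_filter_le _ _).trans ?_
        rw [Nat.card_Icc, Nat.add_sub_cancel]
      exact_mod_cast this
    have h5 : ((PP X).card : ℝ) * ((PP X).card * η) ≤ (X : ℝ) ^ 2 * η := by
      rw [← mul_assoc, pow_two]
      refine mul_le_mul_of_nonneg_right ?_ hη0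
      exact mul_le_mul h4 h4 (Nat.cast_nonneg _) (Nat.cast_nonneg _)
    linarith
  have h3 : av (fun t : kbox N L => (∑ p ∈ PP X, w p * (H p (fun i => ((t : κ → ℤ) i : ZMod p)) - mn H p)) ^ 2) =
      (∑ t ∈ kbox N L, (∑ p ∈ PP X, x p (fun i => (t i : ZMod p))) ^ 2) / ∏ i, (L i : ℝ) := by
    unfold av
    rw [Fintype.card_coe, kbox_card, hx, ← Finset.sum_coe_sort (kbox N L)
      (fun t => (∑ p ∈ PP X, w p * (H p (fun i => (t i : ZMod p)) - mn H p)) ^ 2)]
  rw [h3, div_le_iff₀ hprod, ← hη, mul_comm _ (∏ i, (L i : ℝ))]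
  exact h2

end

end H35GS
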