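import Pool.Agent.H35J.GS.Ind

/-!
# The proportion of the monic polynomials modulo `p` that are not squarefree
-/

set_option autoImplicit false
set_option linter.unusedSectionVars false

namespace H35GS

open Finset Polynomial
open Q282.CL

lemma geo_two (x : ℝ) (h0 : 0 ≤ x) (h1 : x ≤ 1 / 2) (m : ℕ) : ∑ e ∈ Icc 1 m, x ^ e ≤ 2 * x * (1 - (1 / 2) ^ m) := by
  induction m with
  | zero => simp
  | succ m ih =>
    rw [sum_Icc_succ_top (by omega)]
    have h2 : x ^ (m + 1) ≤ x * (1 / 2) ^ m := by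
      rw [pow_succ, mul_comm]
      exact mul_le_mul_of_nonneg_left (pow_le_pow_left₀ h0 h1 m) h0
    have h3 : 2 * x * (1 - (1 / 2) ^ (m + 1)) = 2 * x * (1 - (1 / 2) ^ m) + x * (1 / 2) ^ m := by
      rw [pow_succ]
      ring
    rw [h3]
    exact add_le_add ih h2

section

variable {R : Type} [CommRing R]

lemma fpol_coeff [Nontrivial R] {D : ℕ} (c : Fin D → R) (i : Fin D) : (fpol c).coeff i = c i := by
  unfold fpol
  rw [coeff_add, coeff_X_pow, if_neg (by omega), zero_add, finsetSum_coeff]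
  simp only [coeff_C_mul, coeff_X_pow]
  rw [sum_eq_single i]
  · rw [if_pos rfl, mul_one]
  · intro j _ hj
    rw [if_neg fun h => hj (Fin.ext h.symm), mul_zero]
  · intro h
    exact absurd (mem_univ _) h

lemma fpol_of_monic [Nontrivial R] (f : R[X]) (hf : f.Monic) : fpol (fun i : Fin f.natDegree => f.coeff i) = f := by
  unfold fpol
  rw [Fin.sum_univ_eq_sum_range fun i => C (f.coeff i) * X ^ i]
  exact hf.as_sum.symm

end

variable {p : ℕ} [hp : Fact p.Prime]

/-- at most a proportion `2 / p` of the monic polynomials is not squarefree -/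
theorem av_nsf (D : ℕ) : open Classical in av (fun c : Fin D → ZMod p => if Squarefree (fpol c) then (0 : ℝ) else 1) ≤ 2 / p := by
  classical
  have hp2 : 2 ≤ p := hp.out.two_le
  have hp0 : (0 : ℝ) < p := by exact_mod_cast hp.out.pos
  have hp2R : (2 : ℝ) ≤ p := by exact_mod_cast hp2
  unfold av
  rw [Fintype.card_fun, ZMod.card, Fintype.card_fin]
  have h1 : ∑ c : Fin D → ZMod p, (if Squarefree (fpol c) then (0 : ℝ) else 1) = ((univ.filter fun c : Fin D → ZMod p => ¬ Squarefree (fpol c)).card : ℝ) := by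
    rw [card_filter]
    push_cast
    refine sum_congr rfl fun c _ => ?_
    by_cases h : Squarefree (fpol c)
    · rw [if_pos h, if_neg (not_not.2 h)]
    · rw [if_neg h, if_pos h]
  rw [h1]
  have h2 : (univ.filter fun c : Fin D → ZMod p => ¬ Squarefree (fpol c)) ⊆ (Icc 1 (D / 2)).biUnion fun e =>
      (univ : Finset ((Fin e → ZMod p) × (Fin (D - 2 * e) → ZMod p))).image fun ab => fun i : Fin D => ((fpol ab.1) ^ 2 * fpol ab.2).coeff i := by
    intro c hc
    rw [mem_filter] at hc
    have hc2 := hc.2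
    have hf : (fpol c).Monic ∧ (fpol c).natDegree = D := by
      have h3 : (∑ i : Fin D, C (c i) * X ^ (i : ℕ) : (ZMod p)[X]).degree < D := degree_sum_fin_lt c
      refine ⟨monic_X_pow_add h3, ?_⟩
      unfold fpol
      rw [natDegree_add_eq_left_of_degree_lt (by rw [degree_X_pow]; exact h3), natDegree_X_pow]
    obtain ⟨f, hff⟩ : ∃ f, f = fpol c := ⟨_, rfl⟩
    rw [← hff] at hc2 hf
    unfold Squarefree at hc2
    push Not at hc2
    obtain ⟨q, hq, hqu⟩ := hc2
    have hq0 : q ≠ 0 := by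
      rintro rfl
      rw [zero_mul, zero_dvd_iff] at hq
      rw [hq] at hf
      exact hf.1.ne_zero rfl
    obtain ⟨q', hq'⟩ : ∃ q' : (ZMod p)[X], q' = q * C (q.leadingCoeff⁻¹) := ⟨_, rfl⟩
    have hqm : q'.Monic := by
      rw [hq']
      exact monic_mul_leadingCoeff_inv hq0
    have hlu : IsUnit (C (q.leadingCoeff⁻¹) : (ZMod p)[X]) := isUnit_C.2 (isUnit_iff_ne_zero.2 (inv_ne_zero (leadingCoeff_ne_zero.2 hq0)))
    have hqd : q' * q' ∣ f := by
      have h3 : q' * q' = (q * q) * (C (q.leadingCoeff⁻¹) * C (q.leadingCoeff⁻¹)) := by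
        rw [hq']
        ring
      rw [h3]
      exact (hlu.mul hlu).mul_right_dvd.2 hq
    obtain ⟨h, hh⟩ := hqd
    have hhm : h.Monic := by
      have h3 := hf.1
      rw [hh] at h3
      exact (hqm.mul hqm).of_mul_monic_left h3
    have hdeg : D = 2 * q'.natDegree + h.natDegree := by
      rw [← hf.2, hh, (hqm.mul hqm).natDegree_mul hhm, hqm.natDegree_mul hqm]
      ring
    have hq1 : 1 ≤ q'.natDegree := by
      by_contra h3
      have h4 : q'.natDegree = 0 := by omega
      have h5 : q' = 1 := (hqm.natDegree_eq_zero).1 h4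
      apply hqu
      have h6 : IsUnit q' := by rw [h5]; exact isUnit_one
      rw [hq'] at h6
      exact isUnit_of_mul_isUnit_left h6
    rw [mem_biUnion]
    refine ⟨q'.natDegree, mem_Icc.2 ⟨hq1, by omega⟩, ?_⟩
    rw [mem_image]
    have h7 : D - 2 * q'.natDegree = h.natDegree := by omega
    refine ⟨(fun i => q'.coeff i, fun i => h.coeff i), mem_univ _, ?_⟩
    dsimp only
    have h8 : fpol (fun i : Fin (D - 2 * q'.natDegree) => h.coeff i) = h := by
      rw [h7]
      exact fpol_of_monic h hhm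
    rw [fpol_of_monic q' hqm, h8]
    funext i
    rw [pow_two, ← hh, hff, fpol_coeff]
  have h3 : ((univ.filter fun c : Fin D → ZMod p => ¬ Squarefree (fpol c)).card : ℝ) ≤ ∑ e ∈ Icc 1 (D / 2), (p : ℝ) ^ D * (1 / (p : ℝ)) ^ e := by
    refine (Nat.cast_le.2 ((card_le_card h2).trans card_biUnion_le)).trans ?_
    push_cast
    refine sum_le_sum fun e he => ?_
    rw [mem_Icc] at he
    have h4 : ((univ : Finset ((Fin e → ZMod p) × (Fin (D - 2 * e) → ZMod p))).image fun ab => fun i : Fin D => ((fpol ab.1) ^ 2 * fpol ab.2).coeff i).card ≤ p ^ e * p ^ (D - 2 * e) := by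
      refine card_image_le.trans (le_of_eq ?_)
      rw [card_univ, Fintype.card_prod, Fintype.card_fun, Fintype.card_fun, ZMod.card, Fintype.card_fin, Fintype.card_fin]
    refine (Nat.cast_le.2 h4).trans (le_of_eq ?_)
    push_cast
    have h5 : (p : ℝ) ^ D = (p : ℝ) ^ e * (p : ℝ) ^ (D - 2 * e) * (p : ℝ) ^ e := by
      rw [← pow_add, ← pow_add]
      congr 1
      omega
    rw [h5, mul_assoc _ ((p : ℝ) ^ e) ((1 / (p : ℝ)) ^ e), ← mul_pow, mul_one_div, div_self hp0.ne', one_pow, mul_one]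
  rw [← mul_sum] at h3
  have h4 := geo_two (1 / (p : ℝ)) (by positivity) (one_div_le_one_div_of_le two_pos hp2R) (D / 2)
  have h5 : 2 * (1 / (p : ℝ)) * (1 - (1 / 2) ^ (D / 2)) ≤ 2 / p := by
    have : (0 : ℝ) < (1 / 2) ^ (D / 2) := by positivity
    have h6 : 0 ≤ 2 * (1 / (p : ℝ)) := by positivity
    calc 2 * (1 / (p : ℝ)) * (1 - (1 / 2) ^ (D / 2)) ≤ 2 * (1 / (p : ℝ)) * 1 := mul_le_mul_of_nonneg_left (by linarith) h6
      _ = 2 / p := by ring
  push_cast
  rw [div_le_iff₀ (by positivity)]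
  refine h3.trans ?_
  rw [mul_comm (2 / (p : ℝ))]
  exact mul_le_mul_of_nonneg_left (h4.trans h5) (by positivity)

end H35GS
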