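import Pool.Agent.H35J.GS.Mod3
import Pool.Agent.H35J.GS.Sqf
import Pool.Agent.H35J.GS.Lln

/-!
# The moments over the good primes of an interval, for almost all polynomials of a box
-/

set_option autoImplicit false
set_option linter.unusedSectionVars false

namespace H35GS

open Finset Polynomial
open Q282.CL
open Q282MM (gm)

/-- the number of points at infinity, minus one -/
noncomputable def dl (D : ℕ) : ℝ := if Odd D then 0 else 1

lemma dl_abs (D : ℕ) : |dl D| ≤ 1 := by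
  unfold dl
  split_ifs <;> norm_num

/-- the normalised power sums of the curve `y ^ 2 = fpol c` modulo `p` -/
noncomputable def sv (D j p : ℕ) (c : Fin D → ZMod p) : ℝ :=
  if h : p.Prime then haveI : Fact p.Prime := ⟨h⟩; -(∑ x : GaloisField p (j + 1), qch (aeval x (fpol c)) + dl D) / Real.sqrt p ^ (j + 1) else 0

lemma sv_eq (D j p : ℕ) [hp : Fact p.Prime] (c : Fin D → ZMod p) :
    sv D j p c = -(∑ x : GaloisField p (j + 1), qch (aeval x (fpol c)) + dl D) / Real.sqrt p ^ (j + 1) := by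
  unfold sv
  rw [dif_pos hp.out]

lemma sv_SS (D p : ℕ) [hp : Fact p.Prime] (hp2 : p ≠ 2) {r : ℕ} (j : Fin r) (c : Fin D → ZMod p) :
    sv D j p c = SS (r := r) (dl D) j (fun P => vl (fpol c) P) := by
  rw [sv_eq]
  unfold SS
  rw [ZZ_vl hp2 (j : ℕ) j.2]

lemma sv_abs (D j p : ℕ) (hp : p.Prime) (c : Fin D → ZMod p) : |sv D j p c| ≤ 2 * (p : ℝ) ^ (j + 1) := by
  have : Fact p.Prime := ⟨hp⟩
  have hp1 : (1 : ℝ) ≤ (p : ℝ) ^ (j + 1) := one_le_pow₀ (by exact_mod_cast hp.one_lt.le)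
  have hs : (1 : ℝ) ≤ Real.sqrt p ^ (j + 1) := one_le_pow₀ one_le_sqrt
  rw [sv_eq, abs_div, abs_neg, abs_of_pos (by linarith : (0 : ℝ) < Real.sqrt p ^ (j + 1))]
  refine (div_le_self (abs_nonneg _) hs).trans ?_
  have h1 : |∑ x : GaloisField p (j + 1), qch (aeval x (fpol c))| ≤ (p : ℝ) ^ (j + 1) := by
    refine (abs_sum_le_sum_abs _ _).trans ?_
    calc ∑ x : GaloisField p (j + 1), |qch (aeval x (fpol c))| ≤ ∑ x : GaloisField p (j + 1), (1 : ℝ) := sum_le_sum fun x _ => qch_abs _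
      _ = (p : ℝ) ^ (j + 1) := by
        rw [sum_const, card_univ, card_GF (j + 1) (Nat.succ_ne_zero j), nsmul_eq_mul, mul_one]
        push_cast
        rfl
  refine (abs_add_le _ _).trans ?_
  have h2 := dl_abs D
  linarith

open Classical in
/-- the centred products at the good primes -/
noncomputable def Gf {r : ℕ} (k : Fin r → ℕ) (D p : ℕ) (c : Fin D → ZMod p) : ℝ :=
  if p ≠ 2 ∧ Squarefree (fpol c) then ∏ j : Fin r, sv D j p c ^ k j - ∏ j : Fin r, mmt j (k j) else 0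

lemma Gf_abs {r : ℕ} (k : Fin r → ℕ) (D p : ℕ) (hp : p.Prime) (c : Fin D → ZMod p) :
    |Gf k D p c| ≤ (∏ j : Fin r, 2 ^ k j + |∏ j : Fin r, mmt j (k j)|) * (p : ℝ) ^ (∑ j : Fin r, ((j : ℕ) + 1) * k j) := by
  have hp1 : (1 : ℝ) ≤ (p : ℝ) ^ (∑ j : Fin r, ((j : ℕ) + 1) * k j) := one_le_pow₀ (by exact_mod_cast hp.one_lt.le)
  have hA : (0 : ℝ) ≤ ∏ j : Fin r, 2 ^ k j := prod_nonneg fun j _ => by positivity
  unfold Gf
  split_ifs
  · refine (abs_sub _ _).trans ?_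
    rw [add_mul]
    refine add_le_add ?_ (le_mul_of_one_le_right (abs_nonneg _) hp1)
    rw [abs_prod, ← prod_pow_eq_pow_sum, ← prod_mul_distrib]
    refine prod_le_prod (fun j _ => abs_nonneg _) fun j _ => ?_
    rw [abs_pow, pow_mul, ← mul_pow]
    exact pow_le_pow_left₀ (abs_nonneg _) (sv_abs D j p hp c) _
  · rw [abs_zero]
    positivity

lemma Gf_mean {r : ℕ} (k : Fin r → ℕ) : ∃ K : ℝ, 1 ≤ K ∧ ∀ D : ℕ, 2 * ∑ j : Fin r, ((j : ℕ) + 1) * k j ≤ D → ∀ p : ℕ, p.Prime → 3 ≤ p →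
    |mn (Gf k D) p - 0| ≤ K / Real.sqrt p ∧ mn (fun p c => Gf k D p c ^ 2) p ≤ K := by
  classical
  obtain ⟨K₁, hK₁, h₁⟩ := loc k
  obtain ⟨K₂, hK₂, h₂⟩ := loc fun j => 2 * k j
  obtain ⟨μ, hμ⟩ : ∃ μ : ℝ, μ = ∏ j : Fin r, mmt j (k j) := ⟨_, rfl⟩
  obtain ⟨μ₂, hμ₂⟩ : ∃ μ₂ : ℝ, μ₂ = ∏ j : Fin r, mmt j (2 * k j) := ⟨_, rfl⟩
  obtain ⟨M, hM⟩ : ∃ M : ℝ, M = 2 * (|μ₂| + K₂) + 2 * μ ^ 2 := ⟨_, rfl⟩
  have hM0 : 0 ≤ M := by
    rw [hM]
    positivity
  refine ⟨K₁ + M + 2, by linarith, fun D hD p hpr hp3 => ?_⟩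
  have hp : Fact p.Prime := ⟨hpr⟩
  have hp2 : p ≠ 2 := by omega
  have hp0 : (0 : ℝ) < p := by exact_mod_cast hpr.pos
  have hs1 : 1 ≤ Real.sqrt p := one_le_sqrt
  have hs0 : 0 < Real.sqrt p := by linarith
  have hss : Real.sqrt p * Real.sqrt p = p := Real.mul_self_sqrt hp0.le
  -- the full averages
  obtain ⟨F, hF⟩ : ∃ F : (Fin D → ZMod p) → ℝ, F = fun c => ∏ j : Fin r, sv D j p c ^ k j := ⟨_, rfl⟩
  have hF1 : |av F - μ| ≤ K₁ / Real.sqrt p := by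
    have h3 := h₁ p hp2 (dl D) (dl_abs D) D (by omega)
    rw [hF, hμ]
    simp only [sv_SS D p hp2]
    exact h3
  have hF2 : av (fun c => F c ^ 2) ≤ |μ₂| + K₂ := by
    have h3 := h₂ p hp2 (dl D) (dl_abs D) D (by
      refine le_trans (le_of_eq ?_) hD
      rw [mul_sum]
      exact sum_congr rfl fun j _ => by ring)
    have e1 : (fun c => F c ^ 2) = fun c : Fin D → ZMod p => ∏ j : Fin r, SS (r := r) (dl D) j (fun P => vl (fpol c) P) ^ (2 * k j) := by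
      funext c
      rw [hF, ← prod_pow]
      refine prod_congr rfl fun j _ => ?_
      rw [sv_SS D p hp2, ← pow_mul, mul_comm (k j) 2]
    rw [e1]
    have h4 := (abs_le.1 h3).2
    rw [← hμ₂] at h4
    have h5 : K₂ / Real.sqrt p ≤ K₂ := div_le_self hK₂ hs1
    have h6 := le_abs_self μ₂
    linarith
  obtain ⟨f, hf⟩ : ∃ f : (Fin D → ZMod p) → ℝ, f = fun c => F c - μ := ⟨_, rfl⟩
  have hf2 : av (fun c => f c ^ 2) ≤ M := by
    have h3 : ∀ c, f c ^ 2 ≤ 2 * F c ^ 2 + 2 * μ ^ 2 := by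
      intro c
      rw [hf]
      nlinarith [sq_nonneg (F c + μ)]
    refine (av_mono h3).trans ?_
    rw [av_add, av_mul, av_const, hM]
    linarith
  have hG : ∀ c, Gf k D p c = if Squarefree (fpol c) then f c else 0 := by
    intro c
    unfold Gf
    rw [hf, hF, hμ]
    by_cases h : Squarefree (fpol c)
    · rw [if_pos ⟨hp2, h⟩, if_pos h]
    · rw [if_neg fun h' => h h'.2, if_neg h]
  have hG2 : mn (fun p c => Gf k D p c ^ 2) p ≤ M := by
    rw [mn_eq (fun p c => Gf k D p c ^ 2)]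
    refine le_trans (av_mono fun c => ?_) hf2
    rw [hG]
    split_ifs
    · exact le_rfl
    · rw [zero_pow two_ne_zero]
      exact sq_nonneg _
  refine ⟨?_, by linarith⟩
  rw [sub_zero, mn_eq]
  have h3 : ∀ c : Fin D → ZMod p, |Gf k D p c - f c| ≤ (1 / (2 * Real.sqrt p)) * f c ^ 2 + (Real.sqrt p / 2) * (if Squarefree (fpol c) then 0 else 1) := by
    intro c
    rw [hG]
    split_ifs with hc
    · rw [sub_self, abs_zero]
      positivity
    · rw [zero_sub, abs_neg, mul_one]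
      have h4 : 0 ≤ (1 / (2 * Real.sqrt p)) * (|f c| - Real.sqrt p) ^ 2 := by positivity
      have h5 : (1 / (2 * Real.sqrt p)) * (|f c| - Real.sqrt p) ^ 2 = (1 / (2 * Real.sqrt p)) * f c ^ 2 - |f c| + Real.sqrt p / 2 := by
        rw [sub_sq, sq_abs]
        field_simp
      linarith
  have h4 : av (fun c : Fin D → ZMod p => (if Squarefree (fpol c) then (0 : ℝ) else 1)) ≤ 2 / p := av_nsf D
  have h5 : |av (Gf k D p) - av f| ≤ (1 / (2 * Real.sqrt p)) * M + (Real.sqrt p / 2) * (2 / p) := by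
    rw [← av_sub]
    refine (abs_av_le _).trans ?_
    refine (av_mono h3).trans ?_
    rw [av_add, av_mul, av_mul]
    have h6 : (1 / (2 * Real.sqrt p)) * av (fun c => f c ^ 2) ≤ (1 / (2 * Real.sqrt p)) * M := mul_le_mul_of_nonneg_left hf2 (by positivity)
    have h7 : (Real.sqrt p / 2) * av (fun c : Fin D → ZMod p => (if Squarefree (fpol c) then (0 : ℝ) else 1)) ≤ (Real.sqrt p / 2) * (2 / p) :=
      mul_le_mul_of_nonneg_left h4 (by positivity)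
    linarith
  have h6 : |av f| ≤ K₁ / Real.sqrt p := by
    rw [hf, av_sub, av_const]
    exact hF1
  have h7 : (1 / (2 * Real.sqrt p)) * M + (Real.sqrt p / 2) * (2 / p) ≤ (M + 2) / Real.sqrt p := by
    have e1 : (Real.sqrt p / 2) * (2 / p) = 1 / Real.sqrt p := by
      rw [eq_div_iff hs0.ne']
      have : Real.sqrt p / 2 * (2 / p) * Real.sqrt p = (Real.sqrt p * Real.sqrt p) / p := by ring
      rw [this, hss, div_self hp0.ne']
    have e2 : (1 / (2 * Real.sqrt p)) * M = (M / 2) / Real.sqrt p := by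
      field_simp
    rw [e1, e2, ← add_div]
    refine div_le_div_of_nonneg_right ?_ hs0.le
    linarith
  have h8 : (K₁ + M + 2) / Real.sqrt p = K₁ / Real.sqrt p + (M + 2) / Real.sqrt p := by ring
  rw [h8]
  have h9 : |av (Gf k D p)| ≤ |av f| + |av (Gf k D p) - av f| := by
    have := abs_add_le (av f) (av (Gf k D p) - av f)
    rwa [add_sub_cancel] at this
  linarith

open Classical in
/-- the good primes of `S` in the interval -/
noncomputable def GP (D : ℕ) (S : Set ℕ) (Y Y' : ℕ) (t : Fin D → ℤ) : Finset ℕ :=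
  (IV Y Y').filter fun p => p ∈ S ∧ p ≠ 2 ∧ Squarefree (fpol fun i => (t i : ZMod p))

/-- **the empirical moments** -/
theorem emp_mom {r : ℕ} (k : Fin r → ℕ) (ε : ℝ) (hε : 0 < ε) (hε1 : ε ≤ 1) :
    ∃ κ₀ : ℝ, 0 < κ₀ ∧ ∃ C : ℝ, 1 ≤ C ∧ ∀ D : ℕ, 2 * ∑ j : Fin r, ((j : ℕ) + 1) * k j ≤ D →
      ∀ (S : Set ℕ) (N : Fin D → ℤ) (L : Fin D → ℕ) (T : ℝ), 0 < T → (∀ i, T * (D + 1) ≤ L i) →
      ∀ X₀ : ℕ, 1 ≤ X₀ → ∃ E : Finset (Fin D → ℤ), E ⊆ kbox N L ∧ (E.card : ℝ) ≤ C * (X₀ : ℝ) ^ (-(ε / 2)) * ∏ i, (L i : ℝ) ∧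
      ∀ t ∈ kbox N L, t ∉ E → ∀ Y Y' : ℕ, Y ≤ Y' → X₀ ≤ Y' → (Y' : ℝ) ≤ T ^ κ₀ →
        |∑ p ∈ GP D S Y Y' t, (∏ j : Fin r, sv D j p (fun i => (t i : ZMod p)) ^ k j - ∏ j : Fin r, mmt j (k j))| ≤ C * (Y' : ℝ) ^ (1 / 2 + ε / 2) := by
  classical
  obtain ⟨K, hK, h1⟩ := Gf_mean k
  obtain ⟨A, hA⟩ : ∃ A : ℝ, A = ∏ j : Fin r, 2 ^ k j + |∏ j : Fin r, mmt j (k j)| := ⟨_, rfl⟩
  have hA0 : 0 ≤ A := by
    rw [hA]
    have : (0 : ℝ) ≤ ∏ j : Fin r, 2 ^ k j := prod_nonneg fun j _ => by positivity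
    positivity
  obtain ⟨κ₀, hκ₀, C, hC, h2⟩ := lln (∑ j : Fin r, ((j : ℕ) + 1) * k j) 3 (K + A) 0 (by linarith) ε hε hε1
  refine ⟨κ₀, hκ₀, C, hC, fun D hD S N L T hT hL X₀ hX₀ => ?_⟩
  obtain ⟨E, hE1, hE2, hE3⟩ := h2 (Fin D) (Gf k D) (fun p hp u => by
      refine (Gf_abs k D p hp u).trans (mul_le_mul_of_nonneg_right ?_ (by positivity))
      rw [← hA]
      linarith)
    (fun p hp hp3 => ((h1 D hD p hp hp3).1).trans (div_le_div_of_nonneg_right (by linarith) (Real.sqrt_nonneg _)))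
    (fun p hp hp3 => ((h1 D hD p hp hp3).2).trans (by linarith)) (fun p => if p ∈ S then 1 else 0)
    (fun p => by split_ifs <;> simp) N L T hT (by simpa using hL) X₀ hX₀
  refine ⟨E, hE1, hE2, fun t ht htE Y Y' hY hX hT' => ?_⟩
  have h3 := hE3 t ht htE Y Y' hY hX hT'
  have e1 : ∑ p ∈ IV Y Y', (if p ∈ S then (1 : ℝ) else 0) * (Gf k D p (fun i => (t i : ZMod p)) - 0) =
      ∑ p ∈ GP D S Y Y' t, (∏ j : Fin r, sv D j p (fun i => (t i : ZMod p)) ^ k j - ∏ j : Fin r, mmt j (k j)) := by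
    unfold GP
    rw [sum_filter]
    refine sum_congr rfl fun p _ => ?_
    unfold Gf
    by_cases h4 : p ∈ S
    · by_cases h5 : p ≠ 2 ∧ Squarefree (fpol fun i => (t i : ZMod p))
      · rw [if_pos h4, if_pos h5, if_pos ⟨h4, h5⟩]
        ring
      · rw [if_pos h4, if_neg h5, if_neg fun h6 => h5 h6.2]
        ring
    · rw [if_neg h4, if_neg (fun h6 : p ∈ S ∧ p ≠ 2 ∧ Squarefree (fpol fun i => (t i : ZMod p)) => h4 h6.1)]
      ring
  rw [e1] at h3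
  exact h3

end H35GS
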