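import Pool.Agent.H35J.GS.Pts

/-!
# Independence of the values of random monic polynomials at closed points; transfer to independent residues
-/

set_option autoImplicit false
set_option linter.unusedSectionVars false

namespace H35GS

open Finset Polynomial
open Q282.CL

/-- the monic polynomial with the lower coefficients `c` -/
noncomputable def fpol {R : Type} [CommRing R] {D : ℕ} (c : Fin D → R) : R[X] := X ^ D + ∑ i : Fin D, C (c i) * X ^ (i : ℕ)

section

variable {p : ℕ} [hp : Fact p.Prime]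

noncomputable instance instDecCP (e : ℕ) : DecidableEq (CP p e) := Classical.decEq _

variable (p) in
/-- the closed points of degree at most `r` -/
abbrev Pt (r : ℕ) := Σ e : Fin r, CP p (e + 1)

/-- the residue field -/
abbrev BB {r : ℕ} (P : Pt p r) := GaloisField p (P.1 + 1)

/-- the value of a polynomial -/
noncomputable def vl {r : ℕ} (f : (ZMod p)[X]) (P : Pt p r) : BB P := aeval (rt P.2) f

/-- the values of the polynomials of degree less than `D` -/
noncomputable def lin (r D : ℕ) (S : Finset (Pt p r)) : (Fin D → ZMod p) →+ (∀ P : S, BB P.1) where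
  toFun c P := vl (∑ i : Fin D, C (c i) * X ^ (i : ℕ)) P.1
  map_zero' := by
    funext P
    simp [vl]
  map_add' c c' := by
    funext P
    simp only [vl, Pi.add_apply, C_add, add_mul, sum_add_distrib, map_add]

lemma vl_ne {r : ℕ} {P Q : Pt p r} (h : P ≠ Q) : vl Q.2.1 P ≠ 0 := by
  intro h0
  apply h
  have h1 : Q.2.1 = P.2.1 := by
    rw [← minpoly_rt (Nat.succ_ne_zero _) P.2]
    exact minpoly.eq_of_irreducible_of_monic Q.2.2.2.1 h0 Q.2.2.1
  obtain ⟨e, P⟩ := P
  obtain ⟨e', Q⟩ := Q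
  dsimp only at h1
  have h2 : e = e' := by
    apply Fin.ext
    have h3 := P.2.2.2
    have h4 := Q.2.2.2
    rw [h1] at h4
    omega
  subst h2
  have h3 : P = Q := Subtype.ext h1.symm
  rw [h3]

lemma lin_surj (r D : ℕ) (S : Finset (Pt p r)) (hS : ∑ P ∈ S, ((P.1 : ℕ) + 1) ≤ D) : Function.Surjective (lin r D S) := by
  classical
  -- one value
  have key : ∀ (a : S) (b : BB a.1), ∃ c : Fin D → ZMod p, lin r D S c a = b ∧ ∀ t : S, t ≠ a → lin r D S c t = 0 := by
    intro a b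
    obtain ⟨q, hq⟩ : ∃ q : (ZMod p)[X], q = ∏ t ∈ S.erase a.1, t.2.1 := ⟨_, rfl⟩
    have hqm : q.Monic := by
      rw [hq]
      exact monic_prod_of_monic _ _ fun t _ => t.2.2.1
    have hqa : vl q a.1 ≠ 0 := by
      unfold vl
      rw [hq, map_prod]
      exact prod_ne_zero_iff.2 fun t ht => vl_ne (ne_of_mem_erase ht).symm
    obtain ⟨h, hh1, hh2⟩ := gen (Nat.succ_ne_zero _) a.1.2 (b / vl q a.1)
    have hdq : q.natDegree = ∑ t ∈ S.erase a.1, ((t.1 : ℕ) + 1) := by
      rw [hq, natDegree_prod_of_monic _ _ fun t _ => t.2.2.1]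
      exact sum_congr rfl fun t _ => t.2.2.2.2
    have hsum : ∑ t ∈ S.erase a.1, ((t.1 : ℕ) + 1) + ((a.1.1 : ℕ) + 1) = ∑ P ∈ S, ((P.1 : ℕ) + 1) :=
      sum_erase_add S (fun t => ((t.1 : ℕ) + 1)) a.2
    have hdh : h.natDegree < a.1.1 + 1 := by
      by_cases h0 : h = 0
      · rw [h0, natDegree_zero]
        omega
      · exact (natDegree_lt_iff_degree_lt h0).2 hh2
    obtain ⟨g, hg⟩ : ∃ g : (ZMod p)[X], g = q * h := ⟨_, rfl⟩
    have hdg : g.natDegree < D := by
      have h1 : g.natDegree ≤ q.natDegree + h.natDegree := by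
        rw [hg]
        exact natDegree_mul_le
      omega
    have hgs : ∑ i : Fin D, C (g.coeff i) * X ^ (i : ℕ) = g := by
      rw [Fin.sum_univ_eq_sum_range fun i => C (g.coeff i) * X ^ i]
      exact (as_sum_range_C_mul_X_pow' g hdg).symm
    refine ⟨fun i => g.coeff i, ?_, fun t ht => ?_⟩
    · show vl (∑ i : Fin D, C (g.coeff i) * X ^ (i : ℕ)) a.1 = b
      rw [hgs, hg]
      unfold vl at hqa hh1 ⊢
      rw [map_mul, hh1, mul_div_cancel₀ _ hqa]
    · show vl (∑ i : Fin D, C (g.coeff i) * X ^ (i : ℕ)) t.1 = 0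
      rw [hgs, hg]
      unfold vl
      rw [map_mul, hq, map_prod, prod_eq_zero (mem_erase.2 ⟨fun h => ht (Subtype.ext h), t.2⟩), zero_mul]
      exact aeval_rt (Nat.succ_ne_zero _) t.1.2
  intro z
  choose c hc1 hc2 using fun a : S => key a (z a)
  refine ⟨∑ a : S, c a, ?_⟩
  rw [map_sum]
  funext t
  rw [Finset.sum_apply, sum_eq_single t]
  · exact hc1 t
  · intro a _ ha
    exact hc2 a t ha.symm
  · intro h
    exact absurd (mem_univ _) h

/-- the values at closed points of total degree at most `D` are independent and uniformly distributed -/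
theorem av_points (r D : ℕ) (S : Finset (Pt p r)) (hS : ∑ P ∈ S, ((P.1 : ℕ) + 1) ≤ D) (f : ∀ P : Pt p r, BB P → ℝ) :
    av (fun c : Fin D → ZMod p => ∏ P ∈ S, f P (vl (fpol c) P)) = ∏ P ∈ S, av (f P) := by
  classical
  have h1 : (fun c : Fin D → ZMod p => ∏ P ∈ S, f P (vl (fpol c) P)) =
      fun c => (fun z : ∀ P : S, BB P.1 => ∏ P : S, f P.1 (z P + rt P.1.2 ^ D)) (lin r D S c) := by
    funext c
    rw [← Finset.prod_coe_sort S fun P => f P (vl (fpol c) P)]
    refine prod_congr rfl fun P _ => ?_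
    congr 1
    show vl (fpol c) P.1 = vl (∑ i : Fin D, C (c i) * X ^ (i : ℕ)) P.1 + rt P.1.2 ^ D
    unfold vl fpol
    rw [map_add, map_pow, aeval_X, add_comm]
  rw [h1, av_hom (lin r D S) (lin_surj r D S hS) (fun z : ∀ P : S, BB P.1 => ∏ P : S, f P.1 (z P + rt P.1.2 ^ D)),
    av_pi (fun (P : S) z => f P.1 (z + rt P.1.2 ^ D)), ← Finset.prod_coe_sort S fun P => av (f P)]
  exact prod_congr rfl fun P _ => av_translate _ (f P.1)

lemma av_omega {r : ℕ} (S : Finset (Pt p r)) (f : ∀ P : Pt p r, BB P → ℝ) :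
    av (fun ω : ∀ P : Pt p r, BB P => ∏ P ∈ S, f P (ω P)) = ∏ P ∈ S, av (f P) := by
  classical
  have h1 : (fun ω : ∀ P : Pt p r, BB P => ∏ P ∈ S, f P (ω P)) = fun ω => ∏ P, (fun (P : Pt p r) (z : BB P) => if P ∈ S then f P z else 1) P (ω P) := by
    funext ω
    show _ = ∏ P, if P ∈ S then f P (ω P) else 1
    rw [prod_ite_mem, univ_inter]
  rw [h1, av_pi (fun (P : Pt p r) (z : BB P) => if P ∈ S then f P z else (1 : ℝ)), ← prod_subset (subset_univ S)]
  · refine prod_congr rfl fun P hP => congrArg av ?_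
    funext z
    rw [if_pos hP]
  · intro P _ hP
    have : (fun z : BB P => if P ∈ S then f P z else (1 : ℝ)) = fun _ => 1 := by
      funext z
      rw [if_neg hP]
    rw [this, av_const]

/-- products of sums of functions of the values, total degree at most `D` -/
theorem transfer {ι : Type} [Fintype ι] [DecidableEq ι] (r D : ℕ) (Q : ι → Finset (Pt p r)) (d : ι → ℕ)
    (hd : ∀ i, ∀ P ∈ Q i, (P.1 : ℕ) + 1 ≤ d i) (hD : ∑ i, d i ≤ D) (g : ι → ∀ P : Pt p r, BB P → ℝ) :
    av (fun c : Fin D → ZMod p => ∏ i, ∑ P ∈ Q i, g i P (vl (fpol c) P)) = av (fun ω : ∀ P : Pt p r, BB P => ∏ i, ∑ P ∈ Q i, g i P (ω P)) := by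
  classical
  simp only [prod_univ_sum]
  rw [av_sum, av_sum]
  refine sum_congr rfl fun b hb => ?_
  rw [Fintype.mem_piFinset] at hb
  obtain ⟨S, hS⟩ : ∃ S : Finset (Pt p r), S = univ.image b := ⟨_, rfl⟩
  have hfib : ∀ v : ∀ P : Pt p r, BB P, ∏ i, g i (b i) (v (b i)) = ∏ P ∈ S, (fun (P : Pt p r) (z : BB P) => ∏ i ∈ univ.filter (fun i => b i = P), g i P z) P (v P) := by
    intro v
    have h1 : ∀ i ∈ (univ : Finset ι), b i ∈ S := fun i _ => by
      rw [hS]
      exact mem_image_of_mem b (mem_univ i)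
    rw [← prod_fiberwise_of_maps_to h1]
    refine prod_congr rfl fun P _ => prod_congr rfl fun i hi => ?_
    have h2 : b i = P := (mem_filter.1 hi).2
    subst h2
    rfl
  have hsum : ∑ P ∈ S, ((P.1 : ℕ) + 1) ≤ D := by
    refine le_trans ?_ hD
    have h1 : ∀ P ∈ S, ∃ i, b i = P := fun P hP => by
      rw [hS, mem_image] at hP
      obtain ⟨i, _, hi⟩ := hP
      exact ⟨i, hi⟩
    calc ∑ P ∈ S, ((P.1 : ℕ) + 1) ≤ ∑ P ∈ S, ∑ i ∈ univ.filter (fun i => b i = P), d i := by
          refine sum_le_sum fun P hP => ?_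
          obtain ⟨i, hi⟩ := h1 P hP
          refine le_trans ?_ (single_le_sum (f := d) (fun _ _ => Nat.zero_le _) (mem_filter.2 ⟨mem_univ i, hi⟩))
          rw [← hi]
          exact hd i (b i) (hb i)
      _ = ∑ i, d i := sum_fiberwise_of_maps_to (fun i _ => by rw [hS]; exact mem_image_of_mem b (mem_univ i)) d
  have e1 : (fun c : Fin D → ZMod p => ∏ i, g i (b i) (vl (fpol c) (b i))) =
      fun c => ∏ P ∈ S, (fun (P : Pt p r) (z : BB P) => ∏ i ∈ univ.filter (fun i => b i = P), g i P z) P (vl (fpol c) P) := by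
    funext c
    exact hfib fun P => vl (fpol c) P
  have e2 : (fun ω : ∀ P : Pt p r, BB P => ∏ i, g i (b i) (ω (b i))) =
      fun ω => ∏ P ∈ S, (fun (P : Pt p r) (z : BB P) => ∏ i ∈ univ.filter (fun i => b i = P), g i P z) P (ω P) := by
    funext ω
    exact hfib ω
  rw [e1, e2, av_points r D S hsum (fun (P : Pt p r) (z : BB P) => ∏ i ∈ univ.filter (fun i => b i = P), g i P z),
    av_omega S (fun (P : Pt p r) (z : BB P) => ∏ i ∈ univ.filter (fun i => b i = P), g i P z)]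

/-- the same with constants -/
theorem transfer_const {ι : Type} [Fintype ι] [DecidableEq ι] (r D : ℕ) (Q : ι → Finset (Pt p r)) (d : ι → ℕ)
    (hd : ∀ i, ∀ P ∈ Q i, (P.1 : ℕ) + 1 ≤ d i) (hD : ∑ i, d i ≤ D) (g : ι → ∀ P : Pt p r, BB P → ℝ) (κ : ι → ℝ) :
    av (fun c : Fin D → ZMod p => ∏ i, (∑ P ∈ Q i, g i P (vl (fpol c) P) + κ i)) =
      av (fun ω : ∀ P : Pt p r, BB P => ∏ i, (∑ P ∈ Q i, g i P (ω P) + κ i)) := by
  classical
  simp only [Finset.prod_add]
  rw [av_sum, av_sum]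
  refine sum_congr rfl fun A _ => ?_
  have e1 : (fun c : Fin D → ZMod p => (∏ i ∈ A, ∑ P ∈ Q i, g i P (vl (fpol c) P)) * ∏ i ∈ univ \ A, κ i) =
      fun c => (∏ i ∈ univ \ A, κ i) * ∏ i : A, ∑ P ∈ Q i, g i P (vl (fpol c) P) := by
    funext c
    rw [mul_comm, Finset.prod_coe_sort A fun i => ∑ P ∈ Q i, g i P (vl (fpol c) P)]
  have e2 : (fun ω : ∀ P : Pt p r, BB P => (∏ i ∈ A, ∑ P ∈ Q i, g i P (ω P)) * ∏ i ∈ univ \ A, κ i) =
      fun ω => (∏ i ∈ univ \ A, κ i) * ∏ i : A, ∑ P ∈ Q i, g i P (ω P) := by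
    funext ω
    rw [mul_comm, Finset.prod_coe_sort A fun i => ∑ P ∈ Q i, g i P (ω P)]
  rw [e1, e2, av_mul, av_mul]
  congr 1
  refine transfer r D (fun i : A => Q i) (fun i => d i) (fun i => hd i) ?_ fun i => g i
  refine le_trans ?_ hD
  rw [Finset.sum_coe_sort A d]
  exact sum_le_sum_of_subset (subset_univ A)

end

end H35GS
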