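import Pool.Agent.H35J.GS.Loop6

/-!
# The joint moments of the traces of weight at most `2 g + 1` are exactly those of independent normal variables
-/

set_option autoImplicit false
set_option linter.unusedSectionVars false

namespace H35GS

open Matrix MeasureTheory Topology Finset
open Q282MM (gm)

section

variable {g : ℕ} {ν : Measure (MM g)}

lemma diff_ED (hν : Haar ν) {r w : ℕ} {X : ℝ} (hlow : ∀ L : List ℕ, Pos L → L.sum < w → ee ν L = Ga r L)
    (hX : ∀ L : List ℕ, Pos L → L.sum = w → ‖ee ν L - Ga r L‖ ≤ X) (k : ℕ) (hk : 1 ≤ k) (L : List ℕ) :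
    ∀ M : List ℕ, Pos M → Pos L → M.sum + k + L.sum = w → ‖ED ν k M L - EG r (2 * (g : ℂ)) k M L‖ ≤ L.sum * X := by
  induction L with
  | nil =>
    intro M _ _ _
    rw [ED_nil]
    simp [EG]
  | cons m L ih =>
    intro M hM hL hw
    rw [Pos.cons] at hL
    rw [List.sum_cons] at hw
    rw [ED_cons hν, List.sum_cons]
    simp only [EG]
    have h1 := ih (M ++ [m]) (Pos.append.2 ⟨hM, by unfold Pos; simpa using hL.1⟩) hL.2 (by rw [List.sum_append, List.sum_singleton]; omega)
    have h2 := hX (M ++ (k + m) :: L) (Pos.append.2 ⟨hM, Pos.cons.2 ⟨by omega, hL.2⟩⟩) (by rw [List.sum_append, List.sum_cons]; omega)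
    have h3 : ee ν (M ++ ad m k :: L) = if m = k then 2 * (g : ℂ) * Ga r (M ++ L) else Ga r (M ++ ad m k :: L) := by
      split_ifs with h
      · rw [h, ad_self, ee_zero, hlow _ (Pos.append.2 ⟨hM, hL.2⟩) (by rw [List.sum_append]; omega)]
      · refine hlow _ (Pos.append.2 ⟨hM, Pos.cons.2 ⟨ad_pos h, hL.2⟩⟩) ?_
        rw [List.sum_append, List.sum_cons]
        have := ad_le hL.1 hk
        omega
    rw [h3]
    have e : (m : ℂ) * (ee ν (M ++ (k + m) :: L) - (if m = k then 2 * (g : ℂ) * Ga r (M ++ L) else Ga r (M ++ ad m k :: L))) + ED ν k (M ++ [m]) L -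
        ((m : ℂ) * (Ga r (M ++ (k + m) :: L) - (if m = k then 2 * (g : ℂ) * Ga r (M ++ L) else Ga r (M ++ ad m k :: L))) + EG r (2 * (g : ℂ)) k (M ++ [m]) L) =
        (m : ℂ) * (ee ν (M ++ (k + m) :: L) - Ga r (M ++ (k + m) :: L)) + (ED ν k (M ++ [m]) L - EG r (2 * (g : ℂ)) k (M ++ [m]) L) := by ring
    rw [e]
    refine (norm_add_le _ _).trans ?_
    rw [norm_mul, Complex.norm_natCast]
    refine (add_le_add (mul_le_mul_of_nonneg_left h2 (Nat.cast_nonneg _)) h1).trans (le_of_eq ?_)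
    push_cast
    ring

/-- **the moments of weight at most `2 g + 1`** -/
theorem ee_exact (hν : Haar ν) (r w : ℕ) (hw : w ≤ 2 * g + 1) (hwr : w ≤ r) : ∀ L : List ℕ, Pos L → L.sum = w → ee ν L = Ga r L := by
  induction w using Nat.strong_induction_on with
  | _ w ih =>
    have hlow : ∀ L : List ℕ, Pos L → L.sum < w → ee ν L = Ga r L := fun L hL h => ih L.sum h (by omega) (by omega) L hL rfl
    -- the extremal list
    obtain ⟨c₀, _, hc₀⟩ := exists_max_image (univ : Finset (Composition w)) (fun c => ‖ee ν c.blocks - Ga r c.blocks‖) univ_nonempty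
    obtain ⟨X, hXd⟩ : ∃ X : ℝ, X = ‖ee ν c₀.blocks - Ga r c₀.blocks‖ := ⟨_, rfl⟩
    have hX0 : 0 ≤ X := by
      rw [hXd]
      exact norm_nonneg _
    have hX : ∀ L : List ℕ, Pos L → L.sum = w → ‖ee ν L - Ga r L‖ ≤ X := by
      intro L hL hs
      rw [hXd]
      exact hc₀ ⟨L, fun {i} hi => hL i hi, hs⟩ (mem_univ _)
    suffices hz : X = 0 by
      intro L hL hs
      have h1 := hX L hL hs
      rw [hz] at h1
      exact sub_eq_zero.1 (norm_le_zero_iff.1 h1)
    have hpos : Pos c₀.blocks := fun m hm => c₀.blocks_pos hm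
    have hsum := c₀.blocks_sum
    rcases hc : c₀.blocks with _ | ⟨k, L⟩
    · have := hν.prob
      rw [hc] at hXd
      have h1 : ee ν [] = 1 := by
        unfold ee
        simp [TP_nil]
      have h2 : Ga r [] = 1 := by
        unfold Ga mmt
        simp [gm_zero]
      rw [hXd, h1, h2]
      simp
    rw [hc] at hpos hsum hXd
    rw [Pos.cons] at hpos
    rw [List.sum_cons] at hsum
    obtain ⟨hk, hL⟩ := hpos
    have h1 := loop_lead hν k hk L
    have h2 := loop_Ga (r := r) (L := L) hk (by omega) (2 * (g : ℂ))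
    have h3 : ∑ l ∈ Ico 1 k, ee ν (ad (k - l) l :: L) = ∑ l ∈ Ico 1 k, (if ad (k - l) l = 0 then 2 * (g : ℂ) * Ga r L else Ga r (ad (k - l) l :: L)) := by
      refine sum_congr rfl fun l hl => ?_
      rw [mem_Ico] at hl
      split_ifs with h
      · rw [h]
        have h4 : ee ν (0 :: L) = 2 * (g : ℂ) * ee ν L := ee_zero [] L
        rw [h4, hlow L hL (by omega)]
      · refine hlow _ (Pos.cons.2 ⟨Nat.pos_of_ne_zero h, hL⟩) ?_
        rw [List.sum_cons]
        have := ad_le (a := k - l) (b := l) (by omega) hl.1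
        omega
    have h4 := diff_ED hν hlow hX k hk L [] (by unfold Pos; simp) hL (by rw [List.sum_nil]; omega)
    have h5 : ‖∑ l ∈ Ico 1 k, (ee ν (l :: (k - l) :: L) - Ga r (l :: (k - l) :: L))‖ ≤ ((k - 1 : ℕ) : ℝ) * X := by
      refine (norm_sum_le _ _).trans ?_
      calc ∑ l ∈ Ico 1 k, ‖ee ν (l :: (k - l) :: L) - Ga r (l :: (k - l) :: L)‖ ≤ ∑ l ∈ Ico 1 k, X := by
            refine sum_le_sum fun l hl => ?_
            rw [mem_Ico] at hl
            refine hX _ (Pos.cons.2 ⟨hl.1, Pos.cons.2 ⟨by omega, hL⟩⟩) ?_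
            rw [List.sum_cons, List.sum_cons]
            omega
        _ = ((k - 1 : ℕ) : ℝ) * X := by rw [sum_const, Nat.card_Ico, nsmul_eq_mul]
    have e : (2 * (g : ℂ) + 1) * (ee ν (k :: L) - Ga r (k :: L)) =
        -∑ l ∈ Ico 1 k, (ee ν (l :: (k - l) :: L) - Ga r (l :: (k - l) :: L)) - (ED ν k [] L - EG r (2 * (g : ℂ)) k [] L) := by
      rw [sum_sub_distrib]
      rw [h3] at h1
      linear_combination h1 - h2
    have h6 : ‖(2 * (g : ℂ) + 1)‖ = 2 * (g : ℝ) + 1 := by
      have : (2 * (g : ℂ) + 1) = ((2 * g + 1 : ℕ) : ℂ) := by push_cast; ring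
      rw [this, Complex.norm_natCast]
      push_cast
      ring
    have h7 : (2 * (g : ℝ) + 1) * X ≤ ((k - 1 : ℕ) : ℝ) * X + L.sum * X := by
      rw [hXd, ← h6, ← norm_mul, e, ← hXd]
      refine (norm_sub_le _ _).trans (add_le_add ?_ h4)
      rw [norm_neg]
      exact h5
    have h8 : (((k - 1 : ℕ) : ℝ)) + L.sum = ((w - 1 : ℕ) : ℝ) := by
      rw [← Nat.cast_add]
      congr 1
      omega
    have h9 : ((w - 1 : ℕ) : ℝ) ≤ 2 * (g : ℝ) := by
      have : w - 1 ≤ 2 * g := by omega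
      exact_mod_cast this
    have h10 : ((k - 1 : ℕ) : ℝ) * X + L.sum * X ≤ 2 * (g : ℝ) * X := by
      rw [← add_mul, h8]
      exact mul_le_mul_of_nonneg_right h9 hX0
    linarith

lemma sum_Lst (k : ℕ → ℕ) (r : ℕ) : (Lst k r).sum = ∑ j ∈ range r, (j + 1) * k j := by
  induction r with
  | zero => simp [Lst]
  | succ r ih =>
    show (List.replicate (k r) (r + 1) ++ Lst k r).sum = _
    rw [List.sum_append, ih, List.sum_replicate, sum_range_succ, smul_eq_mul]
    ring

lemma mmt_zero (j : ℕ) : mmt j 0 = 1 := by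
  unfold mmt
  simp [gm_zero]

/-- **the joint moments of weight at most `2 g + 1` of the traces for the Haar measure** -/
theorem haar_exact (hν : Haar ν) (r : ℕ) (k : ℕ → ℕ) (hk : ∑ j ∈ range r, (j + 1) * k j ≤ 2 * g + 1) :
    ∫ U : MM g, ∏ j ∈ range r, (U ^ (j + 1)).trace.re ^ k j ∂ν = ∏ j ∈ range r, mmt j (k j) := by
  obtain ⟨w, hw⟩ : ∃ w, w = ∑ j ∈ range r, (j + 1) * k j := ⟨_, rfl⟩
  have h1 := ee_exact hν (r + w) w (by omega) (by omega) (Lst k r) (fun m hm => (mem_Lst k r m hm).1) (by rw [sum_Lst, hw])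
  have h2 : ee ν (Lst k r) = ((∫ U : MM g, ∏ j ∈ range r, (U ^ (j + 1)).trace.re ^ k j ∂ν : ℝ) : ℂ) := by
    unfold ee
    rw [← integral_complex_ofReal]
    refine integral_congr_ae ?_
    filter_upwards [hν.supp] with U hU
    rw [TP_Lst]
    push_cast
    exact prod_congr rfl fun j _ => by rw [hU.trace_re]
  have h3 : Ga (r + w) (Lst k r) = ((∏ j ∈ range r, mmt j (k j) : ℝ) : ℂ) := by
    unfold Ga
    congr 1
    rw [← prod_subset (s₁ := range r) (s₂ := range (r + w)) (fun j hj => mem_range.2 (by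
      have := mem_range.1 hj
      omega))]
    · exact prod_congr rfl fun j hj => by rw [count_Lst k r j (mem_range.1 hj)]
    · intro j _ hj
      rw [mem_range] at hj
      rw [List.count_eq_zero_of_not_mem, mmt_zero]
      intro h
      have := mem_Lst k r _ h
      omega
  rw [h2, h3] at h1
  exact_mod_cast h1

/-- the same, for finite families -/
theorem haar_exact' (hν : Haar ν) {r : ℕ} (k : Fin r → ℕ) (hk : ∑ j : Fin r, ((j : ℕ) + 1) * k j ≤ 2 * g + 1) :
    ∫ U : MM g, ∏ j : Fin r, (U ^ ((j : ℕ) + 1)).trace.re ^ k j ∂ν = ∏ j : Fin r, mmt j (k j) := by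
  obtain ⟨kx, hkx⟩ : ∃ kx : ℕ → ℕ, kx = fun j => if h : j < r then k ⟨j, h⟩ else 0 := ⟨_, rfl⟩
  have h0 : ∀ j : Fin r, kx j = k j := by
    intro j
    rw [hkx]
    simp
  have h2 : ∀ f : ℕ → ℕ → ℝ, ∏ j ∈ range r, f j (kx j) = ∏ j : Fin r, f j (k j) := by
    intro f
    rw [← Fin.prod_univ_eq_prod_range (fun j => f j (kx j))]
    exact prod_congr rfl fun j _ => by rw [h0]
  have h1 := haar_exact hν r kx (by
    rw [← Fin.sum_univ_eq_sum_range (fun j => (j + 1) * kx j)]
    refine le_trans (le_of_eq (sum_congr rfl fun j _ => ?_)) hk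
    rw [h0])
  rw [h2 fun j e => mmt j e] at h1
  have h3 : ∀ U : MM g, ∏ j ∈ range r, (U ^ (j + 1)).trace.re ^ kx j = ∏ j : Fin r, (U ^ ((j : ℕ) + 1)).trace.re ^ k j := by
    intro U
    exact h2 fun j e => (U ^ (j + 1)).trace.re ^ e
  simp only [h3] at h1
  exact h1

end

end H35GS
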