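import Pool.Agent.H35J.GS.New
import Pool.Agent.H35J.GS.Emp

/-!
# The law of the coefficients for almost all hyperelliptic curves of large genus
-/

set_option autoImplicit false
set_option linter.unusedSectionVars false

namespace H35GS

open MeasureTheory ProbabilityTheory Filter Topology Finset Polynomial
open scoped NNReal ENNReal

section

variable {r : ℕ}

lemma ort_pre (x : Fin r → ℝ) : MeasurableSet {y : Fin r → ℝ | AA y ∈ Ort x} := (ort_meas x).preimage AA_cont.measurable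

/-- the empirical law -/
lemma emp_meas (G : Finset ℕ) (hG : G.Nonempty) (v : ℕ → (Fin r → ℝ)) : ∃ μ : Measure (Fin r → ℝ), IsProbabilityMeasure μ ∧
    (∀ f : (Fin r → ℝ) → ℝ, Integrable f μ ∧ ∫ x, f x ∂μ = (∑ p ∈ G, f (v p)) / G.card) ∧
    ∀ s : Set (Fin r → ℝ), MeasurableSet s → open Classical in μ.real s = ((G.filter fun p => v p ∈ s).card : ℝ) / G.card := by
  classical
  have hn : (G.card : ℝ≥0∞) ≠ 0 := by
    simpa using hG.ne_empty
  have hn' : (G.card : ℝ≥0∞) ≠ ∞ := ENNReal.natCast_ne_top _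
  obtain ⟨m, hm⟩ : ∃ m : Measure (Fin r → ℝ), m = ∑ p ∈ G, Measure.dirac (v p) := ⟨_, rfl⟩
  have h1 : ∀ f : (Fin r → ℝ) → ℝ, Integrable f m := by
    intro f
    rw [hm]
    exact integrable_finsetSum_measure.2 fun p _ => integrable_dirac (by simp)
  refine ⟨(G.card : ℝ≥0∞)⁻¹ • m, ⟨?_⟩, fun f => ⟨(h1 f).smul_measure (ENNReal.inv_ne_top.2 hn), ?_⟩, fun s hs => ?_⟩
  · rw [Measure.smul_apply, hm, Measure.finsetSum_apply]
    simp only [measure_univ, sum_const, nsmul_eq_mul, mul_one, smul_eq_mul]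
    exact ENNReal.inv_mul_cancel hn hn'
  · rw [integral_smul_measure, hm, integral_finsetSum_measure fun p _ => integrable_dirac (by simp)]
    simp only [integral_dirac]
    rw [ENNReal.toReal_inv, ENNReal.toReal_natCast, smul_eq_mul, div_eq_inv_mul]
  · rw [measureReal_def, Measure.smul_apply, hm, Measure.finsetSum_apply]
    simp only [Measure.dirac_apply' _ hs, Set.indicator_apply, Pi.one_apply]
    rw [smul_eq_mul, ENNReal.toReal_mul, ENNReal.toReal_inv, ENNReal.toReal_natCast, sum_boole, ENNReal.toReal_natCast, div_eq_inv_mul]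

/-- the law of the traces -/
lemma haar_law {g : ℕ} {ν : Measure (MM g)} (hν : Haar ν) (r : ℕ) : ∃ μ : Measure (Fin r → ℝ), IsProbabilityMeasure μ ∧ AllInt μ ∧
    (∀ k : Fin r → ℕ, ∫ x, ∏ j, x j ^ k j ∂μ = ∫ U : MM g, ∏ j : Fin r, (U ^ ((j : ℕ) + 1)).trace.re ^ k j ∂ν) ∧
    ∀ x : Fin r → ℝ, μ.real {y | AA y ∈ Ort x} = ν.real {U : MM g | ∀ i : Fin r, (U.charpolyRev.coeff ((i : ℕ) + 1)).re ≤ x i} := by
  have hp := hν.prob
  obtain ⟨V, hV⟩ : ∃ V : MM g → (Fin r → ℝ), V = fun U j => (U ^ ((j : ℕ) + 1)).trace.re := ⟨_, rfl⟩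
  have hVc : Continuous V := by
    rw [hV]
    exact continuous_pi fun j => Complex.continuous_re.comp (cont_trace _)
  have hmono : ∀ k : Fin r → ℕ, Continuous fun x : Fin r → ℝ => ∏ j, x j ^ k j := fun k => by fun_prop
  refine ⟨ν.map V, Measure.isProbabilityMeasure_map hVc.aemeasurable, fun k => ?_, fun k => ?_, fun x => ?_⟩
  · rw [integrable_map_measure (hmono k).aestronglyMeasurable hVc.aemeasurable]
    have h1 : Continuous fun U : MM g => ((∏ j : Fin r, V U j ^ k j : ℝ) : ℂ) := Complex.continuous_ofReal.comp ((hmono k).comp hVc)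
    have h2 := (hν.integrable _ h1).re
    exact h2
  · rw [integral_map hVc.aemeasurable (hmono k).aestronglyMeasurable, hV]
  · rw [measureReal_def, Measure.map_apply hVc.measurable (ort_pre x), measureReal_def]
    congr 1
    refine measure_congr ?_
    filter_upwards [hν.supp] with U hU
    refine propext ?_
    show (∀ i, AA (V U) i ≤ x i) ↔ ∀ i : Fin r, (U.charpolyRev.coeff ((i : ℕ) + 1)).re ≤ x i
    have h1 : ∀ i : Fin r, AA (V U) i = (U.charpolyRev.coeff ((i : ℕ) + 1)).re := by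
      intro i
      rw [coeff_rev hU]
      unfold AA
      refine coef_congr r (fun m hm => ?_) _ (by omega)
      have h2 := exs_succ (V U) ⟨m, hm⟩
      rw [show (m : ℕ) = ((⟨m, hm⟩ : Fin r) : ℕ) from rfl, h2, hV]
    simp only [h1]

end

/-- the joint moments of the traces for the Haar measure -/
lemma haar_mom' {r : ℕ} (k : Fin r → ℕ) : ∃ K : ℝ, 0 ≤ K ∧ ∀ (g : ℕ) (ν : Measure (MM g)), 1 ≤ g → Haar ν →
    |∫ U : MM g, ∏ j : Fin r, (U ^ ((j : ℕ) + 1)).trace.re ^ k j ∂ν - ∏ j : Fin r, mmt j (k j)| ≤ K / g := by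
  obtain ⟨kx, hkx⟩ : ∃ kx : ℕ → ℕ, kx = fun j => if h : j < r then k ⟨j, h⟩ else 0 := ⟨_, rfl⟩
  obtain ⟨K, hK, h⟩ := haar_mom r kx
  refine ⟨K, hK, fun g ν hg hν => ?_⟩
  have h1 := h g ν hg hν
  have h2 : ∀ f : ℕ → ℕ → ℝ, ∏ j ∈ range r, f j (kx j) = ∏ j : Fin r, f j (k j) := by
    intro f
    rw [← Fin.prod_univ_eq_prod_range (fun j => f j (kx j))]
    refine prod_congr rfl fun j _ => ?_
    rw [hkx]
    simp
  rw [h2 fun j e => mmt j e] at h1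
  have h3 : ∀ U : MM g, ∏ j ∈ range r, (U ^ (j + 1)).trace.re ^ kx j = ∏ j : Fin r, (U ^ ((j : ℕ) + 1)).trace.re ^ k j := by
    intro U
    exact h2 fun j e => (U ^ (j + 1)).trace.re ^ e
  simp only [h3] at h1
  exact h1

/-- **the law of the coefficients** -/
theorem main (r : ℕ) (ε : ℝ) (hε : 0 < ε) (hε1 : ε ≤ 1) : open Classical in ∃ (g₀ : ℕ) (κ C : ℝ), 0 < κ ∧ ∀ g D : ℕ, g₀ ≤ g → 2 * g + 1 ≤ D →
    ∀ (S : Set ℕ) (N : Fin D → ℤ) (L : Fin D → ℕ) (T : ℝ), 0 < T → (∀ i, T * (D + 1) ≤ L i) →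
      ∀ X₀ : ℕ, 1 ≤ X₀ → ∃ E : Finset (Fin D → ℤ), E ⊆ kbox N L ∧ (E.card : ℝ) ≤ C * (X₀ : ℝ) ^ (-(ε / 2)) * ∏ i, (L i : ℝ) ∧
      ∀ t ∈ kbox N L, t ∉ E → ∀ Y Y' : ℕ, Y ≤ Y' → X₀ ≤ Y' → (Y' : ℝ) ≤ T ^ κ →
        (Y' : ℝ) ^ (1 / 2 + ε) ≤ (GP D S Y Y' t).card → ∀ ν : Measure (MM g), Haar ν → ∀ x : Fin r → ℝ,
        |(((GP D S Y Y' t).filter fun p => ∀ i : Fin r, coef (fun m => sv D (m - 1) p fun i => (t i : ZMod p)) ((i : ℕ) + 1) ≤ x i).card : ℝ) / (GP D S Y Y' t).card -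
          ν.real {U : MM g | ∀ i : Fin r, (U.charpolyRev.coeff ((i : ℕ) + 1)).re ≤ x i}| ≤ ε := by
  classical
  obtain ⟨n, hn⟩ := lemC r (ε / 2) (by positivity)
  obtain ⟨Ks, hKs⟩ : ∃ Ks : Finset (Fin r → ℕ), Ks = Fintype.piFinset fun _ : Fin r => range (n + 1) := ⟨_, rfl⟩
  have hKsm : ∀ k : Fin r → ℕ, k ∈ Ks ↔ ∀ j, k j ≤ n := by
    intro k
    rw [hKs, Fintype.mem_piFinset]
    simp only [mem_range, Nat.lt_succ_iff]
  have hKne : Ks.Nonempty := ⟨fun _ => 0, (hKsm _).2 fun _ => Nat.zero_le _⟩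
  -- the empirical moments
  choose κf hκf Cf hCf hemp using fun k : Fin r → ℕ => emp_mom k ε hε hε1
  obtain ⟨k₀, hk₀, hk₀min⟩ := exists_min_image Ks κf hKne
  obtain ⟨κ, hκ⟩ : ∃ κ : ℝ, κ = κf k₀ := ⟨_, rfl⟩
  have hκ0 : 0 < κ := by
    rw [hκ]
    exact hκf k₀
  obtain ⟨M, hM⟩ : ∃ M : ℝ, M = ∑ k ∈ Ks, Cf k := ⟨_, rfl⟩
  have hMle : ∀ k ∈ Ks, Cf k ≤ M := by
    intro k hk
    rw [hM]
    exact single_le_sum (f := Cf) (fun k _ => by linarith [hCf k]) hk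
  have hM1 : 1 ≤ M := (hCf k₀).trans (hMle k₀ hk₀)
  obtain ⟨C, hC⟩ : ∃ C : ℝ, C = (n + 1) * M := ⟨_, rfl⟩
  -- the moments of the Haar measure
  choose Hf hHf hhaar using fun k : Fin r → ℕ => haar_mom' k
  obtain ⟨H, hH⟩ : ∃ H : ℝ, H = ∑ k ∈ Ks, Hf k := ⟨_, rfl⟩
  have hHle : ∀ k ∈ Ks, Hf k ≤ H := by
    intro k hk
    rw [hH]
    exact single_le_sum (f := Hf) (fun k _ => hHf k) hk
  obtain ⟨g₁, hg₁⟩ := exists_nat_ge (H * (n + 1))
  refine ⟨max (g₁ + 1) (r * r * n), κ, C, hκ0, fun g D hg hgD S N L T hT hL X₀ hX₀ => ?_⟩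
  have hgg₁ : g₁ + 1 ≤ g := (le_max_left _ _).trans hg
  have hgr : r * r * n ≤ g := (le_max_right _ _).trans hg
  have hX₀R : (1 : ℝ) ≤ X₀ := by exact_mod_cast hX₀
  have hLpos : (0 : ℝ) ≤ ∏ i, (L i : ℝ) := prod_nonneg fun i _ => Nat.cast_nonneg _
  have hXp : (0 : ℝ) < (X₀ : ℝ) ^ (-(ε / 2)) := Real.rpow_pos_of_pos (by linarith) _
  by_cases hsmall : M * (X₀ : ℝ) ^ (-(ε / 2)) ≤ 1 / (n + 1)
  swap
  · -- the trivial case
    refine ⟨kbox N L, subset_rfl, ?_, fun t ht htE => absurd ht htE⟩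
    rw [not_le, div_lt_iff₀ (by positivity)] at hsmall
    have h1 : ((kbox N L).card : ℝ) = ∏ i, (L i : ℝ) := kbox_card N L
    rw [h1, hC]
    have h2 : 1 ≤ (n + 1) * M * (X₀ : ℝ) ^ (-(ε / 2)) := by linarith
    exact le_mul_of_one_le_left hLpos h2
  have hw : ∀ k ∈ Ks, 2 * ∑ j : Fin r, ((j : ℕ) + 1) * k j ≤ D := by
    intro k hk
    rw [hKsm] at hk
    have h1 : ∑ j : Fin r, ((j : ℕ) + 1) * k j ≤ ∑ j : Fin r, r * n := sum_le_sum fun j _ => Nat.mul_le_mul j.2 (hk j)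
    rw [sum_const, card_univ, Fintype.card_fin, smul_eq_mul, ← mul_assoc] at h1
    omega
  choose E hE1 hE2 hE3 using fun (k : Fin r → ℕ) (hk : 2 * ∑ j : Fin r, ((j : ℕ) + 1) * k j ≤ D) => hemp k D hk S N L T hT hL X₀ hX₀
  refine ⟨Ks.attach.biUnion fun k => E k.1 (hw k.1 k.2), ?_, ?_, ?_⟩
  · intro t ht
    rw [mem_biUnion] at ht
    obtain ⟨k, _, hk⟩ := ht
    exact hE1 _ _ hk
  · refine (Nat.cast_le.2 card_biUnion_le).trans ?_
    push_cast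
    refine (sum_le_sum fun k _ => hE2 k.1 (hw k.1 k.2)).trans ?_
    rw [← sum_mul, ← sum_mul, sum_attach Ks (fun k => Cf k), ← hM]
    refine mul_le_mul_of_nonneg_right (mul_le_mul_of_nonneg_right ?_ hXp.le) hLpos
    rw [hC]
    have : (0 : ℝ) ≤ n := Nat.cast_nonneg _
    nlinarith
  intro t ht htE Y Y' hYY hY hYT hcard ν hν x
  have hY1 : (1 : ℝ) ≤ Y' := by
    have : 1 ≤ Y' := hX₀.trans hY
    exact_mod_cast this
  have hT1 : 1 ≤ T := by
    by_contra hlt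
    push Not at hlt
    have := Real.rpow_lt_one hT.le hlt hκ0
    linarith
  obtain ⟨G, hG⟩ : ∃ G : Finset ℕ, G = GP D S Y Y' t := ⟨_, rfl⟩
  rw [← hG] at hcard ⊢
  have hYp : (1 : ℝ) ≤ (Y' : ℝ) ^ (1 / 2 + ε) := Real.one_le_rpow hY1 (by positivity)
  have hG1 : (1 : ℝ) ≤ G.card := hYp.trans hcard
  have hG0 : (0 : ℝ) < G.card := by linarith
  have hGne : G.Nonempty := by
    rw [← card_pos]
    exact_mod_cast hG0
  -- the empirical law
  obtain ⟨v, hv⟩ : ∃ v : ℕ → (Fin r → ℝ), v = fun p (j : Fin r) => sv D j p fun i => (t i : ZMod p) := ⟨_, rfl⟩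
  obtain ⟨μ, hμp, hμi, hμs⟩ := emp_meas G hGne v
  have hemp' := hn μ hμp (fun k => (hμi _).1) (fun k hk => by
    rw [(hμi _).2]
    have hkK : k ∈ Ks := (hKsm k).2 hk
    have h1 := hE3 k (hw k hkK) t ht (fun h => htE (mem_biUnion.2 ⟨⟨k, hkK⟩, mem_attach _ _, h⟩)) Y Y' hYY hY (by
      refine hYT.trans (Real.rpow_le_rpow_of_exponent_le hT1 ?_)
      rw [hκ]
      exact hk₀min k hkK)
    rw [← hG, sum_sub_distrib, sum_const, nsmul_eq_mul] at h1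
    have h2 : (∑ p ∈ G, ∏ j : Fin r, v p j ^ k j) / G.card - ∏ j : Fin r, mmt j (k j) =
        (∑ p ∈ G, ∏ j : Fin r, sv D j p (fun i => (t i : ZMod p)) ^ k j - G.card * ∏ j : Fin r, mmt j (k j)) / G.card := by
      rw [hv]
      field_simp
    rw [h2, abs_div, abs_of_pos hG0, div_le_iff₀ hG0]
    refine h1.trans ?_
    have h3 : (Y' : ℝ) ^ (1 / 2 + ε / 2) = (Y' : ℝ) ^ (-(ε / 2)) * (Y' : ℝ) ^ (1 / 2 + ε) := by
      rw [← Real.rpow_add (by linarith)]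
      congr 1
      ring
    have h4 : (Y' : ℝ) ^ (-(ε / 2)) ≤ (X₀ : ℝ) ^ (-(ε / 2)) :=
      Real.rpow_le_rpow_of_nonpos (by linarith) (by exact_mod_cast hY) (by linarith)
    rw [h3]
    calc Cf k * ((Y' : ℝ) ^ (-(ε / 2)) * (Y' : ℝ) ^ (1 / 2 + ε)) = (Cf k * (Y' : ℝ) ^ (-(ε / 2))) * (Y' : ℝ) ^ (1 / 2 + ε) := by ring
      _ ≤ (M * (X₀ : ℝ) ^ (-(ε / 2))) * (G.card : ℝ) := by
        refine mul_le_mul (mul_le_mul (hMle k hkK) h4 (Real.rpow_nonneg (by linarith) _) (by linarith)) hcard (by linarith) (by positivity)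
      _ ≤ 1 / (n + 1) * (G.card : ℝ) := mul_le_mul_of_nonneg_right hsmall hG0.le) x
  -- the Haar measure
  obtain ⟨μ', hμ'p, hμ'i, hμ'm, hμ's⟩ := haar_law hν r
  have hg1 : 1 ≤ g := by omega
  have hgR : (0 : ℝ) < g := by exact_mod_cast hg1
  have hhaar' := hn μ' hμ'p hμ'i (fun k hk => by
    have hkK : k ∈ Ks := (hKsm k).2 hk
    have h1 := hhaar k g ν hg1 hν
    rw [hμ'm]
    refine h1.trans ?_
    rw [div_le_div_iff₀ hgR (by positivity), one_mul]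
    have h4 : Hf k * ((n : ℝ) + 1) ≤ H * (n + 1) := mul_le_mul_of_nonneg_right (hHle k hkK) (by positivity)
    have h5 : ((g₁ + 1 : ℕ) : ℝ) ≤ g := Nat.cast_le.2 hgg₁
    push_cast at h5
    linarith) x
  rw [hμ's] at hhaar'
  rw [hμs _ (ort_pre x)] at hemp'
  have hset : (G.filter fun p => v p ∈ {y | AA y ∈ Ort x}) = G.filter fun p => ∀ i : Fin r, coef (fun m => sv D (m - 1) p fun i => (t i : ZMod p)) ((i : ℕ) + 1) ≤ x i := by
    refine filter_congr fun p _ => ?_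
    have h1 : ∀ i : Fin r, AA (v p) i = coef (fun m => sv D (m - 1) p fun i => (t i : ZMod p)) ((i : ℕ) + 1) := by
      intro i
      unfold AA
      refine coef_congr r (fun m hm => ?_) _ (by omega)
      have h2 := exs_succ (v p) ⟨m, hm⟩
      rw [show (m : ℕ) = ((⟨m, hm⟩ : Fin r) : ℕ) from rfl, h2, hv]
      simp
    show (∀ i, AA (v p) i ≤ x i) ↔ _
    simp only [h1]
  rw [hset] at hemp'
  have h1 := abs_sub_le (((G.filter fun p => ∀ i : Fin r, coef (fun m => sv D (m - 1) p fun i => (t i : ZMod p)) ((i : ℕ) + 1) ≤ x i).card : ℝ) / G.card)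
    ((gam r).real {y | AA y ∈ Ort x}) (ν.real {U : MM g | ∀ i : Fin r, (U.charpolyRev.coeff ((i : ℕ) + 1)).re ≤ x i})
  rw [abs_sub_comm ((gam r).real {y | AA y ∈ Ort x})] at h1
  linarith

end H35GS
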