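import Pool.Agent.H35J.GS.Wt
import Pool.Agent.H35J.GS.Loop7
import Pool.Agent.H35J.GS.Main

/-!
# The moments of the coefficients
-/

set_option autoImplicit false
set_option linter.unusedSectionVars false

namespace H35GS

open MvPolynomial Finset MeasureTheory

/-- the coefficients as polynomials in the power sums `X j = σ_(j+1)` -/
noncomputable def cP : ℕ → MvPolynomial ℕ ℝ
  | 0 => 1
  | i + 1 => C (-(1 / ((i : ℝ) + 1))) * ∑ j : Fin (i + 1), X (j : ℕ) * cP (i - j)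

lemma cP_zero : cP 0 = 1 := by rw [cP]

lemma cP_succ (i : ℕ) : cP (i + 1) = C (-(1 / ((i : ℝ) + 1))) * ∑ j : Fin (i + 1), X (j : ℕ) * cP (i - j) := by rw [cP]

lemma cP_eval (v : ℕ → ℝ) (i : ℕ) : eval v (cP i) = coef (fun m => v (m - 1)) i := by
  induction i using Nat.strong_induction_on with
  | _ i ih =>
    rcases i with _ | i
    · rw [cP_zero, coef_zero, map_one]
    · rw [cP_succ, coef_succ, map_mul, eval_C, map_sum]
      have h1 : ∑ j : Fin (i + 1), eval v (X (j : ℕ) * cP (i - j)) = ∑ j : Fin (i + 1), v (j + 1 - 1) * coef (fun m => v (m - 1)) (i - j) := by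
        refine sum_congr rfl fun j _ => ?_
        rw [map_mul, eval_X, ih (i - j) (by omega), Nat.add_sub_cancel]
      rw [h1]
      ring

lemma cP_wt (i : ℕ) : Wt (fun j => j + 1) i (cP i) := by
  induction i using Nat.strong_induction_on with
  | _ i ih =>
    rcases i with _ | i
    · rw [cP_zero]
      exact Wt.one
    · rw [cP_succ]
      have h1 : Wt (fun j => j + 1) (i + 1) (∑ j : Fin (i + 1), X (j : ℕ) * cP (i - j)) := by
        refine Wt.sum _ _ _ fun j _ => ?_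
        have h2 := (Wt.X (ω := fun j => j + 1) (j : ℕ)).mul (ih (i - j) (by omega))
        exact h2.mono (by have := j.2; omega)
      have h3 := (Wt.C (ω := fun j => j + 1) (-(1 / ((i : ℝ) + 1)))).mul h1
      exact h3.mono (by omega)

/-- the polynomial of a monomial in the coefficients -/
noncomputable def mon {r : ℕ} (k : Fin r → ℕ) : MvPolynomial ℕ ℝ := ∏ i : Fin r, cP (i + 1) ^ k i

lemma mon_eval {r : ℕ} (k : Fin r → ℕ) (v : ℕ → ℝ) : eval v (mon k) = ∏ i : Fin r, coef (fun m => v (m - 1)) (i + 1) ^ k i := by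
  unfold mon
  rw [map_prod]
  exact prod_congr rfl fun i _ => by rw [map_pow, cP_eval]

lemma mon_wt {r : ℕ} (k : Fin r → ℕ) : Wt (fun j => j + 1) (∑ i : Fin r, ((i : ℕ) + 1) * k i) (mon k) :=
  Wt.prod _ _ _ fun i _ => (cP_wt _).pow _

lemma wt_sum (d : ℕ →₀ ℕ) : Finsupp.weight (fun j => j + 1) d = ∑ j ∈ d.support, d j * (j + 1) := by
  rw [Finsupp.weight_apply]
  rfl

lemma supp_of {w : ℕ} {d : ℕ →₀ ℕ} (h : Finsupp.weight (fun j => j + 1) d ≤ w) : d.support ⊆ range w := by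
  intro j hj
  rw [wt_sum] at h
  have h1 := single_le_sum (f := fun j => d j * (j + 1)) (fun _ _ => Nat.zero_le _) hj
  rw [Finsupp.mem_support_iff] at hj
  rw [mem_range]
  have h2 : 1 * (j + 1) ≤ d j * (j + 1) := Nat.mul_le_mul_right _ (Nat.pos_of_ne_zero hj)
  have h3 : d j * (j + 1) ≤ ∑ j ∈ d.support, d j * (j + 1) := h1
  omega

lemma prod_of {w : ℕ} {d : ℕ →₀ ℕ} (h : Finsupp.weight (fun j => j + 1) d ≤ w) (f : ℕ → ℕ → ℝ) (hf : ∀ j, f j 0 = 1) :
    ∏ j ∈ d.support, f j (d j) = ∏ j : Fin w, f j (d j) := by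
  rw [Fin.prod_univ_eq_prod_range (fun j => f j (d j))]
  refine prod_subset (supp_of h) fun j _ hj => ?_
  rw [Finsupp.notMem_support_iff] at hj
  rw [hj, hf]

lemma sum_of {w : ℕ} {d : ℕ →₀ ℕ} (h : Finsupp.weight (fun j => j + 1) d ≤ w) : ∑ j : Fin w, ((j : ℕ) + 1) * d j ≤ w := by
  rw [Fin.sum_univ_eq_sum_range (fun j => (j + 1) * d j)]
  refine le_trans (le_of_eq ?_) h
  rw [wt_sum]
  symm
  refine (sum_subset (supp_of h) fun j _ hj => ?_).trans (sum_congr rfl fun j _ => mul_comm _ _)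
  rw [Finsupp.notMem_support_iff] at hj
  rw [hj, zero_mul]

/-- the value of the functional of the normal variables -/
noncomputable def mG (P : MvPolynomial ℕ ℝ) : ℝ := ∑ d ∈ P.support, P.coeff d * ∏ j ∈ d.support, mmt j (d j)

/-- the Haar measure -/
theorem haar_poly {g : ℕ} {ν : Measure (MM g)} (hν : Haar ν) {w : ℕ} {P : MvPolynomial ℕ ℝ} (hP : Wt (fun j => j + 1) w P) (hw : w ≤ 2 * g + 1) :
    ∫ U : MM g, eval (fun j => (U ^ (j + 1)).trace.re) P ∂ν = mG P := by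
  have h1 : ∀ d ∈ P.support, Integrable (fun U : MM g => P.coeff d * ∏ j ∈ d.support, (U ^ (j + 1)).trace.re ^ d j) ν := by
    intro d _
    have h2 : Continuous fun U : MM g => ((P.coeff d * ∏ j ∈ d.support, (U ^ (j + 1)).trace.re ^ d j : ℝ) : ℂ) :=
      Complex.continuous_ofReal.comp (continuous_const.mul (continuous_finsetProd _ fun j _ => (Complex.continuous_re.comp (cont_trace _)).pow _))
    exact (hν.integrable _ h2).re
  simp only [eval_eq]
  rw [integral_finsetSum _ h1]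
  unfold mG
  refine sum_congr rfl fun d hd => ?_
  have hdw := hP d (mem_support_iff.1 hd)
  rw [integral_const_mul, prod_of hdw (fun j e => mmt j e) mmt_zero]
  simp only [fun U : MM g => prod_of hdw (fun j e => (U ^ (j + 1)).trace.re ^ e) (fun j => pow_zero _)]
  rw [haar_exact' hν _ ((sum_of hdw).trans hw)]

/-- **the empirical moments** -/
theorem emp_poly {w : ℕ} {P : MvPolynomial ℕ ℝ} (hP : Wt (fun j => j + 1) w P) (ε : ℝ) (hε : 0 < ε) (hε1 : ε ≤ 1) :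
    ∃ κ₀ : ℝ, 0 < κ₀ ∧ ∃ C : ℝ, 1 ≤ C ∧ ∀ D : ℕ, 2 * w ≤ D →
      ∀ (S : Set ℕ) (N : Fin D → ℤ) (L : Fin D → ℕ) (T : ℝ), 0 < T → (∀ i, T * (D + 1) ≤ L i) →
      ∀ X₀ : ℕ, 1 ≤ X₀ → ∃ E : Finset (Fin D → ℤ), E ⊆ kbox N L ∧ (E.card : ℝ) ≤ C * (X₀ : ℝ) ^ (-(ε / 2)) * ∏ i, (L i : ℝ) ∧
      ∀ t ∈ kbox N L, t ∉ E → ∀ Y Y' : ℕ, Y ≤ Y' → X₀ ≤ Y' → (Y' : ℝ) ≤ T ^ κ₀ →
        |∑ p ∈ GP D S Y Y' t, (eval (fun j => sv D j p fun i => (t i : ZMod p)) P - mG P)| ≤ C * (Y' : ℝ) ^ (1 / 2 + ε / 2) := by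
  classical
  choose κf hκf Cf hCf hemp using fun k : Fin w → ℕ => emp_mom k ε hε hε1
  obtain ⟨κd, hκd⟩ : ∃ κd : (ℕ →₀ ℕ) → ℝ, κd = fun d => κf fun j => d j := ⟨_, rfl⟩
  obtain ⟨κ, hκ0, hκle⟩ : ∃ κ : ℝ, 0 < κ ∧ ∀ d ∈ P.support, κ ≤ κd d := by
    rcases P.support.eq_empty_or_nonempty with h | h
    · exact ⟨1, one_pos, fun d hd => by rw [h] at hd; exact absurd hd (notMem_empty _)⟩
    · obtain ⟨d₀, hd₀, hmin⟩ := exists_min_image P.support κd h
      refine ⟨κd d₀, ?_, hmin⟩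
      rw [hκd]
      exact hκf _
  obtain ⟨C, hC⟩ : ∃ C : ℝ, C = 1 + ∑ d ∈ P.support, (1 + |P.coeff d|) * Cf fun j => d j := ⟨_, rfl⟩
  have hC0 : ∀ d : ℕ →₀ ℕ, 0 ≤ Cf fun j => d j := fun d => by linarith [hCf fun j => d j]
  have hCsum : 0 ≤ ∑ d ∈ P.support, (1 + |P.coeff d|) * Cf fun j => d j := sum_nonneg fun d _ => mul_nonneg (by positivity) (hC0 d)
  refine ⟨κ, hκ0, C, by rw [hC]; linarith, fun D hD S N L T hT hL X₀ hX₀ => ?_⟩
  have hX₀R : (1 : ℝ) ≤ X₀ := by exact_mod_cast hX₀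
  have hLpos : (0 : ℝ) ≤ ∏ i, (L i : ℝ) := prod_nonneg fun i _ => Nat.cast_nonneg _
  have hXp : (0 : ℝ) < (X₀ : ℝ) ^ (-(ε / 2)) := Real.rpow_pos_of_pos (by linarith) _
  have hw : ∀ d ∈ P.support, 2 * ∑ j : Fin w, ((j : ℕ) + 1) * d j ≤ D := by
    intro d hd
    have := sum_of (hP d (mem_support_iff.1 hd))
    omega
  choose E hE1 hE2 hE3 using fun (k : Fin w → ℕ) (hk : 2 * ∑ j : Fin w, ((j : ℕ) + 1) * k j ≤ D) => hemp k D hk S N L T hT hL X₀ hX₀
  refine ⟨P.support.attach.biUnion fun d => E _ (hw d.1 d.2), ?_, ?_, ?_⟩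
  · intro t ht
    rw [mem_biUnion] at ht
    obtain ⟨d, _, hd⟩ := ht
    exact hE1 _ _ hd
  · refine (Nat.cast_le.2 card_biUnion_le).trans ?_
    push_cast
    refine (sum_le_sum fun d _ => hE2 _ (hw d.1 d.2)).trans ?_
    rw [← sum_mul, ← sum_mul, sum_attach P.support (fun d => Cf fun j => d j)]
    refine mul_le_mul_of_nonneg_right (mul_le_mul_of_nonneg_right ?_ hXp.le) hLpos
    rw [hC]
    have h1 : ∑ d ∈ P.support, Cf (fun j => d j) ≤ ∑ d ∈ P.support, (1 + |P.coeff d|) * Cf fun j => d j :=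
      sum_le_sum fun d _ => le_mul_of_one_le_left (hC0 d) (by have := abs_nonneg (P.coeff d); linarith)
    linarith
  intro t ht htE Y Y' hYY hY hYT
  have hY1 : (1 : ℝ) ≤ Y' := by
    have : 1 ≤ Y' := hX₀.trans hY
    exact_mod_cast this
  have hYp : (0 : ℝ) ≤ (Y' : ℝ) ^ (1 / 2 + ε / 2) := Real.rpow_nonneg (by linarith) _
  have hT1 : 1 ≤ T := by
    by_contra hlt
    push Not at hlt
    have := Real.rpow_lt_one hT.le hlt hκ0
    linarith
  have h1 : ∀ p, eval (fun j => sv D j p fun i => (t i : ZMod p)) P - mG P =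
      ∑ d ∈ P.support, P.coeff d * (∏ j ∈ d.support, (sv D j p fun i => (t i : ZMod p)) ^ d j - ∏ j ∈ d.support, mmt j (d j)) := by
    intro p
    rw [eval_eq]
    unfold mG
    rw [← sum_sub_distrib]
    exact sum_congr rfl fun d _ => by ring
  simp only [h1]
  rw [sum_comm]
  refine (abs_sum_le_sum_abs _ _).trans ?_
  have h2 : ∀ d ∈ P.support, |∑ p ∈ GP D S Y Y' t, P.coeff d * (∏ j ∈ d.support, (sv D j p fun i => (t i : ZMod p)) ^ d j - ∏ j ∈ d.support, mmt j (d j))| ≤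
      (1 + |P.coeff d|) * (Cf fun j => d j) * (Y' : ℝ) ^ (1 / 2 + ε / 2) := by
    intro d hd
    have hdw := hP d (mem_support_iff.1 hd)
    rw [← mul_sum, abs_mul]
    have h3 := hE3 (fun j => d j) (hw d hd) t ht (fun h => htE (mem_biUnion.2 ⟨⟨d, hd⟩, mem_attach _ _, h⟩)) Y Y' hYY hY
      (hYT.trans (Real.rpow_le_rpow_of_exponent_le hT1 (by
        have := hκle d hd
        rw [hκd] at this
        exact this)))
    have h4 : ∀ p, ∏ j ∈ d.support, (sv D j p fun i => (t i : ZMod p)) ^ d j - ∏ j ∈ d.support, mmt j (d j) =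
        ∏ j : Fin w, sv D j p (fun i => (t i : ZMod p)) ^ d j - ∏ j : Fin w, mmt j (d j) := by
      intro p
      rw [prod_of hdw (fun j e => (sv D j p fun i => (t i : ZMod p)) ^ e) (fun j => pow_zero _), prod_of hdw (fun j e => mmt j e) mmt_zero]
    simp only [h4]
    have h5 := abs_nonneg (P.coeff d)
    have h6 : 0 ≤ (Cf fun j => d j) * (Y' : ℝ) ^ (1 / 2 + ε / 2) := mul_nonneg (hC0 d) hYp
    calc |P.coeff d| * |∑ p ∈ GP D S Y Y' t, (∏ j : Fin w, sv D j p (fun i => (t i : ZMod p)) ^ d j - ∏ j : Fin w, mmt j (d j))|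
        ≤ |P.coeff d| * ((Cf fun j => d j) * (Y' : ℝ) ^ (1 / 2 + ε / 2)) := mul_le_mul_of_nonneg_left h3 h5
      _ ≤ (1 + |P.coeff d|) * ((Cf fun j => d j) * (Y' : ℝ) ^ (1 / 2 + ε / 2)) := mul_le_mul_of_nonneg_right (by linarith) h6
      _ = _ := by ring
  refine (sum_le_sum h2).trans ?_
  rw [← sum_mul]
  refine mul_le_mul_of_nonneg_right ?_ hYp
  rw [hC]
  linarith

end H35GS
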