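import Pool.Agent.H35J.GS.MulC

/-!
# The traces on the cohomology of the products
-/

set_option autoImplicit false
set_option linter.unusedSectionVars false

namespace H35GS.Gn

open MeasureTheory ProbabilityTheory Filter Topology Finset Polynomial
open scoped NNReal ENNReal

section

variable {n : ℕ}

/-- the traces on the cohomology of a product -/
noncomputable def kun (a : Fin n → ℕ → ℝ) (i : ℕ) : ℝ := ∑ q ∈ piAntidiag univ i, ∏ j, a j (q j)

lemma kun_congr {a b : Fin n → ℕ → ℝ} {i : ℕ} (h : ∀ j q, q ≤ i → a j q = b j q) : kun a i = kun b i := by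
  unfold kun
  refine sum_congr rfl fun q hq => prod_congr rfl fun j _ => h j _ ?_
  rw [mem_piAntidiag] at hq
  rw [← hq.1]
  exact single_le_sum (f := q) (fun _ _ => Nat.zero_le _) (mem_univ j)

lemma kun_cont {E : Type} [TopologicalSpace E] (a : E → Fin n → ℕ → ℝ) (i : ℕ) (h : ∀ j q, Continuous fun x => a x j q) :
    Continuous fun x => kun (a x) i := by
  unfold kun
  exact continuous_finsetSum _ fun q _ => continuous_finsetProd _ fun j _ => h j _

lemma coef_contE {E : Type} [TopologicalSpace E] (s : E → ℕ → ℝ) (h : ∀ k, Continuous fun x => s x k) (i : ℕ) :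
    Continuous fun x => coef (s x) i := by
  induction i using Nat.strong_induction_on with
  | _ i ih =>
    rcases i with _ | i
    · simp only [coef_zero]
      exact continuous_const
    · simp only [coef_succ]
      have h1 : Continuous fun x => ∑ j : Fin (i + 1), s x (j + 1) * coef (s x) (i - j) :=
        continuous_finsetSum _ fun j _ => (h _).mul (ih (i - j) (by omega))
      exact h1.neg.div_const _

/-- the traces on `H ^ 0`, `H ^ 1`, `H ^ 2` of a curve -/
def crv (σ : ℝ) : ℕ → ℝ
  | 0 => 1
  | 1 => σ
  | 2 => 1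
  | _ + 3 => 0

lemma crv_cont {E : Type} [TopologicalSpace E] (s : E → ℝ) (h : Continuous s) (q : ℕ) : Continuous fun x => crv (s x) q := by
  match q with
  | 0 => exact continuous_const
  | 1 => exact h
  | 2 => exact continuous_const
  | _ + 3 => exact continuous_const

/-- the extension of the coordinates -/
noncomputable def ext {r : ℕ} (x : Fin n × Fin r → ℝ) (j : Fin n) (m : ℕ) : ℝ := if h : m - 1 < r then x (j, ⟨m - 1, h⟩) else 0

lemma ext_cont {r : ℕ} (j : Fin n) (m : ℕ) : Continuous fun x : Fin n × Fin r → ℝ => ext x j m := by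
  unfold ext
  split_ifs
  · exact continuous_apply _
  · exact continuous_const

lemma ext_eq {r : ℕ} (x : Fin n × Fin r → ℝ) (j : Fin n) (m : ℕ) (hm : m < r) : ext x j (m + 1) = x (j, ⟨m, hm⟩) := by
  unfold ext
  rw [dif_pos (by omega : m + 1 - 1 < r)]
  rfl

/-- the map for the products of curves and Jacobians -/
noncomputable def FX (b : Fin n → Bool) (l M r : ℕ) (x : Fin n × Fin r → ℝ) (i : Fin (l + 1) × Fin M) : ℝ :=
  kun (fun j q => if b j then (-1) ^ q * coef (fun k => ext x j (((i.2 : ℕ) + 1) * k)) q else crv (ext x j ((i.2 : ℕ) + 1)) q) (2 * i.1)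

lemma FX_cont (b : Fin n → Bool) (l M r : ℕ) : Continuous (FX b l M r) := by
  refine continuous_pi fun i => kun_cont (fun (x : Fin n × Fin r → ℝ) j q =>
    if b j then (-1) ^ q * coef (fun k => ext x j (((i.2 : ℕ) + 1) * k)) q else crv (ext x j ((i.2 : ℕ) + 1)) q) _ fun j q => ?_
  cases b j
  · simp only [Bool.false_eq_true, if_false]
    exact crv_cont _ (ext_cont j _) q
  · simp only [if_true]
    exact continuous_const.mul (coef_contE (fun (x : Fin n × Fin r → ℝ) k => ext x j (((i.2 : ℕ) + 1) * k)) (fun k => ext_cont j _) q)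

end

end H35GS.Gn
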