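import Pool.Agent.H35J.GS.IsoA
import Pool.Agent.H35J.GS.MulD

/-!
# The moments of the traces on the cohomology of the products
-/

set_option autoImplicit false
set_option linter.unusedSectionVars false

namespace H35GS.Gn

open MvPolynomial Finset MeasureTheory

section

variable {σ : Type}

/-- the coefficients as polynomials, for general power sums -/
noncomputable def cQ (x : ℕ → MvPolynomial σ ℝ) : ℕ → MvPolynomial σ ℝ
  | 0 => 1
  | i + 1 => C (-(1 / ((i : ℝ) + 1))) * ∑ j : Fin (i + 1), x (j : ℕ) * cQ x (i - j)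

lemma cQ_zero (x : ℕ → MvPolynomial σ ℝ) : cQ x 0 = 1 := by rw [cQ]

lemma cQ_succ (x : ℕ → MvPolynomial σ ℝ) (i : ℕ) : cQ x (i + 1) = C (-(1 / ((i : ℝ) + 1))) * ∑ j : Fin (i + 1), x (j : ℕ) * cQ x (i - j) := by rw [cQ]

lemma cQ_eval (x : ℕ → MvPolynomial σ ℝ) (v : σ → ℝ) (i : ℕ) : eval v (cQ x i) = coef (fun m => eval v (x (m - 1))) i := by
  induction i using Nat.strong_induction_on with
  | _ i ih =>
    rcases i with _ | i
    · rw [cQ_zero, coef_zero, map_one]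
    · rw [cQ_succ, coef_succ, map_mul, eval_C, map_sum]
      have h1 : ∑ j : Fin (i + 1), eval v (x (j : ℕ) * cQ x (i - j)) = ∑ j : Fin (i + 1), eval v (x (j + 1 - 1)) * coef (fun m => eval v (x (m - 1))) (i - j) := by
        refine sum_congr rfl fun j _ => ?_
        rw [map_mul, ih (i - j) (by omega), Nat.add_sub_cancel]
      rw [h1]
      ring

lemma cQ_wt {ω : σ → ℕ} (x : ℕ → MvPolynomial σ ℝ) (c : ℕ) (hx : ∀ a, Wt ω (c * (a + 1)) (x a)) (i : ℕ) : Wt ω (c * i) (cQ x i) := by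
  induction i using Nat.strong_induction_on with
  | _ i ih =>
    rcases i with _ | i
    · rw [cQ_zero]
      exact Wt.one
    · rw [cQ_succ]
      have h1 : Wt ω (c * (i + 1)) (∑ j : Fin (i + 1), x (j : ℕ) * cQ x (i - j)) := by
        refine Wt.sum _ _ _ fun j _ => ?_
        have h2 := (hx (j : ℕ)).mul (ih (i - j) (by omega))
        refine h2.mono (le_of_eq ?_)
        rw [← mul_add]
        congr 1
        have := j.2
        omega
      have h3 := (Wt.C (ω := ω) (-(1 / ((i : ℝ) + 1)))).mul h1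
      exact h3.mono (by omega)

end

section

variable {n : ℕ}

/-- the weight in the curve `j` -/
def om (j : Fin n) (i : Fin n × ℕ) : ℕ := if i.1 = j then i.2 + 1 else 0

/-- the factors -/
noncomputable def fac (b : Bool) (m : ℕ) (j : Fin n) (q : ℕ) : MvPolynomial (Fin n × ℕ) ℝ :=
  if b then C ((-1) ^ q) * cQ (fun a => X (j, (m + 1) * (a + 1) - 1)) q
  else match q with
    | 0 => 1
    | 1 => X (j, m)
    | 2 => 1
    | _ + 3 => 0

lemma fac_eval (b : Bool) (m : ℕ) (j : Fin n) (q : ℕ) (v : Fin n × ℕ → ℝ) :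
    eval v (fac b m j q) = if b then (-1) ^ q * coef (fun k => v (j, (m + 1) * (k - 1 + 1) - 1)) q else crv (v (j, m)) q := by
  unfold fac
  cases b
  · simp only [Bool.false_eq_true, if_false]
    match q with
    | 0 => simp [crv]
    | 1 => simp [crv]
    | 2 => simp [crv]
    | _ + 3 => simp [crv]
  · simp only [if_true]
    rw [map_mul, eval_C, cQ_eval]
    simp only [eval_X]

lemma fac_wt (b : Bool) (m : ℕ) (j j' : Fin n) (q : ℕ) : Wt (om j') (if j = j' then (m + 1) * q else 0) (fac b m j q) := by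
  unfold fac
  cases b
  · simp only [Bool.false_eq_true, if_false]
    match q with
    | 0 => exact Wt.one.mono (Nat.zero_le _)
    | 1 =>
      refine (Wt.X (ω := om j') (j, m)).mono (le_of_eq ?_)
      unfold om
      simp
    | 2 => exact Wt.one.mono (Nat.zero_le _)
    | _ + 3 =>
      intro d hd
      simp at hd
  · simp only [if_true]
    have h1 : Wt (om j') (if j = j' then (m + 1) * q else 0) (cQ (fun a => X (j, (m + 1) * (a + 1) - 1)) q) := by
      have h2 := cQ_wt (ω := om j') (fun a => (X (j, (m + 1) * (a + 1) - 1) : MvPolynomial (Fin n × ℕ) ℝ)) (if j = j' then m + 1 else 0) (fun a => by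
        refine (Wt.X (ω := om j') (j, (m + 1) * (a + 1) - 1)).mono ?_
        unfold om
        split_ifs with h
        · have : 1 ≤ (m + 1) * (a + 1) := Nat.succ_le_of_lt (by positivity)
          simp only
          omega
        · exact Nat.zero_le _) q
      refine h2.mono ?_
      split_ifs
      · exact le_rfl
      · simp
    exact ((Wt.C (ω := om j') ((-1) ^ q)).mul h1).mono (by omega)

/-- the trace on the cohomology of the product, as a polynomial -/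
noncomputable def trP (b : Fin n → Bool) (m i : ℕ) : MvPolynomial (Fin n × ℕ) ℝ := ∑ q ∈ piAntidiag univ i, ∏ j, fac (b j) m j (q j)

lemma trP_eval (b : Fin n → Bool) (m i : ℕ) (v : Fin n × ℕ → ℝ) :
    eval v (trP b m i) = kun (fun j q => if b j then (-1) ^ q * coef (fun k => v (j, (m + 1) * (k - 1 + 1) - 1)) q else crv (v (j, m)) q) i := by
  unfold trP kun
  rw [map_sum]
  refine sum_congr rfl fun q _ => ?_
  rw [map_prod]
  exact prod_congr rfl fun j _ => fac_eval _ _ _ _ _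

lemma trP_wt (b : Fin n → Bool) (m i : ℕ) (j' : Fin n) : Wt (om j') ((m + 1) * i) (trP b m i) := by
  unfold trP
  refine Wt.sum _ _ _ fun q hq => ?_
  rw [mem_piAntidiag] at hq
  refine (Wt.prod univ (fun j => fac (b j) m j (q j)) (fun j => if j = j' then (m + 1) * q j else 0) fun j _ => fac_wt _ _ _ _ _).mono ?_
  rw [sum_ite_eq' univ j' (fun j => (m + 1) * q j), if_pos (mem_univ _)]
  refine Nat.mul_le_mul_left _ ?_
  rw [← hq.1]
  exact single_le_sum (f := q) (fun _ _ => Nat.zero_le _) (mem_univ j')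

/-- the polynomial of a monomial in the traces -/
noncomputable def monM (b : Fin n → Bool) {l M : ℕ} (k : Fin (l + 1) × Fin M → ℕ) : MvPolynomial (Fin n × ℕ) ℝ :=
  ∏ i : Fin (l + 1) × Fin M, trP b i.2 (2 * i.1) ^ k i

lemma monM_eval (b : Fin n → Bool) {l M : ℕ} (k : Fin (l + 1) × Fin M → ℕ) (v : Fin n × ℕ → ℝ) : eval v (monM b k) = ∏ i, (eval v (trP b i.2 (2 * i.1))) ^ k i := by
  unfold monM
  rw [map_prod]
  exact prod_congr rfl fun i _ => by rw [map_pow]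

lemma monM_wt (b : Fin n → Bool) {l M : ℕ} (k : Fin (l + 1) × Fin M → ℕ) (j' : Fin n) :
    Wt (om j') (∑ i : Fin (l + 1) × Fin M, ((i.2 : ℕ) + 1) * (2 * i.1) * k i) (monM b k) :=
  Wt.prod _ _ _ fun _ _ => (trP_wt _ _ _ _).pow _

lemma wt_sumM (j : Fin n) (d : (Fin n × ℕ) →₀ ℕ) : Finsupp.weight (om j) d = ∑ i ∈ d.support, d i * om j i := by
  rw [Finsupp.weight_apply]
  rfl

lemma supp_ofM {w : ℕ} {d : (Fin n × ℕ) →₀ ℕ} (h : ∀ j, Finsupp.weight (om j) d ≤ w) : d.support ⊆ univ ×ˢ range w := by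
  intro i hi
  have h0 := h i.1
  rw [wt_sumM] at h0
  have h1 := single_le_sum (f := fun i' => d i' * om i.1 i') (fun _ _ => Nat.zero_le _) hi
  rw [Finsupp.mem_support_iff] at hi
  rw [mem_product, mem_range]
  refine ⟨mem_univ _, ?_⟩
  have h2 : om i.1 i = i.2 + 1 := by
    unfold om
    rw [if_pos rfl]
  have h3 : 1 * (i.2 + 1) ≤ d i * (i.2 + 1) := Nat.mul_le_mul_right _ (Nat.pos_of_ne_zero hi)
  have h4 : d i * om i.1 i ≤ ∑ i' ∈ d.support, d i' * om i.1 i' := h1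
  rw [h2] at h4
  omega

lemma prod_ofM {w : ℕ} {d : (Fin n × ℕ) →₀ ℕ} (h : ∀ j, Finsupp.weight (om j) d ≤ w) (f : Fin n × ℕ → ℕ → ℝ) (hf : ∀ i, f i 0 = 1) :
    ∏ i ∈ d.support, f i (d i) = ∏ j, ∏ m : Fin w, f (j, m) (d (j, m)) := by
  have h1 : ∏ i ∈ d.support, f i (d i) = ∏ i ∈ univ ×ˢ range w, f i (d i) := prod_subset (supp_ofM h) fun i _ hi => by
    rw [Finsupp.notMem_support_iff] at hi
    rw [hi, hf]
  rw [h1, prod_product]
  exact prod_congr rfl fun j _ => (Fin.prod_univ_eq_prod_range (fun m => f (j, m) (d (j, m))) w).symm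

lemma sum_ofM {w : ℕ} {d : (Fin n × ℕ) →₀ ℕ} (h : ∀ j, Finsupp.weight (om j) d ≤ w) (j : Fin n) : ∑ m : Fin w, ((m : ℕ) + 1) * d (j, m) ≤ w := by
  rw [Fin.sum_univ_eq_sum_range (fun m => (m + 1) * d (j, m))]
  refine le_trans (le_of_eq ?_) (h j)
  rw [wt_sumM]
  have h1 : ∑ i ∈ d.support, d i * om j i = ∑ i ∈ univ ×ˢ range w, d i * om j i := sum_subset (supp_ofM h) fun i _ hi => by
    rw [Finsupp.notMem_support_iff] at hi
    rw [hi, zero_mul]
  rw [h1, sum_product, sum_eq_single j]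
  · refine sum_congr rfl fun m _ => ?_
    unfold om
    rw [if_pos rfl, mul_comm]
  · intro j' _ hj'
    refine sum_eq_zero fun m _ => ?_
    unfold om
    rw [if_neg hj', mul_zero]
  · intro hj
    exact absurd (mem_univ _) hj

/-- the value of the functional of the normal variables -/
noncomputable def mGM (P : MvPolynomial (Fin n × ℕ) ℝ) : ℝ := ∑ d ∈ P.support, P.coeff d * ∏ i ∈ d.support, mmt i.2 (d i)

lemma FM_prod {w : ℕ} (k : Fin n → Fin w → ℕ) (D : Fin n → ℕ) (p : ℕ) (c : (Σ j : Fin n, Fin (D j)) → ZMod p) :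
    FM k D p c = ∏ j, ∏ m : Fin w, sv (D j) m p (blk c j) ^ k j m := rfl

/-- the Haar measure -/
theorem haar_polyM {g : Fin n → ℕ} {ν : ∀ j, Measure (MM (g j))} (hν : ∀ j, Haar (ν j)) {w : ℕ} {P : MvPolynomial (Fin n × ℕ) ℝ} (hP : ∀ j, Wt (om j) w P)
    (hw : ∀ j, w ≤ 2 * g j + 1) : ∫ U, eval (fun i : Fin n × ℕ => ((U i.1) ^ (i.2 + 1)).trace.re) P ∂(Measure.pi ν) = mGM P := by
  have hp : ∀ j, IsProbabilityMeasure (ν j) := fun j => (hν j).prob
  simp only [eval_eq]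
  have hfac : ∀ d ∈ P.support, (fun U : ∀ j, MM (g j) => P.coeff d * ∏ i ∈ d.support, ((U i.1) ^ (i.2 + 1)).trace.re ^ d i) =
      fun U => P.coeff d * ∏ j, (∏ m : Fin w, ((U j) ^ ((m : ℕ) + 1)).trace.re ^ d (j, (m : ℕ))) := by
    intro d hd
    funext U
    rw [prod_ofM (fun j => hP j d (mem_support_iff.1 hd)) (fun i e => ((U i.1) ^ (i.2 + 1)).trace.re ^ e) (fun i => pow_zero _)]
  have h1 : ∀ d ∈ P.support, Integrable (fun U : ∀ j, MM (g j) => P.coeff d * ∏ i ∈ d.support, ((U i.1) ^ (i.2 + 1)).trace.re ^ d i) (Measure.pi ν) := by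
    intro d hd
    rw [hfac d hd]
    refine Integrable.const_mul (Integrable.fintype_prod_dep (f := fun (j : Fin n) (U : MM (g j)) => ∏ m : Fin w, (U ^ ((m : ℕ) + 1)).trace.re ^ d (j, (m : ℕ))) fun j => ?_) _
    have h2 : Continuous fun U : MM (g j) => ((∏ m : Fin w, (U ^ ((m : ℕ) + 1)).trace.re ^ d (j, (m : ℕ)) : ℝ) : ℂ) :=
      Complex.continuous_ofReal.comp (continuous_finsetProd _ fun m _ => (Complex.continuous_re.comp (cont_trace _)).pow _)
    exact ((hν j).integrable _ h2).re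
  rw [integral_finsetSum _ h1]
  unfold mGM
  refine sum_congr rfl fun d hd => ?_
  have hdw := fun j => hP j d (mem_support_iff.1 hd)
  rw [hfac d hd, integral_const_mul, integral_fintype_prod_eq_prod (fun (j : Fin n) (U : MM (g j)) => ∏ m : Fin w, (U ^ ((m : ℕ) + 1)).trace.re ^ d (j, (m : ℕ))),
    prod_ofM hdw (fun i e => mmt i.2 e) (fun i => mmt_zero _)]
  congr 1
  exact prod_congr rfl fun j _ => haar_exact' (hν j) _ ((sum_ofM hdw j).trans (hw j))

/-- **the empirical moments** -/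
theorem emp_polyM {w : ℕ} {P : MvPolynomial (Fin n × ℕ) ℝ} (hP : ∀ j, Wt (om j) w P) (ε : ℝ) (hε : 0 < ε) (hε1 : ε ≤ 1) :
    ∃ κ₀ : ℝ, 0 < κ₀ ∧ ∃ C : ℝ, 1 ≤ C ∧ ∀ D : Fin n → ℕ, (∀ j, 2 * w ≤ D j) →
      ∀ (S : Set ℕ) (N : (Σ j : Fin n, Fin (D j)) → ℤ) (L : (Σ j : Fin n, Fin (D j)) → ℕ) (T : ℝ), 0 < T → (∀ i, T * (∑ j, (D j : ℝ) + 1) ≤ L i) →
      ∀ X₀ : ℕ, 1 ≤ X₀ → ∃ E : Finset ((Σ j : Fin n, Fin (D j)) → ℤ), E ⊆ kbox N L ∧ (E.card : ℝ) ≤ C * (X₀ : ℝ) ^ (-(ε / 2)) * ∏ i, (L i : ℝ) ∧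
      ∀ t ∈ kbox N L, t ∉ E → ∀ Y Y' : ℕ, Y ≤ Y' → X₀ ≤ Y' → (Y' : ℝ) ≤ T ^ κ₀ →
        |∑ p ∈ GPM D S Y Y' t, (eval (fun i : Fin n × ℕ => sv (D i.1) i.2 p (blk (fun i => (t i : ZMod p)) i.1)) P - mGM P)| ≤ C * (Y' : ℝ) ^ (1 / 2 + ε / 2) := by
  classical
  choose κf hκf Cf hCf hemp using fun k : Fin n → Fin w → ℕ => emp_mom k ε hε hε1
  obtain ⟨κd, hκd⟩ : ∃ κd : ((Fin n × ℕ) →₀ ℕ) → ℝ, κd = fun d => κf fun j m => d (j, m) := ⟨_, rfl⟩
  obtain ⟨κ, hκ0, hκle⟩ : ∃ κ : ℝ, 0 < κ ∧ ∀ d ∈ P.support, κ ≤ κd d := by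
    rcases P.support.eq_empty_or_nonempty with h | h
    · exact ⟨1, one_pos, fun d hd => by rw [h] at hd; exact absurd hd (notMem_empty _)⟩
    · obtain ⟨d₀, hd₀, hmin⟩ := exists_min_image P.support κd h
      refine ⟨κd d₀, ?_, hmin⟩
      rw [hκd]
      exact hκf _
  obtain ⟨Cd, hCd⟩ : ∃ Cd : ((Fin n × ℕ) →₀ ℕ) → ℝ, Cd = fun d => Cf fun j m => d (j, m) := ⟨_, rfl⟩
  obtain ⟨C, hC⟩ : ∃ C : ℝ, C = 1 + ∑ d ∈ P.support, (1 + |P.coeff d|) * Cd d := ⟨_, rfl⟩
  have hC0 : ∀ d, 0 ≤ Cd d := fun d => by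
    rw [hCd]
    linarith [hCf fun j m => d (j, m)]
  have hCsum : 0 ≤ ∑ d ∈ P.support, (1 + |P.coeff d|) * Cd d := sum_nonneg fun d _ => mul_nonneg (by positivity) (hC0 d)
  refine ⟨κ, hκ0, C, by rw [hC]; linarith, fun D hD S N L T hT hL X₀ hX₀ => ?_⟩
  have hX₀R : (1 : ℝ) ≤ X₀ := by exact_mod_cast hX₀
  have hLpos : (0 : ℝ) ≤ ∏ i, (L i : ℝ) := prod_nonneg fun i _ => Nat.cast_nonneg _
  have hXp : (0 : ℝ) < (X₀ : ℝ) ^ (-(ε / 2)) := Real.rpow_pos_of_pos (by linarith) _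
  have hw : ∀ d ∈ P.support, ∀ j, 2 * ∑ m : Fin w, ((m : ℕ) + 1) * d (j, (m : ℕ)) ≤ D j := by
    intro d hd j
    have h1 := sum_ofM (fun j => hP j d (mem_support_iff.1 hd)) j
    have h2 := hD j
    omega
  choose E hE1 hE2 hE3 using fun (k : Fin n → Fin w → ℕ) (hk : ∀ j, 2 * ∑ m : Fin w, ((m : ℕ) + 1) * k j m ≤ D j) => hemp k D hk S N L T hT hL X₀ hX₀
  refine ⟨P.support.attach.biUnion fun d => E _ (hw d.1 d.2), ?_, ?_, ?_⟩
  · intro t ht
    rw [mem_biUnion] at ht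
    obtain ⟨d, _, hd⟩ := ht
    exact hE1 _ _ hd
  · refine (Nat.cast_le.2 card_biUnion_le).trans ?_
    push_cast
    refine (sum_le_sum fun d _ => hE2 _ (hw d.1 d.2)).trans ?_
    rw [← sum_mul, ← sum_mul, sum_attach P.support (fun d => Cf fun j m => d (j, (m : ℕ)))]
    refine mul_le_mul_of_nonneg_right (mul_le_mul_of_nonneg_right ?_ hXp.le) hLpos
    rw [hC]
    have h1 : ∑ d ∈ P.support, Cf (fun j m => d (j, (m : ℕ))) ≤ ∑ d ∈ P.support, (1 + |P.coeff d|) * Cd d := by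
      refine sum_le_sum fun d _ => ?_
      have h2 : Cf (fun j m => d (j, (m : ℕ))) = Cd d := by rw [hCd]
      rw [h2]
      exact le_mul_of_one_le_left (hC0 d) (by have := abs_nonneg (P.coeff d); linarith)
    linarith
  intro t ht htE Y Y' hYY hY hYT
  have hY1 : (1 : ℝ) ≤ Y' := by
    have : 1 ≤ Y' := hX₀.trans hY
    exact_mod_cast this
  have hYp : (0 : ℝ) ≤ (Y' : ℝ) ^ (1 / 2 + ε / 2) := Real.rpow_nonneg (by linarith) _
  have hT1 : 1 ≤ T := by
    by_contra hlt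
    push Not at hlt
    have := Real.rpow_lt_one hT.le hlt hκ0
    linarith
  obtain ⟨v, hv⟩ : ∃ v : ℕ → Fin n × ℕ → ℝ, v = fun p i => sv (D i.1) i.2 p (blk (fun i => (t i : ZMod p)) i.1) := ⟨_, rfl⟩
  have h0 : ∀ p, eval (fun i : Fin n × ℕ => sv (D i.1) i.2 p (blk (fun i => (t i : ZMod p)) i.1)) P = eval (v p) P := by
    intro p
    rw [hv]
  have h1 : ∀ p, eval (v p) P - mGM P = ∑ d ∈ P.support, P.coeff d * (∏ i ∈ d.support, v p i ^ d i - ∏ i ∈ d.support, mmt i.2 (d i)) := by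
    intro p
    rw [eval_eq]
    unfold mGM
    rw [← sum_sub_distrib]
    exact sum_congr rfl fun d _ => by ring
  simp only [h0, h1]
  rw [sum_comm]
  refine (abs_sum_le_sum_abs _ _).trans ?_
  have h2 : ∀ d ∈ P.support, |∑ p ∈ GPM D S Y Y' t, P.coeff d * (∏ i ∈ d.support, v p i ^ d i - ∏ i ∈ d.support, mmt i.2 (d i))| ≤
      (1 + |P.coeff d|) * Cd d * (Y' : ℝ) ^ (1 / 2 + ε / 2) := by
    intro d hd
    have hdw := fun j => hP j d (mem_support_iff.1 hd)
    rw [← mul_sum, abs_mul]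
    have h3 := hE3 (fun j m => d (j, (m : ℕ))) (hw d hd) t ht (fun h => htE (mem_biUnion.2 ⟨⟨d, hd⟩, mem_attach _ _, h⟩)) Y Y' hYY hY
      (hYT.trans (Real.rpow_le_rpow_of_exponent_le hT1 (by
        have := hκle d hd
        rw [hκd] at this
        exact this)))
    have h4 : ∀ p, ∏ i ∈ d.support, v p i ^ d i - ∏ i ∈ d.support, mmt i.2 (d i) =
        FM (fun j (m : Fin w) => d (j, (m : ℕ))) D p (fun i => (t i : ZMod p)) - mu fun j (m : Fin w) => d (j, (m : ℕ)) := by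
      intro p
      rw [prod_ofM hdw (fun i e => v p i ^ e) (fun i => pow_zero _), prod_ofM hdw (fun i e => mmt i.2 e) (fun i => mmt_zero _), hv]
      rfl
    simp only [h4]
    have h5 := abs_nonneg (P.coeff d)
    have h7 : Cf (fun j m => d (j, (m : ℕ))) = Cd d := by rw [hCd]
    rw [h7] at h3
    have h6 : 0 ≤ Cd d * (Y' : ℝ) ^ (1 / 2 + ε / 2) := mul_nonneg (hC0 d) hYp
    calc |P.coeff d| * |∑ p ∈ GPM D S Y Y' t, (FM (fun j (m : Fin w) => d (j, (m : ℕ))) D p (fun i => (t i : ZMod p)) - mu fun j (m : Fin w) => d (j, (m : ℕ)))|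
        ≤ |P.coeff d| * (Cd d * (Y' : ℝ) ^ (1 / 2 + ε / 2)) := mul_le_mul_of_nonneg_left h3 h5
      _ ≤ (1 + |P.coeff d|) * (Cd d * (Y' : ℝ) ^ (1 / 2 + ε / 2)) := mul_le_mul_of_nonneg_right (by linarith) h6
      _ = _ := by ring
  refine (sum_le_sum h2).trans ?_
  rw [← sum_mul]
  refine mul_le_mul_of_nonneg_right ?_ hYp
  rw [hC]
  linarith

end

end H35GS.Gn
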