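import Pool.Agent.H35J.GS.Loop5
import Pool.Agent.Q282.CL.Abs

/-!
# Convergence of the joint moments to those of independent normal variables implies weak convergence
-/

set_option autoImplicit false
set_option linter.unusedSectionVars false

namespace H35GS

open MeasureTheory ProbabilityTheory Filter Topology Finset
open Q282MM (gm)
open scoped NNReal

lemma gauss_integrable (μ : ℝ) (v : ℝ≥0) (n : ℕ) : Integrable (fun x : ℝ => x ^ n) (gaussianReal μ v) := by
  rcases Nat.eq_zero_or_pos n with h | h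
  · rw [h]
    simp only [pow_zero]
    exact integrable_const 1
  · have h1 := memLp_id_gaussianReal (μ := μ) (v := v) (n : ℝ≥0)
    have h2 := h1.integrable_norm_pow (by omega)
    rw [← integrable_norm_iff (by fun_prop)]
    refine h2.congr (ae_of_all _ fun x => ?_)
    simp

lemma gauss_odd (n : ℕ) (hn : Odd n) : ∫ x, x ^ n ∂(gaussianReal 0 1) = 0 := by
  have h1 : (gaussianReal 0 1).map (fun x : ℝ => -x) = gaussianReal 0 1 := by
    rw [gaussianReal_map_neg, neg_zero]
  have h2 : ∫ x, x ^ n ∂(gaussianReal 0 1) = ∫ x, (-x) ^ n ∂(gaussianReal 0 1) := by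
    conv_lhs => rw [← h1]
    rw [integral_map (by fun_prop) (by fun_prop)]
  have h3 : ∫ x, (-x) ^ n ∂(gaussianReal 0 1) = - ∫ x, x ^ n ∂(gaussianReal 0 1) := by
    rw [← integral_neg]
    congr 1
    funext x
    rw [hn.neg_pow]
  linarith

lemma gauss_even (n : ℕ) : ∫ x, x ^ (2 * n) ∂(gaussianReal 0 1) = (Nat.doubleFactorial (2 * n - 1) : ℝ) := by
  rw [integral_gaussianReal_eq_integral_smul one_ne_zero]
  have h1 : (fun x : ℝ => gaussianPDFReal 0 1 x • x ^ (2 * n)) =
      fun x : ℝ => (fun y : ℝ => (Real.sqrt (2 * Real.pi))⁻¹ * (y ^ ((2 * n : ℕ) : ℝ) * Real.exp (-(1 / 2) * y ^ (2 : ℝ)))) |x| := by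
    funext x
    rw [gaussianPDFReal_def]
    simp only [smul_eq_mul, NNReal.coe_one, mul_one, sub_zero]
    have e1 : |x| ^ ((2 * n : ℕ) : ℝ) = x ^ (2 * n) := by
      rw [Real.rpow_natCast, pow_mul, sq_abs, ← pow_mul]
    have e2 : |x| ^ (2 : ℝ) = x ^ 2 := by
      rw [Real.rpow_two, sq_abs]
    rw [e1, e2]
    have e3 : -x ^ 2 / 2 = -(1 / 2) * x ^ 2 := by ring
    rw [e3]
    ring
  rw [h1, integral_comp_abs (f := fun y : ℝ => (Real.sqrt (2 * Real.pi))⁻¹ * (y ^ ((2 * n : ℕ) : ℝ) * Real.exp (-(1 / 2) * y ^ (2 : ℝ)))),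
    integral_const_mul,
    integral_rpow_mul_exp_neg_mul_rpow (by norm_num : (0 : ℝ) < 2) (by
      have : (0 : ℝ) ≤ ((2 * n : ℕ) : ℝ) := by positivity
      linarith) (by norm_num : (0 : ℝ) < 1 / 2)]
  have h2 : (((2 * n : ℕ) : ℝ) + 1) / 2 = (n : ℝ) + 1 / 2 := by
    push_cast
    ring
  rw [h2, Real.Gamma_nat_add_half]
  have h3 : (1 / 2 : ℝ) ^ (-(((2 * n : ℕ) : ℝ) + 1) / 2) = 2 ^ n * Real.sqrt 2 := by
    have e1 : -(((2 * n : ℕ) : ℝ) + 1) / 2 = -((n : ℝ) + 1 / 2) := by
      push_cast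
      ring
    rw [e1, one_div, Real.inv_rpow (by norm_num), Real.rpow_neg (by norm_num), inv_inv, Real.rpow_add (by norm_num), Real.rpow_natCast,
      Real.sqrt_eq_rpow, one_div]
  rw [h3, Real.sqrt_mul (by norm_num)]
  have hs2 : Real.sqrt 2 ≠ 0 := by positivity
  have hsp : Real.sqrt Real.pi ≠ 0 := by
    have := Real.pi_pos
    positivity
  field_simp

lemma gauss_std (n : ℕ) : ∫ x, x ^ n ∂(gaussianReal 0 1) = gm n := by
  unfold Q282MM.gm
  rcases Nat.even_or_odd n with h | h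
  · rw [if_pos h]
    obtain ⟨k, hk⟩ := h
    rw [show n = 2 * k by omega]
    exact gauss_even k
  · rw [if_neg (Nat.not_even_iff_odd.2 h)]
    simpa using gauss_odd n h

/-- the normal law with mean `-eta j` and variance `j + 1` -/
noncomputable def gj (j : ℕ) : Measure ℝ := gaussianReal (-eta j) ((j : ℝ≥0) + 1)

instance (j : ℕ) : IsProbabilityMeasure (gj j) := by
  unfold gj
  infer_instance

lemma gj_eq (j : ℕ) : gj j = (gaussianReal 0 1).map fun z => Real.sqrt (j + 1) * z + -eta j := by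
  have h1 : (fun z : ℝ => Real.sqrt (j + 1) * z + -eta j) = (fun x : ℝ => x + -eta j) ∘ fun z => Real.sqrt (j + 1) * z := rfl
  rw [h1, ← Measure.map_map (by fun_prop) (by fun_prop), gaussianReal_map_const_mul, gaussianReal_map_add_const, mul_zero, zero_add, mul_one]
  unfold gj
  congr 1
  ext
  simp only [NNReal.coe_mk, NNReal.coe_add, NNReal.coe_natCast, NNReal.coe_one]
  rw [Real.sq_sqrt (by positivity)]

lemma gj_integrable (j k : ℕ) : Integrable (fun x : ℝ => x ^ k) (gj j) := gauss_integrable _ _ k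

lemma gj_mom (j k : ℕ) : ∫ x, x ^ k ∂(gj j) = mmt j k := by
  rw [gj_eq, integral_map (by fun_prop) (by fun_prop)]
  unfold mmt
  have h1 : ∀ z : ℝ, (Real.sqrt (j + 1) * z + -eta j) ^ k = ∑ l ∈ range (k + 1), ((k.choose l : ℝ) * ((-eta j) ^ (k - l) * Real.sqrt (j + 1) ^ l)) * z ^ l := by
    intro z
    rw [add_pow]
    refine sum_congr rfl fun l _ => ?_
    rw [mul_pow]
    ring
  simp only [h1]
  rw [integral_finsetSum _ fun l _ => (gauss_integrable 0 1 l).const_mul _]
  refine sum_congr rfl fun l _ => ?_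
  rw [integral_const_mul, gauss_std]
  ring

section

variable (r : ℕ)

/-- the joint law of the independent normal variables -/
noncomputable def gam : Measure (Fin r → ℝ) := Measure.pi fun j : Fin r => gj j

instance : IsProbabilityMeasure (gam r) := by
  unfold gam
  infer_instance

variable {r}

lemma gam_integrable (k : Fin r → ℕ) : Integrable (fun x : Fin r → ℝ => ∏ j, x j ^ k j) (gam r) :=
  Integrable.fintype_prod_dep fun j => gj_integrable j (k j)

lemma gam_mom (k : Fin r → ℕ) : ∫ x, ∏ j, x j ^ k j ∂(gam r) = ∏ j : Fin r, mmt j (k j) := by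
  unfold gam
  rw [integral_fintype_prod_eq_prod (fun (j : Fin r) (x : ℝ) => x ^ k j)]
  exact prod_congr rfl fun j _ => gj_mom j (k j)

/-- the linear forms -/
noncomputable def lf (t x : Fin r → ℝ) : ℝ := ∑ j, x j * t j

lemma lf_pow (t x : Fin r → ℝ) (m : ℕ) :
    lf t x ^ m = ∑ k ∈ piAntidiag univ m, ((Nat.multinomial univ k : ℝ) * ∏ j, t j ^ k j) * ∏ j, x j ^ k j := by
  unfold lf
  rw [sum_pow_eq_sum_piAntidiag]
  refine sum_congr rfl fun k _ => ?_
  simp only [mul_pow]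
  rw [prod_mul_distrib]
  ring

/-- all the moments exist -/
def AllInt (μ : Measure (Fin r → ℝ)) : Prop := ∀ k : Fin r → ℕ, Integrable (fun x => ∏ j, x j ^ k j) μ

variable {μ : Measure (Fin r → ℝ)}

lemma AllInt.lf (h : AllInt μ) (t : Fin r → ℝ) (m : ℕ) : Integrable (fun x => lf t x ^ m) μ := by
  simp only [lf_pow]
  exact integrable_finsetSum _ fun k _ => (h k).const_mul _

lemma AllInt.lf_mom (h : AllInt μ) (t : Fin r → ℝ) (m : ℕ) :
    ∫ x, H35GS.lf t x ^ m ∂μ = ∑ k ∈ piAntidiag univ m, ((Nat.multinomial univ k : ℝ) * ∏ j, t j ^ k j) * ∫ x, ∏ j, x j ^ k j ∂μ := by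
  simp only [lf_pow]
  rw [integral_finsetSum _ fun k _ => (h k).const_mul _]
  exact sum_congr rfl fun k _ => integral_const_mul _ _

/-- the characteristic function -/
noncomputable def cf (μ : Measure (Fin r → ℝ)) (t : Fin r → ℝ) : ℂ := ∫ x, Complex.exp ((lf t x : ℂ) * Complex.I) ∂μ

lemma cont_lf (t : Fin r → ℝ) : Continuous fun x : Fin r → ℝ => lf t x := by
  unfold lf
  fun_prop

lemma cf_near [IsProbabilityMeasure μ] (h : AllInt μ) (t : Fin r → ℝ) (N : ℕ) :
    ‖cf μ t - ∑ m ∈ range (2 * N), (Complex.I ^ m / (m.factorial : ℂ)) * ((∫ x, lf t x ^ m ∂μ : ℝ) : ℂ)‖ ≤ (∫ x, lf t x ^ (2 * N) ∂μ) / (2 * N).factorial := by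
  have h0 : Integrable (fun x : Fin r → ℝ => Complex.exp ((lf t x : ℂ) * Complex.I)) μ := by
    refine Integrable.of_bound (Continuous.aestronglyMeasurable (by have := cont_lf t; fun_prop)) 1 (ae_of_all _ fun x => ?_)
    rw [Complex.norm_exp_ofReal_mul_I]
  have h1 : ∀ m : ℕ, Integrable (fun x : Fin r → ℝ => ((lf t x : ℂ) * Complex.I) ^ m / (m.factorial : ℂ)) μ := by
    intro m
    have h2 : (fun x : Fin r → ℝ => ((lf t x : ℂ) * Complex.I) ^ m / (m.factorial : ℂ)) = fun x => (Complex.I ^ m / (m.factorial : ℂ)) * ((lf t x ^ m : ℝ) : ℂ) := by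
      funext x
      rw [mul_pow]
      push_cast
      ring
    rw [h2]
    exact (h.lf t m).ofReal.const_mul _
  have h2 : cf μ t - ∑ m ∈ range (2 * N), (Complex.I ^ m / (m.factorial : ℂ)) * ((∫ x, lf t x ^ m ∂μ : ℝ) : ℂ) =
      ∫ x, (Complex.exp ((lf t x : ℂ) * Complex.I) - ∑ m ∈ range (2 * N), ((lf t x : ℂ) * Complex.I) ^ m / (m.factorial : ℂ)) ∂μ := by
    rw [integral_sub h0 (integrable_finsetSum _ fun m _ => h1 m), integral_finsetSum _ fun m _ => h1 m]
    unfold cf
    congr 1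
    refine sum_congr rfl fun m _ => ?_
    rw [← integral_complex_ofReal, ← integral_const_mul]
    congr 1
    funext x
    rw [mul_pow]
    push_cast
    ring
  rw [h2, ← integral_div]
  refine norm_integral_le_of_norm_le ((h.lf t (2 * N)).div_const _) (ae_of_all _ fun x => ?_)
  refine (Q282.CL.taylor (lf t x) (2 * N)).trans (le_of_eq ?_)
  rw [pow_mul, sq_abs, ← pow_mul]

/-- the exponential moments of the normal variables -/
lemma gam_exp (t : Fin r → ℝ) : Integrable (fun x => Real.exp |lf t x|) (gam r) := by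
  have h1 : Integrable (fun x : Fin r → ℝ => ∏ j, (Real.exp (t j * x j) + Real.exp (-t j * x j))) (gam r) :=
    Integrable.fintype_prod_dep (f := fun (j : Fin r) (y : ℝ) => Real.exp (t j * y) + Real.exp (-t j * y))
      fun j => (integrable_exp_mul_gaussianReal (t j)).add (integrable_exp_mul_gaussianReal (-t j))
  refine h1.mono' (Continuous.aestronglyMeasurable (by have := cont_lf t; fun_prop)) (ae_of_all _ fun x => ?_)
  rw [Real.norm_eq_abs, abs_of_pos (Real.exp_pos _)]
  have h2 : |lf t x| ≤ ∑ j, |x j * t j| := abs_sum_le_sum_abs _ _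
  refine (Real.exp_le_exp.2 h2).trans ?_
  rw [Real.exp_sum]
  refine prod_le_prod (fun j _ => (Real.exp_pos _).le) fun j _ => ?_
  rcases abs_cases (x j * t j) with ⟨h3, _⟩ | ⟨h3, _⟩
  · rw [h3, mul_comm]
    linarith [Real.exp_pos (-t j * x j)]
  · rw [h3, show -(x j * t j) = -t j * x j by ring]
    linarith [Real.exp_pos (t j * x j)]

lemma gam_small (t : Fin r → ℝ) : Tendsto (fun N : ℕ => (∫ x, lf t x ^ (2 * N) ∂(gam r)) / (2 * N).factorial) atTop (𝓝 0) := by
  have h1 : Tendsto (fun N : ℕ => ∫ x, lf t x ^ (2 * N) / (2 * N).factorial ∂(gam r)) atTop (𝓝 (∫ _ : Fin r → ℝ, (0 : ℝ) ∂(gam r))) := by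
    refine tendsto_integral_of_dominated_convergence (fun x => Real.exp |lf t x|) (fun N => Continuous.aestronglyMeasurable (by have := cont_lf t; fun_prop))
      (gam_exp t) (fun N => ae_of_all _ fun x => ?_) (ae_of_all _ fun x => ?_)
    · have h2 := Real.pow_div_factorial_le_exp |lf t x| (abs_nonneg _) (2 * N)
      rw [Real.norm_eq_abs, abs_div, abs_pow, Nat.abs_cast]
      exact h2
    · exact (FloorSemiring.tendsto_pow_div_factorial_atTop (lf t x)).comp (tendsto_id.const_mul_atTop' (by norm_num : 0 < 2))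
  simpa [integral_div] using h1

/-- the convergence of the characteristic functions -/
theorem cf_tendsto (μ : ℕ → Measure (Fin r → ℝ)) [∀ n, IsProbabilityMeasure (μ n)] (hint : ∀ n, AllInt (μ n))
    (hmom : ∀ k : Fin r → ℕ, Tendsto (fun n => ∫ x, ∏ j, x j ^ k j ∂(μ n)) atTop (𝓝 (∏ j : Fin r, mmt j (k j)))) (t : Fin r → ℝ) :
    Tendsto (fun n => cf (μ n) t) atTop (𝓝 (cf (gam r) t)) := by
  have hM : ∀ m : ℕ, Tendsto (fun n => ∫ x, lf t x ^ m ∂(μ n)) atTop (𝓝 (∫ x, lf t x ^ m ∂(gam r))) := by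
    intro m
    rw [AllInt.lf_mom (μ := gam r) gam_integrable]
    simp only [fun n => (hint n).lf_mom t m]
    refine tendsto_finsetSum _ fun k _ => Tendsto.const_mul _ ?_
    rw [gam_mom]
    exact hmom k
  rw [Metric.tendsto_atTop]
  intro ε hε
  obtain ⟨N, hN⟩ := ((Metric.tendsto_atTop.1 (gam_small t)) (ε / 8) (by positivity))
  have hN' := hN N le_rfl
  rw [Real.dist_eq, sub_zero] at hN'
  have hN2 := (abs_lt.1 hN').2
  -- the truncated sums
  have hS : Tendsto (fun n => ∑ m ∈ range (2 * N), (Complex.I ^ m / (m.factorial : ℂ)) * ((∫ x, lf t x ^ m ∂(μ n) : ℝ) : ℂ)) atTop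
      (𝓝 (∑ m ∈ range (2 * N), (Complex.I ^ m / (m.factorial : ℂ)) * ((∫ x, lf t x ^ m ∂(gam r) : ℝ) : ℂ))) :=
    tendsto_finsetSum _ fun m _ => Tendsto.const_mul _ ((Complex.continuous_ofReal.tendsto _).comp (hM m))
  obtain ⟨n₁, hn₁⟩ := (Metric.tendsto_atTop.1 hS) (ε / 4) (by positivity)
  obtain ⟨n₂, hn₂⟩ := (Metric.tendsto_atTop.1 ((hM (2 * N)).div_const ((2 * N).factorial : ℝ))) (ε / 8) (by positivity)
  refine ⟨max n₁ n₂, fun n hn => ?_⟩
  have h1 := hn₁ n ((le_max_left _ _).trans hn)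
  have h2 := hn₂ n ((le_max_right _ _).trans hn)
  rw [Real.dist_eq] at h2
  have h2' := (abs_lt.1 h2).2
  have h3 := cf_near (hint n) t N
  have h4 := cf_near (μ := gam r) gam_integrable t N
  rw [dist_eq_norm] at h1 ⊢
  obtain ⟨A, hA⟩ : ∃ A : ℂ, A = ∑ m ∈ range (2 * N), (Complex.I ^ m / (m.factorial : ℂ)) * ((∫ x, lf t x ^ m ∂(μ n) : ℝ) : ℂ) := ⟨_, rfl⟩
  obtain ⟨B, hB⟩ : ∃ B : ℂ, B = ∑ m ∈ range (2 * N), (Complex.I ^ m / (m.factorial : ℂ)) * ((∫ x, lf t x ^ m ∂(gam r) : ℝ) : ℂ) := ⟨_, rfl⟩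
  rw [← hA] at h1 h3
  rw [← hB] at h1 h4
  have e : cf (μ n) t - cf (gam r) t = (cf (μ n) t - A) + (A - B) - (cf (gam r) t - B) := by ring
  rw [e]
  refine (norm_sub_le _ _).trans_lt ?_
  have h5 := norm_add_le (cf (μ n) t - A) (A - B)
  linarith

/-- the measures on the euclidean space -/
noncomputable def toE (μ : Measure (Fin r → ℝ)) : Measure (EuclideanSpace ℝ (Fin r)) := μ.map (WithLp.toLp 2)

instance (μ : Measure (Fin r → ℝ)) [IsProbabilityMeasure μ] : IsProbabilityMeasure (toE μ) :=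
  Measure.isProbabilityMeasure_map (WithLp.measurable_toLp 2 _).aemeasurable

lemma charFun_toE (μ : Measure (Fin r → ℝ)) (t : EuclideanSpace ℝ (Fin r)) : charFun (toE μ) t = cf μ t := by
  rw [charFun_apply]
  unfold toE cf
  rw [integral_map (WithLp.measurable_toLp 2 _).aemeasurable (Continuous.aestronglyMeasurable (by fun_prop))]
  congr 1
  funext x
  congr 2
  rw [PiLp.inner_apply]
  unfold lf
  push_cast
  refine sum_congr rfl fun j _ => ?_
  simp [mul_comm]

/-- bundling -/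
def pm {Ω : Type} [MeasurableSpace Ω] (μ : Measure Ω) (h : IsProbabilityMeasure μ) : ProbabilityMeasure Ω := ⟨μ, h⟩

/-- **weak convergence** -/
theorem weak (μ : ℕ → Measure (Fin r → ℝ)) (hμ : ∀ n, IsProbabilityMeasure (μ n)) (hint : ∀ n, AllInt (μ n))
    (hmom : ∀ k : Fin r → ℕ, Tendsto (fun n => ∫ x, ∏ j, x j ^ k j ∂(μ n)) atTop (𝓝 (∏ j : Fin r, mmt j (k j)))) :
    Tendsto (fun n => pm (μ n) (hμ n)) atTop (𝓝 (pm (gam r) inferInstance)) := by
  have h1 : Tendsto (fun n => pm (toE (μ n)) inferInstance) atTop (𝓝 (pm (toE (gam r)) inferInstance)) := by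
    refine ProbabilityMeasure.tendsto_of_tendsto_charFun fun t => ?_
    have h0 : ∀ n, charFun ((pm (toE (μ n)) inferInstance : ProbabilityMeasure (EuclideanSpace ℝ (Fin r))) : Measure (EuclideanSpace ℝ (Fin r))) t = cf (μ n) t := fun n => charFun_toE (μ n) t
    have h0' : charFun ((pm (toE (gam r)) inferInstance : ProbabilityMeasure (EuclideanSpace ℝ (Fin r))) : Measure (EuclideanSpace ℝ (Fin r))) t = cf (gam r) t := charFun_toE (gam r) t
    rw [h0']
    simp only [h0]
    exact cf_tendsto μ hint hmom t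
  have h2 := ProbabilityMeasure.tendsto_map_of_tendsto_of_continuous _ _ h1 (PiLp.continuous_ofLp 2 (fun _ : Fin r => ℝ))
  have h3 : ∀ (ν : Measure (Fin r → ℝ)), (toE ν).map WithLp.ofLp = ν := by
    intro ν
    unfold toE
    rw [Measure.map_map (WithLp.measurable_ofLp 2 _) (WithLp.measurable_toLp 2 _)]
    have : (WithLp.ofLp ∘ WithLp.toLp 2 : (Fin r → ℝ) → (Fin r → ℝ)) = id := by
      funext x
      rfl
    rw [this, Measure.map_id]
  have h4 : ∀ (ν : Measure (Fin r → ℝ)) (hν : IsProbabilityMeasure ν),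
      (pm (toE ν) inferInstance).map (PiLp.continuous_ofLp 2 (fun _ : Fin r => ℝ)).aemeasurable = pm ν hν := by
    intro ν hν
    apply Subtype.ext
    exact h3 ν
  rw [h4 (gam r) inferInstance] at h2
  simp only [fun n => h4 (μ n) (hμ n)] at h2
  exact h2

end

end H35GS
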