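import Pool.Agent.H35J.GS.Lim1

/-!
# The joint distribution functions of the coefficients
-/

set_option autoImplicit false
set_option linter.unusedSectionVars false

namespace H35GS

open MeasureTheory ProbabilityTheory Filter Topology Finset
open scoped NNReal ENNReal

/-- the coefficients with the power sums `s`: `(i + 1) a_(i+1) = - ∑ s_(j+1) a_(i-j)` -/
noncomputable def coef (s : ℕ → ℝ) : ℕ → ℝ
  | 0 => 1
  | i + 1 => -(∑ j : Fin (i + 1), s (j + 1) * coef s (i - j)) / (i + 1)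

lemma coef_zero (s : ℕ → ℝ) : coef s 0 = 1 := by
  unfold coef
  rfl

lemma coef_succ (s : ℕ → ℝ) (i : ℕ) : coef s (i + 1) = -(∑ j : Fin (i + 1), s (j + 1) * coef s (i - j)) / (i + 1) := by
  conv_lhs => unfold coef

/-- only the first power sums matter -/
lemma coef_congr {s s' : ℕ → ℝ} (n : ℕ) (h : ∀ m, m < n → s (m + 1) = s' (m + 1)) : ∀ i, i ≤ n → coef s i = coef s' i := by
  intro i
  induction i using Nat.strong_induction_on with
  | _ i ih =>
    intro hi
    rcases i with _ | i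
    · rw [coef_zero, coef_zero]
    · rw [coef_succ, coef_succ]
      congr 2
      refine sum_congr rfl fun j _ => ?_
      rw [h j (by omega), ih (i - j) (by omega) (by omega)]

/-- the dependence on the last power sum -/
lemma coef_last {s s' : ℕ → ℝ} (i : ℕ) (h : ∀ m, m < i → s (m + 1) = s' (m + 1)) : coef s (i + 1) + s (i + 1) / (i + 1) = coef s' (i + 1) + s' (i + 1) / (i + 1) := by
  have h1 : ∀ s : ℕ → ℝ, coef s (i + 1) + s (i + 1) / (i + 1) = -(∑ j ∈ range i, s (j + 1) * coef s (i - j)) / (i + 1) := by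
    intro s
    rw [coef_succ, Fin.sum_univ_eq_sum_range (fun j => s (j + 1) * coef s (i - j)), sum_range_succ, Nat.sub_self, coef_zero]
    ring
  rw [h1, h1]
  congr 2
  refine sum_congr rfl fun j hj => ?_
  rw [mem_range] at hj
  rw [h j hj, coef_congr i h (i - j) (by omega)]

section

variable {r : ℕ}

/-- the sequence with the given first terms -/
noncomputable def exs (x : Fin r → ℝ) (m : ℕ) : ℝ := if h : m - 1 < r then x ⟨m - 1, h⟩ else 0

lemma exs_succ (x : Fin r → ℝ) (j : Fin r) : exs x ((j : ℕ) + 1) = x j := by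
  unfold exs
  rw [dif_pos (by simp)]
  congr 1

lemma exs_cont (m : ℕ) : Continuous fun x : Fin r → ℝ => exs x m := by
  unfold exs
  split_ifs
  · exact continuous_apply _
  · exact continuous_const

/-- the coefficients as functions of the power sums -/
noncomputable def AA (x : Fin r → ℝ) (i : Fin r) : ℝ := coef (exs x) (i + 1)

lemma coef_cont (i : ℕ) : Continuous fun x : Fin r → ℝ => coef (exs x) i := by
  induction i using Nat.strong_induction_on with
  | _ i ih =>
    rcases i with _ | i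
    · simp only [coef_zero]
      exact continuous_const
    · simp only [coef_succ]
      have : Continuous fun x : Fin r → ℝ => ∑ j : Fin (i + 1), exs x (j + 1) * coef (exs x) (i - j) :=
        continuous_finsetSum _ fun j _ => (exs_cont _).mul (ih (i - j) (by omega))
      exact this.neg.div_const _

lemma AA_cont : Continuous (AA : (Fin r → ℝ) → (Fin r → ℝ)) := continuous_pi fun i => coef_cont _

lemma AA_update (x x' : Fin r → ℝ) (i : Fin r) (h : ∀ j, j ≠ i → x j = x' j) : AA x i + x i / (i + 1) = AA x' i + x' i / (i + 1) := by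
  unfold AA
  rw [← exs_succ x i, ← exs_succ x' i]
  refine coef_last (i : ℕ) fun m hm => ?_
  have hm2 : m < r := by omega
  have h1 := exs_succ x ⟨m, hm2⟩
  have h2 := exs_succ x' ⟨m, hm2⟩
  rw [show (m : ℕ) = ((⟨m, hm2⟩ : Fin r) : ℕ) from rfl, h1, h2]
  refine h _ fun h' => ?_
  rw [← h'] at hm
  exact absurd hm (lt_irrefl _)

end

/-- the density is at most `1` -/
lemma gj_le (j : ℕ) : gj j ≤ volume := by
  unfold gj
  have hv : ((j : ℝ≥0) + 1) ≠ 0 := by positivity
  rw [gaussianReal_of_var_ne_zero _ hv]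
  refine (withDensity_mono (ae_of_all _ fun x => ?_)).trans (le_of_eq (withDensity_one))
  rw [Pi.one_apply]
  unfold gaussianPDF
  rw [ENNReal.ofReal_le_one]
  unfold gaussianPDFReal
  have h1 : (Real.sqrt (2 * Real.pi * ((j : ℝ≥0) + 1 : ℝ≥0)))⁻¹ ≤ 1 := by
    refine inv_le_one_of_one_le₀ (Real.one_le_sqrt.2 ?_)
    push_cast
    have := Real.pi_gt_three
    have h2 : (0 : ℝ) ≤ j := Nat.cast_nonneg _
    nlinarith
  have h2 : Real.exp (-(x - -eta j) ^ 2 / (2 * ((j : ℝ≥0) + 1 : ℝ≥0))) ≤ 1 := by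
    rw [Real.exp_le_one_iff]
    refine div_nonpos_of_nonpos_of_nonneg ?_ (by positivity)
    have := sq_nonneg (x - -eta j)
    linarith
  calc _ ≤ 1 * 1 := mul_le_mul h1 h2 (Real.exp_pos _).le zero_le_one
    _ = 1 := one_mul 1

/-- the coefficients have bounded densities -/
lemma gam_strip {r : ℕ} (i : Fin r) (c δ : ℝ) (hδ : 0 ≤ δ) : gam r {x | c < AA x i ∧ AA x i ≤ c + δ} ≤ ENNReal.ofReal (r * δ) := by
  obtain ⟨n, rfl⟩ : ∃ n, r = n + 1 := ⟨r - 1, by have := i.2; omega⟩
  have hmeas : MeasurableSet {x : Fin (n + 1) → ℝ | c < AA x i ∧ AA x i ≤ c + δ} := by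
    have h1 : Measurable fun x : Fin (n + 1) → ℝ => AA x i := ((continuous_apply i).comp AA_cont).measurable
    exact (measurableSet_lt measurable_const h1).inter (measurableSet_le h1 measurable_const)
  obtain ⟨e, he⟩ : ∃ e, e = MeasurableEquiv.piFinSuccAbove (fun _ : Fin (n + 1) => ℝ) i := ⟨_, rfl⟩
  have hmp := measurePreserving_piFinSuccAbove (fun j : Fin (n + 1) => gj j) i
  rw [← he] at hmp
  obtain ⟨T, hT⟩ : ∃ T : Set (ℝ × (Fin n → ℝ)), T = {q | c < AA (e.symm q) i ∧ AA (e.symm q) i ≤ c + δ} := ⟨_, rfl⟩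
  have hTm : MeasurableSet T := by
    rw [hT]
    exact hmeas.preimage e.symm.measurable
  have h1 : {x : Fin (n + 1) → ℝ | c < AA x i ∧ AA x i ≤ c + δ} = e ⁻¹' T := by
    ext x
    rw [hT, Set.mem_preimage, Set.mem_ofPred_eq, Set.mem_ofPred_eq, MeasurableEquiv.symm_apply_apply]
  have h2 : gam (n + 1) {x | c < AA x i ∧ AA x i ≤ c + δ} = ((gj i).prod (Measure.pi fun j : Fin n => gj (i.succAbove j))) T := by
    rw [h1]
    exact hmp.measure_preimage hTm.nullMeasurableSet
  rw [h2, Measure.prod_apply_symm hTm]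
  refine (lintegral_mono (g := fun _ => ENNReal.ofReal (((n + 1 : ℕ) : ℝ) * δ)) fun z => ?_).trans (by simp)
  refine (gj_le i _).trans ?_
  obtain ⟨b, hb⟩ : ∃ b : ℝ, b = AA (e.symm (0, z)) i := ⟨_, rfl⟩
  have hsy : ∀ (y : ℝ), (e.symm (y, z)) i = y ∧ ∀ j, j ≠ i → (e.symm (y, z)) j = (e.symm (0, z)) j := by
    intro y
    rw [he]
    simp only [MeasurableEquiv.piFinSuccAbove_symm_apply]
    refine ⟨by simp [Fin.insertNthEquiv], fun j hj => ?_⟩
    obtain ⟨k, rfl⟩ := Fin.exists_succAbove_eq hj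
    simp [Fin.insertNthEquiv]
  have h3 : ∀ y : ℝ, AA (e.symm (y, z)) i = b - y / (i + 1) := by
    intro y
    have h4 := AA_update (e.symm (y, z)) (e.symm (0, z)) i fun j hj => (hsy y).2 j hj
    rw [(hsy y).1, (hsy 0).1, ← hb, zero_div, add_zero] at h4
    linarith
  have hi0 : (0 : ℝ) < ((i : ℕ) : ℝ) + 1 := by positivity
  have h4 : (fun y : ℝ => (y, z)) ⁻¹' T ⊆ Set.Icc ((b - c - δ) * (i + 1)) ((b - c) * (i + 1)) := by
    intro y hy
    rw [hT] at hy
    obtain ⟨h5, h6⟩ := hy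
    change c < AA (e.symm (y, z)) i at h5
    change AA (e.symm (y, z)) i ≤ c + δ at h6
    rw [h3] at h5 h6
    constructor
    · rw [← le_div_iff₀ hi0]
      linarith
    · rw [← div_le_iff₀ hi0]
      linarith
  refine (measure_mono h4).trans ?_
  rw [Real.volume_Icc]
  refine ENNReal.ofReal_le_ofReal ?_
  have h5 : ((i : ℕ) : ℝ) + 1 ≤ ((n + 1 : ℕ) : ℝ) := by
    have : (i : ℕ) + 1 ≤ n + 1 := i.2
    exact_mod_cast this
  have h6 : (b - c) * (((i : ℕ) : ℝ) + 1) - (b - c - δ) * (((i : ℕ) : ℝ) + 1) = (((i : ℕ) : ℝ) + 1) * δ := by ring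
  rw [h6]
  exact mul_le_mul_of_nonneg_right h5 hδ

section

variable {r : ℕ}

/-- the orthants -/
def Ort (x : Fin r → ℝ) : Set (Fin r → ℝ) := {y | ∀ i, y i ≤ x i}

lemma ort_meas (x : Fin r → ℝ) : MeasurableSet (Ort x) := by
  unfold Ort
  rw [Set.ofPred_forall]
  exact MeasurableSet.iInter fun i => measurableSet_le (measurable_pi_apply i) measurable_const

/-- the law of the coefficients -/
noncomputable def lam (μ : Measure (Fin r → ℝ)) : Measure (Fin r → ℝ) := μ.map AA

lemma lam_apply (μ : Measure (Fin r → ℝ)) (s : Set (Fin r → ℝ)) (hs : MeasurableSet s) : lam μ s = μ {x | AA x ∈ s} := by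
  unfold lam
  rw [Measure.map_apply AA_cont.measurable hs]
  rfl

/-- the modulus of continuity of the joint distribution function -/
lemma lam_gam_add (x : Fin r → ℝ) (δ : ℝ) (hδ : 0 ≤ δ) : lam (gam r) (Ort fun i => x i + δ) ≤ lam (gam r) (Ort x) + ENNReal.ofReal (r * r * δ) := by
  rw [lam_apply _ _ (ort_meas _), lam_apply _ _ (ort_meas _)]
  have h1 : {y : Fin r → ℝ | AA y ∈ Ort fun i => x i + δ} ⊆ {y | AA y ∈ Ort x} ∪ ⋃ i ∈ (univ : Finset (Fin r)), {y | x i < AA y i ∧ AA y i ≤ x i + δ} := by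
    intro y hy
    by_cases h : ∀ i, AA y i ≤ x i
    · exact Or.inl h
    · push Not at h
      obtain ⟨i, hi⟩ := h
      refine Or.inr ?_
      rw [Set.mem_iUnion₂]
      exact ⟨i, mem_univ i, hi, hy i⟩
  refine (measure_mono h1).trans ((measure_union_le _ _).trans (add_le_add le_rfl ?_))
  refine (measure_biUnion_finset_le _ _).trans ?_
  refine (sum_le_sum fun i _ => gam_strip i (x i) δ hδ).trans ?_
  have h2 : ENNReal.ofReal ((r : ℝ) * r * δ) = (r : ℝ≥0∞) * ENNReal.ofReal (r * δ) := by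
    rw [mul_assoc, ENNReal.ofReal_mul (p := (r : ℝ)) (q := r * δ) (Nat.cast_nonneg r), ENNReal.ofReal_natCast]
  rw [sum_const, card_univ, Fintype.card_fin, nsmul_eq_mul, h2]

lemma ort_thick (x : Fin r → ℝ) (δ : ℝ) : Metric.thickening δ (Ort x) ⊆ Ort fun i => x i + δ := by
  intro y hy
  rw [Metric.mem_thickening_iff] at hy
  obtain ⟨z, hz, hyz⟩ := hy
  intro i
  have h1 : dist (y i) (z i) ≤ dist y z := dist_le_pi_dist y z i
  rw [Real.dist_eq] at h1
  have h2 := le_abs_self (y i - z i)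
  have h3 := hz i
  show y i ≤ x i + δ
  linarith

/-- **uniform convergence of the joint distribution functions** -/
theorem kol (μ : ℕ → Measure (Fin r → ℝ)) (hμ : ∀ n, IsProbabilityMeasure (μ n)) (hint : ∀ n, AllInt (μ n))
    (hmom : ∀ k : Fin r → ℕ, Tendsto (fun n => ∫ x, ∏ j, x j ^ k j ∂(μ n)) atTop (𝓝 (∏ j : Fin r, mmt j (k j)))) (ε : ℝ) (hε : 0 < ε) :
    ∃ n₀ : ℕ, ∀ n, n₀ ≤ n → ∀ x : Fin r → ℝ, |(μ n).real {y | AA y ∈ Ort x} - (gam r).real {y | AA y ∈ Ort x}| ≤ ε := by
  have h1 := weak μ hμ hint hmom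
  have h2 := ProbabilityMeasure.tendsto_map_of_tendsto_of_continuous _ _ h1 (AA_cont (r := r))
  have h3 := (LevyProkhorov.continuous_ofMeasure_probabilityMeasure (Ω := Fin r → ℝ)).tendsto ((pm (gam r) inferInstance).map (AA_cont (r := r)).aemeasurable)
  have h4 := h3.comp h2
  obtain ⟨δ, hδ⟩ : ∃ δ : ℝ, δ = ε / ((r : ℝ) * r + 1) := ⟨_, rfl⟩
  have hr0 : (0 : ℝ) < (r : ℝ) * r + 1 := by positivity
  have hδ0 : 0 < δ := by
    rw [hδ]
    positivity
  obtain ⟨n₀, hn₀⟩ := (EMetric.tendsto_atTop.1 h4) (ENNReal.ofReal δ) (ENNReal.ofReal_pos.2 hδ0)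
  refine ⟨n₀, fun n hn x => ?_⟩
  have h5 := hn₀ n hn
  rw [Function.comp_apply, LevyProkhorov.edist_probabilityMeasure_def] at h5
  have h6 : levyProkhorovEDist (lam (μ n)) (lam (gam r)) < ENNReal.ofReal δ := h5
  have hδr : (ENNReal.ofReal δ).toReal = δ := ENNReal.toReal_ofReal hδ0.le
  have hg : IsProbabilityMeasure (lam (gam r)) := Measure.isProbabilityMeasure_map AA_cont.aemeasurable
  have hm : IsProbabilityMeasure (lam (μ n)) := by
    have := hμ n
    exact Measure.isProbabilityMeasure_map AA_cont.aemeasurable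
  -- from above
  have hup : lam (μ n) (Ort x) ≤ lam (gam r) (Ort x) + ENNReal.ofReal ε := by
    have h7 := left_measure_le_of_levyProkhorovEDist_lt h6 (ort_meas x)
    rw [hδr] at h7
    refine h7.trans ?_
    refine (add_le_add ((measure_mono (ort_thick x δ)).trans (lam_gam_add x δ hδ0.le)) le_rfl).trans ?_
    rw [add_assoc, ← ENNReal.ofReal_add (by positivity) hδ0.le]
    refine add_le_add le_rfl (ENNReal.ofReal_le_ofReal (le_of_eq ?_))
    rw [hδ]
    field_simp
  have hlo : lam (gam r) (Ort x) ≤ lam (μ n) (Ort x) + ENNReal.ofReal ε := by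
    have h7 := right_measure_le_of_levyProkhorovEDist_lt h6 (ort_meas (fun i => x i - δ))
    rw [hδr] at h7
    have h8 := lam_gam_add (fun i => x i - δ) δ hδ0.le
    have e : (fun i => x i - δ + δ) = x := by
      funext i
      ring
    rw [e] at h8
    refine h8.trans ((add_le_add h7 le_rfl).trans ?_)
    have h9 := ort_thick (fun i => x i - δ) δ
    rw [e] at h9
    refine (add_le_add (add_le_add (measure_mono h9) le_rfl) le_rfl).trans ?_
    rw [add_assoc, ← ENNReal.ofReal_add hδ0.le (by positivity)]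
    refine add_le_add le_rfl (ENNReal.ofReal_le_ofReal (le_of_eq ?_))
    rw [hδ]
    field_simp
    ring
  have e1 : (μ n).real {y | AA y ∈ Ort x} = (lam (μ n) (Ort x)).toReal := by
    rw [lam_apply _ _ (ort_meas x)]
    rfl
  have e2 : (gam r).real {y | AA y ∈ Ort x} = (lam (gam r) (Ort x)).toReal := by
    rw [lam_apply _ _ (ort_meas x)]
    rfl
  have key : ∀ a b : ℝ≥0∞, a ≠ ∞ → b ≠ ∞ → a ≤ b + ENNReal.ofReal ε → a.toReal ≤ b.toReal + ε := by
    intro a b ha hb h
    have := ENNReal.toReal_mono (ENNReal.add_ne_top.2 ⟨hb, ENNReal.ofReal_ne_top⟩) h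
    rwa [ENNReal.toReal_add hb ENNReal.ofReal_ne_top, ENNReal.toReal_ofReal hε.le] at this
  rw [e1, e2, abs_le]
  have h7 := key _ _ (measure_ne_top _ _) (measure_ne_top _ _) hup
  have h8 := key _ _ (measure_ne_top _ _) (measure_ne_top _ _) hlo
  constructor <;> linarith

/-- **finitely many moments determine the joint distribution function of the coefficients up to `ε`** -/
theorem lemC (r : ℕ) (ε : ℝ) (hε : 0 < ε) : ∃ N : ℕ, ∀ μ : Measure (Fin r → ℝ), IsProbabilityMeasure μ → AllInt μ →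
    (∀ k : Fin r → ℕ, (∀ j, k j ≤ N) → |∫ x, ∏ j, x j ^ k j ∂μ - ∏ j : Fin r, mmt j (k j)| ≤ 1 / (N + 1)) →
    ∀ x : Fin r → ℝ, |μ.real {y | AA y ∈ Ort x} - (gam r).real {y | AA y ∈ Ort x}| ≤ ε := by
  by_contra hcon
  push Not at hcon
  choose μ hμ hint hmom x hx using hcon
  have htend : ∀ k : Fin r → ℕ, Tendsto (fun n => ∫ x, ∏ j, x j ^ k j ∂(μ n)) atTop (𝓝 (∏ j : Fin r, mmt j (k j))) := by
    intro k
    rw [tendsto_iff_dist_tendsto_zero]
    have h1 : Tendsto (fun n : ℕ => 1 / ((n : ℝ) + 1)) atTop (𝓝 0) := tendsto_one_div_add_atTop_nhds_zero_nat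
    refine squeeze_zero' (Eventually.of_forall fun n => dist_nonneg) ?_ h1
    filter_upwards [eventually_ge_atTop (∑ j, k j)] with n hn
    rw [Real.dist_eq]
    exact hmom n k fun j => (single_le_sum (f := k) (fun _ _ => Nat.zero_le _) (mem_univ j)).trans hn
  obtain ⟨n₀, hn₀⟩ := kol μ hμ hint htend ε hε
  exact absurd (hn₀ n₀ le_rfl (x n₀)) (not_le.2 (hx n₀))

end

end H35GS
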