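import Pool.Agent.H35J.GS.Lim1

/-!
# Convergence of the joint moments to those of independent normal variables implies weak convergence: general index types
-/

set_option autoImplicit false
set_option linter.unusedSectionVars false

namespace H35GS.Gn

open MeasureTheory ProbabilityTheory Filter Topology Finset
open Q282MM (gm)
open scoped NNReal

section

variable {ι : Type} [Fintype ι] [DecidableEq ι] (d : ι → ℕ)

/-- the joint law of the independent normal variables -/
noncomputable def gam : Measure (ι → ℝ) := Measure.pi fun j : ι => gj (d j)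

instance : IsProbabilityMeasure (gam d) := by
  unfold gam
  infer_instance

variable {d}

lemma gam_integrable (k : ι → ℕ) : Integrable (fun x : ι → ℝ => ∏ j, x j ^ k j) (gam d) :=
  Integrable.fintype_prod_dep fun j => gj_integrable (d j) (k j)

lemma gam_mom (k : ι → ℕ) : ∫ x, ∏ j, x j ^ k j ∂(gam d) = ∏ j : ι, mmt (d j) (k j) := by
  unfold gam
  rw [integral_fintype_prod_eq_prod (fun (j : ι) (x : ℝ) => x ^ k j)]
  exact prod_congr rfl fun j _ => gj_mom (d j) (k j)

/-- the linear forms -/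
noncomputable def lf (t x : ι → ℝ) : ℝ := ∑ j, x j * t j

lemma lf_pow (t x : ι → ℝ) (m : ℕ) :
    lf t x ^ m = ∑ k ∈ piAntidiag univ m, ((Nat.multinomial univ k : ℝ) * ∏ j, t j ^ k j) * ∏ j, x j ^ k j := by
  unfold lf
  rw [sum_pow_eq_sum_piAntidiag]
  refine sum_congr rfl fun k _ => ?_
  simp only [mul_pow]
  rw [prod_mul_distrib]
  ring

/-- all the moments exist -/
def AllInt (μ : Measure (ι → ℝ)) : Prop := ∀ k : ι → ℕ, Integrable (fun x => ∏ j, x j ^ k j) μ

variable {μ : Measure (ι → ℝ)}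

lemma AllInt.lf (h : AllInt μ) (t : ι → ℝ) (m : ℕ) : Integrable (fun x => lf t x ^ m) μ := by
  simp only [lf_pow]
  exact integrable_finsetSum _ fun k _ => (h k).const_mul _

lemma AllInt.lf_mom (h : AllInt μ) (t : ι → ℝ) (m : ℕ) :
    ∫ x, H35GS.Gn.lf t x ^ m ∂μ = ∑ k ∈ piAntidiag univ m, ((Nat.multinomial univ k : ℝ) * ∏ j, t j ^ k j) * ∫ x, ∏ j, x j ^ k j ∂μ := by
  simp only [lf_pow]
  rw [integral_finsetSum _ fun k _ => (h k).const_mul _]
  exact sum_congr rfl fun k _ => integral_const_mul _ _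

/-- the characteristic function -/
noncomputable def cf (μ : Measure (ι → ℝ)) (t : ι → ℝ) : ℂ := ∫ x, Complex.exp ((lf t x : ℂ) * Complex.I) ∂μ

lemma cont_lf (t : ι → ℝ) : Continuous fun x : ι → ℝ => lf t x := by
  unfold lf
  fun_prop

lemma cf_near [IsProbabilityMeasure μ] (h : AllInt μ) (t : ι → ℝ) (N : ℕ) :
    ‖cf μ t - ∑ m ∈ range (2 * N), (Complex.I ^ m / (m.factorial : ℂ)) * ((∫ x, lf t x ^ m ∂μ : ℝ) : ℂ)‖ ≤ (∫ x, lf t x ^ (2 * N) ∂μ) / (2 * N).factorial := by
  have h0 : Integrable (fun x : ι → ℝ => Complex.exp ((lf t x : ℂ) * Complex.I)) μ := by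
    refine Integrable.of_bound (Continuous.aestronglyMeasurable (by have := cont_lf t; fun_prop)) 1 (ae_of_all _ fun x => ?_)
    rw [Complex.norm_exp_ofReal_mul_I]
  have h1 : ∀ m : ℕ, Integrable (fun x : ι → ℝ => ((lf t x : ℂ) * Complex.I) ^ m / (m.factorial : ℂ)) μ := by
    intro m
    have h2 : (fun x : ι → ℝ => ((lf t x : ℂ) * Complex.I) ^ m / (m.factorial : ℂ)) = fun x => (Complex.I ^ m / (m.factorial : ℂ)) * ((lf t x ^ m : ℝ) : ℂ) := by
      funext x
      rw [mul_pow]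
      push_cast
      ring
    rw [h2]
    exact (h.lf t m).ofReal.const_mul _
  have h2 : cf μ t - ∑ m ∈ range (2 * N), (Complex.I ^ m / (m.factorial : ℂ)) * ((∫ x, lf t x ^ m ∂μ : ℝ) : ℂ) =
      ∫ x, (Complex.exp ((lf t x : ℂ) * Complex.I) - ∑ m ∈ range (2 * N), ((lf t x : ℂ) * Complex.I) ^ m / (m.factorial : ℂ)) ∂μ := by
    rw [integral_sub h0 (integrable_finsetSum _ fun m _ => h1 m), integral_finsetSum _ fun m _ => h1 m]
    unfold cf
    congr 1
    refine sum_congr rfl fun m _ => ?_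
    rw [← integral_complex_ofReal, ← integral_const_mul]
    congr 1
    funext x
    rw [mul_pow]
    push_cast
    ring
  rw [h2, ← integral_div]
  refine norm_integral_le_of_norm_le ((h.lf t (2 * N)).div_const _) (ae_of_all _ fun x => ?_)
  refine (Q282.CL.taylor (lf t x) (2 * N)).trans (le_of_eq ?_)
  rw [pow_mul, sq_abs, ← pow_mul]

/-- the exponential moments of the normal variables -/
lemma gam_exp (t : ι → ℝ) : Integrable (fun x => Real.exp |lf t x|) (gam d) := by
  have h1 : Integrable (fun x : ι → ℝ => ∏ j, (Real.exp (t j * x j) + Real.exp (-t j * x j))) (gam d) :=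
    Integrable.fintype_prod_dep (f := fun (j : ι) (y : ℝ) => Real.exp (t j * y) + Real.exp (-t j * y))
      fun j => (integrable_exp_mul_gaussianReal (t j)).add (integrable_exp_mul_gaussianReal (-t j))
  refine h1.mono' (Continuous.aestronglyMeasurable (by have := cont_lf t; fun_prop)) (ae_of_all _ fun x => ?_)
  rw [Real.norm_eq_abs, abs_of_pos (Real.exp_pos _)]
  have h2 : |lf t x| ≤ ∑ j, |x j * t j| := abs_sum_le_sum_abs _ _
  refine (Real.exp_le_exp.2 h2).trans ?_
  rw [Real.exp_sum]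
  refine prod_le_prod (fun j _ => (Real.exp_pos _).le) fun j _ => ?_
  rcases abs_cases (x j * t j) with ⟨h3, _⟩ | ⟨h3, _⟩
  · rw [h3, mul_comm]
    linarith [Real.exp_pos (-t j * x j)]
  · rw [h3, show -(x j * t j) = -t j * x j by ring]
    linarith [Real.exp_pos (t j * x j)]

lemma gam_small (t : ι → ℝ) : Tendsto (fun N : ℕ => (∫ x, lf t x ^ (2 * N) ∂(gam d)) / (2 * N).factorial) atTop (𝓝 0) := by
  have h1 : Tendsto (fun N : ℕ => ∫ x, lf t x ^ (2 * N) / (2 * N).factorial ∂(gam d)) atTop (𝓝 (∫ _ : ι → ℝ, (0 : ℝ) ∂(gam d))) := by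
    refine tendsto_integral_of_dominated_convergence (fun x => Real.exp |lf t x|) (fun N => Continuous.aestronglyMeasurable (by have := cont_lf t; fun_prop))
      (gam_exp t) (fun N => ae_of_all _ fun x => ?_) (ae_of_all _ fun x => ?_)
    · have h2 := Real.pow_div_factorial_le_exp |lf t x| (abs_nonneg _) (2 * N)
      rw [Real.norm_eq_abs, abs_div, abs_pow, Nat.abs_cast]
      exact h2
    · exact (FloorSemiring.tendsto_pow_div_factorial_atTop (lf t x)).comp (tendsto_id.const_mul_atTop' (by norm_num : 0 < 2))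
  simpa [integral_div] using h1

/-- the convergence of the characteristic functions -/
theorem cf_tendsto (μ : ℕ → Measure (ι → ℝ)) [∀ n, IsProbabilityMeasure (μ n)] (hint : ∀ n, AllInt (μ n))
    (hmom : ∀ k : ι → ℕ, Tendsto (fun n => ∫ x, ∏ j, x j ^ k j ∂(μ n)) atTop (𝓝 (∏ j : ι, mmt (d j) (k j)))) (t : ι → ℝ) :
    Tendsto (fun n => cf (μ n) t) atTop (𝓝 (cf (gam d) t)) := by
  have hM : ∀ m : ℕ, Tendsto (fun n => ∫ x, lf t x ^ m ∂(μ n)) atTop (𝓝 (∫ x, lf t x ^ m ∂(gam d))) := by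
    intro m
    rw [AllInt.lf_mom (μ := gam d) gam_integrable]
    simp only [fun n => (hint n).lf_mom t m]
    refine tendsto_finsetSum _ fun k _ => Tendsto.const_mul _ ?_
    rw [gam_mom]
    exact hmom k
  rw [Metric.tendsto_atTop]
  intro ε hε
  obtain ⟨N, hN⟩ := ((Metric.tendsto_atTop.1 (gam_small (d := d) t)) (ε / 8) (by positivity))
  have hN' := hN N le_rfl
  rw [Real.dist_eq, sub_zero] at hN'
  have hN2 := (abs_lt.1 hN').2
  -- the truncated sums
  have hS : Tendsto (fun n => ∑ m ∈ range (2 * N), (Complex.I ^ m / (m.factorial : ℂ)) * ((∫ x, lf t x ^ m ∂(μ n) : ℝ) : ℂ)) atTop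
      (𝓝 (∑ m ∈ range (2 * N), (Complex.I ^ m / (m.factorial : ℂ)) * ((∫ x, lf t x ^ m ∂(gam d) : ℝ) : ℂ))) :=
    tendsto_finsetSum _ fun m _ => Tendsto.const_mul _ ((Complex.continuous_ofReal.tendsto _).comp (hM m))
  obtain ⟨n₁, hn₁⟩ := (Metric.tendsto_atTop.1 hS) (ε / 4) (by positivity)
  obtain ⟨n₂, hn₂⟩ := (Metric.tendsto_atTop.1 ((hM (2 * N)).div_const ((2 * N).factorial : ℝ))) (ε / 8) (by positivity)
  refine ⟨max n₁ n₂, fun n hn => ?_⟩
  have h1 := hn₁ n ((le_max_left _ _).trans hn)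
  have h2 := hn₂ n ((le_max_right _ _).trans hn)
  rw [Real.dist_eq] at h2
  have h2' := (abs_lt.1 h2).2
  have h3 := cf_near (hint n) t N
  have h4 := cf_near (μ := gam d) gam_integrable t N
  rw [dist_eq_norm] at h1 ⊢
  obtain ⟨A, hA⟩ : ∃ A : ℂ, A = ∑ m ∈ range (2 * N), (Complex.I ^ m / (m.factorial : ℂ)) * ((∫ x, lf t x ^ m ∂(μ n) : ℝ) : ℂ) := ⟨_, rfl⟩
  obtain ⟨B, hB⟩ : ∃ B : ℂ, B = ∑ m ∈ range (2 * N), (Complex.I ^ m / (m.factorial : ℂ)) * ((∫ x, lf t x ^ m ∂(gam d) : ℝ) : ℂ) := ⟨_, rfl⟩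
  rw [← hA] at h1 h3
  rw [← hB] at h1 h4
  have e : cf (μ n) t - cf (gam d) t = (cf (μ n) t - A) + (A - B) - (cf (gam d) t - B) := by ring
  rw [e]
  refine (norm_sub_le _ _).trans_lt ?_
  have h5 := norm_add_le (cf (μ n) t - A) (A - B)
  linarith

/-- the measures on the euclidean space -/
noncomputable def toE (μ : Measure (ι → ℝ)) : Measure (EuclideanSpace ℝ (ι)) := μ.map (WithLp.toLp 2)

instance (μ : Measure (ι → ℝ)) [IsProbabilityMeasure μ] : IsProbabilityMeasure (toE μ) :=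
  Measure.isProbabilityMeasure_map (WithLp.measurable_toLp 2 _).aemeasurable

lemma charFun_toE (μ : Measure (ι → ℝ)) (t : EuclideanSpace ℝ (ι)) : charFun (toE μ) t = cf μ t := by
  rw [charFun_apply]
  unfold toE cf
  rw [integral_map (WithLp.measurable_toLp 2 _).aemeasurable (Continuous.aestronglyMeasurable (by fun_prop))]
  congr 1
  funext x
  congr 2
  rw [PiLp.inner_apply]
  unfold lf
  push_cast
  refine sum_congr rfl fun j _ => ?_
  simp [mul_comm]

/-- bundling -/
def pm {Ω : Type} [MeasurableSpace Ω] (μ : Measure Ω) (h : IsProbabilityMeasure μ) : ProbabilityMeasure Ω := ⟨μ, h⟩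

/-- **weak convergence** -/
theorem weak (μ : ℕ → Measure (ι → ℝ)) (hμ : ∀ n, IsProbabilityMeasure (μ n)) (hint : ∀ n, AllInt (μ n))
    (hmom : ∀ k : ι → ℕ, Tendsto (fun n => ∫ x, ∏ j, x j ^ k j ∂(μ n)) atTop (𝓝 (∏ j : ι, mmt (d j) (k j)))) :
    Tendsto (fun n => pm (μ n) (hμ n)) atTop (𝓝 (pm (gam d) inferInstance)) := by
  have h1 : Tendsto (fun n => pm (toE (μ n)) inferInstance) atTop (𝓝 (pm (toE (gam d)) inferInstance)) := by
    refine ProbabilityMeasure.tendsto_of_tendsto_charFun fun t => ?_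
    have h0 : ∀ n, charFun ((pm (toE (μ n)) inferInstance : ProbabilityMeasure (EuclideanSpace ℝ (ι))) : Measure (EuclideanSpace ℝ (ι))) t = cf (μ n) t := fun n => charFun_toE (μ n) t
    have h0' : charFun ((pm (toE (gam d)) inferInstance : ProbabilityMeasure (EuclideanSpace ℝ (ι))) : Measure (EuclideanSpace ℝ (ι))) t = cf (gam d) t := charFun_toE (gam d) t
    rw [h0']
    simp only [h0]
    exact cf_tendsto μ hint hmom t
  have h2 := ProbabilityMeasure.tendsto_map_of_tendsto_of_continuous _ _ h1 (PiLp.continuous_ofLp 2 (fun _ : ι => ℝ))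
  have h3 : ∀ (ν : Measure (ι → ℝ)), (toE ν).map WithLp.ofLp = ν := by
    intro ν
    unfold toE
    rw [Measure.map_map (WithLp.measurable_ofLp 2 _) (WithLp.measurable_toLp 2 _)]
    have : (WithLp.ofLp ∘ WithLp.toLp 2 : (ι → ℝ) → (ι → ℝ)) = id := by
      funext x
      rfl
    rw [this, Measure.map_id]
  have h4 : ∀ (ν : Measure (ι → ℝ)) (hν : IsProbabilityMeasure ν),
      (pm (toE ν) inferInstance).map (PiLp.continuous_ofLp 2 (fun _ : ι => ℝ)).aemeasurable = pm ν hν := by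
    intro ν hν
    apply Subtype.ext
    exact h3 ν
  rw [h4 (gam d) inferInstance] at h2
  simp only [fun n => h4 (μ n) (hμ n)] at h2
  exact h2

end

end H35GS.Gn
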