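import Mathlib

/-!
# Loop equations for the Haar measure of the compact symplectic group: algebra and differentiation
-/

set_option autoImplicit false
set_option linter.unusedSectionVars false

namespace H35GS

open Matrix MeasureTheory

/-- the matrices of size `2 g` -/
abbrev MM (g : ℕ) := Matrix (Fin g ⊕ Fin g) (Fin g ⊕ Fin g) ℂ

variable {g : ℕ}

/-- the compact symplectic group -/
structure US (U : MM g) : Prop where
  un : Uᴴ * U = 1
  sy : Uᵀ * J (Fin g) ℂ * U = J (Fin g) ℂ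

lemma US.un' {U : MM g} (h : US U) : U * Uᴴ = 1 := mul_eq_one_comm.1 h.un

lemma US.entry {U : MM g} (h : US U) (i j : Fin g ⊕ Fin g) : ‖U i j‖ ≤ 1 :=
  entry_norm_bound_of_unitary (mem_unitaryGroup_iff'.2 h.un) i j

lemma US.mul {U V : MM g} (hU : US U) (hV : US V) : US (U * V) where
  un := by
    rw [conjTranspose_mul, Matrix.mul_assoc, ← Matrix.mul_assoc Uᴴ, hU.un, Matrix.one_mul, hV.un]
  sy := by
    rw [transpose_mul]
    calc Vᵀ * Uᵀ * J (Fin g) ℂ * (U * V) = Vᵀ * (Uᵀ * J (Fin g) ℂ * U) * V := by simp only [Matrix.mul_assoc]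
      _ = J (Fin g) ℂ := by rw [hU.sy, hV.sy]

lemma JJ : J (Fin g) ℂ * J (Fin g) ℂ = -1 := J_squared (Fin g) ℂ

lemma US.tj {U : MM g} (h : US U) : Uᵀ * J (Fin g) ℂ = J (Fin g) ℂ * Uᴴ := by
  have h1 : Uᵀ * J (Fin g) ℂ * U * Uᴴ = J (Fin g) ℂ * Uᴴ := by rw [h.sy]
  rwa [Matrix.mul_assoc, h.un', Matrix.mul_one] at h1

lemma US.tj_pow {U : MM g} (h : US U) (l : ℕ) : (Uᵀ) ^ l * J (Fin g) ℂ = J (Fin g) ℂ * (Uᴴ) ^ l := by
  induction l with
  | zero => simp
  | succ l ih => rw [pow_succ, Matrix.mul_assoc, h.tj, ← Matrix.mul_assoc, ih, Matrix.mul_assoc, ← pow_succ]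

lemma US.jtj {U : MM g} (h : US U) (l : ℕ) : J (Fin g) ℂ * (U ^ l)ᵀ * J (Fin g) ℂ = -(Uᴴ) ^ l := by
  rw [transpose_pow, Matrix.mul_assoc, h.tj_pow, ← Matrix.mul_assoc, JJ, neg_mul, Matrix.one_mul]

/-- the absolute difference -/
def ad (a b : ℕ) : ℕ := (a - b) + (b - a)

lemma US.tr_star {U : MM g} (h : US U) (m : ℕ) : ((Uᴴ) ^ m).trace = (U ^ m).trace := by
  have h1 : (Uᴴ) ^ m = -(J (Fin g) ℂ * (U ^ m)ᵀ * J (Fin g) ℂ) := by rw [h.jtj, neg_neg]
  rw [h1, trace_neg, trace_mul_comm, ← Matrix.mul_assoc, JJ, neg_mul, Matrix.one_mul, trace_neg, neg_neg, trace_transpose]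

lemma US.star_mul_pow {U : MM g} (h : US U) (b c : ℕ) : (Uᴴ) ^ b * U ^ (b + c) = U ^ c := by
  induction b with
  | zero => simp
  | succ b ih =>
    rw [pow_succ, show b + 1 + c = (b + c) + 1 by ring, pow_succ', Matrix.mul_assoc, ← Matrix.mul_assoc Uᴴ, h.un, Matrix.one_mul, ih]

lemma US.star_pow_mul {U : MM g} (h : US U) (b c : ℕ) : (Uᴴ) ^ (b + c) * U ^ b = (Uᴴ) ^ c := by
  induction b with
  | zero => simp
  | succ b ih =>
    rw [show b + 1 + c = (b + c) + 1 by ring, pow_succ, pow_succ' U, Matrix.mul_assoc, ← Matrix.mul_assoc Uᴴ, h.un, Matrix.one_mul, ih]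

lemma US.tr_ad {U : MM g} (h : US U) (a b : ℕ) : ((Uᴴ) ^ b * U ^ a).trace = (U ^ (ad a b)).trace := by
  unfold ad
  rcases le_total a b with hab | hab
  · obtain ⟨c, rfl⟩ := Nat.exists_eq_add_of_le hab
    rw [h.star_pow_mul, h.tr_star]
    congr 2
    omega
  · obtain ⟨c, rfl⟩ := Nat.exists_eq_add_of_le hab
    rw [h.star_mul_pow]
    congr 2
    omega

/-- the generators -/
def XX (i j : Fin g ⊕ Fin g) : MM g := Matrix.single i j 1 + J (Fin g) ℂ * Matrix.single j i 1 * J (Fin g) ℂ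

lemma JT : (J (Fin g) ℂ)ᵀ = -J (Fin g) ℂ := J_transpose (Fin g) ℂ

lemma XX_sp (i j : Fin g ⊕ Fin g) : (XX i j)ᵀ * J (Fin g) ℂ + J (Fin g) ℂ * XX i j = 0 := by
  unfold XX
  rw [transpose_add, transpose_mul, transpose_mul, JT, transpose_single, transpose_single]
  have h1 : (Matrix.single j i (1 : ℂ) + -J (Fin g) ℂ * (Matrix.single i j 1 * -J (Fin g) ℂ)) * J (Fin g) ℂ + J (Fin g) ℂ * (Matrix.single i j 1 + J (Fin g) ℂ * Matrix.single j i 1 * J (Fin g) ℂ) =
      Matrix.single j i (1 : ℂ) * J (Fin g) ℂ + J (Fin g) ℂ * Matrix.single i j 1 * (J (Fin g) ℂ * J (Fin g) ℂ) + (J (Fin g) ℂ * Matrix.single i j 1 + (J (Fin g) ℂ * J (Fin g) ℂ) * Matrix.single j i 1 * J (Fin g) ℂ) := by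
    noncomm_ring
  rw [h1, JJ]
  noncomm_ring

lemma single_entry (A B : MM g) (a b i j : Fin g ⊕ Fin g) : (A * Matrix.single a b (1 : ℂ) * B) i j = A i a * B b j := by
  rw [Matrix.mul_apply]
  rw [Finset.sum_eq_single b]
  · rw [Matrix.mul_single_apply_same, mul_one]
  · intro c _ hc
    rw [Matrix.mul_single_apply_of_ne _ _ _ _ _ hc, zero_mul]
  · intro h
    exact absurd (Finset.mem_univ _) h

/-- the first contraction -/
lemma contract_one (A B : MM g) : ∑ i, ∑ j, (A * XX i j * B : MM g) i j = A.trace * B.trace - (J (Fin g) ℂ * Aᵀ * J (Fin g) ℂ * B).trace := by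
  have h1 : ∀ i j : Fin g ⊕ Fin g, (A * XX i j * B : MM g) i j = A i i * B j j + (A * J (Fin g) ℂ) i j * (J (Fin g) ℂ * B) i j := by
    intro i j
    unfold XX
    have e : A * (Matrix.single i j 1 + J (Fin g) ℂ * Matrix.single j i 1 * J (Fin g) ℂ) * B =
        A * Matrix.single i j 1 * B + (A * J (Fin g) ℂ) * Matrix.single j i 1 * (J (Fin g) ℂ * B) := by
      noncomm_ring
    rw [e, Matrix.add_apply, single_entry, single_entry]
  simp only [h1, Finset.sum_add_distrib]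
  have h2 : ∑ i, ∑ j, A i i * B j j = A.trace * B.trace := by
    unfold Matrix.trace
    rw [Finset.sum_mul_sum]
    rfl
  have h3 : ∑ i, ∑ j, (A * J (Fin g) ℂ) i j * (J (Fin g) ℂ * B) i j = -(J (Fin g) ℂ * Aᵀ * J (Fin g) ℂ * B).trace := by
    have h4 : ((A * J (Fin g) ℂ)ᵀ * (J (Fin g) ℂ * B)).trace = ∑ i, ∑ j, (A * J (Fin g) ℂ) i j * (J (Fin g) ℂ * B) i j := by
      unfold Matrix.trace
      simp only [Matrix.diag_apply, Matrix.mul_apply (M := (A * J (Fin g) ℂ)ᵀ), Matrix.transpose_apply]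
      rw [Finset.sum_comm]
    rw [← h4, transpose_mul, JT, neg_mul, neg_mul, trace_neg]
    simp only [Matrix.mul_assoc]
  rw [h2, h3]
  ring

/-- the second contraction -/
lemma contract_two (A B : MM g) : ∑ i, ∑ j, A i j * (XX i j * B).trace = (A * B).trace + (J (Fin g) ℂ * Aᵀ * J (Fin g) ℂ * B).trace := by
  have h1 : ∀ i j : Fin g ⊕ Fin g, (XX i j * B).trace = B j i + (J (Fin g) ℂ * B * J (Fin g) ℂ) i j := by
    intro i j
    unfold XX
    have e : (Matrix.single i j 1 + J (Fin g) ℂ * Matrix.single j i 1 * J (Fin g) ℂ) * B =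
        Matrix.single i j 1 * B + J (Fin g) ℂ * (Matrix.single j i 1 * (J (Fin g) ℂ * B)) := by
      noncomm_ring
    have h2 : ∀ (a b : Fin g ⊕ Fin g) (C : MM g), (Matrix.single a b (1 : ℂ) * C).trace = C b a := by
      intro a b C
      unfold Matrix.trace
      rw [Finset.sum_eq_single a]
      · rw [Matrix.diag_apply, Matrix.single_mul_apply_same, one_mul]
      · intro c _ hc
        rw [Matrix.diag_apply, Matrix.single_mul_apply_of_ne _ _ _ _ _ hc]
      · intro h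
        exact absurd (Finset.mem_univ _) h
    rw [e, trace_add, h2, trace_mul_comm (J (Fin g) ℂ), Matrix.mul_assoc, h2]
  simp only [h1, mul_add, Finset.sum_add_distrib]
  congr 1
  · have h4 : (J (Fin g) ℂ * Aᵀ * J (Fin g) ℂ * B).trace = (Aᵀ * (J (Fin g) ℂ * B * J (Fin g) ℂ)).trace := by
      rw [Matrix.mul_assoc, Matrix.mul_assoc, trace_mul_comm]
      simp only [Matrix.mul_assoc]
    rw [h4]
    unfold Matrix.trace
    simp only [Matrix.diag_apply, Matrix.mul_apply (M := Aᵀ), Matrix.transpose_apply]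
    rw [Finset.sum_comm]

/-- the product of the traces of powers -/
noncomputable def TP (L : List ℕ) (U : MM g) : ℂ := (L.map fun m => (U ^ m).trace).prod

lemma TP_nil (U : MM g) : TP [] U = 1 := by
  unfold TP
  simp

lemma TP_cons (m : ℕ) (L : List ℕ) (U : MM g) : TP (m :: L) U = (U ^ m).trace * TP L U := by
  unfold TP
  simp

/-- its derivative in the direction `X U` -/
noncomputable def dP (X U : MM g) : List ℕ → ℂ
  | [] => 0
  | m :: L => m * (X * U ^ m).trace * TP L U + (U ^ m).trace * dP X U L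

/-- the derivative of the entries of the powers -/
noncomputable def dW (X U : MM g) (k : ℕ) : MM g := ∑ l ∈ Finset.range k, U ^ l * X * U ^ (k - l)

/-- the derivative -/
noncomputable def QQ (k : ℕ) (L : List ℕ) (i j : Fin g ⊕ Fin g) (X U : MM g) : ℂ :=
  dW X U k i j * TP L U + (U ^ k) i j * dP X U L

/-- the contracted derivative of the product -/
noncomputable def TDD (k : ℕ) (U : MM g) : List ℕ → ℂ
  | [] => 0
  | m :: L => m * ((U ^ (k + m)).trace - (U ^ (ad m k)).trace) * TP L U + (U ^ m).trace * TDD k U L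

lemma sum_dW {U : MM g} (h : US U) (k : ℕ) : ∑ i, ∑ j, dW (XX i j) U k i j = ∑ l ∈ Finset.range k, ((U ^ l).trace * (U ^ (k - l)).trace + (U ^ (ad (k - l) l)).trace) := by
  unfold dW
  simp only [Matrix.sum_apply]
  have h1 : ∑ i, ∑ j, ∑ l ∈ Finset.range k, (U ^ l * XX i j * U ^ (k - l) : MM g) i j = ∑ l ∈ Finset.range k, ∑ i, ∑ j, (U ^ l * XX i j * U ^ (k - l) : MM g) i j := by
    have h2 : ∀ i : Fin g ⊕ Fin g, ∑ j, ∑ l ∈ Finset.range k, (U ^ l * XX i j * U ^ (k - l) : MM g) i j = ∑ l ∈ Finset.range k, ∑ j, (U ^ l * XX i j * U ^ (k - l) : MM g) i j :=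
      fun i => Finset.sum_comm
    simp only [h2]
    exact Finset.sum_comm
  rw [h1]
  refine Finset.sum_congr rfl fun l _ => ?_
  rw [contract_one, h.jtj, neg_mul, trace_neg, h.tr_ad]
  ring

lemma sum_dP {U : MM g} (h : US U) (k : ℕ) (L : List ℕ) : ∑ i, ∑ j, (U ^ k) i j * dP (XX i j) U L = TDD k U L := by
  induction L with
  | nil => simp [dP, TDD]
  | cons m L ih =>
    unfold dP TDD
    rw [← ih]
    have h1 := contract_two (U ^ k) (U ^ m)
    rw [h.jtj, neg_mul, trace_neg, h.tr_ad, ← pow_add, ← sub_eq_add_neg] at h1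
    rw [← h1, Finset.mul_sum, Finset.sum_mul, Finset.mul_sum, ← Finset.sum_add_distrib]
    refine Finset.sum_congr rfl fun i _ => ?_
    rw [Finset.mul_sum, Finset.sum_mul, Finset.mul_sum, ← Finset.sum_add_distrib]
    refine Finset.sum_congr rfl fun j _ => ?_
    ring

end H35GS
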