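import Pool.Agent.H35J.GS.Loop

/-!
# Loop equations for the Haar measure of the compact symplectic group: integration
-/

set_option autoImplicit false
set_option linter.unusedSectionVars false

namespace H35GS

open Matrix MeasureTheory Topology

variable {g : ℕ}

lemma dW_succ (X U : MM g) (k : ℕ) : dW X U (k + 1) = dW X U k * U + U ^ k * (X * U) := by
  unfold dW
  rw [Finset.sum_range_succ, Finset.sum_mul]
  congr 1
  · refine Finset.sum_congr rfl fun l hl => ?_
    rw [Finset.mem_range] at hl
    rw [show k + 1 - l = (k - l) + 1 by omega, pow_succ U (k - l)]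
    simp only [Matrix.mul_assoc]
  · rw [show k + 1 - k = 1 by omega, pow_one, Matrix.mul_assoc]

lemma trace_dW (X U : MM g) (k : ℕ) : (dW X U k).trace = k * (X * U ^ k).trace := by
  unfold dW
  rw [trace_sum, Finset.sum_congr rfl (g := fun _ => (X * U ^ k).trace), Finset.sum_const, Finset.card_range, nsmul_eq_mul]
  intro l hl
  rw [Finset.mem_range] at hl
  rw [Matrix.mul_assoc, trace_mul_comm, Matrix.mul_assoc, ← pow_add, show k - l + l = k by omega]

section curve

variable (X : MM g) (V : ℝ → MM g) (hV : ∀ s i j, HasDerivAt (fun s => V s i j) ((X * V s) i j) s)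

include hV

lemma deriv_pow (k : ℕ) (s : ℝ) (i j : Fin g ⊕ Fin g) : HasDerivAt (fun s => (V s ^ k) i j) (dW X (V s) k i j) s := by
  induction k generalizing i j with
  | zero =>
    have h1 : dW X (V s) 0 i j = 0 := by simp [dW]
    rw [h1]
    simp only [pow_zero]
    exact hasDerivAt_const _ _
  | succ k ih =>
    have h1 : (fun s => (V s ^ (k + 1)) i j) = fun s => ∑ a, (V s ^ k) i a * V s a j := by
      funext s
      rw [pow_succ, Matrix.mul_apply]
    have h2 : dW X (V s) (k + 1) i j = ∑ a, (dW X (V s) k i a * V s a j + (V s ^ k) i a * (X * V s) a j) := by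
      rw [dW_succ, Matrix.add_apply, Matrix.mul_apply, Matrix.mul_apply, Finset.sum_add_distrib]
    rw [h1, h2]
    exact HasDerivAt.fun_sum fun a _ => (ih i a).mul (hV s a j)

lemma deriv_trace (m : ℕ) (s : ℝ) : HasDerivAt (fun s => (V s ^ m).trace) (m * (X * V s ^ m).trace) s := by
  rw [← trace_dW]
  exact HasDerivAt.fun_sum fun a _ => deriv_pow X V hV m s a a

lemma deriv_TP (L : List ℕ) (s : ℝ) : HasDerivAt (fun s => TP L (V s)) (dP X (V s) L) s := by
  induction L with
  | nil =>
    simp only [TP_nil]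
    exact hasDerivAt_const _ _
  | cons m L ih =>
    simp only [TP_cons]
    exact (deriv_trace X V hV m s).mul ih

lemma deriv_QQ (k : ℕ) (L : List ℕ) (i j : Fin g ⊕ Fin g) (s : ℝ) :
    HasDerivAt (fun s => (V s ^ k) i j * TP L (V s)) (QQ k L i j X (V s)) s :=
  (deriv_pow X V hV k s i j).mul (deriv_TP X V hV L s)

end curve

lemma exp_curve (X U : MM g) (s : ℝ) (i j : Fin g ⊕ Fin g) :
    HasDerivAt (fun s : ℝ => (NormedSpace.exp (s • X) * U) i j) ((X * (NormedSpace.exp (s • X) * U)) i j) s := by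
  let _ : NormedRing (MM g) := Matrix.linftyOpNormedRing
  let _ : NormedAlgebra ℝ (MM g) := Matrix.linftyOpNormedAlgebra
  have h := hasDerivAt_exp_smul_const' (𝕂 := ℝ) X s
  obtain ⟨φ, hφ⟩ : ∃ φ : MM g →ₗ[ℝ] ℂ, ∀ M, φ M = (M * U) i j := ⟨{
    toFun := fun M => (M * U) i j
    map_add' := fun M N => by rw [Matrix.add_mul, Matrix.add_apply]
    map_smul' := fun c M => by rw [Matrix.smul_mul, Matrix.smul_apply]; rfl }, fun M => rfl⟩
  have h2 := (LinearMap.toContinuousLinearMap φ).hasFDerivAt.comp_hasDerivAt s h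
  have e2 : (LinearMap.toContinuousLinearMap φ) (X * NormedSpace.exp (s • X)) = (X * (NormedSpace.exp (s • X) * U)) i j := by
    rw [← Matrix.mul_assoc]
    exact hφ _
  exact (h2.congr_deriv e2).congr_of_eventuallyEq (Filter.Eventually.of_forall fun u => (hφ _).symm)

/-- the one-parameter groups -/
lemma exp_US (X : MM g) (hX : Xᴴ = -X) (hJ : Xᵀ * J (Fin g) ℂ + J (Fin g) ℂ * X = 0) (s : ℝ) : US (NormedSpace.exp (s • X)) := by
  have h1 : IsUnit (J (Fin g) ℂ) := (Matrix.isUnit_iff_isUnit_det _).2 (isUnit_det_J (Fin g) ℂ)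
  obtain ⟨A, hA⟩ : ∃ A : MM g, A = s • X := ⟨_, rfl⟩
  have hA1 : Aᴴ = -A := by
    rw [hA, conjTranspose_smul, hX, star_trivial, smul_neg]
  have hA2 : Aᵀ * J (Fin g) ℂ + J (Fin g) ℂ * A = 0 := by
    rw [hA, transpose_smul, Matrix.smul_mul, Matrix.mul_smul, ← smul_add, hJ, smul_zero]
  rw [← hA]
  have hinv : NormedSpace.exp (-A) * NormedSpace.exp A = 1 := by
    rw [← Matrix.exp_add_of_commute _ _ (Commute.neg_left (Commute.refl A)), neg_add_cancel, NormedSpace.exp_zero]
  refine ⟨?_, ?_⟩
  · rw [← Matrix.exp_conjTranspose, hA1]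
    exact hinv
  · have h2 : (J (Fin g) ℂ)⁻¹ * Aᵀ * J (Fin g) ℂ = -A := by
      have h3 : Aᵀ * J (Fin g) ℂ = -(J (Fin g) ℂ * A) := eq_neg_of_add_eq_zero_left hA2
      rw [Matrix.mul_assoc, h3, Matrix.mul_neg, ← Matrix.mul_assoc, Matrix.nonsing_inv_mul _ (isUnit_det_J (Fin g) ℂ), Matrix.one_mul]
    have h4 := Matrix.exp_conj' (J (Fin g) ℂ) Aᵀ h1
    rw [h2, Matrix.exp_transpose] at h4
    have h5 : (NormedSpace.exp A)ᵀ * J (Fin g) ℂ = J (Fin g) ℂ * NormedSpace.exp (-A) := by
      rw [h4, ← Matrix.mul_assoc, ← Matrix.mul_assoc, Matrix.mul_nonsing_inv _ (isUnit_det_J (Fin g) ℂ), Matrix.one_mul]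
    rw [h5, Matrix.mul_assoc, hinv, Matrix.mul_one]

lemma cont_trace (m : ℕ) : Continuous fun U : MM g => (U ^ m).trace := by fun_prop

lemma cont_TP (L : List ℕ) : Continuous fun U : MM g => TP L U := by
  induction L with
  | nil =>
    simp only [TP_nil]
    exact continuous_const
  | cons m L ih =>
    simp only [TP_cons]
    exact (cont_trace m).mul ih

lemma cont_dP (X : MM g) (L : List ℕ) : Continuous fun U : MM g => dP X U L := by
  induction L with
  | nil =>
    simp only [dP]
    exact continuous_const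
  | cons m L ih =>
    simp only [dP]
    have h1 := cont_TP (g := g) L
    have h2 := cont_trace (g := g) m
    have h3 : Continuous fun U : MM g => (X * U ^ m).trace := by fun_prop
    exact ((continuous_const.mul h3).mul h1).add (h2.mul ih)

lemma cont_QQ (k : ℕ) (L : List ℕ) (i j : Fin g ⊕ Fin g) (X : MM g) : Continuous fun U : MM g => QQ k L i j X U := by
  unfold QQ dW
  have h1 := cont_TP (g := g) L
  have h2 := cont_dP (g := g) X L
  have h3 : Continuous fun U : MM g => (∑ l ∈ Finset.range k, U ^ l * X * U ^ (k - l)) i j := by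
    have : Continuous fun U : MM g => (∑ l ∈ Finset.range k, U ^ l * X * U ^ (k - l)) := by fun_prop
    exact this.matrix_elem i j
  have h4 : Continuous fun U : MM g => (U ^ k) i j := by
    have : Continuous fun U : MM g => U ^ k := by fun_prop
    exact this.matrix_elem i j
  exact (h3.mul h1).add (h4.mul h2)

lemma bdd_US (F : MM g → ℂ) (hF : Continuous F) : ∃ B : ℝ, ∀ U, US U → ‖F U‖ ≤ B := by
  have hK : IsCompact (Set.pi Set.univ fun _ : Fin g ⊕ Fin g => Set.pi Set.univ fun _ : Fin g ⊕ Fin g => Metric.closedBall (0 : ℂ) 1) :=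
    isCompact_univ_pi fun _ => isCompact_univ_pi fun _ => isCompact_closedBall 0 1
  obtain ⟨B, hB⟩ := hK.exists_bound_of_continuousOn (f := F) hF.continuousOn
  exact ⟨B, fun U hU => hB U (Set.mem_univ_pi.2 fun i => Set.mem_univ_pi.2 fun j => mem_closedBall_zero_iff.2 (hU.entry i j))⟩

noncomputable instance instMeasMM : MeasurableSpace (MM g) := borel _

instance instBorelMM : BorelSpace (MM g) := ⟨rfl⟩

/-- the Haar probability measure of the compact symplectic group -/
structure Haar (ν : Measure (MM g)) : Prop where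
  prob : IsProbabilityMeasure ν
  supp : ∀ᵐ U ∂ν, US U
  inv : ∀ V, US V → ν.map (fun U => V * U) = ν

variable {ν : Measure (MM g)}

lemma Haar.integrable (hν : Haar ν) (F : MM g → ℂ) (hF : Continuous F) : Integrable F ν := by
  have := hν.prob
  obtain ⟨B, hB⟩ := bdd_US F hF
  refine Integrable.of_bound hF.aestronglyMeasurable B ?_
  filter_upwards [hν.supp] with U hU
  exact hB U hU

lemma Haar.integral_mul (hν : Haar ν) (F : MM g → ℂ) (hF : Continuous F) (V : MM g) (hV : US V) : ∫ U, F (V * U) ∂ν = ∫ U, F U ∂ν := by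
  have h1 : Measurable fun U : MM g => V * U := (Continuous.matrix_mul continuous_const continuous_id).measurable
  conv_rhs => rw [← hν.inv V hV]
  rw [integral_map h1.aemeasurable (hF.aestronglyMeasurable)]

/-- **integration by parts** -/
theorem int_QQ (hν : Haar ν) (k : ℕ) (L : List ℕ) (i j : Fin g ⊕ Fin g) (X : MM g) (hX : Xᴴ = -X)
    (hJ : Xᵀ * J (Fin g) ℂ + J (Fin g) ℂ * X = 0) : ∫ U, QQ k L i j X U ∂ν = 0 := by
  have := hν.prob
  obtain ⟨F, hF⟩ : ∃ F : MM g → ℂ, F = fun U => (U ^ k) i j * TP L U := ⟨_, rfl⟩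
  have hFc : Continuous F := by
    rw [hF]
    have h4 : Continuous fun U : MM g => (U ^ k) i j := by
      have : Continuous fun U : MM g => U ^ k := by fun_prop
      exact this.matrix_elem i j
    exact h4.mul (cont_TP L)
  have hmul : ∀ s : ℝ, Continuous fun U : MM g => NormedSpace.exp (s • X) * U := fun s => Continuous.matrix_mul continuous_const continuous_id
  obtain ⟨B, hB⟩ := bdd_US (fun U => QQ k L i j X U) (cont_QQ k L i j X)
  have h1 := hasDerivAt_integral_of_dominated_loc_of_deriv_le (μ := ν) (𝕜 := ℝ) (F := fun s U => F (NormedSpace.exp (s • X) * U))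
    (F' := fun s U => QQ k L i j X (NormedSpace.exp (s • X) * U)) (x₀ := 0) (s := Set.univ) (bound := fun _ => B) Filter.univ_mem
    (Filter.Eventually.of_forall fun s => (hFc.comp (hmul s)).aestronglyMeasurable)
    (hν.integrable _ (hFc.comp (hmul 0)))
    ((cont_QQ k L i j X).comp (hmul 0)).aestronglyMeasurable
    (by
      filter_upwards [hν.supp] with U hU s _
      exact hB _ ((exp_US X hX hJ s).mul hU))
    (integrable_const _)
    (by
      filter_upwards with U s _
      rw [hF]
      exact deriv_QQ X (fun s => NormedSpace.exp (s • X) * U) (fun s i j => exp_curve X U s i j) k L i j s)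
  have h2 : (fun s : ℝ => ∫ U, F (NormedSpace.exp (s • X) * U) ∂ν) = fun _ => ∫ U, F U ∂ν := by
    funext s
    exact hν.integral_mul F hFc _ (exp_US X hX hJ s)
  have h3 := h1.2
  rw [h2] at h3
  have h4 := h3.unique (hasDerivAt_const _ _)
  simp only [zero_smul, NormedSpace.exp_zero, Matrix.one_mul] at h4
  exact h4

end H35GS
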