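import Pool.Agent.H35J.GS.Loop2

/-!
# The loop equations
-/

set_option autoImplicit false
set_option linter.unusedSectionVars false

namespace H35GS

open Matrix MeasureTheory Topology

variable {g : ℕ}

lemma dW_add (X Y U : MM g) (k : ℕ) : dW (X + Y) U k = dW X U k + dW Y U k := by
  unfold dW
  rw [← Finset.sum_add_distrib]
  exact Finset.sum_congr rfl fun l _ => by rw [mul_add, add_mul]

lemma dW_smul (c : ℂ) (X U : MM g) (k : ℕ) : dW (c • X) U k = c • dW X U k := by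
  unfold dW
  rw [Finset.smul_sum]
  exact Finset.sum_congr rfl fun l _ => by rw [Matrix.mul_smul, Matrix.smul_mul]

lemma dP_add (X Y U : MM g) (L : List ℕ) : dP (X + Y) U L = dP X U L + dP Y U L := by
  induction L with
  | nil => simp [dP]
  | cons m L ih =>
    simp only [dP]
    rw [ih, add_mul, trace_add]
    ring

lemma dP_smul (c : ℂ) (X U : MM g) (L : List ℕ) : dP (c • X) U L = c * dP X U L := by
  induction L with
  | nil => simp [dP]
  | cons m L ih =>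
    simp only [dP]
    rw [ih, Matrix.smul_mul, trace_smul, smul_eq_mul]
    ring

lemma QQ_add (k : ℕ) (L : List ℕ) (i j : Fin g ⊕ Fin g) (X Y U : MM g) : QQ k L i j (X + Y) U = QQ k L i j X U + QQ k L i j Y U := by
  unfold QQ
  rw [dW_add, dP_add, Matrix.add_apply]
  ring

lemma QQ_smul (k : ℕ) (L : List ℕ) (i j : Fin g ⊕ Fin g) (c : ℂ) (X U : MM g) : QQ k L i j (c • X) U = c * QQ k L i j X U := by
  unfold QQ
  rw [dW_smul, dP_smul, Matrix.smul_apply, smul_eq_mul]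
  ring

lemma JH : (J (Fin g) ℂ)ᴴ = -J (Fin g) ℂ := by
  unfold Matrix.J
  rw [fromBlocks_conjTranspose, fromBlocks_neg]
  simp

variable {ν : Measure (MM g)}

/-- integration by parts for the complex Lie algebra -/
theorem int_QQ_sp (hν : Haar ν) (k : ℕ) (L : List ℕ) (i j : Fin g ⊕ Fin g) (X : MM g)
    (hJ : Xᵀ * J (Fin g) ℂ + J (Fin g) ℂ * X = 0) : ∫ U, QQ k L i j X U ∂ν = 0 := by
  have hJ' : (Xᴴ)ᵀ * J (Fin g) ℂ + J (Fin g) ℂ * Xᴴ = 0 := by
    have h1 := congrArg conjTranspose hJ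
    rw [conjTranspose_add, conjTranspose_mul, conjTranspose_mul, JH, conjTranspose_zero] at h1
    have h2 : Xᵀᴴ = (Xᴴ)ᵀ := by
      ext a b
      simp
    rw [h2] at h1
    have h3 : (Xᴴ)ᵀ * J (Fin g) ℂ + J (Fin g) ℂ * Xᴴ =
        J (Fin g) ℂ * (-J (Fin g) ℂ * (Xᴴ)ᵀ + Xᴴ * -J (Fin g) ℂ) * J (Fin g) ℂ + (J (Fin g) ℂ * J (Fin g) ℂ + 1) * (Xᴴ)ᵀ * J (Fin g) ℂ + J (Fin g) ℂ * Xᴴ * (J (Fin g) ℂ * J (Fin g) ℂ + 1) := by
      noncomm_ring
    rw [h3, h1, JJ]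
    simp
  obtain ⟨A, hA⟩ : ∃ A : MM g, A = (1 / 2 : ℂ) • (X - Xᴴ) := ⟨_, rfl⟩
  obtain ⟨B, hB⟩ : ∃ B : MM g, B = (-Complex.I / 2) • (X + Xᴴ) := ⟨_, rfl⟩
  have hX : X = A + Complex.I • B := by
    rw [hA, hB, smul_smul]
    have : Complex.I * (-Complex.I / 2) = 1 / 2 := by
      rw [mul_div_assoc', mul_neg, Complex.I_mul_I, neg_neg]
    rw [this, ← smul_add, sub_add_add_cancel, ← two_smul ℂ X, smul_smul]
    norm_num
  have hA1 : Aᴴ = -A := by
    rw [hA, conjTranspose_smul, conjTranspose_sub, conjTranspose_conjTranspose, ← smul_neg, neg_sub]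
    congr 1
    simp
  have hB1 : Bᴴ = -B := by
    rw [hB, conjTranspose_smul, conjTranspose_add, conjTranspose_conjTranspose, ← neg_smul, add_comm Xᴴ]
    congr 1
    simp
    ring
  have hA2 : Aᵀ * J (Fin g) ℂ + J (Fin g) ℂ * A = 0 := by
    rw [hA, transpose_smul, Matrix.smul_mul, Matrix.mul_smul, ← smul_add, transpose_sub, sub_mul, mul_sub]
    have : Xᵀ * J (Fin g) ℂ - (Xᴴ)ᵀ * J (Fin g) ℂ + (J (Fin g) ℂ * X - J (Fin g) ℂ * Xᴴ) = (Xᵀ * J (Fin g) ℂ + J (Fin g) ℂ * X) - ((Xᴴ)ᵀ * J (Fin g) ℂ + J (Fin g) ℂ * Xᴴ) := by abel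
    rw [this, hJ, hJ', sub_zero, smul_zero]
  have hB2 : Bᵀ * J (Fin g) ℂ + J (Fin g) ℂ * B = 0 := by
    rw [hB, transpose_smul, Matrix.smul_mul, Matrix.mul_smul, ← smul_add, transpose_add, add_mul, mul_add]
    have : Xᵀ * J (Fin g) ℂ + (Xᴴ)ᵀ * J (Fin g) ℂ + (J (Fin g) ℂ * X + J (Fin g) ℂ * Xᴴ) = (Xᵀ * J (Fin g) ℂ + J (Fin g) ℂ * X) + ((Xᴴ)ᵀ * J (Fin g) ℂ + J (Fin g) ℂ * Xᴴ) := by abel
    rw [this, hJ, hJ', add_zero, smul_zero]
  rw [hX]
  have h1 : (fun U => QQ k L i j (A + Complex.I • B) U) = fun U => QQ k L i j A U + Complex.I * QQ k L i j B U := by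
    funext U
    rw [QQ_add, QQ_smul]
  rw [h1, integral_add (hν.integrable _ (cont_QQ k L i j A)) ((hν.integrable _ (cont_QQ k L i j B)).const_mul _), integral_const_mul,
    int_QQ hν k L i j A hA1 hA2, int_QQ hν k L i j B hB1 hB2, mul_zero, add_zero]

/-- **the loop equations** -/
theorem loop (hν : Haar ν) (k : ℕ) (L : List ℕ) :
    ∫ U, ((∑ l ∈ Finset.range k, ((U ^ l).trace * (U ^ (k - l)).trace + (U ^ (ad (k - l) l)).trace)) * TP L U + TDD k U L) ∂ν = 0 := by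
  have h1 : ∫ U, ∑ i, ∑ j, QQ k L i j (XX i j) U ∂ν = 0 := by
    rw [integral_finsetSum _ fun i _ => integrable_finsetSum _ fun j _ => hν.integrable _ (cont_QQ k L i j (XX i j))]
    refine Finset.sum_eq_zero fun i _ => ?_
    rw [integral_finsetSum _ fun j _ => hν.integrable _ (cont_QQ k L i j (XX i j))]
    exact Finset.sum_eq_zero fun j _ => int_QQ_sp hν k L i j (XX i j) (XX_sp i j)
  rw [← h1]
  refine integral_congr_ae ?_
  filter_upwards [hν.supp] with U hU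
  rw [← sum_dW hU k, ← sum_dP hU k L]
  unfold QQ
  simp only [Finset.sum_add_distrib, Finset.sum_mul]

end H35GS
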