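import Pool.Agent.H35J.GS.Loop3

/-!
# Bounds for the joint moments of the traces, uniform in the genus
-/

set_option autoImplicit false
set_option linter.unusedSectionVars false

namespace H35GS

open Matrix MeasureTheory Topology

variable {g : ℕ}

lemma TP_append (M L : List ℕ) (U : MM g) : TP (M ++ L) U = TP M U * TP L U := by
  unfold TP
  rw [List.map_append, List.prod_append]

lemma trace_zero_pow (U : MM g) : (U ^ 0).trace = 2 * (g : ℂ) := by
  rw [pow_zero, trace_one, Fintype.card_sum, Fintype.card_fin]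
  push_cast
  ring

/-- the joint moments of the traces -/
noncomputable def ee (ν : Measure (MM g)) (L : List ℕ) : ℂ := ∫ U, TP L U ∂ν

/-- the contracted terms -/
noncomputable def ED (ν : Measure (MM g)) (k : ℕ) (M L : List ℕ) : ℂ := ∫ U, TP M U * TDD k U L ∂ν

variable {ν : Measure (MM g)}

lemma ee_zero (M L : List ℕ) : ee ν (M ++ 0 :: L) = 2 * (g : ℂ) * ee ν (M ++ L) := by
  unfold ee
  rw [← integral_const_mul]
  congr 1
  funext U
  rw [TP_append, TP_cons, trace_zero_pow, TP_append]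
  ring

lemma cont_TDD (k : ℕ) (L : List ℕ) : Continuous fun U : MM g => TDD k U L := by
  induction L with
  | nil =>
    simp only [TDD]
    exact continuous_const
  | cons m L ih =>
    simp only [TDD]
    exact ((continuous_const.mul ((cont_trace (k + m)).sub (cont_trace (ad m k)))).mul (cont_TP L)).add ((cont_trace m).mul ih)

lemma ED_nil (k : ℕ) (M : List ℕ) : ED ν k M [] = 0 := by
  unfold ED
  simp [TDD]

lemma ED_cons (hν : Haar ν) (k : ℕ) (M : List ℕ) (m : ℕ) (L : List ℕ) :
    ED ν k M (m :: L) = m * (ee ν (M ++ (k + m) :: L) - ee ν (M ++ ad m k :: L)) + ED ν k (M ++ [m]) L := by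
  unfold ED ee
  rw [← integral_sub (hν.integrable _ (cont_TP _)) (hν.integrable _ (cont_TP _)), ← integral_const_mul,
    ← integral_add (hν.integrable (fun U => (m : ℂ) * (TP (M ++ (k + m) :: L) U - TP (M ++ ad m k :: L) U)) (continuous_const.mul ((cont_TP _).sub (cont_TP _))))
      (hν.integrable (fun U => TP (M ++ [m]) U * TDD k U L) ((cont_TP _).mul (cont_TDD k L)))]
  congr 1
  funext U
  simp only [TDD]
  rw [TP_append, TP_append, TP_append, TP_cons, TP_cons, TP_cons, TP_nil]
  ring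

lemma ee_bound (hν : Haar ν) (L : List ℕ) : ‖ee ν L‖ ≤ (2 * (g : ℝ)) ^ L.length := by
  have := hν.prob
  have h1 : ∀ U : MM g, US U → ‖TP L U‖ ≤ (2 * (g : ℝ)) ^ L.length := by
    intro U hU
    induction L with
    | nil => simp [TP_nil]
    | cons m L ih =>
      rw [TP_cons, norm_mul, List.length_cons, pow_succ']
      refine mul_le_mul ?_ ih (norm_nonneg _) (by positivity)
      have h2 : US (U ^ m) := by
        induction m with
        | zero => exact ⟨by simp, by simp⟩
        | succ m ih => rw [pow_succ]; exact ih.mul hU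
      calc ‖(U ^ m).trace‖ ≤ ∑ i : Fin g ⊕ Fin g, ‖(U ^ m) i i‖ := norm_sum_le _ _
        _ ≤ ∑ i : Fin g ⊕ Fin g, (1 : ℝ) := Finset.sum_le_sum fun i _ => h2.entry i i
        _ = 2 * (g : ℝ) := by
          rw [Finset.sum_const, Finset.card_univ, Fintype.card_sum, Fintype.card_fin, nsmul_eq_mul, mul_one]
          push_cast
          ring
  unfold ee
  have h2 := norm_integral_le_of_norm_le_const (μ := ν) (f := fun U => TP L U) (C := (2 * (g : ℝ)) ^ L.length) (by
    filter_upwards [hν.supp] with U hU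
    exact h1 U hU)
  simpa using h2

/-- the loop equations for the moments -/
lemma loop_ee (hν : Haar ν) (k : ℕ) (L : List ℕ) :
    ∑ l ∈ Finset.range k, (ee ν (l :: (k - l) :: L) + ee ν (ad (k - l) l :: L)) + ED ν k [] L = 0 := by
  rw [← loop hν k L]
  unfold ED ee
  have h1 : ∀ l ∈ Finset.range k, ∫ U, TP (l :: (k - l) :: L) U ∂ν + ∫ U, TP (ad (k - l) l :: L) U ∂ν =
      ∫ U, ((U ^ l).trace * (U ^ (k - l)).trace + (U ^ (ad (k - l) l)).trace) * TP L U ∂ν := by
    intro l _
    rw [← integral_add (hν.integrable _ (cont_TP _)) (hν.integrable _ (cont_TP _))]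
    congr 1
    funext U
    rw [TP_cons, TP_cons, TP_cons]
    ring
  rw [Finset.sum_congr rfl h1, ← integral_finsetSum, ← integral_add]
  · congr 1
    funext U
    rw [TP_nil, one_mul, Finset.sum_mul]
  · exact hν.integrable (fun U => ∑ l ∈ Finset.range k, ((U ^ l).trace * (U ^ (k - l)).trace + (U ^ (ad (k - l) l)).trace) * TP L U)
      (continuous_finsetSum _ fun l _ => (((cont_trace l).mul (cont_trace (k - l))).add (cont_trace _)).mul (cont_TP L))
  · exact hν.integrable (fun U => TP [] U * TDD k U L) ((cont_TP []).mul (cont_TDD k L))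
  · intro l _
    exact hν.integrable (fun U => ((U ^ l).trace * (U ^ (k - l)).trace + (U ^ (ad (k - l) l)).trace) * TP L U)
      ((((cont_trace l).mul (cont_trace (k - l))).add (cont_trace _)).mul (cont_TP L))

/-- positive entries -/
def Pos (L : List ℕ) : Prop := ∀ m ∈ L, 1 ≤ m

lemma Pos.cons {m : ℕ} {L : List ℕ} : Pos (m :: L) ↔ 1 ≤ m ∧ Pos L := by
  unfold Pos
  simp

lemma Pos.append {M L : List ℕ} : Pos (M ++ L) ↔ Pos M ∧ Pos L := by
  unfold Pos
  simp only [List.mem_append]
  exact ⟨fun h => ⟨fun m hm => h m (Or.inl hm), fun m hm => h m (Or.inr hm)⟩, fun h m hm => hm.elim (h.1 m) (h.2 m)⟩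

lemma Pos.length_le {L : List ℕ} (h : Pos L) : L.length ≤ L.sum := by
  induction L with
  | nil => simp
  | cons m L ih =>
    rw [Pos.cons] at h
    rw [List.length_cons, List.sum_cons]
    have := ih h.2
    omega

/-- a bound for the moments of weight less than `w` bounds those with one entry that may vanish -/
lemma ee_mid (hg : 1 ≤ g) {w : ℕ} {K : ℝ} (hK : ∀ L : List ℕ, Pos L → L.sum < w → ‖ee ν L‖ ≤ K) (M L : List ℕ) (hM : Pos M) (hL : Pos L) (a : ℕ)
    (h : M.sum + a + L.sum < w) : ‖ee ν (M ++ a :: L)‖ ≤ 2 * g * K := by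
  have hgR : (1 : ℝ) ≤ g := by exact_mod_cast hg
  rcases Nat.eq_zero_or_pos a with rfl | ha
  · rw [ee_zero, norm_mul]
    have h1 : ‖(2 * (g : ℂ))‖ = 2 * (g : ℝ) := by
      rw [norm_mul, Complex.norm_natCast]
      norm_num
    rw [h1]
    refine mul_le_mul_of_nonneg_left (hK _ (Pos.append.2 ⟨hM, hL⟩) ?_) (by positivity)
    rw [List.sum_append]
    omega
  · have h1 := hK (M ++ a :: L) (Pos.append.2 ⟨hM, Pos.cons.2 ⟨ha, hL⟩⟩) (by
      rw [List.sum_append, List.sum_cons]
      omega)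
    have hK0 : 0 ≤ K := (norm_nonneg _).trans h1
    refine h1.trans ?_
    nlinarith

lemma ad_le {a b : ℕ} (ha : 1 ≤ a) (hb : 1 ≤ b) : ad a b + 2 ≤ a + b := by
  unfold ad
  omega

lemma ED_bound (hν : Haar ν) (hg : 1 ≤ g) {w : ℕ} {K X : ℝ} (hK : ∀ L : List ℕ, Pos L → L.sum < w → ‖ee ν L‖ ≤ K)
    (hX : ∀ L : List ℕ, Pos L → L.sum = w → ‖ee ν L‖ ≤ X) (k : ℕ) (hk : 1 ≤ k) (L : List ℕ) : ∀ (M : List ℕ), Pos M → Pos L → M.sum + k + L.sum = w →
    ‖ED ν k M L‖ ≤ L.sum * (X + 2 * g * K) := by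
  induction L with
  | nil =>
    intro M _ _ _
    rw [ED_nil]
    simp
  | cons m L ih =>
    intro M hM hL hw
    rw [Pos.cons] at hL
    rw [List.sum_cons] at hw
    rw [ED_cons hν, List.sum_cons]
    have h1 := ih (M ++ [m]) (Pos.append.2 ⟨hM, by unfold Pos; simpa using hL.1⟩) hL.2 (by rw [List.sum_append, List.sum_singleton]; omega)
    have h2 := hX (M ++ (k + m) :: L) (Pos.append.2 ⟨hM, Pos.cons.2 ⟨by omega, hL.2⟩⟩) (by rw [List.sum_append, List.sum_cons]; omega)
    have h3 := ee_mid hg hK M L hM hL.2 (ad m k) (by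
      have := ad_le hL.1 hk
      omega)
    have h4 : ‖(m : ℂ) * (ee ν (M ++ (k + m) :: L) - ee ν (M ++ ad m k :: L))‖ ≤ m * (X + 2 * g * K) := by
      rw [norm_mul, Complex.norm_natCast]
      exact mul_le_mul_of_nonneg_left ((norm_sub_le _ _).trans (add_le_add h2 h3)) (Nat.cast_nonneg _)
    refine (norm_add_le _ _).trans ((add_le_add h4 h1).trans (le_of_eq ?_))
    push_cast
    ring

/-- the loop equation, solved for the leading term -/
lemma loop_lead (hν : Haar ν) (k : ℕ) (hk : 1 ≤ k) (L : List ℕ) :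
    (2 * (g : ℂ) + 1) * ee ν (k :: L) = -∑ l ∈ Finset.Ico 1 k, ee ν (l :: (k - l) :: L) - ∑ l ∈ Finset.Ico 1 k, ee ν (ad (k - l) l :: L) - ED ν k [] L := by
  have h1 := loop_ee hν k L
  rw [Finset.range_eq_Ico, Finset.sum_eq_sum_Ico_succ_bot (by omega : 0 < k), Finset.sum_add_distrib] at h1
  have h2 : ee ν (0 :: (k - 0) :: L) = 2 * (g : ℂ) * ee ν (k :: L) := ee_zero [] (k :: L)
  have h3 : ee ν (ad (k - 0) 0 :: L) = ee ν (k :: L) := by
    congr 2
    unfold ad
    omega
  rw [h2, h3, zero_add] at h1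
  linear_combination h1

/-- **the joint moments are bounded, uniformly in the genus** -/
theorem ee_bdd (w : ℕ) : ∃ K : ℝ, 1 ≤ K ∧ ∀ (g : ℕ) (ν : Measure (MM g)), 1 ≤ g → Haar ν → ∀ L : List ℕ, Pos L → L.sum < w → ‖ee ν L‖ ≤ K := by
  induction w with
  | zero => exact ⟨1, le_rfl, fun g ν _ _ L _ h => absurd h (Nat.not_lt_zero _)⟩
  | succ w ih =>
    obtain ⟨K, hK1, hK⟩ := ih
    obtain ⟨K', hK'⟩ : ∃ K' : ℝ, K' = K + 4 * w * K + (4 * w + 1) ^ w := ⟨_, rfl⟩
    have hp : (0 : ℝ) ≤ (4 * w + 1) ^ w := by positivity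
    have hwK : (0 : ℝ) ≤ 4 * w * K := by positivity
    refine ⟨K', by rw [hK']; linarith, fun g ν hg hν L hL hLw => ?_⟩
    have hgR : (1 : ℝ) ≤ g := by exact_mod_cast hg
    rcases Nat.lt_succ_iff_lt_or_eq.1 hLw with h | h
    · refine (hK g ν hg hν L hL h).trans ?_
      rw [hK']
      linarith
    rcases Nat.eq_zero_or_pos w with hw0 | hw0
    · have hL0 : L = [] := by
        have := hL.length_le
        exact List.length_eq_zero_iff.1 (by omega)
      have h1 := ee_bound hν L
      rw [hL0, List.length_nil, pow_zero] at h1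
      rw [hL0]
      refine h1.trans ?_
      rw [hK', hw0]
      norm_num
      linarith
    -- the supremum
    obtain ⟨S, hS⟩ : ∃ S : Set ℝ, S = {x | ∃ L : List ℕ, Pos L ∧ L.sum = w ∧ x = ‖ee ν L‖} := ⟨_, rfl⟩
    have hbdd0 : ∀ x ∈ S, x ≤ (2 * (g : ℝ)) ^ w := by
      intro x hx
      rw [hS] at hx
      obtain ⟨L, hL, hw, rfl⟩ := hx
      refine (ee_bound hν L).trans (pow_le_pow_right₀ (by linarith) ?_)
      rw [← hw]
      exact hL.length_le
    have hbdd : BddAbove S := ⟨_, hbdd0⟩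
    have hne : S.Nonempty := ⟨_, by rw [hS]; exact ⟨L, hL, h, rfl⟩⟩
    obtain ⟨X, hX⟩ : ∃ X : ℝ, X = sSup S := ⟨_, rfl⟩
    have hXle : ∀ L : List ℕ, Pos L → L.sum = w → ‖ee ν L‖ ≤ X := by
      intro L hL hw
      rw [hX]
      exact le_csSup hbdd (by rw [hS]; exact ⟨L, hL, hw, rfl⟩)
    have hX0 : 0 ≤ X := (norm_nonneg _).trans (hXle L hL h)
    have hkey : ∀ L : List ℕ, Pos L → L.sum = w → ‖ee ν L‖ ≤ (2 * w / (2 * g)) * X + 2 * w * K := by
      intro L hL hw
      rcases L with _ | ⟨k, L⟩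
      · simp at hw
        omega
      rw [Pos.cons] at hL
      rw [List.sum_cons] at hw
      have h1 := loop_lead hν k hL.1 L
      have h2 : ‖∑ l ∈ Finset.Ico 1 k, ee ν (l :: (k - l) :: L)‖ ≤ k * X := by
        refine (norm_sum_le _ _).trans ?_
        calc ∑ l ∈ Finset.Ico 1 k, ‖ee ν (l :: (k - l) :: L)‖ ≤ ∑ l ∈ Finset.Ico 1 k, X := by
              refine Finset.sum_le_sum fun l hl => ?_
              rw [Finset.mem_Ico] at hl
              refine hXle _ (Pos.cons.2 ⟨hl.1, Pos.cons.2 ⟨by omega, hL.2⟩⟩) ?_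
              rw [List.sum_cons, List.sum_cons]
              omega
          _ = ((k - 1 : ℕ) : ℝ) * X := by rw [Finset.sum_const, Nat.card_Ico, nsmul_eq_mul]
          _ ≤ k * X := mul_le_mul_of_nonneg_right (Nat.cast_le.2 (Nat.sub_le _ _)) hX0
      have hK0 : 0 ≤ K := by linarith
      have h3 : ‖∑ l ∈ Finset.Ico 1 k, ee ν (ad (k - l) l :: L)‖ ≤ k * (2 * g * K) := by
        refine (norm_sum_le _ _).trans ?_
        calc ∑ l ∈ Finset.Ico 1 k, ‖ee ν (ad (k - l) l :: L)‖ ≤ ∑ l ∈ Finset.Ico 1 k, (2 * g * K : ℝ) := by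
              refine Finset.sum_le_sum fun l hl => ?_
              rw [Finset.mem_Ico] at hl
              refine ee_mid hg (hK g ν hg hν) [] L (by unfold Pos; simp) hL.2 (ad (k - l) l) ?_
              have := ad_le (a := k - l) (b := l) (by omega) hl.1
              rw [List.sum_nil]
              omega
          _ = ((k - 1 : ℕ) : ℝ) * (2 * g * K) := by rw [Finset.sum_const, Nat.card_Ico, nsmul_eq_mul]
          _ ≤ k * (2 * g * K) := mul_le_mul_of_nonneg_right (Nat.cast_le.2 (Nat.sub_le _ _)) (by positivity)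
      have h4 := ED_bound hν hg (hK g ν hg hν) hXle k hL.1 L [] (by unfold Pos; simp) hL.2 (by rw [List.sum_nil]; omega)
      have h5 : ‖(2 * (g : ℂ) + 1) * ee ν (k :: L)‖ ≤ k * X + k * (2 * g * K) + L.sum * (X + 2 * g * K) := by
        rw [h1]
        refine (norm_sub_le _ _).trans (add_le_add ((norm_sub_le _ _).trans (add_le_add ?_ h3)) h4)
        rw [norm_neg]
        exact h2
      have h6 : ‖(2 * (g : ℂ) + 1)‖ = 2 * (g : ℝ) + 1 := by
        have : (2 * (g : ℂ) + 1) = ((2 * g + 1 : ℕ) : ℂ) := by push_cast; ring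
        rw [this, Complex.norm_natCast]
        push_cast
        ring
      rw [norm_mul, h6] at h5
      have h7 : (k : ℝ) * X + k * (2 * g * K) + L.sum * (X + 2 * g * K) = w * X + w * (2 * g * K) := by
        rw [← hw]
        push_cast
        ring
      rw [h7] at h5
      have h8 : 2 * (g : ℝ) * ‖ee ν (k :: L)‖ ≤ w * X + w * (2 * g * K) := by
        have := norm_nonneg (ee ν (k :: L))
        linarith
      have h9 : ‖ee ν (k :: L)‖ ≤ (w * X + w * (2 * g * K)) / (2 * g) := by
        rw [le_div_iff₀ (by positivity)]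
        linarith
      refine h9.trans ?_
      have hwR : (0 : ℝ) ≤ w := Nat.cast_nonneg _
      have e : (w * X + w * (2 * g * K)) / (2 * (g : ℝ)) = w / (2 * g) * X + w * K := by
        field_simp
      have e2 : 2 * (w : ℝ) / (2 * g) * X = w / (2 * g) * X + w / (2 * g) * X := by ring
      have e3 : 0 ≤ (w : ℝ) / (2 * g) * X := by positivity
      have e4 : 0 ≤ (w : ℝ) * K := by positivity
      rw [e, e2]
      linarith
    have hXX : X ≤ (2 * w / (2 * g)) * X + 2 * w * K := by
      conv_lhs => rw [hX]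
      refine csSup_le hne fun x hx => ?_
      rw [hS] at hx
      obtain ⟨L, hL, hw, rfl⟩ := hx
      exact hkey L hL hw
    refine (hXle L hL h).trans ?_
    by_cases hgw : 2 * w ≤ g
    · have hgwR : 2 * (w : ℝ) ≤ g := by exact_mod_cast hgw
      have h1 : 2 * (w : ℝ) / (2 * g) ≤ 1 / 2 := by
        rw [div_le_div_iff₀ (by positivity) (by norm_num)]
        linarith
      have h2 : (2 * (w : ℝ) / (2 * g)) * X ≤ 1 / 2 * X := mul_le_mul_of_nonneg_right h1 hX0
      rw [hK']
      linarith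
    · have hgwR : (g : ℝ) ≤ 2 * w := by exact_mod_cast (not_le.1 hgw).le
      have h1 : X ≤ (2 * (g : ℝ)) ^ w := by
        rw [hX]
        exact csSup_le hne hbdd0
      have h2 : (2 * (g : ℝ)) ^ w ≤ (4 * w + 1) ^ w := pow_le_pow_left₀ (by positivity) (by linarith) w
      rw [hK']
      linarith

end H35GS
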