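import Pool.Agent.H35J.GS.Sep
import Pool.Agent.Q282.MM.Stm

/-!
# The moments of sums whose summands are independent in small numbers (copied from `Pool/Agent/Q285/HS/Mom.lean`)
-/

set_option autoImplicit false
set_option linter.unusedSectionVars false

namespace H35GS

open Finset
open Q282.CL
open Q282MM (gm)

lemma gm_zero : gm 0 = 1 := by
  unfold gm
  rw [if_pos (by decide)]
  rfl

lemma gm_odd {k : ℕ} (h : ¬ Even k) : gm k = 0 := if_neg h

lemma gm_even (l : ℕ) : gm (2 * (l + 1)) * (l + 1) = (2 * (l + 1)).choose 2 * gm (2 * l) := by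
  unfold gm
  rw [if_pos (even_two_mul _), if_pos (even_two_mul _), Nat.choose_two_right]
  have h1 : 2 * (l + 1) * (2 * (l + 1) - 1) / 2 = (l + 1) * (2 * l + 1) := by
    have : 2 * (l + 1) * (2 * (l + 1) - 1) = 2 * ((l + 1) * (2 * l + 1)) := by
      rw [show 2 * (l + 1) - 1 = 2 * l + 1 by omega]
      ring
    rw [this, Nat.mul_div_cancel_left _ two_pos]
  rw [h1]
  rcases l with _ | l
  · rfl
  · have h2 : 2 * (l + 1 + 1) - 1 = (2 * (l + 1) - 1) + 2 := by omega
    rw [h2, Nat.doubleFactorial_add_two]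
    have h3 : 2 * (l + 1) - 1 + 2 = 2 * (l + 1) + 1 := by omega
    rw [h3]
    ring

/-- the remainder of the binomial formula -/
lemma bin_rem (a b : ℝ) (ha : 0 ≤ a) (hb : 0 ≤ b) (l : ℕ) :
    |(a + b) ^ (l + 2) - a ^ (l + 2) - (l + 2) * a ^ (l + 1) * b| ≤ (l + 2) ^ 2 * b ^ 2 * (a + b) ^ l := by
  have hab : 0 ≤ a + b := add_nonneg ha hb
  have key : 0 ≤ (a + b) ^ (l + 2) - a ^ (l + 2) - (l + 2) * a ^ (l + 1) * b ∧
      (a + b) ^ (l + 2) - a ^ (l + 2) - (l + 2) * a ^ (l + 1) * b ≤ (l + 2) ^ 2 * b ^ 2 * (a + b) ^ l := by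
    induction l with
    | zero =>
      norm_num
      constructor
      · nlinarith [sq_nonneg b]
      · nlinarith [sq_nonneg b]
    | succ l ih =>
      have h1 : (a + b) ^ (l + 1 + 2) - a ^ (l + 1 + 2) - (((l + 1 : ℕ) : ℝ) + 2) * a ^ (l + 1 + 1) * b =
          (a + b) * ((a + b) ^ (l + 2) - a ^ (l + 2) - (l + 2) * a ^ (l + 1) * b) + (l + 2) * a ^ (l + 1) * b ^ 2 := by
        push_cast
        ring
      have h2 : a ^ (l + 1) ≤ (a + b) ^ (l + 1) := pow_le_pow_left₀ ha (by linarith) _
      have h3 : 0 ≤ a ^ (l + 1) := pow_nonneg ha _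
      rw [h1]
      constructor
      · have := mul_nonneg hab ih.1
        positivity
      · have h4 := mul_le_mul_of_nonneg_left ih.2 hab
        have h5 : ((l : ℝ) + 2) * a ^ (l + 1) * b ^ 2 ≤ (l + 2) * (a + b) ^ (l + 1) * b ^ 2 := by gcongr
        have h6 : (a + b) * ((l + 2) ^ 2 * b ^ 2 * (a + b) ^ l) = (l + 2) ^ 2 * b ^ 2 * (a + b) ^ (l + 1) := by ring
        rw [h6] at h4
        push_cast
        have h7 : 0 ≤ b ^ 2 * (a + b) ^ (l + 1) := by positivity
        have h8 : ((l : ℝ) + 1 + 2) ^ 2 * b ^ 2 * (a + b) ^ (l + 1) =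
            (l + 2) ^ 2 * b ^ 2 * (a + b) ^ (l + 1) + (2 * l + 5) * (b ^ 2 * (a + b) ^ (l + 1)) := by ring
        rw [h8]
        have h9 : ((l : ℝ) + 2) * (b ^ 2 * (a + b) ^ (l + 1)) ≤ (2 * l + 5) * (b ^ 2 * (a + b) ^ (l + 1)) :=
          mul_le_mul_of_nonneg_right (by linarith [(Nat.cast_nonneg l : (0 : ℝ) ≤ l)]) h7
        have h10 : ((l : ℝ) + 2) * (a + b) ^ (l + 1) * b ^ 2 = (l + 2) * (b ^ 2 * (a + b) ^ (l + 1)) := by ring
        linarith
  rw [abs_le]
  constructor
  · have : 0 ≤ ((l : ℝ) + 2) ^ 2 * b ^ 2 * (a + b) ^ l := by positivity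
    linarith [key.1]
  · exact key.2

/-- the increment of the moments of the normal law -/
lemma gm_inc (a b q r : ℝ) (ha : 0 ≤ a) (hb : 0 ≤ b) (hq : 1 ≤ q) (hr : 1 ≤ r) (hbq : b ≤ 1 / q) (hab : a + b ≤ r ^ 2) (k : ℕ) (hk : 3 ≤ k) :
    |(gm k : ℝ) * (a + b) ^ (k / 2) - (gm k : ℝ) * a ^ (k / 2) - k.choose 2 * b * ((gm (k - 2) : ℝ) * a ^ ((k - 2) / 2))| ≤
      (gm k : ℝ) * k ^ 2 / q * r ^ (k - 3) := by
  have hq0 : 0 < q := by linarith
  by_cases he : Even k
  · obtain ⟨l, rfl⟩ : ∃ l, k = 2 * (l + 2) := by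
      obtain ⟨l, hl⟩ := he
      exact ⟨l - 2, by omega⟩
    have h1 : 2 * (l + 2) / 2 = l + 2 := by omega
    have h2 : 2 * (l + 2) - 2 = 2 * (l + 1) := by omega
    have h3 : 2 * (l + 1) / 2 = l + 1 := by omega
    have h4 := gm_even (l + 1)
    have h5 : ((2 * (l + 2)).choose 2 : ℝ) * (gm (2 * (l + 1)) : ℝ) = (gm (2 * (l + 2)) : ℝ) * (l + 2) := by
      have h6 : 2 * (l + 1 + 1) = 2 * (l + 2) := by ring
      rw [h6] at h4
      have h7 : ((gm (2 * (l + 2)) * (l + 1 + 1) : ℕ) : ℝ) = (((2 * (l + 2)).choose 2 * gm (2 * (l + 1)) : ℕ) : ℝ) := by rw [h4]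
      push_cast at h7
      linarith
    rw [h1, h2, h3]
    have h6 : (gm (2 * (l + 2)) : ℝ) * (a + b) ^ (l + 2) - (gm (2 * (l + 2)) : ℝ) * a ^ (l + 2) -
        ((2 * (l + 2)).choose 2 : ℝ) * b * ((gm (2 * (l + 1)) : ℝ) * a ^ (l + 1)) =
        (gm (2 * (l + 2)) : ℝ) * ((a + b) ^ (l + 2) - a ^ (l + 2) - (l + 2) * a ^ (l + 1) * b) := by
      have h7 : ((2 * (l + 2)).choose 2 : ℝ) * b * ((gm (2 * (l + 1)) : ℝ) * a ^ (l + 1)) =
          (((2 * (l + 2)).choose 2 : ℝ) * (gm (2 * (l + 1)) : ℝ)) * (b * a ^ (l + 1)) := by ring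
      rw [h7, h5]
      ring
    rw [h6, abs_mul, Nat.abs_cast]
    have h7 := bin_rem a b ha hb l
    have h8 : b ^ 2 ≤ 1 / q := by
      have : b ≤ 1 := hbq.trans (by rw [div_le_one hq0]; exact hq)
      nlinarith
    have h9 : (a + b) ^ l ≤ r ^ (2 * (l + 2) - 3) := by
      refine (pow_le_pow_left₀ (add_nonneg ha hb) hab l).trans ?_
      rw [← pow_mul]
      exact pow_le_pow_right₀ hr (by omega)
    have h10 : ((l : ℝ) + 2) ^ 2 * b ^ 2 * (a + b) ^ l ≤ ((2 * (l + 2) : ℕ) : ℝ) ^ 2 * (1 / q) * r ^ (2 * (l + 2) - 3) := by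
      have h11 : ((l : ℝ) + 2) ^ 2 ≤ ((2 * (l + 2) : ℕ) : ℝ) ^ 2 := by
        push_cast
        refine pow_le_pow_left₀ (by positivity) ?_ 2
        have : (0 : ℝ) ≤ l := Nat.cast_nonneg l
        linarith
      have h12 : 0 ≤ (a + b) ^ l := pow_nonneg (add_nonneg ha hb) l
      gcongr
    calc (gm (2 * (l + 2)) : ℝ) * |(a + b) ^ (l + 2) - a ^ (l + 2) - (l + 2) * a ^ (l + 1) * b| ≤
        (gm (2 * (l + 2)) : ℝ) * (((2 * (l + 2) : ℕ) : ℝ) ^ 2 * (1 / q) * r ^ (2 * (l + 2) - 3)) :=
          mul_le_mul_of_nonneg_left (h7.trans h10) (Nat.cast_nonneg _)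
      _ = _ := by ring
  · have h1 : ¬ Even (k - 2) := by
      intro h
      apply he
      have : k = (k - 2) + 2 := by omega
      rw [this]
      exact h.add even_two
    rw [gm_odd he, gm_odd h1]
    simp

section

variable {ι K B : Type} [AddCommGroup K] [Fintype K] [AddCommGroup B] [Fintype B] [DecidableEq B]

/-- the moments of one more summand -/
lemma sm_rec [DecidableEq ι] {e : ι → K →+ B} {A : Finset ι} {m : ℕ} (a : ι) (ha : a ∉ A) (h : Sep e (insert a A) m) (ψ : ι → B → ℝ) (k : ℕ)
    (hk : k ≤ m) :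
    av (fun c : K => sm e (insert a A) ψ c ^ k) =
      ∑ j ∈ range (k + 1), (k.choose j : ℝ) * (av (fun z => ψ a z ^ j) * av (fun c : K => sm e A ψ c ^ (k - j))) := by
  have h1 : (fun c : K => sm e (insert a A) ψ c ^ k) =
      fun c => ∑ j ∈ range (k + 1), (k.choose j : ℝ) * ((fun z => ψ a z ^ j) (e a c) * sm e A ψ c ^ (k - j)) := by
    funext c
    have : sm e (insert a A) ψ c = ψ a (e a c) + sm e A ψ c := by
      unfold sm
      rw [sum_insert ha]
    rw [this, add_pow]
    refine sum_congr rfl fun j _ => ?_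
    ring
  rw [h1, av_sum]
  refine sum_congr rfl fun j hj => ?_
  rw [mem_range] at hj
  rw [av_mul]
  congr 1
  rcases Nat.eq_zero_or_pos j with rfl | hj0
  · simp only [pow_zero, one_mul]
    rw [av_const, one_mul]
  · exact sm_sep h a (mem_insert_self a A) (fun z => ψ a z ^ j) ψ (by omega) A (subset_insert a A) ha

/-- the assumptions on one summand -/
structure Loc1 (ψ : B → ℝ) (q σ : ℝ) : Prop where
  one : av ψ = 0
  two : av (fun z => ψ z ^ 2) = σ
  high : ∀ j, 2 ≤ j → |av (fun z => ψ z ^ j)| ≤ 1 / q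

end

/-- **the moments of the sum are close to those of the normal law** -/
theorem mom_near (k : ℕ) : ∃ C : ℝ, 1 ≤ C ∧ ∀ (ι K B : Type) [AddCommGroup K] [Fintype K] [AddCommGroup B] [Fintype B] [DecidableEq B]
    (e : ι → K →+ B) (ψ : ι → B → ℝ) (m : ℕ) (q r σ : ℝ), 1 ≤ q → 1 ≤ r → 0 ≤ σ → σ ≤ 1 / q →
    ∀ A : Finset ι, Sep e A m → (∀ t ∈ A, Loc1 (ψ t) q σ) → (A.card : ℝ) * σ ≤ r ^ 2 → (A.card : ℝ) ≤ q * r ^ 2 → ∀ j ≤ k, j ≤ m →
      |av (fun c : K => sm e A ψ c ^ j) - (gm j : ℝ) * (A.card * σ) ^ (j / 2)| ≤ C * r ^ (j - 1) := by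
  induction k with
  | zero =>
    refine ⟨1, le_rfl, fun ι K B _ _ _ _ _ e ψ m q r σ hq hr hσ hσq A hs hl hA1 hA2 j hj hjm => ?_⟩
    have hj0 : j = 0 := by omega
    subst hj0
    simp only [pow_zero]
    rw [av_const, gm_zero, Nat.cast_one]
    norm_num
  | succ k ih =>
    obtain ⟨C, hC, ih⟩ := ih
    obtain ⟨G, hG⟩ : ∃ G : ℝ, G = ∑ j ∈ range (k + 2), (gm j : ℝ) := ⟨_, rfl⟩
    have hGj : ∀ j ≤ k + 1, (gm j : ℝ) ≤ G := fun j hj => by
      rw [hG]
      exact single_le_sum (f := fun j => (gm j : ℝ)) (fun i _ => Nat.cast_nonneg _) (mem_range.2 (by omega))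
    have hG0 : 0 ≤ G := (Nat.cast_nonneg _).trans (hGj 0 (by omega))
    obtain ⟨E, hE⟩ : ∃ E : ℝ, E = G * (k + 1) ^ 2 + 2 ^ (k + 1) * (G + 2 * C) := ⟨_, rfl⟩
    have hE0 : 0 ≤ E := by
      rw [hE]
      positivity
    refine ⟨C + E, by linarith, ?_⟩
    intro ι K B _ _ _ _ _ e ψ m q r σ hq hr hσ hσq A hs hl hA1 hA2 j hj hjm
    rcases Nat.lt_or_ge j (k + 1) with hjk | hjk
    · refine (ih ι K B e ψ m q r σ hq hr hσ hσq A hs hl hA1 hA2 j (by omega) hjm).trans ?_
      exact mul_le_mul_of_nonneg_right (by linarith) (by positivity)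
    · have hjk : j = k + 1 := by omega
      subst hjk
      classical
      have hq0 : 0 < q := by linarith
      have hr0 : 0 < r := by linarith
      rcases Nat.lt_or_ge k 2 with hk2 | hk2
      · -- the moments of order one and two
        have hz : |av (fun c : K => sm e A ψ c ^ (k + 1)) - (gm (k + 1) : ℝ) * (A.card * σ) ^ ((k + 1) / 2)| = 0 := by
          rcases (by omega : k = 0 ∨ k = 1) with rfl | rfl
          · have h1 := sm_one hs hjm ψ fun t ht => (hl t ht).one
            simp only [zero_add, pow_one]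
            rw [h1, gm_odd (by decide)]
            simp
          · have h1 := sm_two hs hjm ψ fun t ht => (hl t ht).one
            simp only [Nat.reduceAdd]
            rw [h1, sum_congr rfl fun t ht => (hl t ht).two, sum_const, nsmul_eq_mul]
            have : gm 2 = 1 := by
              unfold gm
              rw [if_pos (by decide)]
              rfl
            rw [this]
            simp
        rw [hz]
        positivity
      · -- the higher moments
        have key : ∀ A : Finset ι, Sep e A m → (∀ t ∈ A, Loc1 (ψ t) q σ) → (A.card : ℝ) * σ ≤ r ^ 2 → (A.card : ℝ) ≤ q * r ^ 2 →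
            |av (fun c : K => sm e A ψ c ^ (k + 1)) - (gm (k + 1) : ℝ) * (A.card * σ) ^ ((k + 1) / 2)| ≤ A.card * (E / q * r ^ (k - 2)) := by
          intro A
          induction A using Finset.induction_on with
          | empty =>
            intro _ _ _ _
            have h1 : (fun c : K => sm e ∅ ψ c ^ (k + 1)) = fun _ => (0 : ℝ) := by
              funext c
              unfold sm
              rw [sum_empty, zero_pow (by omega)]
            rw [h1, av_const]
            simp only [card_empty, Nat.cast_zero, zero_mul]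
            rw [zero_pow (by omega)]
            simp
          | insert a A ha ihA =>
            intro hs hl hA1 hA2
            have hcard : ((insert a A).card : ℝ) = A.card + 1 := by
              rw [card_insert_of_notMem ha]
              push_cast
              rfl
            rw [hcard] at hA1 hA2 ⊢
            have hs' : Sep e A m := hs.mono (subset_insert a A) le_rfl
            have hl' : ∀ t ∈ A, Loc1 (ψ t) q σ := fun t ht => hl t (mem_insert_of_mem ht)
            have hA1' : (A.card : ℝ) * σ ≤ r ^ 2 := by nlinarith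
            have hA2' : (A.card : ℝ) ≤ q * r ^ 2 := by linarith
            have h1 := ihA hs' hl' hA1' hA2'
            have hM : ∀ j ≤ k, |av (fun c : K => sm e A ψ c ^ j) - (gm j : ℝ) * (A.card * σ) ^ (j / 2)| ≤ C * r ^ (j - 1) := fun j hj =>
              ih ι K B e ψ m q r σ hq hr hσ hσq A hs' hl' hA1' hA2' j hj (by omega)
            have hMa : ∀ j ≤ k, |av (fun c : K => sm e A ψ c ^ j)| ≤ (G + C) * r ^ j := by
              intro j hj
              have h2 := hM j hj
              have h3 : (gm j : ℝ) * (A.card * σ) ^ (j / 2) ≤ G * r ^ j := by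
                have h4 : ((A.card : ℝ) * σ) ^ (j / 2) ≤ r ^ j := by
                  refine (pow_le_pow_left₀ (by positivity) hA1' (j / 2)).trans ?_
                  rw [← pow_mul]
                  exact pow_le_pow_right₀ hr (by omega)
                exact mul_le_mul (hGj j (by omega)) h4 (by positivity) hG0
              have h4 : C * r ^ (j - 1) ≤ C * r ^ j := mul_le_mul_of_nonneg_left (pow_le_pow_right₀ hr (by omega)) (by linarith)
              have h5 : 0 ≤ (gm j : ℝ) * (A.card * σ) ^ (j / 2) := by positivity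
              have h6 := abs_sub_abs_le_abs_sub (av fun c : K => sm e A ψ c ^ j) ((gm j : ℝ) * (A.card * σ) ^ (j / 2))
              rw [abs_of_nonneg h5] at h6
              linarith
            have hμ : ∀ j, 2 ≤ j → |av (fun z => ψ a z ^ j)| ≤ 1 / q := (hl a (mem_insert_self a A)).high
            -- the recursion
            have hrec := sm_rec a ha hs ψ (k + 1) hjm
            obtain ⟨k', rfl⟩ : ∃ k', k = k' + 2 := ⟨k - 2, by omega⟩
            rw [sum_range_succ', sum_range_succ', sum_range_succ'] at hrec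
            simp only [pow_zero, Nat.choose_zero_right, Nat.cast_one, one_mul, Nat.sub_zero, zero_add, pow_one, Nat.reduceAdd] at hrec
            rw [av_const, (hl a (mem_insert_self a A)).one, (hl a (mem_insert_self a A)).two, zero_mul, mul_zero, add_zero, one_mul] at hrec
            have h2 : k' + 2 + 1 - 2 = k' + 1 := by omega
            rw [h2] at hrec
            have hinc := gm_inc (A.card * σ) σ q r (by positivity) hσ hq hr hσq (by linarith) (k' + 2 + 1) (by omega)
            rw [h2] at hinc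
            have h3 : (((A.card : ℝ) + 1) * σ) = A.card * σ + σ := by ring
            rw [hrec, h3]
            -- the sum of the high terms
            obtain ⟨S, hS⟩ : ∃ S : ℝ, S = ∑ x ∈ range (k' + 1), (((k' + 2 + 1).choose (x + 1 + 1 + 1) : ℕ) : ℝ) *
              (av (fun z => ψ a z ^ (x + 1 + 1 + 1)) * av (fun c : K => sm e A ψ c ^ (k' + 2 + 1 - (x + 1 + 1 + 1)))) := ⟨_, rfl⟩
            have hS1 : |S| ≤ 2 ^ (k' + 3) * (1 / q * ((G + C) * r ^ k')) := by
              rw [hS]
              refine (abs_sum_le_sum_abs _ _).trans ?_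
              have h4 : ∀ x ∈ range (k' + 1), |(((k' + 2 + 1).choose (x + 1 + 1 + 1) : ℕ) : ℝ) *
                  (av (fun z => ψ a z ^ (x + 1 + 1 + 1)) * av (fun c : K => sm e A ψ c ^ (k' + 2 + 1 - (x + 1 + 1 + 1))))| ≤
                  (((k' + 2 + 1).choose (x + 3) : ℕ) : ℝ) * (1 / q * ((G + C) * r ^ k')) := by
                intro x hx
                rw [mem_range] at hx
                rw [abs_mul, Nat.abs_cast, abs_mul]
                refine mul_le_mul_of_nonneg_left ?_ (Nat.cast_nonneg _)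
                refine mul_le_mul (hμ _ (by omega)) ?_ (abs_nonneg _) (by positivity)
                refine (hMa _ (by omega)).trans ?_
                exact mul_le_mul_of_nonneg_left (pow_le_pow_right₀ hr (by omega)) (by linarith)
              refine (sum_le_sum h4).trans ?_
              rw [← sum_mul]
              refine mul_le_mul_of_nonneg_right ?_ (by positivity)
              have h5 : ∑ x ∈ range (k' + 1), (((k' + 2 + 1).choose (x + 3) : ℕ) : ℝ) ≤ ∑ x ∈ range (k' + 4), (((k' + 3).choose x : ℕ) : ℝ) := by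
                rw [← Nat.cast_sum, ← Nat.cast_sum]
                refine Nat.cast_le.2 ?_
                rw [sum_range_succ' _ (k' + 3), sum_range_succ' _ (k' + 2), sum_range_succ' _ (k' + 1)]
                refine le_trans (le_of_eq (sum_congr rfl fun x _ => ?_)) (le_trans (Nat.le_add_right _ _) (le_trans (Nat.le_add_right _ _) (Nat.le_add_right _ _)))
                rfl
              refine h5.trans ?_
              have h6 := Nat.sum_range_choose (k' + 3)
              have h7 : ∑ x ∈ range (k' + 4), (((k' + 3).choose x : ℕ) : ℝ) = 2 ^ (k' + 3) := by exact_mod_cast h6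
              rw [h7]
            have hM1 : |((k' + 2 + 1).choose 2 : ℝ) * (σ * av (fun c : K => sm e A ψ c ^ (k' + 1))) -
                ((k' + 2 + 1).choose 2 : ℝ) * σ * ((gm (k' + 1) : ℝ) * (A.card * σ) ^ ((k' + 1) / 2))| ≤ 2 ^ (k' + 3) * (1 / q * (C * r ^ k')) := by
              have h4 : ((k' + 2 + 1).choose 2 : ℝ) * (σ * av (fun c : K => sm e A ψ c ^ (k' + 1))) -
                  ((k' + 2 + 1).choose 2 : ℝ) * σ * ((gm (k' + 1) : ℝ) * (A.card * σ) ^ ((k' + 1) / 2)) =
                  ((k' + 2 + 1).choose 2 : ℝ) * (σ * (av (fun c : K => sm e A ψ c ^ (k' + 1)) - (gm (k' + 1) : ℝ) * (A.card * σ) ^ ((k' + 1) / 2))) := by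
                ring
              rw [h4, abs_mul, Nat.abs_cast, abs_mul, abs_of_nonneg hσ]
              have h5 : ((k' + 2 + 1).choose 2 : ℝ) ≤ 2 ^ (k' + 3) := by
                exact_mod_cast Nat.choose_le_two_pow (k' + 3) 2
              have h6 := hM (k' + 1) (by omega)
              rw [Nat.add_sub_cancel] at h6
              refine mul_le_mul h5 (mul_le_mul hσq h6 (abs_nonneg _) (by positivity)) (by positivity) (by positivity)
            have h4 : k' + 2 - 2 = k' := by omega
            have h5 : k' + 2 + 1 - 3 = k' := by omega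
            rw [h4] at h1 ⊢
            rw [h5] at hinc
            have h6 : (gm (k' + 2 + 1) : ℝ) * ((k' + 2 + 1 : ℕ) : ℝ) ^ 2 / q * r ^ k' ≤ G * ((k' + 2 : ℕ) + 1) ^ 2 * (1 / q * r ^ k') := by
              have h7 : (gm (k' + 2 + 1) : ℝ) * ((k' + 2 + 1 : ℕ) : ℝ) ^ 2 / q * r ^ k' =
                  (gm (k' + 2 + 1) : ℝ) * (((k' + 2 : ℕ) : ℝ) + 1) ^ 2 * (1 / q * r ^ k') := by
                push_cast
                ring
              rw [h7]
              refine mul_le_mul_of_nonneg_right ?_ (by positivity)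
              exact mul_le_mul_of_nonneg_right (hGj _ le_rfl) (by positivity)
            have h7 : ((A.card : ℝ) + 1) * (E / q * r ^ k') = A.card * (E / q * r ^ k') +
                (G * ((k' + 2 : ℕ) + 1) ^ 2 * (1 / q * r ^ k') + 2 ^ (k' + 3) * (1 / q * ((G + C) * r ^ k')) + 2 ^ (k' + 3) * (1 / q * (C * r ^ k'))) := by
              rw [hE]
              push_cast
              ring
            rw [h7, ← hS]
            rw [abs_le] at h1 hinc hS1 hM1 ⊢
            constructor <;> linarith [h1.1, h1.2, hinc.1, hinc.2, hS1.1, hS1.2, hM1.1, hM1.2]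
        have h1 := key A hs hl hA1 hA2
        refine h1.trans ?_
        have h2 : (A.card : ℝ) * (E / q * r ^ (k - 2)) ≤ (q * r ^ 2) * (E / q * r ^ (k - 2)) :=
          mul_le_mul_of_nonneg_right hA2 (by positivity)
        refine h2.trans ?_
        have h3 : (q * r ^ 2) * (E / q * r ^ (k - 2)) = E * r ^ (k + 1 - 1) := by
          have h4 : r ^ (k + 1 - 1) = r ^ 2 * r ^ (k - 2) := by
            rw [← pow_add]
            congr 1
            omega
          rw [h4]
          field_simp
        rw [h3]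
        exact mul_le_mul_of_nonneg_right (by linarith) (by positivity)

end H35GS
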