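import Pool.Agent.H35J.GS.Ind
import Pool.Agent.H35J.GS.Mom

/-!
# The moments of the main parts of the normalised power sums for independent residues
-/

set_option autoImplicit false
set_option linter.unusedSectionVars false

namespace H35GS

open Finset Polynomial
open Q282.CL
open Q282MM (gm)

/-- the parity -/
noncomputable def eta (j : ℕ) : ℝ := if Even (j + 1) then 1 else 0

lemma eta_nonneg (j : ℕ) : 0 ≤ eta j := by
  unfold eta
  split_ifs <;> norm_num

lemma eta_le (j : ℕ) : eta j ≤ 1 := by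
  unfold eta
  split_ifs <;> norm_num

/-- the moments of the normal law with mean `-eta j` and variance `j + 1` -/
noncomputable def mmt (j k : ℕ) : ℝ := ∑ l ∈ range (k + 1), (k.choose l : ℝ) * ((-eta j) ^ (k - l) * (Real.sqrt (j + 1) ^ l * gm l))

section

variable {p : ℕ} [hp : Fact p.Prime]

lemma sqrt_sq_pow (j : ℕ) : Real.sqrt p ^ (2 * j) = (p : ℝ) ^ j := by
  rw [pow_mul, Real.sq_sqrt (Nat.cast_nonneg _)]

lemma one_le_sqrt : 1 ≤ Real.sqrt p := Real.one_le_sqrt.2 (by exact_mod_cast hp.out.one_lt.le)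

/-- the number of closed points -/
lemma card_CP_le (j : ℕ) (hj : j ≠ 0) : (j : ℝ) * Fintype.card (CP p j) ≤ (p : ℝ) ^ j := by
  rw [card_points (p := p) j hj]
  exact single_le_sum (f := fun e : ℕ => (e : ℝ) * Fintype.card (CP p e)) (fun e _ => by positivity)
    (Nat.mem_divisors_self j hj)

lemma card_CP_ge (j : ℕ) (hj : j ≠ 0) (m : ℕ) (hm : ∀ e ∈ j.properDivisors, 2 * e ≤ m) :
    (p : ℝ) ^ j - j * Real.sqrt p ^ m ≤ (j : ℝ) * Fintype.card (CP p j) := by
  have h1 := card_points (p := p) j hj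
  have h2 : ∑ e ∈ j.divisors, (e : ℝ) * Fintype.card (CP p e) =
      (j : ℝ) * Fintype.card (CP p j) + ∑ e ∈ j.properDivisors, (e : ℝ) * Fintype.card (CP p e) := by
    rw [← Nat.insert_self_properDivisors hj, sum_insert (by simp)]
  rw [h2] at h1
  have h3 : ∑ e ∈ j.properDivisors, (e : ℝ) * Fintype.card (CP p e) ≤ ∑ e ∈ j.properDivisors, Real.sqrt p ^ m := by
    refine sum_le_sum fun e he => ?_
    have he0 : e ≠ 0 := (Nat.pos_of_mem_properDivisors he).ne'
    refine (card_CP_le e he0).trans ?_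
    rw [← sqrt_sq_pow]
    exact pow_le_pow_right₀ one_le_sqrt (hm e he)
  rw [sum_const, nsmul_eq_mul] at h3
  have h4 : (j.properDivisors.card : ℝ) ≤ j := by
    have : j.properDivisors.card ≤ j := by
      calc j.properDivisors.card ≤ (range j).card := by
            refine card_le_card fun e he => ?_
            rw [Nat.mem_properDivisors] at he
            exact mem_range.2 he.2
        _ = j := card_range j
    exact_mod_cast this
  have h5 : (j.properDivisors.card : ℝ) * Real.sqrt p ^ m ≤ j * Real.sqrt p ^ m :=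
    mul_le_mul_of_nonneg_right h4 (by positivity)
  linarith

/-- the normalised sum of the characters of independent residues -/
noncomputable def nsum (j : ℕ) (ω : CP p (j + 1) → GaloisField p (j + 1)) : ℝ :=
  (∑ P : CP p (j + 1), ((j : ℝ) + 1) * qch (ω P)) / Real.sqrt p ^ (j + 1)

/-- its moments -/
theorem nsum_mom (j k : ℕ) : ∃ K : ℝ, 0 ≤ K ∧ ∀ (p : ℕ) [Fact p.Prime], p ≠ 2 →
    |av (fun ω : CP p (j + 1) → GaloisField p (j + 1) => nsum j ω ^ k) - Real.sqrt (j + 1) ^ k * gm k| ≤ K / Real.sqrt p := by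
  obtain ⟨C, hC, h⟩ := mom_near k
  obtain ⟨J, hJ⟩ : ∃ J : ℝ, J = (j : ℝ) + 1 := ⟨_, rfl⟩
  have hJ1 : 1 ≤ J := by
    rw [hJ]
    have : (0 : ℝ) ≤ j := Nat.cast_nonneg j
    linarith
  have hJ0 : 0 < J := by linarith
  obtain ⟨G, hG⟩ : ∃ G : ℝ, G = (gm k : ℝ) := ⟨_, rfl⟩
  have hG0 : 0 ≤ G := by
    rw [hG]
    exact Nat.cast_nonneg _
  refine ⟨C * J ^ k + G * (k * J ^ k * (J * (J + 1))), by positivity, fun p _ hp2 => ?_⟩
  have hs1 : 1 ≤ Real.sqrt p := one_le_sqrt
  obtain ⟨s, hs⟩ : ∃ s, s = Real.sqrt p := ⟨_, rfl⟩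
  rw [← hs] at hs1 ⊢
  have hs0 : 0 < s := by linarith
  rcases Nat.eq_zero_or_pos k with rfl | hk
  · simp only [pow_zero]
    rw [av_const, gm_zero]
    norm_num
    positivity
  classical
  have hring : ringChar (GaloisField p (j + 1)) ≠ 2 := by
    rw [ringChar.eq (GaloisField p (j + 1)) p]
    exact hp2
  have hcardF : (Fintype.card (GaloisField p (j + 1)) : ℝ) = s ^ (2 * (j + 1)) := by
    rw [card_GF (j + 1) (Nat.succ_ne_zero j), hs, sqrt_sq_pow]
    push_cast
    rfl
  obtain ⟨n, hn⟩ : ∃ n : ℕ, n = Fintype.card (CP p (j + 1)) := ⟨_, rfl⟩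
  have hn1 : J * n ≤ s ^ (2 * (j + 1)) := by
    have := card_CP_le (p := p) (j + 1) (Nat.succ_ne_zero j)
    rw [hn, hJ, hs, sqrt_sq_pow]
    push_cast at this
    exact this
  have hn2 : s ^ (2 * (j + 1)) - J * s ^ (j + 1) ≤ J * n := by
    have := card_CP_ge (p := p) (j + 1) (Nat.succ_ne_zero j) (j + 1) (fun e he => by
      rw [Nat.mem_properDivisors] at he
      obtain ⟨⟨c, hc⟩, he2⟩ := he
      have hc2 : 2 ≤ c := by
        rcases c with _ | _ | c
        · omega
        · omega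
        · omega
      rw [hc]
      calc 2 * e = e * 2 := by ring
        _ ≤ e * c := Nat.mul_le_mul_left e hc2)
    rw [hn, hJ, hs, sqrt_sq_pow]
    push_cast at this
    exact this
  have hn0 : (0 : ℝ) ≤ n := Nat.cast_nonneg n
  obtain ⟨σ, hσ⟩ : ∃ σ : ℝ, σ = 1 - 1 / s ^ (2 * (j + 1)) := ⟨_, rfl⟩
  have hpow1 : (1 : ℝ) ≤ s ^ (2 * (j + 1)) := one_le_pow₀ hs1
  have hσ0 : 0 ≤ σ := by
    rw [hσ, sub_nonneg, div_le_one (by linarith)]
    exact hpow1
  have hσ1 : σ ≤ 1 := by
    rw [hσ]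
    have : 0 ≤ 1 / s ^ (2 * (j + 1)) := by positivity
    linarith
  have hmain := h (CP p (j + 1)) (CP p (j + 1) → GaloisField p (j + 1)) (GaloisField p (j + 1))
    (fun P => Pi.evalAddMonoidHom _ P) (fun _ => qch) k 1 (s ^ (j + 1)) σ le_rfl (one_le_pow₀ hs1) hσ0 (by simpa using hσ1) univ
    (fun S _ _ z => ⟨z, fun t _ => rfl⟩)
    (fun t _ => ⟨av_qch hring, by rw [av_qch_sq, hcardF, hσ], fun i _ => by simpa using av_pow_abs_le (F := GaloisField p (j + 1)) i⟩)
    (by
      rw [card_univ, ← hn, ← pow_mul, mul_comm (j + 1) 2]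
      have : (n : ℝ) * σ ≤ n := mul_le_of_le_one_right hn0 hσ1
      nlinarith)
    (by
      rw [card_univ, ← hn, ← pow_mul, mul_comm (j + 1) 2, one_mul]
      nlinarith) k le_rfl le_rfl
  rw [card_univ, ← hn] at hmain
  -- scaling
  obtain ⟨Y, hY⟩ : ∃ Y : ℝ, Y = av (fun c : CP p (j + 1) → GaloisField p (j + 1) => sm (fun P => Pi.evalAddMonoidHom _ P) univ (fun _ => qch) c ^ k) := ⟨_, rfl⟩
  have h1 : av (fun ω : CP p (j + 1) → GaloisField p (j + 1) => nsum j ω ^ k) = (J / s ^ (j + 1)) ^ k * Y := by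
    rw [hY, ← av_mul]
    congr 1
    funext ω
    rw [← mul_pow]
    congr 1
    unfold nsum sm
    rw [← mul_sum, ← hJ, ← hs]
    rw [mul_div_right_comm]
    rfl
  rw [h1]
  obtain ⟨a, ha⟩ : ∃ a : ℝ, a = J / s ^ (j + 1) := ⟨_, rfl⟩
  have hsj : 0 < s ^ (j + 1) := by positivity
  have ha0 : 0 < a := by
    rw [ha]
    positivity
  rw [← ha]
  have h2 : |a ^ k * Y - a ^ k * ((gm k : ℝ) * (n * σ) ^ (k / 2))| ≤ C * J ^ k / s := by
    rw [← mul_sub, abs_mul, abs_of_pos (pow_pos ha0 k), hY]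
    refine (mul_le_mul_of_nonneg_left hmain (pow_pos ha0 k).le).trans ?_
    rw [ha, div_pow]
    have e1 : (s ^ (j + 1)) ^ k = (s ^ (j + 1)) ^ (k - 1) * s ^ (j + 1) := by
      rw [← pow_succ, Nat.sub_add_cancel hk]
    have e2 : J ^ k / (s ^ (j + 1)) ^ k * (C * (s ^ (j + 1)) ^ (k - 1)) = C * J ^ k / s ^ (j + 1) := by
      rw [e1]
      field_simp
    rw [e2]
    refine div_le_div_of_nonneg_left (by positivity) hs0 ?_
    exact le_self_pow₀ hs1 (Nat.succ_ne_zero j)
  have h3 : |a ^ k * ((gm k : ℝ) * (n * σ) ^ (k / 2)) - Real.sqrt (j + 1) ^ k * gm k| ≤ G * (k * J ^ k * (J * (J + 1))) / s := by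
    rcases Nat.even_or_odd k with he | ho
    · obtain ⟨h, hh⟩ := he
      have hk2 : k / 2 = h := by omega
      have hk3 : k = 2 * h := by omega
      rw [hk2]
      obtain ⟨x, hx⟩ : ∃ x : ℝ, x = a ^ 2 * (n * σ) := ⟨_, rfl⟩
      have e1 : a ^ k * ((gm k : ℝ) * (n * σ) ^ h) - Real.sqrt (j + 1) ^ k * gm k = G * (x ^ h - J ^ h) := by
        have e2 : x ^ h = a ^ k * (n * σ) ^ h := by
          rw [hx, mul_pow, ← pow_mul, ← hk3]
        have e3 : Real.sqrt J ^ k = J ^ h := by
          rw [hk3, pow_mul, Real.sq_sqrt hJ0.le]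
        rw [e2, ← hJ, e3, hG]
        ring
      rw [e1, abs_mul, abs_of_nonneg hG0, mul_div_assoc]
      refine mul_le_mul_of_nonneg_left ?_ hG0
      obtain ⟨S, hS⟩ : ∃ S : ℝ, S = s ^ (2 * (j + 1)) := ⟨_, rfl⟩
      have hSS : S = s ^ (j + 1) * s ^ (j + 1) := by
        rw [hS, ← pow_add]
        congr 1
        omega
      rw [← hS] at hn1 hn2 hσ hpow1
      have hS0 : 0 < S := by linarith
      have hxe : x = J * ((J * n / S) * σ) := by
        rw [hx, ha, div_pow, pow_two (s ^ (j + 1)), ← hSS]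
        ring
      have hq1 : J * n / S ≤ 1 := by
        rw [div_le_one hS0]
        exact hn1
      have hq0 : 0 ≤ J * n / S := by positivity
      have hq2 : 1 - J / s ^ (j + 1) ≤ J * n / S := by
        rw [le_div_iff₀ hS0]
        refine le_trans (le_of_eq ?_) hn2
        rw [hSS]
        field_simp
      have hss : s ≤ s ^ (j + 1) := le_self_pow₀ hs1 (Nat.succ_ne_zero j)
      have hsS : s ≤ S := by
        rw [hS]
        exact le_self_pow₀ hs1 (by omega)
      have hJs : J / s ^ (j + 1) ≤ J / s := div_le_div_of_nonneg_left hJ0.le hs0 hss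
      have hSs : 1 / S ≤ 1 / s := div_le_div_of_nonneg_left zero_le_one hs0 hsS
      have hx0 : 0 ≤ x := by
        rw [hxe]
        positivity
      have hxJ : x ≤ J := by
        rw [hxe]
        have : J * n / S * σ ≤ 1 := mul_le_one₀ hq1 hσ0 hσ1
        nlinarith
      have hdiff : J - x ≤ J * (J + 1) / s := by
        rw [hxe]
        have e2 : J * n / S * σ ≥ 1 - J / s - 1 / s := by
          rw [hσ]
          have : 0 ≤ 1 / S := by positivity
          nlinarith
        have e3 : J * (J + 1) / s = J * (J / s + 1 / s) := by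
          field_simp
        rw [e3]
        nlinarith
      have h4 := abs_pow_sub_pow_le x J h
      have h5 : max |x| |J| = J := by
        rw [abs_of_nonneg hx0, abs_of_nonneg hJ0.le, max_eq_right hxJ]
      rw [h5] at h4
      refine h4.trans ?_
      rw [abs_sub_comm, abs_of_nonneg (by linarith : 0 ≤ J - x)]
      have h6 : J ^ (h - 1) ≤ J ^ k := pow_le_pow_right₀ hJ1 (by omega)
      have h7 : (h : ℝ) ≤ k := by exact_mod_cast (by omega : h ≤ k)
      have h8 : 0 ≤ J - x := by linarith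
      calc (J - x) * h * J ^ (h - 1) ≤ (J * (J + 1) / s) * k * J ^ k := by gcongr
        _ = _ := by ring
    · have h0 : gm k = 0 := gm_odd (by simpa using ho)
      rw [h0]
      simp only [Nat.cast_zero, zero_mul, mul_zero, sub_zero, abs_zero]
      positivity
  have h4 := abs_sub_le (a ^ k * Y) (a ^ k * ((gm k : ℝ) * (n * σ) ^ (k / 2))) (Real.sqrt (j + 1) ^ k * gm k)
  rw [add_div]
  linarith

end

end H35GS
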