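import Pool.Agent.H35J.GS.Loop4
import Pool.Agent.H35J.GS.Mod1

/-!
# The joint moments of the traces tend to the joint moments of independent normal variables
-/

set_option autoImplicit false
set_option linter.unusedSectionVars false

namespace H35GS

open Matrix MeasureTheory Topology
open Q282MM (gm)

/-- the sum over the removals of an entry equal to `k` -/
noncomputable def del (F : List ℕ → ℂ) (k : ℕ) : List ℕ → List ℕ → ℂ
  | [], _ => 0
  | m :: L, M => (if m = k then F (M ++ L) else 0) + del F k L (M ++ [m])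

variable {g : ℕ} {ν : Measure (MM g)}

lemma norm_two_g : ‖(2 * (g : ℂ))‖ = 2 * (g : ℝ) := by
  rw [norm_mul, Complex.norm_natCast]
  norm_num

lemma ad_self (a : ℕ) : ad a a = 0 := by
  unfold ad
  omega

lemma ad_pos {a b : ℕ} (h : a ≠ b) : 1 ≤ ad a b := by
  unfold ad
  omega

lemma ED_near (hν : Haar ν) {w : ℕ} {K : ℝ} (hK : ∀ L : List ℕ, Pos L → L.sum < w → ‖ee ν L‖ ≤ K) (k : ℕ) (hk : 1 ≤ k) (L : List ℕ) :
    ∀ (M : List ℕ), Pos M → Pos L → M.sum + k + L.sum < w →
    ‖ED ν k M L + 2 * (g : ℂ) * k * del (ee ν) k L M‖ ≤ L.sum * (2 * K) := by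
  induction L with
  | nil =>
    intro M _ _ _
    rw [ED_nil]
    simp [del]
  | cons m L ih =>
    intro M hM hL hw
    rw [Pos.cons] at hL
    rw [List.sum_cons] at hw
    rw [ED_cons hν, List.sum_cons]
    simp only [del]
    have h1 := ih (M ++ [m]) (Pos.append.2 ⟨hM, by unfold Pos; simpa using hL.1⟩) hL.2 (by rw [List.sum_append, List.sum_singleton]; omega)
    have h2 := hK (M ++ (k + m) :: L) (Pos.append.2 ⟨hM, Pos.cons.2 ⟨by omega, hL.2⟩⟩) (by rw [List.sum_append, List.sum_cons]; omega)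
    have hK0 : 0 ≤ K := (norm_nonneg _).trans h2
    have hm0 : (0 : ℝ) ≤ m := Nat.cast_nonneg _
    by_cases hmk : m = k
    · subst hmk
      rw [if_pos rfl, ad_self, ee_zero]
      have e : (m : ℂ) * (ee ν (M ++ (m + m) :: L) - 2 * (g : ℂ) * ee ν (M ++ L)) + ED ν m (M ++ [m]) L + 2 * (g : ℂ) * m * (ee ν (M ++ L) + del (ee ν) m L (M ++ [m])) =
          (m : ℂ) * ee ν (M ++ (m + m) :: L) + (ED ν m (M ++ [m]) L + 2 * (g : ℂ) * m * del (ee ν) m L (M ++ [m])) := by ring
      rw [e]
      have h4 : ‖(m : ℂ) * ee ν (M ++ (m + m) :: L)‖ ≤ m * (2 * K) := by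
        rw [norm_mul, Complex.norm_natCast]
        exact mul_le_mul_of_nonneg_left (by linarith) hm0
      refine (norm_add_le _ _).trans ((add_le_add h4 h1).trans (le_of_eq ?_))
      push_cast
      ring
    · rw [if_neg hmk]
      have h3 := hK (M ++ ad m k :: L) (Pos.append.2 ⟨hM, Pos.cons.2 ⟨ad_pos hmk, hL.2⟩⟩) (by
        rw [List.sum_append, List.sum_cons]
        have := ad_le hL.1 hk
        omega)
      have e : (m : ℂ) * (ee ν (M ++ (k + m) :: L) - ee ν (M ++ ad m k :: L)) + ED ν k (M ++ [m]) L + 2 * (g : ℂ) * k * (0 + del (ee ν) k L (M ++ [m])) =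
          (m : ℂ) * (ee ν (M ++ (k + m) :: L) - ee ν (M ++ ad m k :: L)) + (ED ν k (M ++ [m]) L + 2 * (g : ℂ) * k * del (ee ν) k L (M ++ [m])) := by ring
      rw [e]
      have h4 : ‖(m : ℂ) * (ee ν (M ++ (k + m) :: L) - ee ν (M ++ ad m k :: L))‖ ≤ m * (2 * K) := by
        rw [norm_mul, Complex.norm_natCast]
        refine mul_le_mul_of_nonneg_left ((norm_sub_le _ _).trans ?_) hm0
        linarith
      refine (norm_add_le _ _).trans ((add_le_add h4 h1).trans (le_of_eq ?_))
      push_cast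
      ring

lemma eta_sum' (k : ℕ) (hk : 1 ≤ k) (c : ℂ) : ∑ l ∈ Finset.Ico 1 k, (if 2 * l = k then c else 0) = (eta (k - 1) : ℂ) * c := by
  unfold eta
  rw [Nat.sub_add_cancel hk]
  split_ifs with h
  · obtain ⟨a, ha⟩ := h
    rw [Finset.sum_eq_single a]
    · rw [if_pos (by omega)]
      simp
    · intro b _ hb
      rw [if_neg (by omega)]
    · intro h'
      exfalso
      apply h'
      rw [Finset.mem_Ico]
      omega
  · rw [Finset.sum_eq_zero]
    · simp
    · intro l _
      rw [if_neg]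
      intro h'
      exact h ⟨l, by omega⟩

/-- the recursion of the moments up to `1 / g` -/
theorem ee_rec (k : ℕ) (hk : 1 ≤ k) (L : List ℕ) (hL : Pos L) : ∃ K : ℝ, 0 ≤ K ∧ ∀ (g : ℕ) (ν : Measure (MM g)), 1 ≤ g → Haar ν →
    ‖ee ν (k :: L) + eta (k - 1) * ee ν L - k * del (ee ν) k L []‖ ≤ K / g := by
  obtain ⟨K, hK1, hK⟩ := ee_bdd (k + L.sum + 1)
  refine ⟨(1 + 2 * k + 2 * L.sum) * K, by positivity, fun g ν hg hν => ?_⟩
  have hgR : (1 : ℝ) ≤ g := by exact_mod_cast hg
  have hK' := hK g ν hg hν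
  have hK0 : 0 ≤ K := by linarith
  have h1 := loop_lead hν k hk L
  have h2 : ‖∑ l ∈ Finset.Ico 1 k, ee ν (l :: (k - l) :: L)‖ ≤ k * K := by
    refine (norm_sum_le _ _).trans ?_
    calc ∑ l ∈ Finset.Ico 1 k, ‖ee ν (l :: (k - l) :: L)‖ ≤ ∑ l ∈ Finset.Ico 1 k, K := by
          refine Finset.sum_le_sum fun l hl => ?_
          rw [Finset.mem_Ico] at hl
          refine hK' _ (Pos.cons.2 ⟨hl.1, Pos.cons.2 ⟨by omega, hL⟩⟩) ?_
          rw [List.sum_cons, List.sum_cons]
          omega
      _ = ((k - 1 : ℕ) : ℝ) * K := by rw [Finset.sum_const, Nat.card_Ico, nsmul_eq_mul]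
      _ ≤ k * K := mul_le_mul_of_nonneg_right (Nat.cast_le.2 (Nat.sub_le _ _)) hK0
  have h3 : ‖∑ l ∈ Finset.Ico 1 k, ee ν (ad (k - l) l :: L) - eta (k - 1) * (2 * (g : ℂ) * ee ν L)‖ ≤ k * K := by
    rw [← eta_sum' k hk, ← Finset.sum_sub_distrib]
    refine (norm_sum_le _ _).trans ?_
    calc ∑ l ∈ Finset.Ico 1 k, ‖ee ν (ad (k - l) l :: L) - (if 2 * l = k then 2 * (g : ℂ) * ee ν L else 0)‖ ≤ ∑ l ∈ Finset.Ico 1 k, K := by
          refine Finset.sum_le_sum fun l hl => ?_
          rw [Finset.mem_Ico] at hl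
          by_cases h : 2 * l = k
          · have h4 : ad (k - l) l = 0 := by
              rw [show k - l = l by omega, ad_self]
            rw [if_pos h, h4, show ee ν (0 :: L) = 2 * (g : ℂ) * ee ν L from ee_zero [] L, sub_self, norm_zero]
            exact hK0
          · rw [if_neg h, sub_zero]
            refine hK' _ (Pos.cons.2 ⟨ad_pos (by omega), hL⟩) ?_
            rw [List.sum_cons]
            have := ad_le (a := k - l) (b := l) (by omega) hl.1
            omega
      _ = ((k - 1 : ℕ) : ℝ) * K := by rw [Finset.sum_const, Nat.card_Ico, nsmul_eq_mul]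
      _ ≤ k * K := mul_le_mul_of_nonneg_right (Nat.cast_le.2 (Nat.sub_le _ _)) hK0
  have h4 := ED_near hν hK' k hk L [] (by unfold Pos; simp) hL (by rw [List.sum_nil]; omega)
  have h5 := hK' (k :: L) (Pos.cons.2 ⟨hk, hL⟩) (by rw [List.sum_cons]; omega)
  have e : 2 * (g : ℂ) * (ee ν (k :: L) + eta (k - 1) * ee ν L - k * del (ee ν) k L []) =
      -ee ν (k :: L) - ∑ l ∈ Finset.Ico 1 k, ee ν (l :: (k - l) :: L) - (∑ l ∈ Finset.Ico 1 k, ee ν (ad (k - l) l :: L) - eta (k - 1) * (2 * (g : ℂ) * ee ν L)) -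
        (ED ν k [] L + 2 * (g : ℂ) * k * del (ee ν) k L []) := by
    linear_combination h1
  have h6 : ‖2 * (g : ℂ) * (ee ν (k :: L) + eta (k - 1) * ee ν L - k * del (ee ν) k L [])‖ ≤ K + k * K + k * K + L.sum * (2 * K) := by
    rw [e]
    refine (norm_sub_le _ _).trans (add_le_add ((norm_sub_le _ _).trans (add_le_add ((norm_sub_le _ _).trans (add_le_add ?_ h2)) h3)) h4)
    rw [norm_neg]
    exact h5
  rw [norm_mul, norm_two_g] at h6
  rw [le_div_iff₀ (by linarith)]
  have h7 := norm_nonneg (ee ν (k :: L) + eta (k - 1) * ee ν L - k * del (ee ν) k L [])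
  nlinarith

/-- the moments of the normal law satisfy the same recursion -/
lemma gm_succ (l : ℕ) : (gm (l + 1) : ℝ) = l * gm (l - 1) := by
  rcases Nat.even_or_odd' l with ⟨m, rfl | rfl⟩
  · rcases m with _ | m
    · rw [gm_odd (by decide)]
      simp
    · rw [gm_odd (by intro h; rw [Nat.even_iff] at h; omega), gm_odd (by intro h; rw [Nat.even_iff] at h; omega)]
      simp
  · have h1 := gm_even m
    rw [Nat.choose_two_right] at h1
    have h2 : 2 * (m + 1) * (2 * (m + 1) - 1) / 2 = (m + 1) * (2 * m + 1) := by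
      have : 2 * (m + 1) * (2 * (m + 1) - 1) = 2 * ((m + 1) * (2 * m + 1)) := by
        rw [show 2 * (m + 1) - 1 = 2 * m + 1 by omega]
        ring
      rw [this, Nat.mul_div_cancel_left _ two_pos]
    rw [h2] at h1
    have h3 : gm (2 * (m + 1)) = (2 * m + 1) * gm (2 * m) := by
      apply Nat.eq_of_mul_eq_mul_right (show 0 < m + 1 by omega)
      rw [h1]
      ring
    rw [show 2 * m + 1 + 1 = 2 * (m + 1) by ring, h3, show 2 * m + 1 - 1 = 2 * m by omega]
    push_cast
    ring

lemma mmt_succ (j k : ℕ) : mmt j (k + 1) = -eta j * mmt j k + k * (j + 1) * mmt j (k - 1) := by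
  obtain ⟨a, ha⟩ : ∃ a : ℝ, a = -eta j := ⟨_, rfl⟩
  obtain ⟨s, hs⟩ : ∃ s : ℝ, s = Real.sqrt (j + 1) := ⟨_, rfl⟩
  have hss : s * s = j + 1 := by
    rw [hs]
    exact Real.mul_self_sqrt (by positivity)
  unfold mmt
  rw [← ha, ← hs, ← hss]
  -- Pascal
  have h1 : ∑ l ∈ Finset.range (k + 1 + 1), ((k + 1).choose l : ℝ) * (a ^ (k + 1 - l) * (s ^ l * gm l)) =
      ∑ l ∈ Finset.range (k + 1), (k.choose l : ℝ) * (a ^ (k + 1 - l) * (s ^ l * gm l)) + ∑ l ∈ Finset.range (k + 1), (k.choose l : ℝ) * (a ^ (k - l) * (s ^ (l + 1) * gm (l + 1))) := by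
    rw [Finset.sum_range_succ' _ (k + 1)]
    simp only [Nat.choose_succ_succ', Nat.cast_add, add_mul, Finset.sum_add_distrib, Nat.choose_zero_right]
    rw [Finset.sum_range_succ' (fun l => (k.choose l : ℝ) * (a ^ (k + 1 - l) * (s ^ l * gm l))) k]
    have h2 : ∑ l ∈ Finset.range (k + 1), (k.choose (l + 1) : ℝ) * (a ^ (k + 1 - (l + 1)) * (s ^ (l + 1) * gm (l + 1))) =
        ∑ l ∈ Finset.range k, (k.choose (l + 1) : ℝ) * (a ^ (k + 1 - (l + 1)) * (s ^ (l + 1) * gm (l + 1))) := by
      rw [Finset.sum_range_succ, Nat.choose_succ_self]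
      simp
    rw [h2]
    simp only [Nat.add_sub_add_right, Nat.choose_zero_right]
    ring
  rw [h1]
  congr 1
  · rw [Finset.mul_sum]
    refine Finset.sum_congr rfl fun l hl => ?_
    rw [Finset.mem_range] at hl
    rw [show k + 1 - l = (k - l) + 1 by omega, pow_succ]
    ring
  · rcases k with _ | k
    · simp [gm_succ]
    · rw [Finset.sum_range_succ' _ (k + 1), Finset.mul_sum]
      have h0 : (gm (0 + 1) : ℝ) = 0 := by rw [gm_succ]; simp
      rw [h0]
      simp only [mul_zero, add_zero]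
      refine Finset.sum_congr rfl fun l hl => ?_
      rw [Finset.mem_range] at hl
      rw [gm_succ (l + 1)]
      have h3 : ((k + 1).choose (l + 1) : ℝ) * ((l + 1 : ℕ) : ℝ) = ((k + 1 : ℕ) : ℝ) * (k.choose l : ℝ) := by
        have := Nat.add_one_mul_choose_eq k l
        exact_mod_cast this.symm
      rw [show k + 1 - (l + 1) = k - l by omega, show k + 1 - 1 = k by omega, show l + 1 - 1 = l by omega]
      calc ((k + 1).choose (l + 1) : ℝ) * (a ^ (k - l) * (s ^ (l + 1 + 1) * (((l + 1 : ℕ) : ℝ) * gm l)))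
          = (((k + 1).choose (l + 1) : ℝ) * ((l + 1 : ℕ) : ℝ)) * (a ^ (k - l) * (s ^ l * gm l)) * (s * s) := by ring
        _ = _ := by rw [h3]; ring

/-- the moments of independent normal variables -/
noncomputable def Ga (r : ℕ) (L : List ℕ) : ℂ := ((∏ j ∈ Finset.range r, mmt j (L.count (j + 1)) : ℝ) : ℂ)

lemma Ga_perm {r : ℕ} {L L' : List ℕ} (h : ∀ a, L.count a = L'.count a) : Ga r L = Ga r L' := by
  unfold Ga
  simp only [h]

lemma Ga_cons (r k : ℕ) (hk : 1 ≤ k) (hkr : k ≤ r) (L : List ℕ) :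
    Ga r (k :: L) = -eta (k - 1) * Ga r L + k * (L.count k * Ga r (L.erase k)) := by
  obtain ⟨j, rfl⟩ : ∃ j, k = j + 1 := ⟨k - 1, (Nat.sub_add_cancel hk).symm⟩
  have hj : j ∈ Finset.range r := Finset.mem_range.2 (by omega)
  unfold Ga
  have hp : ∀ f : ℕ → ℝ, ∏ i ∈ Finset.range r, f i = f j * ∏ i ∈ (Finset.range r).erase j, f i := fun f => (Finset.mul_prod_erase _ f hj).symm
  rw [hp (fun i => mmt i (List.count (i + 1) ((j + 1) :: L))), hp (fun i => mmt i (List.count (i + 1) L)), hp (fun i => mmt i (List.count (i + 1) (L.erase (j + 1))))]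
  have h1 : ∏ i ∈ (Finset.range r).erase j, mmt i (((j + 1) :: L).count (i + 1)) = ∏ i ∈ (Finset.range r).erase j, mmt i (L.count (i + 1)) := by
    refine Finset.prod_congr rfl fun i hi => ?_
    rw [List.count_cons_of_ne]
    intro h
    exact (Finset.ne_of_mem_erase hi) (by omega)
  have h2 : ∏ i ∈ (Finset.range r).erase j, mmt i ((L.erase (j + 1)).count (i + 1)) = ∏ i ∈ (Finset.range r).erase j, mmt i (L.count (i + 1)) := by
    refine Finset.prod_congr rfl fun i hi => ?_
    rw [List.count_erase_of_ne]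
    intro h
    exact (Finset.ne_of_mem_erase hi) (by omega)
  rw [h1, h2, List.count_cons_self, List.count_erase_self, mmt_succ, Nat.add_sub_cancel]
  push_cast
  ring

lemma del_Ga (r k : ℕ) (L : List ℕ) : ∀ M : List ℕ, del (Ga r) k L M = L.count k * Ga r (M ++ L.erase k) := by
  induction L with
  | nil =>
    intro M
    simp [del]
  | cons m L ih =>
    intro M
    simp only [del]
    rw [ih]
    by_cases h : m = k
    · subst h
      rw [if_pos rfl, List.count_cons_self, List.erase_cons_head]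
      by_cases h1 : m ∈ L
      · have h2 : Ga r (M ++ [m] ++ L.erase m) = Ga r (M ++ L) := by
          refine Ga_perm fun a => ?_
          have h3 := (List.perm_cons_erase h1).count_eq a
          rw [List.append_assoc, List.singleton_append, List.count_append, List.count_append, h3]
        rw [h2]
        push_cast
        ring
      · rw [List.count_eq_zero_of_not_mem h1]
        simp
    · rw [if_neg h, List.count_cons_of_ne (fun h' => h h'), List.erase_cons_tail (by simpa using h), zero_add]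
      congr 2
      simp

/-- **the moments of the traces** -/
theorem ee_near (r n : ℕ) : ∀ L : List ℕ, L.length < n → Pos L → (∀ m ∈ L, m ≤ r) → ∃ K : ℝ, 0 ≤ K ∧ ∀ (g : ℕ) (ν : Measure (MM g)), 1 ≤ g → Haar ν →
    ‖ee ν L - Ga r L‖ ≤ K / g := by
  induction n with
  | zero => exact fun L h => absurd h (Nat.not_lt_zero _)
  | succ n ih =>
    intro L hLn hL hLr
    rcases L with _ | ⟨k, L⟩
    · refine ⟨0, le_rfl, fun g ν _ hν => ?_⟩
      have := hν.prob
      have h1 : ee ν [] = 1 := by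
        unfold ee
        simp [TP_nil]
      have h2 : Ga r [] = 1 := by
        unfold Ga mmt
        simp [gm_zero]
      rw [h1, h2]
      simp
    rw [Pos.cons] at hL
    rw [List.length_cons] at hLn
    have hkr : k ≤ r := hLr k (by simp)
    have hLr' : ∀ m ∈ L, m ≤ r := fun m hm => hLr m (by simp [hm])
    obtain ⟨K₁, hK₁, h1⟩ := ee_rec k hL.1 L hL.2
    obtain ⟨K₂, hK₂, h2⟩ := ih L (by omega) hL.2 hLr'
    -- the removals
    have hdel : ∀ L M : List ℕ, M.length + L.length < n + 1 → Pos L → Pos M → (∀ m ∈ L, m ≤ r) → (∀ m ∈ M, m ≤ r) → ∃ K : ℝ, 0 ≤ K ∧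
        ∀ (g : ℕ) (ν : Measure (MM g)), 1 ≤ g → Haar ν → ‖del (ee ν) k L M - del (Ga r) k L M‖ ≤ K / g := by
      intro L
      induction L with
      | nil =>
        intro M _ _ _ _ _
        refine ⟨0, le_rfl, fun g ν _ _ => ?_⟩
        simp [del]
      | cons m L ihL =>
        intro M hlen hL hM hLr hMr
        rw [Pos.cons] at hL
        rw [List.length_cons] at hlen
        obtain ⟨K₃, hK₃, h3⟩ := ihL (M ++ [m]) (by rw [List.length_append, List.length_singleton]; omega) hL.2
          (Pos.append.2 ⟨hM, by unfold Pos; simpa using hL.1⟩) (fun a ha => hLr a (by simp [ha])) (fun a ha => by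
            rw [List.mem_append, List.mem_singleton] at ha
            rcases ha with ha | rfl
            · exact hMr a ha
            · exact hLr a (by simp))
        obtain ⟨K₄, hK₄, h4⟩ := ih (M ++ L) (by rw [List.length_append]; omega) (Pos.append.2 ⟨hM, hL.2⟩) (fun a ha => by
            rw [List.mem_append] at ha
            rcases ha with ha | ha
            · exact hMr a ha
            · exact hLr a (by simp [ha]))
        refine ⟨K₄ + K₃, add_nonneg hK₄ hK₃, fun g ν hg hν => ?_⟩
        simp only [del]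
        have e : (if m = k then ee ν (M ++ L) else 0) + del (ee ν) k L (M ++ [m]) - ((if m = k then Ga r (M ++ L) else 0) + del (Ga r) k L (M ++ [m])) =
            (if m = k then (ee ν (M ++ L) - Ga r (M ++ L)) else 0) + (del (ee ν) k L (M ++ [m]) - del (Ga r) k L (M ++ [m])) := by
          split_ifs <;> ring
        rw [e, add_div]
        refine (norm_add_le _ _).trans (add_le_add ?_ (h3 g ν hg hν))
        split_ifs
        · exact h4 g ν hg hν
        · rw [norm_zero]
          positivity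
    obtain ⟨K₅, hK₅, h5⟩ := hdel L [] (by rw [List.length_nil]; omega) hL.2 (by unfold Pos; simp) hLr' (by simp)
    refine ⟨K₁ + K₂ + k * K₅, by positivity, fun g ν hg hν => ?_⟩
    have h6 := del_Ga r k L []
    rw [List.nil_append] at h6
    have e : ee ν (k :: L) - Ga r (k :: L) = (ee ν (k :: L) + eta (k - 1) * ee ν L - k * del (ee ν) k L []) - eta (k - 1) * (ee ν L - Ga r L) +
        k * (del (ee ν) k L [] - del (Ga r) k L []) := by
      rw [Ga_cons r k hL.1 hkr, ← h6]
      ring
    rw [e]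
    have h7 : ‖(eta (k - 1) : ℂ) * (ee ν L - Ga r L)‖ ≤ K₂ / g := by
      rw [norm_mul, Complex.norm_real, Real.norm_eq_abs, abs_of_nonneg (eta_nonneg _)]
      refine le_trans ?_ (h2 g ν hg hν)
      exact mul_le_of_le_one_left (norm_nonneg _) (eta_le _)
    have h8 : ‖(k : ℂ) * (del (ee ν) k L [] - del (Ga r) k L [])‖ ≤ k * K₅ / g := by
      rw [norm_mul, Complex.norm_natCast, mul_div_assoc]
      exact mul_le_mul_of_nonneg_left (h5 g ν hg hν) (Nat.cast_nonneg _)
    refine (norm_add_le _ _).trans ((add_le_add ((norm_sub_le _ _).trans (add_le_add (h1 g ν hg hν) h7)) h8).trans (le_of_eq ?_))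
    ring

/-- the list with `k j` entries equal to `j + 1`, `j < r` -/
def Lst (k : ℕ → ℕ) : ℕ → List ℕ
  | 0 => []
  | r + 1 => List.replicate (k r) (r + 1) ++ Lst k r

lemma TP_Lst (k : ℕ → ℕ) (r : ℕ) (U : MM g) : TP (Lst k r) U = ∏ j ∈ Finset.range r, (U ^ (j + 1)).trace ^ k j := by
  induction r with
  | zero => simp [Lst, TP_nil]
  | succ r ih =>
    rw [Finset.prod_range_succ, ← ih]
    show TP (List.replicate (k r) (r + 1) ++ Lst k r) U = _
    rw [TP_append, mul_comm]
    congr 1
    unfold TP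
    rw [List.map_replicate, List.prod_replicate]

lemma mem_Lst (k : ℕ → ℕ) (r : ℕ) : ∀ m ∈ Lst k r, 1 ≤ m ∧ m ≤ r := by
  induction r with
  | zero => simp [Lst]
  | succ r ih =>
    intro m hm
    change m ∈ List.replicate (k r) (r + 1) ++ Lst k r at hm
    rw [List.mem_append] at hm
    rcases hm with hm | hm
    · rw [List.eq_of_mem_replicate hm]
      omega
    · have := ih m hm
      omega

lemma count_Lst (k : ℕ → ℕ) (r j : ℕ) (hj : j < r) : (Lst k r).count (j + 1) = k j := by
  induction r with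
  | zero => omega
  | succ r ih =>
    show List.count (j + 1) (List.replicate (k r) (r + 1) ++ Lst k r) = _
    rw [List.count_append, List.count_replicate]
    by_cases h : r = j
    · subst h
      rw [if_pos (by simp), List.count_eq_zero_of_not_mem, add_zero]
      intro h
      have := mem_Lst k r _ h
      omega
    · rw [if_neg (by simpa using h), zero_add]
      exact ih (by omega)

lemma US.pow {U : MM g} (h : US U) (m : ℕ) : US (U ^ m) := by
  induction m with
  | zero => exact ⟨by simp, by simp⟩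
  | succ m ih => rw [pow_succ]; exact ih.mul h

/-- the traces are real -/
lemma US.trace_re {U : MM g} (h : US U) (m : ℕ) : (((U ^ m).trace.re : ℝ) : ℂ) = (U ^ m).trace := by
  have h1 : (starRingEnd ℂ) (U ^ m).trace = (U ^ m).trace := by
    rw [starRingEnd_apply, ← trace_conjTranspose, conjTranspose_pow, h.tr_star]
  exact Complex.conj_eq_iff_re.1 h1

/-- **the joint moments of the traces for the Haar measure, up to a constant over the genus** -/
theorem haar_mom (r : ℕ) (k : ℕ → ℕ) : ∃ K : ℝ, 0 ≤ K ∧ ∀ (g : ℕ) (ν : Measure (MM g)), 1 ≤ g → Haar ν →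
    |∫ U : MM g, ∏ j ∈ Finset.range r, (U ^ (j + 1)).trace.re ^ k j ∂ν - ∏ j ∈ Finset.range r, mmt j (k j)| ≤ K / g := by
  obtain ⟨K, hK, h⟩ := ee_near r ((Lst k r).length + 1) (Lst k r) (Nat.lt_succ_self _) (fun m hm => (mem_Lst k r m hm).1) (fun m hm => (mem_Lst k r m hm).2)
  refine ⟨K, hK, fun g ν hg hν => ?_⟩
  have h1 := h g ν hg hν
  have h2 : ee ν (Lst k r) = ((∫ U : MM g, ∏ j ∈ Finset.range r, (U ^ (j + 1)).trace.re ^ k j ∂ν : ℝ) : ℂ) := by
    unfold ee
    rw [← integral_complex_ofReal]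
    refine integral_congr_ae ?_
    filter_upwards [hν.supp] with U hU
    rw [TP_Lst]
    push_cast
    exact Finset.prod_congr rfl fun j _ => by rw [hU.trace_re]
  have h3 : Ga r (Lst k r) = ((∏ j ∈ Finset.range r, mmt j (k j) : ℝ) : ℂ) := by
    unfold Ga
    congr 1
    exact Finset.prod_congr rfl fun j hj => by rw [count_Lst k r j (Finset.mem_range.1 hj)]
  rw [h2, h3, ← Complex.ofReal_sub, Complex.norm_real, Real.norm_eq_abs] at h1
  exact h1

end H35GS
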