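import Pool.Agent.H35J.GS.Loop5

/-!
# The joint moments of the traces of low weight are exactly those of independent normal variables
-/

set_option autoImplicit false
set_option linter.unusedSectionVars false

namespace H35GS

open Matrix MeasureTheory Topology Finset
open Q282MM (gm)

/-- the parity -/
noncomputable def et (k : ℕ) : ℂ := if Even k then 1 else 0

lemma eta_et {k : ℕ} (hk : 1 ≤ k) : (eta (k - 1) : ℂ) = et k := by
  unfold eta et
  rw [Nat.sub_add_cancel hk]
  split_ifs <;> simp

/-- Stein's equation -/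
lemma stein {r k : ℕ} (hk : 1 ≤ k) (hkr : k ≤ r) (L : List ℕ) : Ga r (k :: L) = -et k * Ga r L + k * (L.count k * Ga r (L.erase k)) := by
  rw [Ga_cons r k hk hkr, eta_et hk]

/-- the sum over the parity class -/
lemma sum_ad (F : ℕ → ℂ) (k : ℕ) (hk : 1 ≤ k) : ∑ l ∈ Ico 1 k, F (ad (k - l) l) =
    et k * F 0 + 2 * ∑ j ∈ Ico 1 k, if (Even j ↔ Even k) then F j else 0 := by
  induction k using Nat.strong_induction_on with
  | _ k ih =>
    rcases k with _ | _ | _ | k
    · omega
    · simp [et]
    · have h1 : Ico 1 (0 + 1 + 1) = {1} := by decide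
      rw [h1, sum_singleton, sum_singleton, if_neg (by decide)]
      unfold et ad
      simp
    · have ih' := ih (k + 1) (by omega) (by omega)
      -- the left side
      have h1 : ∑ l ∈ Ico 1 (k + 1 + 1 + 1), F (ad (k + 1 + 1 + 1 - l) l) = F (k + 1) + ∑ l ∈ Ico 1 (k + 1), F (ad (k + 1 - l) l) + F (k + 1) := by
        have h0 : ∑ l ∈ Ico (1 + 1) (k + 1 + 1), F (ad (k + 1 + 1 + 1 - l) l) = ∑ l ∈ Ico 1 (k + 1), F (ad (k + 1 - l) l) := by
          rw [← sum_Ico_add' (fun l => F (ad (k + 1 + 1 + 1 - l) l)) 1 (k + 1) 1]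
          refine sum_congr rfl fun l hl => ?_
          rw [mem_Ico] at hl
          congr 1
          unfold ad
          omega
        have e1 : ad (k + 1 + 1 + 1 - 1) 1 = k + 1 := by unfold ad; omega
        have e2 : ad (k + 1 + 1 + 1 - (k + 1 + 1)) (k + 1 + 1) = k + 1 := by unfold ad; omega
        rw [sum_Ico_succ_top (by omega), sum_eq_sum_Ico_succ_bot (by omega : 1 < k + 1 + 1), e1, e2, h0]
      have h2 : ∑ j ∈ Ico 1 (k + 1 + 1 + 1), (if (Even j ↔ Even (k + 1 + 1 + 1)) then F j else 0) = (∑ j ∈ Ico 1 (k + 1), if (Even j ↔ Even (k + 1)) then F j else 0) + F (k + 1) := by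
        have e3 : Even (k + 1 + 1 + 1) ↔ Even (k + 1) := by
          rw [Nat.even_add_one, Nat.even_add_one, not_not]
        simp only [e3]
        rw [sum_Ico_succ_top (by omega), sum_Ico_succ_top (by omega), if_pos Iff.rfl, if_neg, add_zero]
        rw [Nat.even_add_one]
        tauto
      have e4 : et (k + 1 + 1 + 1) = et (k + 1) := by
        unfold et
        have e3 : Even (k + 1 + 1 + 1) ↔ Even (k + 1) := by
          rw [Nat.even_add_one, Nat.even_add_one, not_not]
        simp only [e3]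
      rw [h1, h2, ih', e4]
      ring

lemma sum_refl (A : ℕ → ℂ) (k : ℕ) : ∑ l ∈ Ico 1 k, et l * A (k - l) = ∑ j ∈ Ico 1 k, if (Even j ↔ Even k) then A j else 0 := by
  refine sum_bij' (fun l _ => k - l) (fun j _ => k - j) ?_ ?_ ?_ ?_ ?_
  · intro l hl
    rw [mem_Ico] at hl ⊢
    omega
  · intro l hl
    rw [mem_Ico] at hl ⊢
    omega
  · intro l hl
    rw [mem_Ico] at hl
    omega
  · intro l hl
    rw [mem_Ico] at hl
    omega
  · intro l hl
    rw [mem_Ico] at hl
    unfold et
    have h0 : (Even (k - l) ↔ Even k) ↔ Even l := by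
      rw [Nat.even_sub hl.2.le]
      tauto
    by_cases h2 : Even l
    · rw [if_pos h2, if_pos (h0.2 h2), one_mul]
    · rw [if_neg h2, if_neg (fun h => h2 (h0.1 h)), zero_mul]

lemma sum_parity (k : ℕ) (c : ℂ) : ∑ j ∈ Ico 1 (k + 1), (if (Even j ↔ Even k) then et j * c else 0) = et k * ((k : ℂ) / 2) * c := by
  have h1 : ∀ k : ℕ, ∑ j ∈ Ico 1 (2 * k + 1), (if Even j then c else 0) = k * c := by
    intro k
    induction k with
    | zero => simp
    | succ k ih =>
      have h2 : ¬ Even (2 * k + 1) := by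
        rw [Nat.even_add_one]
        simp
      have h3 : Even (2 * k + 1 + 1) := ⟨k + 1, by ring⟩
      rw [show 2 * (k + 1) + 1 = 2 * k + 1 + 1 + 1 by ring, sum_Ico_succ_top (by omega), sum_Ico_succ_top (by omega), ih, if_neg h2, if_pos h3]
      push_cast
      ring
  by_cases hk : Even k
  · obtain ⟨a, ha⟩ := hk
    have h2 := h1 a
    rw [show 2 * a = k by omega] at h2
    unfold et
    have hk : Even k := ⟨a, ha⟩
    simp only [hk, iff_true, if_true, one_mul]
    have h3 : ∀ j : ℕ, (if Even j then (if Even j then (1 : ℂ) else 0) * c else 0) = if Even j then c else 0 := by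
      intro j
      split_ifs <;> simp
    simp only [h3]
    rw [h2, show (k : ℂ) = a + a by rw [ha]; push_cast; ring]
    ring
  · unfold et
    simp only [hk, iff_false, if_false, zero_mul]
    refine sum_eq_zero fun j _ => ?_
    by_cases hj : Even j <;> simp [hj]

/-- the contracted terms of the normal variables -/
noncomputable def EG (r : ℕ) (G : ℂ) (k : ℕ) : List ℕ → List ℕ → ℂ
  | _, [] => 0
  | M, m :: L => m * (Ga r (M ++ (k + m) :: L) - (if m = k then G * Ga r (M ++ L) else Ga r (M ++ ad m k :: L))) + EG r G k (M ++ [m]) L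

lemma Ga_mid {r : ℕ} (M L : List ℕ) (a : ℕ) : Ga r (M ++ a :: L) = Ga r (a :: (M ++ L)) := by
  refine Ga_perm fun b => ?_
  rw [List.count_append, List.count_cons, List.count_cons, List.count_append]
  ring

/-- the contracted terms as a sum over the values -/
lemma EG_eq (r : ℕ) (G : ℂ) (k N : ℕ) (L : List ℕ) : ∀ M : List ℕ, (∀ m ∈ L, m < N) →
    EG r G k M L = ∑ a ∈ range N, (L.count a : ℂ) * (a * (Ga r ((k + a) :: (M ++ L.erase a)) -
      (if a = k then G * Ga r (M ++ L.erase a) else Ga r (ad a k :: (M ++ L.erase a))))) := by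
  induction L with
  | nil =>
    intro M _
    simp [EG]
  | cons m L ih =>
    intro M hL
    simp only [EG]
    rw [ih (M ++ [m]) (fun a ha => hL a (by simp [ha]))]
    have hm : m ∈ range N := mem_range.2 (hL m (by simp))
    rw [← add_sum_erase _ _ hm, ← add_sum_erase (s := range N) (f := fun a => ((m :: L).count a : ℂ) * (a * (Ga r ((k + a) :: (M ++ (m :: L).erase a)) -
      (if a = k then G * Ga r (M ++ (m :: L).erase a) else Ga r (ad a k :: (M ++ (m :: L).erase a)))))) hm, ← add_assoc]
    congr 1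
    · rw [List.count_cons_self, List.erase_cons_head, Ga_mid, Ga_mid]
      by_cases h1 : m ∈ L
      · have h2 : ∀ b, List.count b (M ++ [m] ++ L.erase m) = List.count b (M ++ L) := by
          intro b
          have h3 := (List.perm_cons_erase h1).count_eq b
          rw [List.append_assoc, List.singleton_append, List.count_append, List.count_append, h3]
        have h4 : Ga r (M ++ [m] ++ L.erase m) = Ga r (M ++ L) := Ga_perm h2
        have h5 : ∀ c, Ga r (c :: (M ++ [m] ++ L.erase m)) = Ga r (c :: (M ++ L)) := fun c => Ga_perm fun b => by rw [List.count_cons, List.count_cons, h2]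
        rw [h4, h5, h5]
        push_cast
        ring
      · rw [List.count_eq_zero_of_not_mem h1]
        push_cast
        ring
    · refine sum_congr rfl fun a ha => ?_
      have hne : a ≠ m := ne_of_mem_erase ha
      rw [List.count_cons_of_ne (Ne.symm hne), List.erase_cons_tail (by simpa using hne.symm)]
      have h2 : M ++ [m] ++ L.erase a = M ++ m :: L.erase a := by simp
      rw [h2]

section

variable {r k : ℕ} {L : List ℕ}

lemma count_le_sum {a : ℕ} (h : L.sum < a) : L.count a = 0 := by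
  rw [List.count_eq_zero]
  intro h1
  have := List.le_sum_of_mem h1
  omega

lemma term_one (hkr : k ≤ r) (l : ℕ) (hl : l ∈ Ico 1 k) :
    Ga r (l :: (k - l) :: L) = -et l * Ga r ((k - l) :: L) + (if 2 * l = k then (l : ℂ) * Ga r L else 0) + L.count l * (l * Ga r ((k - l) :: L.erase l)) := by
  rw [mem_Ico] at hl
  rw [stein hl.1 (by omega)]
  by_cases h : 2 * l = k
  · have h1 : k - l = l := by omega
    rw [if_pos h, h1, List.count_cons_self, List.erase_cons_head]
    by_cases h2 : l ∈ L
    · have h3 : Ga r (l :: L.erase l) = Ga r L := Ga_perm fun b => ((List.perm_cons_erase h2).count_eq b).symm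
      rw [h3]
      push_cast
      ring
    · rw [List.count_eq_zero_of_not_mem h2]
      push_cast
      ring
  · rw [if_neg h, List.count_cons_of_ne (by omega), List.erase_cons_tail (by simp; omega)]
    ring

lemma sum_half (k : ℕ) (c : ℂ) : ∑ l ∈ Ico 1 k, (if 2 * l = k then (l : ℂ) * c else 0) = et k * ((k : ℂ) / 2) * c := by
  rcases Nat.eq_zero_or_pos k with rfl | hk
  · simp
  have h1 := eta_sum' k hk ((k : ℂ) / 2 * c)
  rw [eta_et hk] at h1
  rw [mul_assoc, ← h1]
  refine sum_congr rfl fun l _ => ?_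
  split_ifs with h
  · rw [← h]
    push_cast
    ring
  · rfl

/-- **the moments of the normal variables satisfy the loop equations** -/
theorem loop_Ga (hk : 1 ≤ k) (hr : k + L.sum ≤ r) (G : ℂ) :
    (G + 1) * Ga r (k :: L) = -∑ l ∈ Ico 1 k, Ga r (l :: (k - l) :: L) - ∑ l ∈ Ico 1 k, (if ad (k - l) l = 0 then G * Ga r L else Ga r (ad (k - l) l :: L)) - EG r G k [] L := by
  obtain ⟨N, hN⟩ : ∃ N, N = r + 1 := ⟨_, rfl⟩
  obtain ⟨G0, hG0⟩ : ∃ G0 : ℂ, G0 = Ga r L := ⟨_, rfl⟩
  obtain ⟨A, hA⟩ : ∃ A : ℕ → ℂ, A = fun j => Ga r (j :: L) := ⟨_, rfl⟩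
  obtain ⟨e, he⟩ : ∃ e : ℕ → ℂ, e = fun j => (L.count j : ℂ) * (j * Ga r (L.erase j)) := ⟨_, rfl⟩
  have hAs : ∀ j, 1 ≤ j → j ≤ r → A j = -et j * G0 + e j := by
    intro j h1 h2
    rw [hA, he, hG0]
    simp only
    rw [stein h1 h2]
    ring
  have hr' : k ≤ r := by omega
  -- the first sum
  have t1 : ∑ l ∈ Ico 1 k, Ga r (l :: (k - l) :: L) = -(∑ j ∈ Ico 1 k, if (Even j ↔ Even k) then A j else 0) + et k * ((k : ℂ) / 2) * G0 +
      ∑ l ∈ Ico 1 k, (L.count l : ℂ) * (l * Ga r ((k - l) :: L.erase l)) := by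
    rw [sum_congr rfl fun l hl => term_one hr' l hl, sum_add_distrib, sum_add_distrib, sum_half, ← hG0, ← sum_refl, ← sum_neg_distrib]
    congr 2
    refine sum_congr rfl fun l _ => ?_
    rw [hA]
    ring
  -- the second sum
  have t2 : ∑ l ∈ Ico 1 k, (if ad (k - l) l = 0 then G * Ga r L else Ga r (ad (k - l) l :: L)) =
      et k * (G * G0) + 2 * ∑ j ∈ Ico 1 k, if (Even j ↔ Even k) then A j else 0 := by
    have h1 := sum_ad (fun j => if j = 0 then G * Ga r L else Ga r (j :: L)) k hk
    simp only at h1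
    rw [h1, if_pos trivial, ← hG0]
    congr 2
    refine sum_congr rfl fun j hj => ?_
    rw [mem_Ico] at hj
    rw [if_neg (show ¬ j = 0 by omega), hA]
  -- the third sum
  obtain ⟨P, hP⟩ : ∃ P : ℕ → ℂ, P = fun a => (L.count a : ℂ) * (a * Ga r ((k + a) :: L.erase a)) := ⟨_, rfl⟩
  obtain ⟨Q, hQ⟩ : ∃ Q : ℕ → ℂ, Q = fun a => (L.count a : ℂ) * (a * (if a = k then G * Ga r (L.erase a) else Ga r (ad a k :: L.erase a))) := ⟨_, rfl⟩
  have t3 : EG r G k [] L = ∑ a ∈ range N, P a - ∑ a ∈ range N, Q a := by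
    rw [EG_eq r G k N L [] (fun m hm => by
      have := List.le_sum_of_mem hm
      omega), ← sum_sub_distrib]
    refine sum_congr rfl fun a _ => ?_
    rw [hP, hQ]
    simp only [List.nil_append]
    ring
  obtain ⟨H, hH⟩ : ∃ H : ℕ → ℂ, H = fun b => (L.count (b - k) : ℂ) * (L.count b : ℂ) * ((b - k : ℕ) : ℂ) * b * Ga r ((L.erase (b - k)).erase b) := ⟨_, rfl⟩
  -- `P`
  have hPa : ∀ a, P a = -et (a + k) * e a + H (a + k) := by
    intro a
    rw [hP, he, hH]
    simp only
    rw [Nat.add_sub_cancel]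
    by_cases hc : L.count a = 0
    · rw [hc]
      push_cast
      ring
    · have h1 : a ∈ L := List.count_pos_iff.1 (Nat.pos_of_ne_zero hc)
      have h2 := List.le_sum_of_mem h1
      rw [stein (show 1 ≤ k + a by omega) (by omega), List.count_erase_of_ne (by omega : k + a ≠ a), Nat.add_comm k a]
      push_cast
      ring
  have hD : ∑ a ∈ range N, H (a + k) = ∑ b ∈ Ico (k + 1) N, H b := by
    rw [range_eq_Ico, sum_Ico_add' H 0 N k, zero_add]
    have h1 : Ico k (N + k) = Ico k N ∪ Ico N (N + k) := (Ico_union_Ico_eq_Ico (by omega) (by omega)).symm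
    rw [h1, sum_union (by
      rw [disjoint_left]
      intro x hx hx'
      rw [mem_Ico] at hx hx'
      omega), sum_eq_sum_Ico_succ_bot (by omega : k < N)]
    have h2 : H k = 0 := by
      rw [hH]
      simp
    have h3 : ∑ b ∈ Ico N (N + k), H b = 0 := by
      refine sum_eq_zero fun b hb => ?_
      rw [mem_Ico] at hb
      rw [hH]
      simp only
      rw [count_le_sum (show L.sum < b by omega)]
      push_cast
      ring
    rw [h2, h3]
    ring
  -- `Q`
  have hQ1 : ∑ a ∈ range k, Q a = ∑ l ∈ Ico 1 k, (L.count l : ℂ) * (l * Ga r ((k - l) :: L.erase l)) := by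
    rw [range_eq_Ico, sum_eq_sum_Ico_succ_bot (by omega : 0 < k)]
    have h1 : Q 0 = 0 := by
      rw [hQ]
      simp
    rw [h1, zero_add, zero_add]
    refine sum_congr rfl fun a ha => ?_
    rw [mem_Ico] at ha
    rw [hQ]
    simp only
    rw [if_neg (by omega : ¬ a = k), show ad a k = k - a by unfold ad; omega]
  have hQ2 : Q k = G * e k := by
    rw [hQ, he]
    simp only [if_true]
    ring
  have hQ3 : ∀ a ∈ Ico (k + 1) N, Q a = -et (a + k) * e a + H a := by
    intro a ha
    rw [mem_Ico] at ha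
    rw [hQ, he, hH]
    simp only
    rw [if_neg (by omega : ¬ a = k), show ad a k = a - k by unfold ad; omega, stein (show 1 ≤ a - k by omega) (by omega),
      List.count_erase_of_ne (by omega : a - k ≠ a), List.erase_comm]
    have h1 : et (a - k) = et (a + k) := by
      unfold et
      have h2 : Even (a - k) ↔ Even (a + k) := by
        rw [Nat.even_sub (by omega), Nat.even_add]
      simp only [h2]
    rw [h1]
    ring
  have hQs : ∑ a ∈ range N, Q a = ∑ l ∈ Ico 1 k, (L.count l : ℂ) * (l * Ga r ((k - l) :: L.erase l)) + G * e k + (∑ a ∈ Ico (k + 1) N, -et (a + k) * e a + ∑ a ∈ Ico (k + 1) N, H a) := by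
    have h1 : range N = range k ∪ Ico k N := by
      rw [range_eq_Ico, range_eq_Ico]
      exact (Ico_union_Ico_eq_Ico (by omega) (by omega)).symm
    rw [h1, sum_union (by
      rw [disjoint_left]
      intro x hx hx'
      rw [mem_range] at hx
      rw [mem_Ico] at hx'
      omega), sum_eq_sum_Ico_succ_bot (by omega : k < N), hQ1, hQ2, sum_congr rfl hQ3, sum_add_distrib]
    ring
  have hPs : ∑ a ∈ range N, P a = (∑ a ∈ Ico 1 (k + 1), -et (a + k) * e a) + ∑ a ∈ Ico (k + 1) N, -et (a + k) * e a + ∑ a ∈ Ico (k + 1) N, H a := by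
    rw [sum_congr rfl fun a _ => hPa a, sum_add_distrib, hD, range_eq_Ico]
    have h1 : Ico 0 N = Ico 0 (k + 1) ∪ Ico (k + 1) N := (Ico_union_Ico_eq_Ico (by omega) (by omega)).symm
    rw [h1, sum_union (by
      rw [disjoint_left]
      intro x hx hx'
      rw [mem_Ico] at hx hx'
      omega), sum_eq_sum_Ico_succ_bot (by omega : 0 < k + 1)]
    have h2 : e 0 = 0 := by
      rw [he]
      simp
    rw [h2]
    ring
  -- the parity classes
  have hpar : ∑ a ∈ Ico 1 (k + 1), -et (a + k) * e a = -∑ j ∈ Ico 1 (k + 1), if (Even j ↔ Even k) then e j else 0 := by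
    rw [← sum_neg_distrib]
    refine sum_congr rfl fun a _ => ?_
    unfold et
    have h2 : Even (a + k) ↔ (Even a ↔ Even k) := Nat.even_add
    simp only [h2]
    split_ifs <;> ring
  have hAp : ∑ j ∈ Ico 1 (k + 1), (if (Even j ↔ Even k) then A j else 0) = -(et k * ((k : ℂ) / 2) * G0) + ∑ j ∈ Ico 1 (k + 1), if (Even j ↔ Even k) then e j else 0 := by
    rw [← sum_parity, ← sum_neg_distrib, ← sum_add_distrib]
    refine sum_congr rfl fun j hj => ?_
    rw [mem_Ico] at hj
    rw [hAs j hj.1 (by omega)]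
    split_ifs <;> ring
  have hAk : ∑ j ∈ Ico 1 (k + 1), (if (Even j ↔ Even k) then A j else 0) = (∑ j ∈ Ico 1 k, if (Even j ↔ Even k) then A j else 0) + A k := by
    rw [sum_Ico_succ_top (by omega), if_pos Iff.rfl]
  have hfin := hAs k hk hr'
  have hA' : Ga r (k :: L) = A k := by rw [hA]
  rw [t1, t2, t3, hPs, hQs, hpar, hA']
  rw [hAk] at hAp
  linear_combination G * hfin + hAp

end

end H35GS
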