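import Pool.Agent.H35J.GS.Mod1

/-!
# The moments of the normalised power sums for independent residues
-/

set_option autoImplicit false
set_option linter.unusedSectionVars false

namespace H35GS

open Finset Polynomial
open Q282.CL
open Q282MM (gm)

lemma av_equiv {α β : Type} [Fintype α] [Fintype β] (e : α ≃ β) (f : β → ℝ) : av (fun a => f (e a)) = av f := by
  unfold av
  rw [Fintype.card_congr e, Equiv.sum_comp e f]

/-- the difference of two products -/
lemma prod_diff {ι : Type} [DecidableEq ι] (s : Finset ι) (x y : ι → ℝ) :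
    |∏ i ∈ s, (x i + y i) - ∏ i ∈ s, x i| ≤ (∑ i ∈ s, |y i|) * ∏ i ∈ s, (1 + |x i| + |y i|) := by
  induction s using Finset.induction_on with
  | empty => simp
  | @insert a s ha ih =>
    rw [prod_insert ha, prod_insert ha, prod_insert ha, sum_insert ha]
    have h1 : (x a + y a) * ∏ i ∈ s, (x i + y i) - x a * ∏ i ∈ s, x i =
        (x a + y a) * (∏ i ∈ s, (x i + y i) - ∏ i ∈ s, x i) + y a * ∏ i ∈ s, x i := by ring
    have h2 : |∏ i ∈ s, x i| ≤ ∏ i ∈ s, (1 + |x i| + |y i|) := by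
      rw [abs_prod]
      refine prod_le_prod (fun i _ => abs_nonneg _) fun i _ => ?_
      have := abs_nonneg (y i)
      linarith
    have h3 : 0 ≤ ∏ i ∈ s, (1 + |x i| + |y i|) := (abs_nonneg _).trans h2
    obtain ⟨M, hM⟩ : ∃ M : ℝ, M = ∏ i ∈ s, (1 + |x i| + |y i|) := ⟨_, rfl⟩
    obtain ⟨Y, hY⟩ : ∃ Y : ℝ, Y = ∑ i ∈ s, |y i| := ⟨_, rfl⟩
    have hY0 : 0 ≤ Y := by
      rw [hY]
      exact sum_nonneg fun i _ => abs_nonneg _
    rw [← hM] at ih h2 h3 ⊢
    rw [← hY] at ih ⊢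
    rw [h1]
    refine (abs_add_le _ _).trans ?_
    rw [abs_mul, abs_mul]
    have h4 : |x a + y a| ≤ |x a| + |y a| := abs_add_le _ _
    have h5 : |x a + y a| * |∏ i ∈ s, (x i + y i) - ∏ i ∈ s, x i| ≤ (|x a| + |y a|) * (Y * M) :=
      mul_le_mul h4 ih (abs_nonneg _) (by positivity)
    have h6 : |y a| * |∏ i ∈ s, x i| ≤ |y a| * M := mul_le_mul_of_nonneg_left h2 (abs_nonneg _)
    have hx := abs_nonneg (x a)
    have hy := abs_nonneg (y a)
    have e : (|y a| + Y) * ((1 + |x a| + |y a|) * M) - ((|x a| + |y a|) * (Y * M) + |y a| * M) = |y a| * (|x a| + |y a|) * M + Y * M := by ring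
    have e2 : 0 ≤ |y a| * (|x a| + |y a|) * M + Y * M := by positivity
    linarith

/-- the moments of the main part -/
theorem lvl_mom (j k : ℕ) : ∃ K : ℝ, 0 ≤ K ∧ ∀ (p : ℕ) [Fact p.Prime], p ≠ 2 →
    |av (fun ω : CP p (j + 1) → GaloisField p (j + 1) => (-nsum j ω - eta j) ^ k) - mmt j k| ≤ K / Real.sqrt p := by
  choose K hK h using fun l => nsum_mom j l
  refine ⟨∑ l ∈ range (k + 1), (k.choose l : ℝ) * K l, sum_nonneg fun l _ => mul_nonneg (Nat.cast_nonneg _) (hK l), fun p _ hp2 => ?_⟩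
  have e1 : (fun ω : CP p (j + 1) → GaloisField p (j + 1) => (-nsum j ω - eta j) ^ k) =
      fun ω => ∑ l ∈ range (k + 1), ((k.choose l : ℝ) * ((-eta j) ^ (k - l) * (-1) ^ l)) * nsum j ω ^ l := by
    funext ω
    rw [sub_eq_add_neg, add_pow]
    refine sum_congr rfl fun l _ => ?_
    rw [neg_pow (nsum j ω)]
    ring
  rw [e1, av_sum]
  unfold mmt
  rw [← sum_sub_distrib, sum_div]
  refine (abs_sum_le_sum_abs _ _).trans (sum_le_sum fun l _ => ?_)
  rw [av_mul]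
  have h1 := h l p hp2
  obtain ⟨a, ha⟩ : ∃ a : ℝ, a = av (fun ω : CP p (j + 1) → GaloisField p (j + 1) => nsum j ω ^ l) := ⟨_, rfl⟩
  rw [← ha] at h1 ⊢
  obtain ⟨b, hb⟩ : ∃ b : ℝ, b = Real.sqrt (j + 1) ^ l * gm l := ⟨_, rfl⟩
  rw [← hb] at h1 ⊢
  have hbb : (-1 : ℝ) ^ l * b = b := by
    rcases Nat.even_or_odd l with he | ho
    · rw [he.neg_one_pow, one_mul]
    · rw [hb, gm_odd (Nat.not_even_iff_odd.2 ho)]
      simp
  have e2 : (k.choose l : ℝ) * ((-eta j) ^ (k - l) * (-1) ^ l) * a - (k.choose l : ℝ) * ((-eta j) ^ (k - l) * b) =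
      (k.choose l : ℝ) * ((-eta j) ^ (k - l) * (-1) ^ l * (a - b)) := by
    have : (-eta j) ^ (k - l) * b = (-eta j) ^ (k - l) * ((-1 : ℝ) ^ l * b) := by rw [hbb]
    rw [this]
    ring
  rw [e2, abs_mul, Nat.abs_cast, mul_div_assoc]
  refine mul_le_mul_of_nonneg_left ?_ (Nat.cast_nonneg _)
  rw [abs_mul, abs_mul, abs_pow, abs_pow, abs_neg, abs_neg, abs_one, one_pow, mul_one, abs_of_nonneg (eta_nonneg j)]
  have h2 : eta j ^ (k - l) ≤ 1 := pow_le_one₀ (eta_nonneg j) (eta_le j)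
  calc eta j ^ (k - l) * |a - b| ≤ 1 * |a - b| := mul_le_mul_of_nonneg_right h2 (abs_nonneg _)
    _ = |a - b| := one_mul _
    _ ≤ _ := h1

section

variable {p : ℕ} [hp : Fact p.Prime]

lemma av_levels {r : ℕ} (g : ∀ j : Fin r, (CP p (j + 1) → GaloisField p (j + 1)) → ℝ) :
    av (fun ω : ∀ P : Pt p r, BB P => ∏ j, g j (fun P => ω ⟨j, P⟩)) = ∏ j, av (g j) := by
  have h1 := av_equiv (Equiv.piCurry (fun (j : Fin r) (_ : CP p (j + 1)) => GaloisField p (j + 1))) (fun z => ∏ j, g j (z j))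
  have h2 := av_pi (𝕜 := ℝ) (Ω := fun j : Fin r => CP p (j + 1) → GaloisField p (j + 1)) g
  rw [← h2, ← h1]
  rfl

lemma av_level {r : ℕ} (j : Fin r) (g : (CP p (j + 1) → GaloisField p (j + 1)) → ℝ) :
    av (fun ω : ∀ P : Pt p r, BB P => g (fun P => ω ⟨j, P⟩)) = av g := by
  classical
  have h := av_levels (p := p) (fun i : Fin r => if h : i = j then (fun z => g (fun P => h ▸ z (h ▸ P))) else fun _ => (1 : ℝ))
  have e1 : (fun ω : ∀ P : Pt p r, BB P => ∏ i, (if h : i = j then (fun z => g (fun P => h ▸ z (h ▸ P))) else fun _ => (1 : ℝ)) (fun P : CP p (i + 1) => ω ⟨i, P⟩)) =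
      fun ω : ∀ P : Pt p r, BB P => g (fun P => ω ⟨j, P⟩) := by
    funext ω
    rw [prod_eq_single j]
    · rw [dif_pos rfl]
    · intro i _ hi
      rw [dif_neg hi]
    · intro hj
      exact absurd (mem_univ _) hj
  rw [e1] at h
  rw [h, prod_eq_single j]
  · rw [dif_pos rfl]
  · intro i _ hi
    rw [dif_neg hi, av_const]
  · intro hj
    exact absurd (mem_univ _) hj

/-- the sum of the characters over the points of `GaloisField p (j + 1)` in terms of the closed points -/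
noncomputable def ZZ {r : ℕ} (j : ℕ) (v : ∀ P : Pt p r, BB P) : ℝ :=
  ∑ P ∈ univ.filter (fun P : Pt p r => (P.1 : ℕ) + 1 ∣ j + 1), (((P.1 : ℕ) : ℝ) + 1) * qch (v P) ^ ((j + 1) / ((P.1 : ℕ) + 1))

/-- the part of the degree `e + 1` -/
noncomputable def TT {r : ℕ} (j : ℕ) (v : ∀ P : Pt p r, BB P) (e : Fin r) : ℝ :=
  ∑ P : CP p (e + 1), (((e : ℕ) : ℝ) + 1) * qch (v ⟨e, P⟩) ^ ((j + 1) / ((e : ℕ) + 1))

lemma ZZ_eq {r : ℕ} (j : ℕ) (v : ∀ P : Pt p r, BB P) : ZZ j v = ∑ e : Fin r, if (e : ℕ) + 1 ∣ j + 1 then TT j v e else 0 := by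
  unfold ZZ TT
  rw [sum_filter, Fintype.sum_sigma]
  refine sum_congr rfl fun e _ => ?_
  dsimp only
  split_ifs with h
  · rfl
  · simp

lemma ZZ_vl (hp2 : p ≠ 2) {r : ℕ} (j : ℕ) (hj : j < r) (f : (ZMod p)[X]) :
    ZZ (r := r) j (fun P => vl f P) = ∑ x : GaloisField p (j + 1), qch (aeval x f) := by
  rw [sum_qch hp2 (j + 1) (Nat.succ_ne_zero j) f, ZZ_eq]
  refine (Fin.sum_univ_eq_sum_range (fun e => if e + 1 ∣ j + 1 then ∑ P : CP p (e + 1), ((e : ℝ) + 1) * qch (aeval (rt P) f) ^ ((j + 1) / (e + 1)) else 0) r).trans ?_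
  rw [← sum_filter]
  symm
  refine sum_bij' (fun e _ => e - 1) (fun e _ => e + 1) ?_ ?_ ?_ ?_ ?_
  · intro e he
    have h1 := Nat.pos_of_mem_divisors he
    have h2 := (Nat.mem_divisors.1 he).1
    have h3 := Nat.le_of_dvd (Nat.succ_pos j) h2
    rw [mem_filter, mem_range, Nat.sub_add_cancel h1]
    exact ⟨by omega, h2⟩
  · intro e he
    rw [mem_filter] at he
    rw [Nat.mem_divisors]
    exact ⟨he.2, Nat.succ_ne_zero j⟩
  · intro e he
    exact Nat.sub_add_cancel (Nat.pos_of_mem_divisors he)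
  · intro e he
    exact Nat.add_sub_cancel e 1
  · intro e he
    obtain ⟨e, rfl⟩ : ∃ e', e = e' + 1 := ⟨e - 1, (Nat.sub_add_cancel (Nat.pos_of_mem_divisors he)).symm⟩
    simp only [Nat.add_sub_cancel]
    push_cast
    rfl

/-- the normalised power sums -/
noncomputable def SS {r : ℕ} (δ : ℝ) (j : ℕ) (v : ∀ P : Pt p r, BB P) : ℝ := -(ZZ j v + δ) / Real.sqrt p ^ (j + 1)

/-- the main parts -/
noncomputable def GG {r : ℕ} (j : Fin r) (ω : ∀ P : Pt p r, BB P) : ℝ := -nsum j (fun P => ω ⟨j, P⟩) - eta j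

open Classical in
/-- the zeros -/
noncomputable def WW {r : ℕ} (j : ℕ) (ω : ∀ P : Pt p r, BB P) (e : Fin r) : ℝ :=
  if 2 * ((e : ℕ) + 1) = j + 1 then (∑ P : CP p (e + 1), (((e : ℕ) : ℝ) + 1) * if ω ⟨e, P⟩ = 0 then 1 else 0) / Real.sqrt p ^ (j + 1) else 0

lemma WW_nonneg {r : ℕ} (j : ℕ) (ω : ∀ P : Pt p r, BB P) (e : Fin r) : 0 ≤ WW j ω e := by
  unfold WW
  split_ifs
  · refine div_nonneg (sum_nonneg fun P _ => mul_nonneg (by positivity) ?_) (by positivity)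
    split_ifs <;> norm_num
  · exact le_rfl

lemma card_CP_le' (e : ℕ) : ((e : ℝ) + 1) * Fintype.card (CP p (e + 1)) ≤ Real.sqrt p ^ (2 * (e + 1)) := by
  have := card_CP_le (p := p) (e + 1) (Nat.succ_ne_zero e)
  rw [sqrt_sq_pow]
  push_cast at this
  exact this

lemma WW_le {r : ℕ} (j : ℕ) (ω : ∀ P : Pt p r, BB P) (e : Fin r) : WW j ω e ≤ 1 := by
  unfold WW
  split_ifs with h
  · have hs : 0 < Real.sqrt p := lt_of_lt_of_le one_pos one_le_sqrt
    rw [div_le_one (by positivity), ← h]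
    refine le_trans ?_ (card_CP_le' (p := p) e)
    rw [mul_comm, ← nsmul_eq_mul, ← card_univ, ← sum_const]
    refine sum_le_sum fun P _ => ?_
    have : (0 : ℝ) ≤ ((e : ℕ) : ℝ) + 1 := by positivity
    split_ifs
    · rw [mul_one]
    · rw [mul_zero]
      exact this
  · exact zero_le_one

lemma av_WW {r : ℕ} (j : ℕ) (e : Fin r) : av (fun ω : ∀ P : Pt p r, BB P => WW j ω e) ≤ 1 / p := by
  classical
  have hp0 : (0 : ℝ) < p := by exact_mod_cast hp.out.pos
  unfold WW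
  split_ifs with h
  · have hs : 0 < Real.sqrt p := lt_of_lt_of_le one_pos one_le_sqrt
    have e1 : (fun ω : ∀ P : Pt p r, BB P => (∑ P : CP p (e + 1), (((e : ℕ) : ℝ) + 1) * if ω ⟨e, P⟩ = 0 then (1 : ℝ) else 0) / Real.sqrt p ^ (j + 1)) =
        fun ω => ∑ P : CP p (e + 1), ((((e : ℕ) : ℝ) + 1) / Real.sqrt p ^ (j + 1)) * if ω ⟨e, P⟩ = 0 then (1 : ℝ) else 0 := by
      funext ω
      rw [sum_div]
      exact sum_congr rfl fun P _ => by ring
    rw [e1, av_sum]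
    have e2 : ∀ P : CP p (e + 1), av (fun ω : ∀ P : Pt p r, BB P => ((((e : ℕ) : ℝ) + 1) / Real.sqrt p ^ (j + 1)) * if ω ⟨e, P⟩ = 0 then (1 : ℝ) else 0) =
        ((((e : ℕ) : ℝ) + 1) / Real.sqrt p ^ (j + 1)) * (1 / Real.sqrt p ^ (j + 1)) := by
      intro P
      rw [av_mul]
      congr 1
      have h3 := av_omega (p := p) ({⟨e, P⟩} : Finset (Pt p r)) (fun P z => if z = 0 then 1 else 0)
      simp only [prod_singleton] at h3
      rw [h3, av_zero_ind, card_GF _ (Nat.succ_ne_zero _), ← h, sqrt_sq_pow]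
      push_cast
      rfl
    rw [sum_congr rfl fun P _ => e2 P, sum_const, card_univ, nsmul_eq_mul]
    have h4 := card_CP_le' (p := p) e
    rw [h] at h4
    have hpos : 0 < Real.sqrt p ^ (j + 1) := by positivity
    have h5 : (Fintype.card (CP p (e + 1)) : ℝ) * ((((e : ℕ) : ℝ) + 1) / Real.sqrt p ^ (j + 1) * (1 / Real.sqrt p ^ (j + 1))) =
        ((((e : ℕ) : ℝ) + 1) * Fintype.card (CP p (e + 1)) / Real.sqrt p ^ (j + 1)) * (1 / Real.sqrt p ^ (j + 1)) := by ring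
    rw [h5]
    have h6 : (((e : ℕ) : ℝ) + 1) * Fintype.card (CP p (e + 1)) / Real.sqrt p ^ (j + 1) ≤ 1 := by
      rw [div_le_one hpos]
      exact h4
    have h7 : 1 / Real.sqrt p ^ (j + 1) ≤ 1 / p := by
      refine one_div_le_one_div_of_le hp0 ?_
      have h8 : (p : ℝ) = Real.sqrt p ^ 2 := (Real.sq_sqrt hp0.le).symm
      conv_lhs => rw [h8]
      exact pow_le_pow_right₀ one_le_sqrt (by omega)
    calc (((e : ℕ) : ℝ) + 1) * Fintype.card (CP p (e + 1)) / Real.sqrt p ^ (j + 1) * (1 / Real.sqrt p ^ (j + 1))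
        ≤ 1 * (1 / Real.sqrt p ^ (j + 1)) := mul_le_mul_of_nonneg_right h6 (by positivity)
      _ ≤ 1 / p := by rw [one_mul]; exact h7
  · rw [av_const]
    positivity

/-- the part of the lower degree `e + 1` -/
lemma TT_near {r : ℕ} (j : ℕ) (ω : ∀ P : Pt p r, BB P) (e : Fin r) (he : (e : ℕ) + 1 ∣ j + 1) (hej : (e : ℕ) ≠ j) :
    |TT j ω e / Real.sqrt p ^ (j + 1) - if 2 * ((e : ℕ) + 1) = j + 1 then 1 else 0| ≤ WW j ω e + ((r : ℝ) + 1) / Real.sqrt p := by
  classical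
  have hs1 : 1 ≤ Real.sqrt p := one_le_sqrt
  obtain ⟨s, hs⟩ : ∃ s, s = Real.sqrt p := ⟨_, rfl⟩
  have hs0 : 0 < s := by rw [hs]; linarith
  have hsj : 0 < s ^ (j + 1) := by positivity
  obtain ⟨c, hc⟩ := he
  have hr : (((e : ℕ) : ℝ) + 1) ≤ r := by
    have : (e : ℕ) + 1 ≤ r := e.2
    exact_mod_cast this
  have hc2 : 2 ≤ c := by
    rcases c with _ | _ | c
    · omega
    · omega
    · omega
  by_cases h : 2 * ((e : ℕ) + 1) = j + 1
  · have hc3 : (j + 1) / ((e : ℕ) + 1) = 2 := by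
      rw [← h]
      exact Nat.mul_div_cancel _ (Nat.succ_pos _)
    unfold TT WW
    rw [if_pos h, if_pos h, hc3, ← hs]
    obtain ⟨z, hz⟩ : ∃ z : ℝ, z = ∑ P : CP p (e + 1), (((e : ℕ) : ℝ) + 1) * if ω ⟨e, P⟩ = 0 then 1 else 0 := ⟨_, rfl⟩
    have h1 : ∑ P : CP p (e + 1), (((e : ℕ) : ℝ) + 1) * qch (ω ⟨e, P⟩) ^ 2 = (((e : ℕ) : ℝ) + 1) * Fintype.card (CP p (e + 1)) - z := by
      rw [hz, ← card_univ, mul_comm (((e : ℕ) : ℝ) + 1), ← nsmul_eq_mul, ← sum_const, ← sum_sub_distrib]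
      refine sum_congr rfl fun P _ => ?_
      rw [qch_sq]
      by_cases h0 : ω ⟨e, P⟩ = 0
      · rw [if_pos h0, if_pos h0]
        ring
      · rw [if_neg h0, if_neg h0]
        ring
    rw [h1, ← hz, sub_div]
    have h2 := card_CP_le' (p := p) e
    have h3 := card_CP_ge (p := p) ((e : ℕ) + 1) (Nat.succ_ne_zero _) j (fun e' he' => by
      rw [Nat.mem_properDivisors] at he'
      omega)
    rw [← sqrt_sq_pow] at h3
    rw [h, ← hs] at h2 h3
    push_cast at h3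
    have hz0 : 0 ≤ z / s ^ (j + 1) := by
      rw [hz]
      refine div_nonneg (sum_nonneg fun P _ => mul_nonneg (by positivity) ?_) hsj.le
      split_ifs <;> norm_num
    obtain ⟨n, hn⟩ : ∃ n : ℝ, n = (((e : ℕ) : ℝ) + 1) * Fintype.card (CP p (e + 1)) := ⟨_, rfl⟩
    rw [← hn] at h2 h3 ⊢
    have h4 : n / s ^ (j + 1) ≤ 1 := by
      rw [div_le_one hsj]
      exact h2
    have h5 : 1 - (((e : ℕ) : ℝ) + 1) / s ≤ n / s ^ (j + 1) := by
      rw [le_div_iff₀ hsj]
      refine le_trans (le_of_eq ?_) h3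
      rw [pow_succ]
      field_simp
    have h6 : (((e : ℕ) : ℝ) + 1) / s ≤ ((r : ℝ) + 1) / s := div_le_div_of_nonneg_right (by linarith) hs0.le
    rw [abs_le]
    constructor
    · linarith
    · have : 0 ≤ ((r : ℝ) + 1) / s := by positivity
      linarith
  · unfold WW
    rw [if_neg h, if_neg h, sub_zero, zero_add, abs_div, ← hs, abs_of_pos hsj]
    have hc3 : 3 ≤ c := by
      by_contra h'
      have : c = 2 := by omega
      apply h
      rw [hc, this]
      ring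
    have h1 : |TT j ω e| ≤ s ^ j := by
      unfold TT
      refine (abs_sum_le_sum_abs _ _).trans ?_
      calc ∑ P : CP p (e + 1), |(((e : ℕ) : ℝ) + 1) * qch (ω ⟨e, P⟩) ^ ((j + 1) / ((e : ℕ) + 1))| ≤ ∑ P : CP p (e + 1), (((e : ℕ) : ℝ) + 1) := by
            refine sum_le_sum fun P _ => ?_
            rw [abs_mul, abs_pow, abs_of_nonneg (by positivity : (0 : ℝ) ≤ ((e : ℕ) : ℝ) + 1)]
            exact mul_le_of_le_one_right (by positivity) (pow_le_one₀ (abs_nonneg _) (qch_abs _))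
        _ = (((e : ℕ) : ℝ) + 1) * Fintype.card (CP p (e + 1)) := by
            rw [sum_const, card_univ, nsmul_eq_mul, mul_comm]
        _ ≤ s ^ (2 * ((e : ℕ) + 1)) := by
            rw [hs]
            exact card_CP_le' (p := p) e
        _ ≤ s ^ j := by
            refine pow_le_pow_right₀ (by rw [hs]; exact hs1) ?_
            have h2 : ((e : ℕ) + 1) * 3 ≤ ((e : ℕ) + 1) * c := Nat.mul_le_mul_left _ hc3
            omega
    rw [div_le_div_iff₀ hsj hs0]
    calc |TT j ω e| * s ≤ s ^ j * s := mul_le_mul_of_nonneg_right h1 hs0.le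
      _ = 1 * s ^ (j + 1) := by ring
      _ ≤ ((r : ℝ) + 1) * s ^ (j + 1) := by
        refine mul_le_mul_of_nonneg_right ?_ hsj.le
        have : (0 : ℝ) ≤ r := Nat.cast_nonneg _
        linarith

lemma eta_sum {r : ℕ} (j : Fin r) : ∑ e : Fin r, (if 2 * ((e : ℕ) + 1) = (j : ℕ) + 1 then (1 : ℝ) else 0) = eta j := by
  unfold eta
  split_ifs with h
  · obtain ⟨c, hc⟩ := h
    have hc1 : c - 1 < r := by
      have := j.2
      omega
    rw [sum_eq_single (⟨c - 1, hc1⟩ : Fin r)]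
    · rw [if_pos]
      show 2 * (c - 1 + 1) = _
      omega
    · intro e _ he
      rw [if_neg]
      intro h'
      apply he
      apply Fin.ext
      show (e : ℕ) = c - 1
      omega
    · intro h'
      exact absurd (mem_univ _) h'
  · refine sum_eq_zero fun e _ => ?_
    rw [if_neg]
    intro h'
    apply h
    rw [← h']
    exact even_two_mul _

/-- the error -/
lemma SS_near {r : ℕ} (δ : ℝ) (hδ : |δ| ≤ 1) (j : Fin r) (ω : ∀ P : Pt p r, BB P) :
    |SS δ j ω - GG j ω| ≤ ∑ e : Fin r, WW j ω e + ((r : ℝ) * (r + 1) + 1) / Real.sqrt p := by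
  classical
  have hs1 : 1 ≤ Real.sqrt p := one_le_sqrt
  obtain ⟨s, hs⟩ : ∃ s, s = Real.sqrt p := ⟨_, rfl⟩
  have hs0 : 0 < s := by rw [hs]; linarith
  have hsj : 0 < s ^ ((j : ℕ) + 1) := by positivity
  have h1 : ZZ (j : ℕ) ω / s ^ ((j : ℕ) + 1) = nsum j (fun P => ω ⟨j, P⟩) + ∑ e ∈ univ.erase j, (if (e : ℕ) + 1 ∣ (j : ℕ) + 1 then TT (j : ℕ) ω e / s ^ ((j : ℕ) + 1) else 0) := by
    rw [ZZ_eq, ← add_sum_erase univ _ (mem_univ j), if_pos dvd_rfl, add_div, sum_div]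
    congr 1
    · unfold TT nsum
      rw [Nat.div_self (Nat.succ_pos _), ← hs]
      simp only [pow_one]
    · refine sum_congr rfl fun e _ => ?_
      split_ifs
      · rfl
      · rw [zero_div]
  have h2 : eta j = ∑ e ∈ univ.erase j, (if 2 * ((e : ℕ) + 1) = (j : ℕ) + 1 then (1 : ℝ) else 0) := by
    rw [← eta_sum j, ← add_sum_erase univ _ (mem_univ j), if_neg (by omega), zero_add]
  have h3 : SS δ j ω - GG j ω = -(∑ e ∈ univ.erase j, ((if (e : ℕ) + 1 ∣ (j : ℕ) + 1 then TT (j : ℕ) ω e / s ^ ((j : ℕ) + 1) else 0) - (if 2 * ((e : ℕ) + 1) = (j : ℕ) + 1 then (1 : ℝ) else 0))) - δ / s ^ ((j : ℕ) + 1) := by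
    rw [sum_sub_distrib, ← h2]
    unfold SS GG
    rw [← hs, neg_div, add_div, h1]
    ring
  rw [h3]
  have h4 : |δ / s ^ ((j : ℕ) + 1)| ≤ 1 / s := by
    rw [abs_div, abs_of_pos hsj]
    refine (div_le_div_of_nonneg_right hδ hsj.le).trans ?_
    refine one_div_le_one_div_of_le hs0 ?_
    rw [hs]
    exact le_self_pow₀ hs1 (Nat.succ_ne_zero _)
  have h5 : |∑ e ∈ univ.erase j, ((if (e : ℕ) + 1 ∣ (j : ℕ) + 1 then TT (j : ℕ) ω e / s ^ ((j : ℕ) + 1) else 0) - (if 2 * ((e : ℕ) + 1) = (j : ℕ) + 1 then (1 : ℝ) else 0))| ≤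
      ∑ e : Fin r, (WW j ω e + ((r : ℝ) + 1) / s) := by
    refine (abs_sum_le_sum_abs _ _).trans ?_
    refine le_trans ?_ (sum_le_sum_of_subset_of_nonneg (erase_subset j univ) fun e _ _ => add_nonneg (WW_nonneg _ _ _) (by positivity))
    refine sum_le_sum fun e he => ?_
    have hej : (e : ℕ) ≠ j := fun h => (ne_of_mem_erase he) (Fin.ext h)
    split_ifs with ha hb hb
    · have := TT_near (p := p) (j : ℕ) ω e ha hej
      rw [if_pos hb] at this
      rw [hs]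
      exact this
    · have := TT_near (p := p) (j : ℕ) ω e ha hej
      rw [if_neg hb] at this
      rw [hs]
      exact this
    · exact absurd (Dvd.intro_left 2 hb) ha
    · rw [sub_zero, abs_zero]
      exact add_nonneg (WW_nonneg _ _ _) (by positivity)
  rw [sum_add_distrib, sum_const, card_univ, Fintype.card_fin, nsmul_eq_mul] at h5
  rw [← hs]
  refine (abs_sub _ _).trans ?_
  rw [abs_neg]
  refine (add_le_add h5 h4).trans (le_of_eq ?_)
  ring

end

end H35GS
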