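import Pool.Agent.H35J.GS.Mod2

/-!
# The joint moments of the normalised power sums over the monic polynomials modulo `p`
-/

set_option autoImplicit false
set_option linter.unusedSectionVars false

namespace H35GS

open Finset Polynomial
open Q282.CL
open Q282MM (gm)

lemma prod_sq_le {ι : Type} [Fintype ι] [Nonempty ι] (a : ι → ℝ) (ha : ∀ i, 0 ≤ a i) :
    (∏ i, a i) ^ 2 ≤ ∑ i, a i ^ (2 * Fintype.card ι) := by
  obtain ⟨i₀, h⟩ := Finite.exists_max a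
  have h1 : ∏ i, a i ≤ a i₀ ^ Fintype.card ι := by
    calc ∏ i, a i ≤ ∏ i : ι, a i₀ := prod_le_prod (fun i _ => ha i) fun i _ => h i
      _ = a i₀ ^ Fintype.card ι := by rw [prod_const, card_univ]
  calc (∏ i, a i) ^ 2 ≤ (a i₀ ^ Fintype.card ι) ^ 2 := pow_le_pow_left₀ (prod_nonneg fun i _ => ha i) h1 2
    _ = a i₀ ^ (2 * Fintype.card ι) := by rw [← pow_mul, mul_comm]
    _ ≤ ∑ i, a i ^ (2 * Fintype.card ι) :=
      single_le_sum (f := fun i => a i ^ (2 * Fintype.card ι)) (fun i _ => pow_nonneg (ha i) _) (mem_univ i₀)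

section

variable {p : ℕ} [hp : Fact p.Prime]

lemma SS_sq {r : ℕ} (δ : ℝ) (hδ : |δ| ≤ 1) (j : Fin r) :
    av (fun ω : ∀ P : Pt p r, BB P => (SS δ j ω - GG j ω) ^ 2) ≤ (2 * (r : ℝ) ^ 2 + 2 * ((r : ℝ) * (r + 1) + 1) ^ 2) / p := by
  have hp0 : (0 : ℝ) < p := by exact_mod_cast hp.out.pos
  obtain ⟨C, hC⟩ : ∃ C : ℝ, C = (r : ℝ) * (r + 1) + 1 := ⟨_, rfl⟩
  have hC0 : 0 ≤ C := by rw [hC]; positivity
  have h1 : ∀ ω : ∀ P : Pt p r, BB P, (SS δ j ω - GG j ω) ^ 2 ≤ 2 * ((r : ℝ) * ∑ e : Fin r, WW j ω e) + 2 * C ^ 2 / p := by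
    intro ω
    obtain ⟨a, ha⟩ : ∃ a : ℝ, a = ∑ e : Fin r, WW j ω e := ⟨_, rfl⟩
    have h2 := SS_near (p := p) δ hδ j ω
    rw [← hC, ← ha] at h2
    have ha0 : 0 ≤ a := by rw [ha]; exact sum_nonneg fun e _ => WW_nonneg _ _ _
    have h3 : (SS δ j ω - GG j ω) ^ 2 ≤ (a + C / Real.sqrt p) ^ 2 := by
      rw [← sq_abs]
      exact pow_le_pow_left₀ (abs_nonneg _) h2 2
    have h4 : (a + C / Real.sqrt p) ^ 2 ≤ 2 * a ^ 2 + 2 * (C / Real.sqrt p) ^ 2 := by nlinarith [sq_nonneg (a - C / Real.sqrt p)]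
    have h5 : (C / Real.sqrt p) ^ 2 = C ^ 2 / p := by rw [div_pow, Real.sq_sqrt hp0.le]
    have h6 : a ^ 2 ≤ (r : ℝ) * a := by
      have h7 : a ≤ r := by
        rw [ha]
        calc ∑ e : Fin r, WW j ω e ≤ ∑ e : Fin r, (1 : ℝ) := sum_le_sum fun e _ => WW_le _ _ _
          _ = r := by simp
      nlinarith
    rw [h5] at h4
    rw [← ha]
    have : 2 * C ^ 2 / p = 2 * (C ^ 2 / p) := by ring
    rw [this]
    nlinarith
  refine (av_mono h1).trans ?_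
  rw [av_add, av_const, av_mul 2, av_mul (r : ℝ), av_sum, ← hC]
  have h2 : ∑ e : Fin r, av (fun ω : ∀ P : Pt p r, BB P => WW (j : ℕ) ω e) ≤ (r : ℝ) * (1 / p) := by
    calc ∑ e : Fin r, av (fun ω : ∀ P : Pt p r, BB P => WW (j : ℕ) ω e) ≤ ∑ e : Fin r, (1 : ℝ) / p := sum_le_sum fun e _ => av_WW _ _
      _ = (r : ℝ) * (1 / p) := by simp
  have hr : (0 : ℝ) ≤ r := Nat.cast_nonneg _
  have h3 := mul_le_mul_of_nonneg_left h2 hr
  have e : (2 * (r : ℝ) ^ 2 + 2 * C ^ 2) / p = 2 * ((r : ℝ) * ((r : ℝ) * (1 / p))) + 2 * C ^ 2 / p := by ring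
  rw [e]
  linarith

lemma SS_abs {r : ℕ} (δ : ℝ) (hδ : |δ| ≤ 1) (j : Fin r) (ω : ∀ P : Pt p r, BB P) :
    |SS δ j ω - GG j ω| ≤ (r : ℝ) + ((r : ℝ) * (r + 1) + 1) := by
  refine (SS_near δ hδ j ω).trans (add_le_add ?_ ?_)
  · calc ∑ e : Fin r, WW j ω e ≤ ∑ e : Fin r, (1 : ℝ) := sum_le_sum fun e _ => WW_le _ _ _
      _ = r := by simp
  · exact div_le_self (by positivity) one_le_sqrt

end

/-- the products of the normalised power sums and of their main parts -/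
theorem prod_near {r : ℕ} (k : Fin r → ℕ) : ∃ K : ℝ, 0 ≤ K ∧ ∀ (p : ℕ) [Fact p.Prime], p ≠ 2 → ∀ δ : ℝ, |δ| ≤ 1 →
    av (fun ω : ∀ P : Pt p r, BB P => |∏ j : Fin r, SS δ j ω ^ k j - ∏ j : Fin r, GG j ω ^ k j|) ≤ K / Real.sqrt p := by
  classical
  obtain ⟨n, hn⟩ : ∃ n : ℕ, n = Fintype.card (Σ j : Fin r, Fin (k j)) := ⟨_, rfl⟩
  choose L hL hmom using fun j : Fin r => lvl_mom j (2 * n)
  obtain ⟨C, hC⟩ : ∃ C : ℝ, C = (r : ℝ) + ((r : ℝ) * (r + 1) + 1) := ⟨_, rfl⟩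
  have hC0 : 0 ≤ C := by rw [hC]; positivity
  obtain ⟨C₂, hC₂⟩ : ∃ C₂ : ℝ, C₂ = 2 * (r : ℝ) ^ 2 + 2 * ((r : ℝ) * (r + 1) + 1) ^ 2 := ⟨_, rfl⟩
  have hC₂0 : 0 ≤ C₂ := by rw [hC₂]; positivity
  obtain ⟨B, hB⟩ : ∃ B : Fin r → ℝ, B = fun j : Fin r => 2 ^ (2 * n - 1) * ((1 + C) ^ (2 * n) + (|mmt j (2 * n)| + L j)) := ⟨_, rfl⟩
  have hB0 : ∀ j, 0 ≤ B j := by
    intro j
    rw [hB]
    have := hL j
    positivity
  refine ⟨(n : ℝ) * (C₂ + ∑ i : (Σ j : Fin r, Fin (k j)), B i.1), mul_nonneg (Nat.cast_nonneg _) (add_nonneg hC₂0 (sum_nonneg fun i _ => hB0 _)), fun p _ hp2 δ hδ => ?_⟩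
  have hs1 : 1 ≤ Real.sqrt p := one_le_sqrt
  have hs0 : 0 < Real.sqrt p := by linarith
  have hpp : (p : ℝ) = Real.sqrt p * Real.sqrt p := (Real.mul_self_sqrt (Nat.cast_nonneg _)).symm
  have hG : ∀ j : Fin r, av (fun ω : ∀ P : Pt p r, BB P => 2 ^ (2 * n - 1) * ((1 + C) ^ (2 * n) + GG j ω ^ (2 * n))) ≤ B j := by
    intro j
    rw [av_mul, av_add, av_const, hB]
    refine mul_le_mul_of_nonneg_left (add_le_add le_rfl ?_) (by positivity)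
    have h1 := av_level (p := p) j (fun z => (-nsum j z - eta j) ^ (2 * n))
    have h2 : av (fun ω : ∀ P : Pt p r, BB P => GG j ω ^ (2 * n)) = av (fun z : CP p (j + 1) → GaloisField p (j + 1) => (-nsum j z - eta j) ^ (2 * n)) := h1
    rw [h2]
    have h3 := (abs_le.1 (hmom j p hp2)).2
    have h4 : L j / Real.sqrt p ≤ L j := div_le_self (hL j) hs1
    have h5 := le_abs_self (mmt j (2 * n))
    linarith
  have hpt : ∀ ω : ∀ P : Pt p r, BB P, |∏ j : Fin r, SS δ j ω ^ k j - ∏ j : Fin r, GG j ω ^ k j| ≤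
      ∑ i : (Σ j : Fin r, Fin (k j)), ((Real.sqrt p / 2) * (SS δ i.1 ω - GG i.1 ω) ^ 2 +
        (1 / (2 * Real.sqrt p)) * ∑ i : (Σ j : Fin r, Fin (k j)), 2 ^ (2 * n - 1) * ((1 + C) ^ (2 * n) + GG i.1 ω ^ (2 * n))) := by
    intro ω
    have e1 : ∀ x : Fin r → ℝ, ∏ j, x j ^ k j = ∏ i : (Σ j : Fin r, Fin (k j)), x i.1 := by
      intro x
      rw [Fintype.prod_sigma]
      refine prod_congr rfl fun j _ => ?_
      dsimp only
      rw [prod_const, card_univ, Fintype.card_fin]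
    rw [e1 fun j => SS δ j ω, e1 fun j => GG j ω]
    have h1 := prod_diff (univ : Finset (Σ j : Fin r, Fin (k j))) (fun i => GG i.1 ω) (fun i => SS δ i.1 ω - GG i.1 ω)
    have e2 : ∏ i : (Σ j : Fin r, Fin (k j)), (GG i.1 ω + (SS δ i.1 ω - GG i.1 ω)) = ∏ i : (Σ j : Fin r, Fin (k j)), SS δ i.1 ω :=
      prod_congr rfl fun i _ => by ring
    rw [e2] at h1
    refine h1.trans ?_
    rw [sum_mul]
    refine sum_le_sum fun i _ => ?_
    have : Nonempty (Σ j : Fin r, Fin (k j)) := ⟨i⟩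
    obtain ⟨M, hM⟩ : ∃ M : ℝ, M = ∏ i : (Σ j : Fin r, Fin (k j)), (1 + |GG i.1 ω| + |SS δ i.1 ω - GG i.1 ω|) := ⟨_, rfl⟩
    rw [← hM]
    have hM2 : M ^ 2 ≤ ∑ i : (Σ j : Fin r, Fin (k j)), 2 ^ (2 * n - 1) * ((1 + C) ^ (2 * n) + GG i.1 ω ^ (2 * n)) := by
      rw [hM]
      refine (prod_sq_le _ fun i => by positivity).trans ?_
      rw [← hn]
      refine sum_le_sum fun i _ => ?_
      have h2 : 1 + |GG i.1 ω| + |SS δ i.1 ω - GG i.1 ω| ≤ (1 + C) + |GG i.1 ω| := by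
        have := SS_abs (p := p) δ hδ i.1 ω
        rw [← hC] at this
        linarith
      calc (1 + |GG i.1 ω| + |SS δ i.1 ω - GG i.1 ω|) ^ (2 * n) ≤ ((1 + C) + |GG i.1 ω|) ^ (2 * n) := pow_le_pow_left₀ (by positivity) h2 _
        _ ≤ 2 ^ (2 * n - 1) * ((1 + C) ^ (2 * n) + |GG i.1 ω| ^ (2 * n)) := add_pow_le (by positivity) (abs_nonneg _) _
        _ = 2 ^ (2 * n - 1) * ((1 + C) ^ (2 * n) + GG i.1 ω ^ (2 * n)) := by
            rw [pow_mul |GG i.1 ω|, sq_abs, ← pow_mul]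
    obtain ⟨y, hy⟩ : ∃ y : ℝ, y = |SS δ i.1 ω - GG i.1 ω| := ⟨_, rfl⟩
    have hy2 : (SS δ i.1 ω - GG i.1 ω) ^ 2 = y ^ 2 := by rw [hy, sq_abs]
    rw [← hy, hy2]
    have h3 : y * M ≤ Real.sqrt p / 2 * y ^ 2 + 1 / (2 * Real.sqrt p) * M ^ 2 := by
      have h4 : 0 ≤ (Real.sqrt p * y - M) ^ 2 / (2 * Real.sqrt p) := by positivity
      have h5 : (Real.sqrt p * y - M) ^ 2 / (2 * Real.sqrt p) = Real.sqrt p / 2 * y ^ 2 + 1 / (2 * Real.sqrt p) * M ^ 2 - y * M := by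
        field_simp
        ring
      linarith
    refine h3.trans (add_le_add le_rfl (mul_le_mul_of_nonneg_left hM2 (by positivity)))
  refine (av_mono hpt).trans ?_
  rw [av_sum]
  have h2 : ∀ i : (Σ j : Fin r, Fin (k j)), av (fun ω : ∀ P : Pt p r, BB P => ((Real.sqrt p / 2) * (SS δ i.1 ω - GG i.1 ω) ^ 2 +
        (1 / (2 * Real.sqrt p)) * ∑ i : (Σ j : Fin r, Fin (k j)), 2 ^ (2 * n - 1) * ((1 + C) ^ (2 * n) + GG i.1 ω ^ (2 * n)))) ≤
      (C₂ + ∑ i : (Σ j : Fin r, Fin (k j)), B i.1) / Real.sqrt p := by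
    intro i
    rw [av_add, av_mul, av_mul, av_sum]
    have h3 := SS_sq (p := p) δ hδ i.1
    rw [← hC₂] at h3
    have h4 : Real.sqrt p / 2 * av (fun ω : ∀ P : Pt p r, BB P => (SS δ i.1 ω - GG i.1 ω) ^ 2) ≤ C₂ / Real.sqrt p := by
      refine (mul_le_mul_of_nonneg_left h3 (by positivity)).trans ?_
      have e : Real.sqrt p / 2 * (C₂ / p) = C₂ / Real.sqrt p / 2 := by
        conv_lhs => rw [show ((p : ℝ)) = Real.sqrt p * Real.sqrt p from hpp]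
        rw [Real.sqrt_mul_self hs0.le]
        field_simp
      rw [e]
      have : 0 ≤ C₂ / Real.sqrt p := by positivity
      linarith
    have h5 : 1 / (2 * Real.sqrt p) * ∑ i : (Σ j : Fin r, Fin (k j)), av (fun ω : ∀ P : Pt p r, BB P => 2 ^ (2 * n - 1) * ((1 + C) ^ (2 * n) + GG i.1 ω ^ (2 * n))) ≤
        (∑ i : (Σ j : Fin r, Fin (k j)), B i.1) / Real.sqrt p := by
      have h6 : ∑ i : (Σ j : Fin r, Fin (k j)), av (fun ω : ∀ P : Pt p r, BB P => 2 ^ (2 * n - 1) * ((1 + C) ^ (2 * n) + GG i.1 ω ^ (2 * n))) ≤ ∑ i : (Σ j : Fin r, Fin (k j)), B i.1 :=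
        sum_le_sum fun i _ => hG i.1
      refine (mul_le_mul_of_nonneg_left h6 (by positivity)).trans ?_
      have h7 : 0 ≤ ∑ i : (Σ j : Fin r, Fin (k j)), B i.1 := sum_nonneg fun i _ => hB0 _
      have e : 1 / (2 * Real.sqrt p) * ∑ i : (Σ j : Fin r, Fin (k j)), B i.1 = (∑ i : (Σ j : Fin r, Fin (k j)), B i.1) / Real.sqrt p / 2 := by
        field_simp
      rw [e]
      have : 0 ≤ (∑ i : (Σ j : Fin r, Fin (k j)), B i.1) / Real.sqrt p := by positivity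
      linarith
    rw [add_div]
    exact add_le_add h4 h5
  refine (sum_le_sum fun i _ => h2 i).trans (le_of_eq ?_)
  rw [sum_const, card_univ, ← hn, nsmul_eq_mul]
  ring

/-- the joint moments of the normalised power sums over the monic polynomials of degree `D`, uniformly in `D` -/
theorem loc {r : ℕ} (k : Fin r → ℕ) : ∃ K : ℝ, 0 ≤ K ∧ ∀ (p : ℕ) [Fact p.Prime], p ≠ 2 → ∀ δ : ℝ, |δ| ≤ 1 →
    ∀ D : ℕ, ∑ j : Fin r, ((j : ℕ) + 1) * k j ≤ D →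
    |av (fun c : Fin D → ZMod p => ∏ j : Fin r, SS (r := r) δ j (fun P => vl (fpol c) P) ^ k j) - ∏ j : Fin r, mmt j (k j)| ≤ K / Real.sqrt p := by
  classical
  obtain ⟨K₁, hK₁, h₁⟩ := prod_near k
  choose L hL hmom using fun j : Fin r => lvl_mom j (k j)
  refine ⟨K₁ + (∑ j, L j) * ∏ j : Fin r, (1 + |mmt j (k j)| + L j), add_nonneg hK₁ (mul_nonneg (sum_nonneg fun j _ => hL j) (prod_nonneg fun j _ => by have := hL j; positivity)),
    fun p _ hp2 δ hδ D hD => ?_⟩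
  have hs1 : 1 ≤ Real.sqrt p := one_le_sqrt
  have hs0 : 0 < Real.sqrt p := by linarith
  -- transfer
  have e1 : ∀ v : ∀ P : Pt p r, BB P, ∏ j : Fin r, SS δ j v ^ k j = ∏ i : (Σ j : Fin r, Fin (k j)),
      (∑ P ∈ univ.filter (fun P : Pt p r => (P.1 : ℕ) + 1 ∣ (i.1 : ℕ) + 1), (fun (i : Σ j : Fin r, Fin (k j)) (P : Pt p r) (z : BB P) =>
        -((((P.1 : ℕ) : ℝ) + 1) * qch z ^ (((i.1 : ℕ) + 1) / ((P.1 : ℕ) + 1))) / Real.sqrt p ^ ((i.1 : ℕ) + 1)) i P (v P) + -δ / Real.sqrt p ^ ((i.1 : ℕ) + 1)) := by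
    intro v
    have h0 : ∀ i : (Σ j : Fin r, Fin (k j)), (∑ P ∈ univ.filter (fun P : Pt p r => (P.1 : ℕ) + 1 ∣ (i.1 : ℕ) + 1), (fun (i : Σ j : Fin r, Fin (k j)) (P : Pt p r) (z : BB P) =>
        -((((P.1 : ℕ) : ℝ) + 1) * qch z ^ (((i.1 : ℕ) + 1) / ((P.1 : ℕ) + 1))) / Real.sqrt p ^ ((i.1 : ℕ) + 1)) i P (v P) + -δ / Real.sqrt p ^ ((i.1 : ℕ) + 1)) = SS δ i.1 v := by
      intro i
      dsimp only
      unfold SS ZZ
      rw [← sum_div, sum_neg_distrib, ← add_div]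
      congr 1
      ring
    rw [prod_congr rfl fun i _ => h0 i, Fintype.prod_sigma]
    refine prod_congr rfl fun j _ => ?_
    dsimp only
    rw [prod_const, card_univ, Fintype.card_fin]
  have htr := transfer_const (p := p) r D (fun i : (Σ j : Fin r, Fin (k j)) => univ.filter (fun P : Pt p r => (P.1 : ℕ) + 1 ∣ (i.1 : ℕ) + 1))
    (fun i => (i.1 : ℕ) + 1) (fun i P hP => Nat.le_of_dvd (Nat.succ_pos _) (mem_filter.1 hP).2)
    (by
      rw [Fintype.sum_sigma]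
      refine le_trans (le_of_eq ?_) hD
      refine sum_congr rfl fun j _ => ?_
      dsimp only
      rw [sum_const, card_univ, Fintype.card_fin, smul_eq_mul, mul_comm])
    (fun (i : Σ j : Fin r, Fin (k j)) (P : Pt p r) (z : BB P) =>
        -((((P.1 : ℕ) : ℝ) + 1) * qch z ^ (((i.1 : ℕ) + 1) / ((P.1 : ℕ) + 1))) / Real.sqrt p ^ ((i.1 : ℕ) + 1))
    (fun i => -δ / Real.sqrt p ^ ((i.1 : ℕ) + 1))
  have e2 : (fun c : Fin D → ZMod p => ∏ j : Fin r, SS (r := r) δ j (fun P => vl (fpol c) P) ^ k j) = fun c => ∏ i : (Σ j : Fin r, Fin (k j)),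
      (∑ P ∈ univ.filter (fun P : Pt p r => (P.1 : ℕ) + 1 ∣ (i.1 : ℕ) + 1), (fun (i : Σ j : Fin r, Fin (k j)) (P : Pt p r) (z : BB P) =>
        -((((P.1 : ℕ) : ℝ) + 1) * qch z ^ (((i.1 : ℕ) + 1) / ((P.1 : ℕ) + 1))) / Real.sqrt p ^ ((i.1 : ℕ) + 1)) i P (vl (fpol c) P) + -δ / Real.sqrt p ^ ((i.1 : ℕ) + 1)) := by
    funext c
    exact e1 fun P => vl (fpol c) P
  have e3 : (fun ω : ∀ P : Pt p r, BB P => ∏ i : (Σ j : Fin r, Fin (k j)),
      (∑ P ∈ univ.filter (fun P : Pt p r => (P.1 : ℕ) + 1 ∣ (i.1 : ℕ) + 1), (fun (i : Σ j : Fin r, Fin (k j)) (P : Pt p r) (z : BB P) =>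
        -((((P.1 : ℕ) : ℝ) + 1) * qch z ^ (((i.1 : ℕ) + 1) / ((P.1 : ℕ) + 1))) / Real.sqrt p ^ ((i.1 : ℕ) + 1)) i P (ω P) + -δ / Real.sqrt p ^ ((i.1 : ℕ) + 1))) =
      fun ω => ∏ j : Fin r, SS δ j ω ^ k j := by
    funext ω
    exact (e1 ω).symm
  rw [e2, htr, e3]
  -- the main parts
  have h2 : |av (fun ω : ∀ P : Pt p r, BB P => ∏ j : Fin r, SS δ j ω ^ k j) - av (fun ω : ∀ P : Pt p r, BB P => ∏ j : Fin r, GG j ω ^ k j)| ≤ K₁ / Real.sqrt p := by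
    rw [← av_sub]
    exact (abs_av_le _).trans (h₁ p hp2 δ hδ)
  have h3 : av (fun ω : ∀ P : Pt p r, BB P => ∏ j : Fin r, GG j ω ^ k j) = ∏ j : Fin r, av (fun z : CP p (j + 1) → GaloisField p (j + 1) => (-nsum j z - eta j) ^ k j) :=
    av_levels (p := p) (fun (j : Fin r) z => (-nsum j z - eta j) ^ k j)
  obtain ⟨m, hm⟩ : ∃ m : Fin r → ℝ, m = fun j : Fin r => av (fun z : CP p (j + 1) → GaloisField p (j + 1) => (-nsum j z - eta j) ^ k j) := ⟨_, rfl⟩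
  have h4 : |∏ j : Fin r, m j - ∏ j : Fin r, mmt j (k j)| ≤ ((∑ j, L j) * ∏ j : Fin r, (1 + |mmt j (k j)| + L j)) / Real.sqrt p := by
    have h5 := prod_diff (univ : Finset (Fin r)) (fun j => mmt j (k j)) (fun j => m j - mmt j (k j))
    have e4 : ∏ j : Fin r, (mmt j (k j) + (m j - mmt j (k j))) = ∏ j, m j := prod_congr rfl fun j _ => by ring
    rw [e4] at h5
    refine h5.trans ?_
    have h6 : ∀ j : Fin r, |m j - mmt j (k j)| ≤ L j / Real.sqrt p := by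
      intro j
      rw [hm]
      exact hmom j p hp2
    rw [mul_comm (∑ j, L j), mul_div_assoc, mul_comm, sum_div]
    refine mul_le_mul ?_ (sum_le_sum fun j _ => h6 j) (sum_nonneg fun j _ => abs_nonneg _) (prod_nonneg fun j _ => by have := hL j; positivity)
    refine prod_le_prod (fun j _ => by positivity) fun j _ => ?_
    have h7 := h6 j
    have h8 : L j / Real.sqrt p ≤ L j := div_le_self (hL j) hs1
    linarith
  have h5 : av (fun ω : ∀ P : Pt p r, BB P => ∏ j : Fin r, GG j ω ^ k j) = ∏ j : Fin r, m j := by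
    rw [h3, hm]
  rw [h5] at h2
  rw [add_div]
  calc _ = |(av (fun ω : ∀ P : Pt p r, BB P => ∏ j : Fin r, SS δ j ω ^ k j) - ∏ j : Fin r, m j) + (∏ j : Fin r, m j - ∏ j : Fin r, mmt j (k j))| := by
        congr 1
        ring
    _ ≤ _ := (abs_add_le _ _).trans (add_le_add h2 h4)

end H35GS
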