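import Pool.Agent.H35J.GS.Emp

/-!
# The moments over the common good primes of several curves, for almost all tuples of polynomials of a box
-/

set_option autoImplicit false
set_option linter.unusedSectionVars false

namespace H35GS.Gn

open Finset Polynomial
open Q282.CL
open Q282MM (gm)

section

variable {n : ℕ}

/-- the block `j` of a vector -/
def blk {R : Type} {D : Fin n → ℕ} (c : (Σ j : Fin n, Fin (D j)) → R) (j : Fin n) : Fin (D j) → R := fun i => c ⟨j, i⟩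

lemma av_blocks (p : ℕ) [Fact p.Prime] (D : Fin n → ℕ) (g : ∀ j : Fin n, (Fin (D j) → ZMod p) → ℝ) :
    av (fun c : (Σ j : Fin n, Fin (D j)) → ZMod p => ∏ j, g j (blk c j)) = ∏ j, av (g j) := by
  have h1 := av_equiv (Equiv.piCurry (fun (j : Fin n) (_ : Fin (D j)) => ZMod p)) (fun z => ∏ j, g j (z j))
  have h2 := av_pi (𝕜 := ℝ) (Ω := fun j : Fin n => Fin (D j) → ZMod p) g
  rw [← h2, ← h1]
  rfl

lemma av_block (p : ℕ) [Fact p.Prime] (D : Fin n → ℕ) (j : Fin n) (g : (Fin (D j) → ZMod p) → ℝ) :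
    av (fun c : (Σ j : Fin n, Fin (D j)) → ZMod p => g (blk c j)) = av g := by
  classical
  have h := av_blocks p D (fun i : Fin n => if h : i = j then (fun z => g (fun P => z (h ▸ P))) else fun _ => (1 : ℝ))
  have e1 : (fun c : (Σ j : Fin n, Fin (D j)) → ZMod p => ∏ i, (if h : i = j then (fun z => g (fun P => z (h ▸ P))) else fun _ => (1 : ℝ)) (blk c i)) =
      fun c => g (blk c j) := by
    funext ω
    rw [prod_eq_single j]
    · rw [dif_pos rfl]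
    · intro i _ hi
      rw [dif_neg hi]
    · intro hj
      exact absurd (mem_univ _) hj
  rw [e1] at h
  rw [h, prod_eq_single j]
  · rw [dif_pos rfl]
  · intro i _ hi
    rw [dif_neg hi, av_const]
  · intro hj
    exact absurd (mem_univ _) hj

variable {r : ℕ}

/-- the products of the power sums -/
noncomputable def FM (k : Fin n → Fin r → ℕ) (D : Fin n → ℕ) (p : ℕ) (c : (Σ j : Fin n, Fin (D j)) → ZMod p) : ℝ :=
  ∏ j, ∏ m : Fin r, sv (D j) m p (blk c j) ^ k j m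

/-- the expected product -/
noncomputable def mu (k : Fin n → Fin r → ℕ) : ℝ := ∏ j, ∏ m : Fin r, mmt m (k j m)

open Classical in
/-- the centred products at the common good primes -/
noncomputable def GM (k : Fin n → Fin r → ℕ) (D : Fin n → ℕ) (p : ℕ) (c : (Σ j : Fin n, Fin (D j)) → ZMod p) : ℝ :=
  if p ≠ 2 ∧ ∀ j, Squarefree (fpol (blk c j)) then FM k D p c - mu k else 0

lemma GM_abs (k : Fin n → Fin r → ℕ) (D : Fin n → ℕ) (p : ℕ) (hp : p.Prime) (c : (Σ j : Fin n, Fin (D j)) → ZMod p) :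
    |GM k D p c| ≤ (∏ j, ∏ m : Fin r, 2 ^ k j m + |mu k|) * (p : ℝ) ^ (∑ j, ∑ m : Fin r, ((m : ℕ) + 1) * k j m) := by
  have hp1 : (1 : ℝ) ≤ (p : ℝ) ^ (∑ j, ∑ m : Fin r, ((m : ℕ) + 1) * k j m) := one_le_pow₀ (by exact_mod_cast hp.one_lt.le)
  have hA : (0 : ℝ) ≤ ∏ j, ∏ m : Fin r, 2 ^ k j m := prod_nonneg fun j _ => prod_nonneg fun j _ => by positivity
  unfold GM
  split_ifs
  · refine (abs_sub _ _).trans ?_
    rw [add_mul]
    refine add_le_add ?_ (le_mul_of_one_le_right (abs_nonneg _) hp1)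
    unfold FM
    rw [abs_prod, ← prod_pow_eq_pow_sum, ← prod_mul_distrib]
    refine prod_le_prod (fun j _ => abs_nonneg _) fun j _ => ?_
    rw [abs_prod, ← prod_pow_eq_pow_sum, ← prod_mul_distrib]
    refine prod_le_prod (fun j _ => abs_nonneg _) fun m _ => ?_
    rw [abs_pow, pow_mul, ← mul_pow]
    exact pow_le_pow_left₀ (abs_nonneg _) (sv_abs (D j) m p hp _) _
  · rw [abs_zero]
    positivity

/-- the joint moments modulo `p` -/
lemma FM_mean (k : Fin n → Fin r → ℕ) : ∃ K : ℝ, 0 ≤ K ∧ ∀ D : Fin n → ℕ, (∀ j, ∑ m : Fin r, ((m : ℕ) + 1) * k j m ≤ D j) →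
    ∀ (p : ℕ) [Fact p.Prime], p ≠ 2 → |av (FM k D p) - mu k| ≤ K / Real.sqrt p := by
  classical
  choose K₁ hK₁ h₁ using fun j => loc (k j)
  refine ⟨(∑ j, K₁ j) * ∏ j, (1 + |∏ m : Fin r, mmt m (k j m)| + K₁ j), mul_nonneg (sum_nonneg fun j _ => hK₁ j) (prod_nonneg fun j _ => by have := hK₁ j; positivity), fun D hD p hp hp2 => ?_⟩
  have hs1 : 1 ≤ Real.sqrt p := one_le_sqrt
  have hs0 : 0 < Real.sqrt p := by linarith
  obtain ⟨F, hF⟩ : ∃ F : ∀ j, (Fin (D j) → ZMod p) → ℝ, F = fun j c => ∏ m : Fin r, sv (D j) m p c ^ k j m := ⟨_, rfl⟩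
  have hF1 : ∀ j, |av (F j) - ∏ m : Fin r, mmt m (k j m)| ≤ K₁ j / Real.sqrt p := by
    intro j
    have h3 := h₁ j p hp2 (dl (D j)) (dl_abs (D j)) (D j) (hD j)
    rw [hF]
    simp only [sv_SS (D j) p hp2]
    exact h3
  have e1 : FM k D p = fun c => ∏ j, F j (blk c j) := by
    rw [hF]
    rfl
  rw [e1, av_blocks p D F]
  unfold mu
  obtain ⟨x, hx⟩ : ∃ x : Fin n → ℝ, x = fun j => ∏ m : Fin r, mmt m (k j m) := ⟨_, rfl⟩
  obtain ⟨y, hy⟩ : ∃ y : Fin n → ℝ, y = fun j => av (F j) - x j := ⟨_, rfl⟩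
  have h4 := prod_diff univ x y
  have h5 : ∀ j, x j + y j = av (F j) := by
    intro j
    rw [hy]
    ring
  simp only [h5] at h4
  have h6 : ∏ j, x j = ∏ j, ∏ m : Fin r, mmt m (k j m) := by rw [hx]
  rw [h6] at h4
  refine h4.trans ?_
  have h7 : ∀ j, |y j| ≤ K₁ j / Real.sqrt p := by
    intro j
    rw [hy, hx]
    exact hF1 j
  have h8 : ∀ j, |y j| ≤ K₁ j := fun j => (h7 j).trans (div_le_self (hK₁ j) hs1)
  have h9 : ∑ j, |y j| ≤ (∑ j, K₁ j) / Real.sqrt p := by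
    rw [sum_div]
    exact sum_le_sum fun j _ => h7 j
  have h10 : ∏ j, (1 + |x j| + |y j|) ≤ ∏ j, (1 + |∏ m : Fin r, mmt m (k j m)| + K₁ j) := by
    refine prod_le_prod (fun j _ => by positivity) fun j _ => ?_
    have := h8 j
    have h11 : |x j| = |∏ m : Fin r, mmt m (k j m)| := by rw [hx]
    linarith
  rw [mul_div_right_comm]
  exact mul_le_mul h9 h10 (prod_nonneg fun j _ => by positivity) (div_nonneg (sum_nonneg fun j _ => hK₁ j) hs0.le)

lemma GM_mean (k : Fin n → Fin r → ℕ) : ∃ K : ℝ, 1 ≤ K ∧ ∀ D : Fin n → ℕ, (∀ j, 2 * ∑ m : Fin r, ((m : ℕ) + 1) * k j m ≤ D j) → ∀ p : ℕ, p.Prime → 3 ≤ p →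
    |mn (GM k D) p - 0| ≤ K / Real.sqrt p ∧ mn (fun p c => GM k D p c ^ 2) p ≤ K := by
  classical
  obtain ⟨K₁, hK₁, h₁⟩ := FM_mean k
  obtain ⟨K₂, hK₂, h₂⟩ := FM_mean fun j m => 2 * k j m
  obtain ⟨μ, hμ⟩ : ∃ μ : ℝ, μ = mu k := ⟨_, rfl⟩
  obtain ⟨μ₂, hμ₂⟩ : ∃ μ₂ : ℝ, μ₂ = mu fun j m => 2 * k j m := ⟨_, rfl⟩
  obtain ⟨M, hM⟩ : ∃ M : ℝ, M = 2 * (|μ₂| + K₂) + 2 * μ ^ 2 := ⟨_, rfl⟩
  have hM0 : 0 ≤ M := by
    rw [hM]
    positivity
  have hn0 : (0 : ℝ) ≤ n := Nat.cast_nonneg _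
  refine ⟨K₁ + M + n + 2, by linarith, fun D hD p hpr hp3 => ?_⟩
  have hp : Fact p.Prime := ⟨hpr⟩
  have hp2 : p ≠ 2 := by omega
  have hp0 : (0 : ℝ) < p := by exact_mod_cast hpr.pos
  have hs1 : 1 ≤ Real.sqrt p := one_le_sqrt
  have hs0 : 0 < Real.sqrt p := by linarith
  have hss : Real.sqrt p * Real.sqrt p = p := Real.mul_self_sqrt hp0.le
  -- the full averages
  obtain ⟨F, hF⟩ : ∃ F : ((Σ j : Fin n, Fin (D j)) → ZMod p) → ℝ, F = FM k D p := ⟨_, rfl⟩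
  have hF1 : |av F - μ| ≤ K₁ / Real.sqrt p := by
    rw [hF, hμ]
    exact h₁ D (fun j => by have := hD j; omega) p hp2
  have hF2 : av (fun c => F c ^ 2) ≤ |μ₂| + K₂ := by
    have h3 := h₂ D (fun j => by
      refine le_trans (le_of_eq ?_) (hD j)
      rw [mul_sum]
      exact sum_congr rfl fun j _ => by ring) p hp2
    have e1 : (fun c => F c ^ 2) = FM (fun j m => 2 * k j m) D p := by
      funext c
      rw [hF]
      unfold FM
      rw [← prod_pow]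
      refine prod_congr rfl fun j _ => ?_
      rw [← prod_pow]
      refine prod_congr rfl fun m _ => ?_
      rw [← pow_mul, mul_comm (k j m) 2]
    rw [e1]
    have h4 := (abs_le.1 h3).2
    rw [← hμ₂] at h4
    have h5 : K₂ / Real.sqrt p ≤ K₂ := div_le_self hK₂ hs1
    have h6 := le_abs_self μ₂
    linarith
  obtain ⟨f, hf⟩ : ∃ f : ((Σ j : Fin n, Fin (D j)) → ZMod p) → ℝ, f = fun c => F c - μ := ⟨_, rfl⟩
  have hf2 : av (fun c => f c ^ 2) ≤ M := by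
    have h3 : ∀ c, f c ^ 2 ≤ 2 * F c ^ 2 + 2 * μ ^ 2 := by
      intro c
      rw [hf]
      nlinarith [sq_nonneg (F c + μ)]
    refine (av_mono h3).trans ?_
    rw [av_add, av_mul, av_const, hM]
    linarith
  have hG : ∀ c, GM k D p c = if ∀ j, Squarefree (fpol (blk c j)) then f c else 0 := by
    intro c
    unfold GM
    rw [hf, hF, hμ]
    by_cases h : ∀ j, Squarefree (fpol (blk c j))
    · rw [if_pos ⟨hp2, h⟩, if_pos h]
    · rw [if_neg fun h' => h h'.2, if_neg h]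
  have hG2 : mn (fun p c => GM k D p c ^ 2) p ≤ M := by
    rw [mn_eq (fun p c => GM k D p c ^ 2)]
    refine le_trans (av_mono fun c => ?_) hf2
    rw [hG]
    split_ifs
    · exact le_rfl
    · rw [zero_pow two_ne_zero]
      exact sq_nonneg _
  refine ⟨?_, by linarith⟩
  rw [sub_zero, mn_eq]
  have h3 : ∀ c : (Σ j : Fin n, Fin (D j)) → ZMod p, |GM k D p c - f c| ≤ (1 / (2 * Real.sqrt p)) * f c ^ 2 + (Real.sqrt p / 2) * ∑ j, (if Squarefree (fpol (blk c j)) then 0 else 1) := by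
    intro c
    have h0 : (0 : ℝ) ≤ ∑ j, (if Squarefree (fpol (blk c j)) then (0 : ℝ) else 1) := sum_nonneg fun j _ => by split_ifs <;> norm_num
    rw [hG]
    split_ifs with hc
    · rw [sub_self, abs_zero]
      positivity
    · rw [zero_sub, abs_neg]
      push Not at hc
      obtain ⟨j₀, hj₀⟩ := hc
      have h1 : (1 : ℝ) ≤ ∑ j, (if Squarefree (fpol (blk c j)) then (0 : ℝ) else 1) := by
        have := single_le_sum (f := fun j => if Squarefree (fpol (blk c j)) then (0 : ℝ) else 1) (fun j _ => by split_ifs <;> norm_num) (mem_univ j₀)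
        rwa [if_neg hj₀] at this
      have h4 : 0 ≤ (1 / (2 * Real.sqrt p)) * (|f c| - Real.sqrt p) ^ 2 := by positivity
      have h5 : (1 / (2 * Real.sqrt p)) * (|f c| - Real.sqrt p) ^ 2 = (1 / (2 * Real.sqrt p)) * f c ^ 2 - |f c| + Real.sqrt p / 2 := by
        rw [sub_sq, sq_abs]
        field_simp
      have h6 : Real.sqrt p / 2 * 1 ≤ Real.sqrt p / 2 * ∑ j, (if Squarefree (fpol (blk c j)) then (0 : ℝ) else 1) := mul_le_mul_of_nonneg_left h1 (by positivity)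
      linarith
  have h4 : av (fun c : (Σ j : Fin n, Fin (D j)) → ZMod p => ∑ j, (if Squarefree (fpol (blk c j)) then (0 : ℝ) else 1)) ≤ n * (2 / p) := by
    rw [av_sum]
    refine (sum_le_sum fun j _ => (le_of_eq (av_block p D j fun z => if Squarefree (fpol z) then (0 : ℝ) else 1)).trans (av_nsf (D j))).trans (le_of_eq ?_)
    rw [sum_const, card_univ, Fintype.card_fin, nsmul_eq_mul]
  have h5 : |av (GM k D p) - av f| ≤ (1 / (2 * Real.sqrt p)) * M + (Real.sqrt p / 2) * (n * (2 / p)) := by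
    rw [← av_sub]
    refine (abs_av_le _).trans ?_
    refine (av_mono h3).trans ?_
    rw [av_add, av_mul, av_mul]
    have h6 : (1 / (2 * Real.sqrt p)) * av (fun c => f c ^ 2) ≤ (1 / (2 * Real.sqrt p)) * M := mul_le_mul_of_nonneg_left hf2 (by positivity)
    have h7 : (Real.sqrt p / 2) * av (fun c : (Σ j : Fin n, Fin (D j)) → ZMod p => ∑ j, (if Squarefree (fpol (blk c j)) then (0 : ℝ) else 1)) ≤ (Real.sqrt p / 2) * (n * (2 / p)) :=
      mul_le_mul_of_nonneg_left h4 (by positivity)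
    linarith
  have h6 : |av f| ≤ K₁ / Real.sqrt p := by
    rw [hf, av_sub, av_const]
    exact hF1
  have h7 : (1 / (2 * Real.sqrt p)) * M + (Real.sqrt p / 2) * (n * (2 / p)) ≤ (M + n) / Real.sqrt p := by
    have e1 : (Real.sqrt p / 2) * (n * (2 / p)) = n / Real.sqrt p := by
      rw [eq_div_iff hs0.ne']
      have : Real.sqrt p / 2 * (n * (2 / p)) * Real.sqrt p = n * ((Real.sqrt p * Real.sqrt p) / p) := by ring
      rw [this, hss, div_self hp0.ne', mul_one]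
    have e2 : (1 / (2 * Real.sqrt p)) * M = (M / 2) / Real.sqrt p := by
      field_simp
    rw [e1, e2, ← add_div]
    refine div_le_div_of_nonneg_right ?_ hs0.le
    linarith
  have h8 : (K₁ + M + n + 2) / Real.sqrt p = K₁ / Real.sqrt p + (M + n) / Real.sqrt p + 2 / Real.sqrt p := by ring
  have h10 : 0 ≤ 2 / Real.sqrt p := by positivity
  rw [h8]
  have h9 : |av (GM k D p)| ≤ |av f| + |av (GM k D p) - av f| := by
    have := abs_add_le (av f) (av (GM k D p) - av f)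
    rwa [add_sub_cancel] at this
  linarith

open Classical in
/-- the common good primes of `S` in the interval -/
noncomputable def GPM (D : Fin n → ℕ) (S : Set ℕ) (Y Y' : ℕ) (t : (Σ j : Fin n, Fin (D j)) → ℤ) : Finset ℕ :=
  (IV Y Y').filter fun p => p ∈ S ∧ p ≠ 2 ∧ ∀ j, Squarefree (fpol (blk (fun i => (t i : ZMod p)) j))

/-- **the empirical moments** -/
theorem emp_mom (k : Fin n → Fin r → ℕ) (ε : ℝ) (hε : 0 < ε) (hε1 : ε ≤ 1) :
    ∃ κ₀ : ℝ, 0 < κ₀ ∧ ∃ C : ℝ, 1 ≤ C ∧ ∀ D : Fin n → ℕ, (∀ j, 2 * ∑ m : Fin r, ((m : ℕ) + 1) * k j m ≤ D j) →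
      ∀ (S : Set ℕ) (N : (Σ j : Fin n, Fin (D j)) → ℤ) (L : (Σ j : Fin n, Fin (D j)) → ℕ) (T : ℝ), 0 < T → (∀ i, T * (∑ j, (D j : ℝ) + 1) ≤ L i) →
      ∀ X₀ : ℕ, 1 ≤ X₀ → ∃ E : Finset ((Σ j : Fin n, Fin (D j)) → ℤ), E ⊆ kbox N L ∧ (E.card : ℝ) ≤ C * (X₀ : ℝ) ^ (-(ε / 2)) * ∏ i, (L i : ℝ) ∧
      ∀ t ∈ kbox N L, t ∉ E → ∀ Y Y' : ℕ, Y ≤ Y' → X₀ ≤ Y' → (Y' : ℝ) ≤ T ^ κ₀ →
        |∑ p ∈ GPM D S Y Y' t, (FM k D p (fun i => (t i : ZMod p)) - mu k)| ≤ C * (Y' : ℝ) ^ (1 / 2 + ε / 2) := by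
  classical
  obtain ⟨K, hK, h1⟩ := GM_mean k
  obtain ⟨A, hA⟩ : ∃ A : ℝ, A = ∏ j, ∏ m : Fin r, 2 ^ k j m + |mu k| := ⟨_, rfl⟩
  have hA0 : 0 ≤ A := by
    rw [hA]
    have : (0 : ℝ) ≤ ∏ j, ∏ m : Fin r, 2 ^ k j m := prod_nonneg fun j _ => prod_nonneg fun j _ => by positivity
    positivity
  obtain ⟨κ₀, hκ₀, C, hC, h2⟩ := lln (∑ j, ∑ m : Fin r, ((m : ℕ) + 1) * k j m) 3 (K + A) 0 (by linarith) ε hε hε1
  refine ⟨κ₀, hκ₀, C, hC, fun D hD S N L T hT hL X₀ hX₀ => ?_⟩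
  obtain ⟨E, hE1, hE2, hE3⟩ := h2 (Σ j : Fin n, Fin (D j)) (GM k D) (fun p hp u => by
      refine (GM_abs k D p hp u).trans (mul_le_mul_of_nonneg_right ?_ (by positivity))
      rw [← hA]
      linarith)
    (fun p hp hp3 => ((h1 D hD p hp hp3).1).trans (div_le_div_of_nonneg_right (by linarith) (Real.sqrt_nonneg _)))
    (fun p hp hp3 => ((h1 D hD p hp hp3).2).trans (by linarith)) (fun p => if p ∈ S then 1 else 0)
    (fun p => by split_ifs <;> simp) N L T hT (by simpa using hL) X₀ hX₀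
  refine ⟨E, hE1, hE2, fun t ht htE Y Y' hY hX hT' => ?_⟩
  have h3 := hE3 t ht htE Y Y' hY hX hT'
  have e1 : ∑ p ∈ IV Y Y', (if p ∈ S then (1 : ℝ) else 0) * (GM k D p (fun i => (t i : ZMod p)) - 0) =
      ∑ p ∈ GPM D S Y Y' t, (FM k D p (fun i => (t i : ZMod p)) - mu k) := by
    unfold GPM
    rw [sum_filter]
    refine sum_congr rfl fun p _ => ?_
    unfold GM
    by_cases h4 : p ∈ S
    · by_cases h5 : p ≠ 2 ∧ ∀ j, Squarefree (fpol (blk (fun i => (t i : ZMod p)) j))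
      · rw [if_pos h4, if_pos h5, if_pos ⟨h4, h5⟩]
        ring
      · rw [if_pos h4, if_neg h5, if_neg fun h6 => h5 h6.2]
        ring
    · rw [if_neg h4, if_neg (fun h6 : p ∈ S ∧ p ≠ 2 ∧ ∀ j, Squarefree (fpol (blk (fun i => (t i : ZMod p)) j)) => h4 h6.1)]
      ring
  rw [e1] at h3
  exact h3

end

end H35GS.Gn
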