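import Pool.Agent.H35J.GS.MulA
import Pool.Agent.H35J.GS.LimG
import Pool.Agent.H35J.GS.Main

/-!
# The law of several curves: method of moments with bounded Lipschitz functions
-/

set_option autoImplicit false
set_option linter.unusedSectionVars false

namespace H35GS.Gn

open MeasureTheory ProbabilityTheory Filter Topology Finset
open Q282MM (gm)
open scoped NNReal ENNReal BoundedContinuousFunction

section LP

variable {Ω : Type} [MeasurableSpace Ω] [PseudoMetricSpace Ω] [OpensMeasurableSpace Ω]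

lemma lp_one (P Q : Measure Ω) [IsProbabilityMeasure P] [IsProbabilityMeasure Q] {δ : ℝ} (hδ : 0 < δ)
    (h : levyProkhorovEDist P Q < ENNReal.ofReal δ) (f : Ω → ℝ) (hf : LipschitzWith 1 f) (hb : ∀ x, |f x| ≤ 1) :
    ∫ x, f x ∂P ≤ ∫ x, f x ∂Q + 3 * δ := by
  obtain ⟨F, hF⟩ : ∃ F : Ω →ᵇ ℝ, ∀ x, F x = f x + 1 := by
    refine ⟨BoundedContinuousFunction.ofNormedAddCommGroup (fun x => f x + 1) (hf.continuous.add continuous_const) 2 fun x => ?_, fun x => rfl⟩
    rw [Real.norm_eq_abs]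
    have := abs_add_le (f x) 1
    have h1 := hb x
    rw [abs_one] at this
    linarith
  obtain ⟨G, hG⟩ : ∃ G : Ω →ᵇ ℝ, ∀ x, G x = F x + δ := ⟨F + BoundedContinuousFunction.const Ω δ, fun x => rfl⟩
  have hF0 : ∀ x, 0 ≤ F x := by
    intro x
    rw [hF]
    have := (abs_le.1 (hb x)).1
    linarith
  have hG0 : ∀ x, 0 ≤ G x := by
    intro x
    rw [hG]
    have := hF0 x
    linarith
  have hne : Nonempty Ω := by
    by_contra hne
    rw [not_nonempty_iff] at hne
    have h1 := measure_univ (μ := P)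
    rw [Set.univ_eq_empty_iff.2 hne, measure_empty] at h1
    exact zero_ne_one h1
  have hFn : ‖F‖ ≤ 2 := by
    rw [BoundedContinuousFunction.norm_le (by norm_num)]
    intro x
    rw [hF, Real.norm_eq_abs]
    have := abs_add_le (f x) 1
    have h1 := hb x
    rw [abs_one] at this
    linarith
  have hFG : ‖F‖ ≤ ‖G‖ := by
    rw [BoundedContinuousFunction.norm_le (norm_nonneg _)]
    intro x
    refine le_trans ?_ (G.norm_coe_le_norm x)
    rw [Real.norm_of_nonneg (hF0 x), Real.norm_of_nonneg (hG0 x), hG]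
    linarith
  have h1 := BoundedContinuousFunction.integral_le_of_levyProkhorovEDist_lt P Q hδ h F (ae_of_all _ hF0)
  have h2 := BoundedContinuousFunction.integral_eq_integral_meas_le G Q (ae_of_all _ hG0)
  have hanti : Antitone fun t : ℝ => Q.real {a | t ≤ G a} := by
    intro s t hst
    exact measureReal_mono fun a ha => le_trans hst ha
  have hint : ∀ b : ℝ, IntegrableOn (fun t : ℝ => Q.real {a | t ≤ G a}) (Set.Ioc 0 b) volume := by
    intro b
    exact ((hanti.locallyIntegrable).integrableOn_isCompact (isCompact_Icc (a := 0) (b := b))).mono_set Set.Ioc_subset_Icc_self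
  have hint2 : IntegrableOn (fun t : ℝ => Q.real (Metric.thickening δ {a | t ≤ F a})) (Set.Ioc 0 ‖F‖) volume := by
    have hanti2 : Antitone fun t : ℝ => Q.real (Metric.thickening δ {a | t ≤ F a}) := by
      intro s t hst
      exact measureReal_mono (Metric.thickening_subset_of_subset δ fun a ha => le_trans hst ha)
    exact ((hanti2.locallyIntegrable).integrableOn_isCompact (isCompact_Icc (a := 0) (b := ‖F‖))).mono_set Set.Ioc_subset_Icc_self
  have h3 : ∫ t in Set.Ioc 0 ‖F‖, Q.real (Metric.thickening δ {a | t ≤ F a}) ≤ ∫ t in Set.Ioc 0 ‖F‖, Q.real {a | t ≤ G a} := by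
    refine setIntegral_mono hint2 (hint _) fun t => ?_
    refine measureReal_mono ?_
    intro y hy
    rw [Metric.mem_thickening_iff] at hy
    obtain ⟨z, hz, hyz⟩ := hy
    have h4 : t ≤ F z := hz
    have h5 := hf.dist_le_mul y z
    rw [NNReal.coe_one, one_mul, Real.dist_eq] at h5
    have h6 := (abs_le.1 h5).1
    show t ≤ G y
    rw [hG, hF]
    rw [hF] at h4
    linarith
  have h4 : ∫ t in Set.Ioc 0 ‖F‖, Q.real {a | t ≤ G a} ≤ ∫ t in Set.Ioc 0 ‖G‖, Q.real {a | t ≤ G a} := by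
    refine setIntegral_mono_set (hint _) (ae_of_all _ fun t => measureReal_nonneg) ?_
    exact (Set.Ioc_subset_Ioc_right hFG).eventuallyLE
  have hfi : ∀ (R : Measure Ω) [IsProbabilityMeasure R], Integrable f R := fun R _ =>
    Integrable.of_bound hf.continuous.measurable.aestronglyMeasurable 1 (ae_of_all _ fun x => by rw [Real.norm_eq_abs]; exact hb x)
  have h5 : ∫ x, F x ∂P = ∫ x, f x ∂P + 1 := by
    simp only [hF]
    rw [integral_add (hfi P) (integrable_const _)]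
    simp
  have h6 : ∫ x, G x ∂Q = ∫ x, f x ∂Q + 1 + δ := by
    have e : ∀ x, G x = f x + (1 + δ) := by
      intro x
      rw [hG, hF]
      ring
    simp only [e]
    rw [integral_add (hfi Q) (integrable_const _)]
    simp
    ring
  rw [h5] at h1
  rw [h6] at h2
  have h7 : δ * ‖F‖ ≤ δ * 2 := mul_le_mul_of_nonneg_left hFn hδ.le
  linarith

/-- the distance of Lévy and Prokhorov and the bounded Lipschitz functions -/
lemma lp_two (P Q : Measure Ω) [IsProbabilityMeasure P] [IsProbabilityMeasure Q] {δ : ℝ} (hδ : 0 < δ)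
    (h : levyProkhorovEDist P Q < ENNReal.ofReal δ) (f : Ω → ℝ) (hf : LipschitzWith 1 f) (hb : ∀ x, |f x| ≤ 1) :
    |∫ x, f x ∂P - ∫ x, f x ∂Q| ≤ 3 * δ := by
  have h1 := lp_one P Q hδ h f hf hb
  have h2 := lp_one Q P hδ (by rwa [levyProkhorovEDist_comm]) f hf hb
  rw [abs_le]
  constructor <;> linarith

end LP

section

variable {ι : Type} [Fintype ι] [DecidableEq ι] {d : ι → ℕ} {κ : Type} [Fintype κ]

/-- **uniform convergence for the bounded Lipschitz functions** -/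
theorem bl_tendsto (T : (ι → ℝ) → (κ → ℝ)) (hT : Continuous T) (μ : ℕ → Measure (ι → ℝ)) (hμ : ∀ n, IsProbabilityMeasure (μ n)) (hint : ∀ n, AllInt (μ n))
    (hmom : ∀ k : ι → ℕ, Tendsto (fun n => ∫ x, ∏ j, x j ^ k j ∂(μ n)) atTop (𝓝 (∏ j : ι, mmt (d j) (k j)))) (ε : ℝ) (hε : 0 < ε) :
    ∃ n₀ : ℕ, ∀ n, n₀ ≤ n → ∀ f : (κ → ℝ) → ℝ, LipschitzWith 1 f → (∀ x, |f x| ≤ 1) → |∫ x, f (T x) ∂(μ n) - ∫ x, f (T x) ∂(gam d)| ≤ ε := by
  have h1 := weak μ hμ hint hmom
  have h2 := ProbabilityMeasure.tendsto_map_of_tendsto_of_continuous _ _ h1 hT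
  have h3 := (LevyProkhorov.continuous_ofMeasure_probabilityMeasure (Ω := κ → ℝ)).tendsto ((pm (gam d) inferInstance).map hT.aemeasurable)
  have h4 := h3.comp h2
  obtain ⟨δ, hδ⟩ : ∃ δ : ℝ, δ = ε / 3 := ⟨_, rfl⟩
  have hδ0 : 0 < δ := by
    rw [hδ]
    positivity
  obtain ⟨n₀, hn₀⟩ := (EMetric.tendsto_atTop.1 h4) (ENNReal.ofReal δ) (ENNReal.ofReal_pos.2 hδ0)
  refine ⟨n₀, fun n hn f hf hb => ?_⟩
  have h5 := hn₀ n hn
  rw [Function.comp_apply, LevyProkhorov.edist_probabilityMeasure_def] at h5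
  have h6 : levyProkhorovEDist ((μ n).map T) ((gam d).map T) < ENNReal.ofReal δ := h5
  have hg : IsProbabilityMeasure ((gam d).map T) := Measure.isProbabilityMeasure_map hT.aemeasurable
  have hm : IsProbabilityMeasure ((μ n).map T) := by
    have := hμ n
    exact Measure.isProbabilityMeasure_map hT.aemeasurable
  have h7 := lp_two _ _ hδ0 h6 f hf hb
  rw [integral_map hT.aemeasurable hf.continuous.aestronglyMeasurable, integral_map hT.aemeasurable hf.continuous.aestronglyMeasurable] at h7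
  refine h7.trans (le_of_eq ?_)
  rw [hδ]
  ring

/-- **finitely many moments determine the law up to `ε`** -/
theorem lemD (d : ι → ℕ) (T : (ι → ℝ) → (κ → ℝ)) (hT : Continuous T) (ε : ℝ) (hε : 0 < ε) : ∃ N : ℕ, ∀ μ : Measure (ι → ℝ), IsProbabilityMeasure μ → AllInt μ →
    (∀ k : ι → ℕ, (∀ j, k j ≤ N) → |∫ x, ∏ j, x j ^ k j ∂μ - ∏ j, mmt (d j) (k j)| ≤ 1 / (N + 1)) →
    ∀ f : (κ → ℝ) → ℝ, LipschitzWith 1 f → (∀ x, |f x| ≤ 1) → |∫ x, f (T x) ∂μ - ∫ x, f (T x) ∂(gam d)| ≤ ε := by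
  by_contra hcon
  push Not at hcon
  choose μ hμ hint hmom f hf hb hx using hcon
  have htend : ∀ k : ι → ℕ, Tendsto (fun n => ∫ x, ∏ j, x j ^ k j ∂(μ n)) atTop (𝓝 (∏ j : ι, mmt (d j) (k j))) := by
    intro k
    rw [tendsto_iff_dist_tendsto_zero]
    have h1 : Tendsto (fun n : ℕ => 1 / ((n : ℝ) + 1)) atTop (𝓝 0) := tendsto_one_div_add_atTop_nhds_zero_nat
    refine squeeze_zero' (Eventually.of_forall fun n => dist_nonneg) ?_ h1
    filter_upwards [eventually_ge_atTop (∑ j, k j)] with n hn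
    rw [Real.dist_eq]
    exact hmom n k fun j => (single_le_sum (f := k) (fun _ _ => Nat.zero_le _) (mem_univ j)).trans hn
  obtain ⟨n₀, hn₀⟩ := bl_tendsto T hT μ hμ hint htend ε hε
  exact absurd (hn₀ n₀ le_rfl (f n₀) (hf n₀) (hb n₀)) (not_le.2 (hx n₀))

end

section

variable {n r : ℕ}

/-- the empirical law -/
lemma emp_meas {ι : Type} [Fintype ι] (G : Finset ℕ) (hG : G.Nonempty) (v : ℕ → (ι → ℝ)) : ∃ μ : Measure (ι → ℝ), IsProbabilityMeasure μ ∧
    ∀ f : (ι → ℝ) → ℝ, Integrable f μ ∧ ∫ x, f x ∂μ = (∑ p ∈ G, f (v p)) / G.card := by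
  classical
  have hn : (G.card : ℝ≥0∞) ≠ 0 := by
    simpa using hG.ne_empty
  have hn' : (G.card : ℝ≥0∞) ≠ ∞ := ENNReal.natCast_ne_top _
  obtain ⟨m, hm⟩ : ∃ m : Measure (ι → ℝ), m = ∑ p ∈ G, Measure.dirac (v p) := ⟨_, rfl⟩
  have h1 : ∀ f : (ι → ℝ) → ℝ, Integrable f m := by
    intro f
    rw [hm]
    exact integrable_finsetSum_measure.2 fun p _ => integrable_dirac (by simp)
  refine ⟨(G.card : ℝ≥0∞)⁻¹ • m, ⟨?_⟩, fun f => ⟨(h1 f).smul_measure (ENNReal.inv_ne_top.2 hn), ?_⟩⟩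
  · rw [Measure.smul_apply, hm, Measure.finsetSum_apply]
    simp only [measure_univ, sum_const, nsmul_eq_mul, mul_one, smul_eq_mul]
    exact ENNReal.inv_mul_cancel hn hn'
  · rw [integral_smul_measure, hm, integral_finsetSum_measure fun p _ => integrable_dirac (by simp)]
    simp only [integral_dirac]
    rw [ENNReal.toReal_inv, ENNReal.toReal_natCast, smul_eq_mul, div_eq_inv_mul]

/-- the traces of the powers -/
noncomputable def VV (g : Fin n → ℕ) (r : ℕ) (U : ∀ j, MM (g j)) : Fin n × Fin r → ℝ := fun i => (U i.1 ^ ((i.2 : ℕ) + 1)).trace.re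

lemma VV_cont (g : Fin n → ℕ) (r : ℕ) : Continuous (VV g r) :=
  continuous_pi fun i => Complex.continuous_re.comp ((cont_trace _).comp (continuous_apply i.1))

lemma haar_pi {g : Fin n → ℕ} {ν : ∀ j, Measure (MM (g j))} (hν : ∀ j, Haar (ν j)) (r : ℕ) : ∃ μ : Measure (Fin n × Fin r → ℝ), IsProbabilityMeasure μ ∧ AllInt μ ∧
    (∀ k : Fin n × Fin r → ℕ, ∫ x, ∏ i, x i ^ k i ∂μ = ∏ j, ∫ U : MM (g j), ∏ m : Fin r, (U ^ ((m : ℕ) + 1)).trace.re ^ k (j, m) ∂(ν j)) ∧
    ∀ f : (Fin n × Fin r → ℝ) → ℝ, Continuous f → ∫ x, f x ∂μ = ∫ U, f (VV g r U) ∂(Measure.pi ν) := by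
  have hp : ∀ j, IsProbabilityMeasure (ν j) := fun j => (hν j).prob
  have hmono : ∀ k : Fin n × Fin r → ℕ, Continuous fun x : Fin n × Fin r → ℝ => ∏ i, x i ^ k i := fun k => by fun_prop
  have hVc := VV_cont g r
  have hVm : AEMeasurable (VV g r) (Measure.pi ν) := by
    refine (measurable_pi_iff.2 fun i => ?_).aemeasurable
    exact (Complex.continuous_re.comp (cont_trace _)).measurable.comp (measurable_pi_apply i.1)
  have hfac : ∀ k : Fin n × Fin r → ℕ, (fun U : ∀ j, MM (g j) => ∏ i, VV g r U i ^ k i) = fun U => ∏ j, ∏ m : Fin r, (U j ^ ((m : ℕ) + 1)).trace.re ^ k (j, m) := by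
    intro k
    funext U
    rw [Fintype.prod_prod_type]
    rfl
  refine ⟨(Measure.pi ν).map (VV g r), Measure.isProbabilityMeasure_map hVm, fun k => ?_, fun k => ?_, fun f hf => ?_⟩
  · rw [integrable_map_measure (hmono k).aestronglyMeasurable hVm]
    show Integrable (fun U : ∀ j, MM (g j) => ∏ i, VV g r U i ^ k i) (Measure.pi ν)
    rw [hfac k]
    refine Integrable.fintype_prod_dep (f := fun (j : Fin n) (U : MM (g j)) => ∏ m : Fin r, (U ^ ((m : ℕ) + 1)).trace.re ^ k (j, m)) fun j => ?_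
    have h1 : Continuous fun U : MM (g j) => ((∏ m : Fin r, (U ^ ((m : ℕ) + 1)).trace.re ^ k (j, m) : ℝ) : ℂ) :=
      Complex.continuous_ofReal.comp (continuous_finsetProd _ fun m _ => (Complex.continuous_re.comp (cont_trace _)).pow _)
    exact ((hν j).integrable _ h1).re
  · rw [integral_map hVm (hmono k).aestronglyMeasurable, hfac k]
    exact integral_fintype_prod_eq_prod (fun (j : Fin n) (U : MM (g j)) => ∏ m : Fin r, (U ^ ((m : ℕ) + 1)).trace.re ^ k (j, m))
  · rw [integral_map hVm hf.aestronglyMeasurable]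

/-- the joint moments of the traces for the Haar measure of the product -/
lemma haar_pi_mom (k : Fin n → Fin r → ℕ) : ∃ K : ℝ, 0 ≤ K ∧ ∀ (G : ℕ) (g : Fin n → ℕ) (ν : ∀ j, Measure (MM (g j))), 1 ≤ G → (∀ j, G ≤ g j) → (∀ j, Haar (ν j)) →
    |∏ j, ∫ U : MM (g j), ∏ m : Fin r, (U ^ ((m : ℕ) + 1)).trace.re ^ k j m ∂(ν j) - mu k| ≤ K / G := by
  choose K₁ hK₁ h₁ using fun j => haar_mom' (k j)
  refine ⟨(∑ j, K₁ j) * ∏ j, (1 + |∏ m : Fin r, mmt m (k j m)| + K₁ j), mul_nonneg (sum_nonneg fun j _ => hK₁ j) (prod_nonneg fun j _ => by have := hK₁ j; positivity), fun G g ν hG hg hν => ?_⟩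
  have hG1 : (1 : ℝ) ≤ G := by exact_mod_cast hG
  have hG0 : (0 : ℝ) < G := by linarith
  unfold mu
  obtain ⟨x, hx⟩ : ∃ x : Fin n → ℝ, x = fun j => ∏ m : Fin r, mmt m (k j m) := ⟨_, rfl⟩
  obtain ⟨z, hz⟩ : ∃ z : Fin n → ℝ, z = fun j => ∫ U : MM (g j), ∏ m : Fin r, (U ^ ((m : ℕ) + 1)).trace.re ^ k j m ∂(ν j) := ⟨_, rfl⟩
  obtain ⟨y, hy⟩ : ∃ y : Fin n → ℝ, y = fun j => z j - x j := ⟨_, rfl⟩
  have h4 := prod_diff univ x y
  have h5 : ∀ j, x j + y j = z j := by
    intro j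
    rw [hy]
    ring
  simp only [h5] at h4
  have h6 : ∏ j, x j = ∏ j, ∏ m : Fin r, mmt m (k j m) := by rw [hx]
  have h6' : ∏ j, z j = ∏ j, ∫ U : MM (g j), ∏ m : Fin r, (U ^ ((m : ℕ) + 1)).trace.re ^ k j m ∂(ν j) := by rw [hz]
  rw [h6, h6'] at h4
  refine h4.trans ?_
  have h7 : ∀ j, |y j| ≤ K₁ j / G := by
    intro j
    rw [hy, hx, hz]
    refine (h₁ j (g j) (ν j) (hG.trans (hg j)) (hν j)).trans ?_
    exact div_le_div_of_nonneg_left (hK₁ j) hG0 (by exact_mod_cast hg j)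
  have h8 : ∀ j, |y j| ≤ K₁ j := fun j => (h7 j).trans (div_le_self (hK₁ j) hG1)
  have h9 : ∑ j, |y j| ≤ (∑ j, K₁ j) / G := by
    rw [sum_div]
    exact sum_le_sum fun j _ => h7 j
  have h10 : ∏ j, (1 + |x j| + |y j|) ≤ ∏ j, (1 + |∏ m : Fin r, mmt m (k j m)| + K₁ j) := by
    refine prod_le_prod (fun j _ => by positivity) fun j _ => ?_
    have := h8 j
    have h11 : |x j| = |∏ m : Fin r, mmt m (k j m)| := by rw [hx]
    linarith
  rw [mul_div_right_comm]
  exact mul_le_mul h9 h10 (prod_nonneg fun j _ => by positivity) (div_nonneg (sum_nonneg fun j _ => hK₁ j) hG0.le)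

end

end H35GS.Gn
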