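import Pool.Agent.H35J.GS.MulB

/-!
# The law of several curves
-/

set_option autoImplicit false
set_option linter.unusedSectionVars false

namespace H35GS.Gn

open MeasureTheory ProbabilityTheory Filter Topology Finset Polynomial
open scoped NNReal ENNReal

/-- **the law of several curves** -/
theorem main (n r : ℕ) {τ : Type} [Fintype τ] (F : (Fin n × Fin r → ℝ) → (τ → ℝ)) (hF : Continuous F) (ε : ℝ) (hε : 0 < ε) (hε1 : ε ≤ 1) :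
    ∃ (g₀ : ℕ) (κ C : ℝ), 0 < κ ∧ ∀ g D : Fin n → ℕ, (∀ j, g₀ ≤ g j) → (∀ j, 2 * g j + 1 ≤ D j) →
    ∀ (S : Set ℕ) (N : (Σ j : Fin n, Fin (D j)) → ℤ) (L : (Σ j : Fin n, Fin (D j)) → ℕ) (T : ℝ), 0 < T → (∀ i, T * (∑ j, (D j : ℝ) + 1) ≤ L i) →
      ∀ X₀ : ℕ, 1 ≤ X₀ → ∃ E : Finset ((Σ j : Fin n, Fin (D j)) → ℤ), E ⊆ kbox N L ∧ (E.card : ℝ) ≤ C * (X₀ : ℝ) ^ (-(ε / 2)) * ∏ i, (L i : ℝ) ∧
      ∀ t ∈ kbox N L, t ∉ E → ∀ Y Y' : ℕ, Y ≤ Y' → X₀ ≤ Y' → (Y' : ℝ) ≤ T ^ κ →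
        (Y' : ℝ) ^ (1 / 2 + ε) ≤ (GPM D S Y Y' t).card → ∀ ν : ∀ j, Measure (MM (g j)), (∀ j, Haar (ν j)) →
        ∀ f : (τ → ℝ) → ℝ, LipschitzWith 1 f → (∀ x, |f x| ≤ 1) →
        |(∑ p ∈ GPM D S Y Y' t, f (F fun i => sv (D i.1) i.2 p (blk (fun i => (t i : ZMod p)) i.1))) / (GPM D S Y Y' t).card -
          ∫ U, f (F (VV g r U)) ∂(Measure.pi ν)| ≤ ε := by
  classical
  obtain ⟨q, hq⟩ := lemD (fun i : Fin n × Fin r => (i.2 : ℕ)) F hF (ε / 2) (by positivity)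
  obtain ⟨Ks, hKs⟩ : ∃ Ks : Finset (Fin n → Fin r → ℕ), Ks = Fintype.piFinset fun _ : Fin n => Fintype.piFinset fun _ : Fin r => range (q + 1) := ⟨_, rfl⟩
  have hKsm : ∀ k : Fin n → Fin r → ℕ, k ∈ Ks ↔ ∀ j m, k j m ≤ q := by
    intro k
    rw [hKs, Fintype.mem_piFinset]
    simp only [Fintype.mem_piFinset, mem_range, Nat.lt_succ_iff]
  have hKne : Ks.Nonempty := ⟨fun _ _ => 0, (hKsm _).2 fun _ _ => Nat.zero_le _⟩
  -- the empirical moments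
  choose κf hκf Cf hCf hemp using fun k : Fin n → Fin r → ℕ => emp_mom k ε hε hε1
  obtain ⟨k₀, hk₀, hk₀min⟩ := exists_min_image Ks κf hKne
  obtain ⟨κ, hκ⟩ : ∃ κ : ℝ, κ = κf k₀ := ⟨_, rfl⟩
  have hκ0 : 0 < κ := by
    rw [hκ]
    exact hκf k₀
  obtain ⟨M, hM⟩ : ∃ M : ℝ, M = ∑ k ∈ Ks, Cf k := ⟨_, rfl⟩
  have hMle : ∀ k ∈ Ks, Cf k ≤ M := by
    intro k hk
    rw [hM]
    exact single_le_sum (f := Cf) (fun k _ => by linarith [hCf k]) hk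
  have hM1 : 1 ≤ M := (hCf k₀).trans (hMle k₀ hk₀)
  obtain ⟨C, hC⟩ : ∃ C : ℝ, C = (q + 1) * M := ⟨_, rfl⟩
  -- the moments of the Haar measure
  choose Hf hHf hhaar using fun k : Fin n → Fin r → ℕ => haar_pi_mom k
  obtain ⟨H, hH⟩ : ∃ H : ℝ, H = ∑ k ∈ Ks, Hf k := ⟨_, rfl⟩
  have hHle : ∀ k ∈ Ks, Hf k ≤ H := by
    intro k hk
    rw [hH]
    exact single_le_sum (f := Hf) (fun k _ => hHf k) hk
  obtain ⟨g₁, hg₁⟩ := exists_nat_ge (H * (q + 1))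
  refine ⟨max (g₁ + 1) (r * r * q), κ, C, hκ0, fun g D hg hgD S N L T hT hL X₀ hX₀ => ?_⟩
  have hgg₁ : ∀ j, g₁ + 1 ≤ g j := fun j => (le_max_left _ _).trans (hg j)
  have hgr : ∀ j, r * r * q ≤ g j := fun j => (le_max_right _ _).trans (hg j)
  have hX₀R : (1 : ℝ) ≤ X₀ := by exact_mod_cast hX₀
  have hLpos : (0 : ℝ) ≤ ∏ i, (L i : ℝ) := prod_nonneg fun i _ => Nat.cast_nonneg _
  have hXp : (0 : ℝ) < (X₀ : ℝ) ^ (-(ε / 2)) := Real.rpow_pos_of_pos (by linarith) _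
  by_cases hsmall : M * (X₀ : ℝ) ^ (-(ε / 2)) ≤ 1 / (q + 1)
  swap
  · -- the trivial case
    refine ⟨kbox N L, subset_rfl, ?_, fun t ht htE => absurd ht htE⟩
    rw [not_le, div_lt_iff₀ (by positivity)] at hsmall
    have h1 : ((kbox N L).card : ℝ) = ∏ i, (L i : ℝ) := kbox_card N L
    rw [h1, hC]
    have h2 : 1 ≤ (q + 1) * M * (X₀ : ℝ) ^ (-(ε / 2)) := by linarith
    exact le_mul_of_one_le_left hLpos h2
  have hw : ∀ k ∈ Ks, ∀ j, 2 * ∑ m : Fin r, ((m : ℕ) + 1) * k j m ≤ D j := by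
    intro k hk j
    rw [hKsm] at hk
    have h1 : ∑ m : Fin r, ((m : ℕ) + 1) * k j m ≤ ∑ m : Fin r, r * q := sum_le_sum fun m _ => Nat.mul_le_mul m.2 (hk j m)
    rw [sum_const, card_univ, Fintype.card_fin, smul_eq_mul, ← mul_assoc] at h1
    have h2 := hgr j
    have h3 := hgD j
    omega
  choose E hE1 hE2 hE3 using fun (k : Fin n → Fin r → ℕ) (hk : ∀ j, 2 * ∑ m : Fin r, ((m : ℕ) + 1) * k j m ≤ D j) => hemp k D hk S N L T hT hL X₀ hX₀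
  refine ⟨Ks.attach.biUnion fun k => E k.1 (hw k.1 k.2), ?_, ?_, ?_⟩
  · intro t ht
    rw [mem_biUnion] at ht
    obtain ⟨k, _, hk⟩ := ht
    exact hE1 _ _ hk
  · refine (Nat.cast_le.2 card_biUnion_le).trans ?_
    push_cast
    refine (sum_le_sum fun k _ => hE2 k.1 (hw k.1 k.2)).trans ?_
    rw [← sum_mul, ← sum_mul, sum_attach Ks (fun k => Cf k), ← hM]
    refine mul_le_mul_of_nonneg_right (mul_le_mul_of_nonneg_right ?_ hXp.le) hLpos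
    rw [hC]
    have : (0 : ℝ) ≤ q := Nat.cast_nonneg _
    nlinarith
  intro t ht htE Y Y' hYY hY hYT hcard ν hν f hf hfb
  have hY1 : (1 : ℝ) ≤ Y' := by
    have : 1 ≤ Y' := hX₀.trans hY
    exact_mod_cast this
  have hT1 : 1 ≤ T := by
    by_contra hlt
    push Not at hlt
    have := Real.rpow_lt_one hT.le hlt hκ0
    linarith
  obtain ⟨G, hG⟩ : ∃ G : Finset ℕ, G = GPM D S Y Y' t := ⟨_, rfl⟩
  rw [← hG] at hcard ⊢
  have hYp : (1 : ℝ) ≤ (Y' : ℝ) ^ (1 / 2 + ε) := Real.one_le_rpow hY1 (by positivity)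
  have hG1 : (1 : ℝ) ≤ G.card := hYp.trans hcard
  have hG0 : (0 : ℝ) < G.card := by linarith
  have hGne : G.Nonempty := by
    rw [← card_pos]
    exact_mod_cast hG0
  have hmu : ∀ k : Fin n × Fin r → ℕ, ∏ i : Fin n × Fin r, mmt (i.2 : ℕ) (k i) = mu fun j m => k (j, m) := by
    intro k
    rw [Fintype.prod_prod_type]
    rfl
  -- the empirical law
  obtain ⟨v, hv⟩ : ∃ v : ℕ → (Fin n × Fin r → ℝ), v = fun p i => sv (D i.1) i.2 p (blk (fun i => (t i : ZMod p)) i.1) := ⟨_, rfl⟩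
  obtain ⟨μ, hμp, hμi⟩ := emp_meas G hGne v
  have hemp' := hq μ hμp (fun k => (hμi _).1) (fun k hk => by
    rw [(hμi _).2, hmu]
    have hkK : (fun j m => k (j, m)) ∈ Ks := (hKsm _).2 fun j m => hk (j, m)
    have h1 := hE3 _ (hw _ hkK) t ht (fun h => htE (mem_biUnion.2 ⟨⟨_, hkK⟩, mem_attach _ _, h⟩)) Y Y' hYY hY (by
      refine hYT.trans (Real.rpow_le_rpow_of_exponent_le hT1 ?_)
      rw [hκ]
      exact hk₀min _ hkK)
    rw [← hG, sum_sub_distrib, sum_const, nsmul_eq_mul] at h1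
    have h0 : ∀ p, FM (fun j m => k (j, m)) D p (fun i => (t i : ZMod p)) = ∏ i, v p i ^ k i := by
      intro p
      rw [Fintype.prod_prod_type, hv]
      rfl
    simp only [h0] at h1
    obtain ⟨m₀, hm₀⟩ : ∃ m₀ : ℝ, m₀ = mu fun j m => k (j, m) := ⟨_, rfl⟩
    rw [← hm₀] at h1 ⊢
    have h2 : (∑ p ∈ G, ∏ i, v p i ^ k i) / G.card - m₀ = (∑ p ∈ G, ∏ i, v p i ^ k i - G.card * m₀) / G.card := by
      field_simp
    rw [h2, abs_div, abs_of_pos hG0, div_le_iff₀ hG0]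
    refine h1.trans ?_
    have h3 : (Y' : ℝ) ^ (1 / 2 + ε / 2) = (Y' : ℝ) ^ (-(ε / 2)) * (Y' : ℝ) ^ (1 / 2 + ε) := by
      rw [← Real.rpow_add (by linarith)]
      congr 1
      ring
    have h4 : (Y' : ℝ) ^ (-(ε / 2)) ≤ (X₀ : ℝ) ^ (-(ε / 2)) :=
      Real.rpow_le_rpow_of_nonpos (by linarith) (by exact_mod_cast hY) (by linarith)
    rw [h3]
    obtain ⟨c, hc⟩ : ∃ c : ℝ, c = Cf fun j m => k (j, m) := ⟨_, rfl⟩
    have hcM : c ≤ M := by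
      rw [hc]
      exact hMle _ hkK
    have hc1 : 1 ≤ c := by
      rw [hc]
      exact hCf _
    rw [← hc]
    calc c * ((Y' : ℝ) ^ (-(ε / 2)) * (Y' : ℝ) ^ (1 / 2 + ε)) = (c * (Y' : ℝ) ^ (-(ε / 2))) * (Y' : ℝ) ^ (1 / 2 + ε) := by ring
      _ ≤ (M * (X₀ : ℝ) ^ (-(ε / 2))) * (G.card : ℝ) := by
        refine mul_le_mul (mul_le_mul hcM h4 (Real.rpow_nonneg (by linarith) _) (by linarith)) hcard (by linarith) (by positivity)
      _ ≤ 1 / (q + 1) * (G.card : ℝ) := mul_le_mul_of_nonneg_right hsmall hG0.le) f hf hfb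
  -- the Haar measure
  obtain ⟨μ', hμ'p, hμ'i, hμ'm, hμ's⟩ := haar_pi hν r
  have hgR : (0 : ℝ) < ((g₁ + 1 : ℕ) : ℝ) := by positivity
  have hhaar' := hq μ' hμ'p hμ'i (fun k hk => by
    have hkK : (fun j m => k (j, m)) ∈ Ks := (hKsm _).2 fun j m => hk (j, m)
    have h1 := hhaar (fun j m => k (j, m)) (g₁ + 1) g ν (Nat.le_add_left _ _) hgg₁ hν
    rw [hμ'm, hmu]
    refine h1.trans ?_
    rw [div_le_div_iff₀ hgR (by positivity), one_mul]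
    have h4 : Hf (fun j m => k (j, m)) * ((q : ℝ) + 1) ≤ H * (q + 1) := mul_le_mul_of_nonneg_right (hHle _ hkK) (by positivity)
    push_cast
    linarith) f hf hfb
  rw [hμ's (fun x => f (F x)) (hf.continuous.comp hF)] at hhaar'
  rw [(hμi _).2] at hemp'
  have h1 := abs_sub_le ((∑ p ∈ G, f (F (v p))) / G.card) (∫ x, f (F x) ∂(gam fun i : Fin n × Fin r => (i.2 : ℕ))) (∫ U, f (F (VV g r U)) ∂(Measure.pi ν))
  rw [abs_sub_comm (∫ x, f (F x) ∂(gam fun i : Fin n × Fin r => (i.2 : ℕ)))] at h1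
  have e : ∀ p, F (v p) = F fun i => sv (D i.1) i.2 p (blk (fun i => (t i : ZMod p)) i.1) := by
    intro p
    rw [hv]
  simp only [← e]
  linarith

end H35GS.Gn
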