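import Pool.Agent.H35J.GS.Lim2
import Pool.Agent.N867.AS.Eig

/-!
# The coefficients of the reversed characteristic polynomial of a symplectic matrix
-/

set_option autoImplicit false
set_option linter.unusedSectionVars false

namespace H35GS

open Finset Matrix

/-- the coefficients of `det (1 - T U)` -/
theorem coeff_rev {g : ℕ} {U : MM g} (h : US U) (i : ℕ) : (U.charpolyRev.coeff i).re = coef (fun m => (U ^ m).trace.re) i := by
  have h1 := Pool.Agent.N867.AS.hasPS_charpolyRev U
  have h2 : ∀ i : ℕ, U.charpolyRev.coeff i = ((coef (fun m => (U ^ m).trace.re) i : ℝ) : ℂ) := by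
    intro i
    induction i using Nat.strong_induction_on with
    | _ i ih =>
      rcases i with _ | i
      · have h3 := h1.1
        rw [coef_zero]
        simpa using h3
      · have h3 := h1.coeff_eq (i + 1)
        simp only [Polynomial.coeff_coe] at h3
        have h4 : ∑ j ∈ range (i + 1), (U ^ (j + 1)).trace * U.charpolyRev.coeff (i + 1 - 1 - j) =
            ((∑ j : Fin (i + 1), (U ^ ((j : ℕ) + 1)).trace.re * coef (fun m => (U ^ m).trace.re) (i - j) : ℝ) : ℂ) := by
          rw [Fin.sum_univ_eq_sum_range (fun j => (U ^ (j + 1)).trace.re * coef (fun m => (U ^ m).trace.re) (i - j))]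
          push_cast
          refine sum_congr rfl fun j hj => ?_
          rw [mem_range] at hj
          rw [h.trace_re, ih (i - j) (by omega)]
        rw [h4] at h3
        have h5 : ((i + 1 : ℕ) : ℂ) ≠ 0 := Nat.cast_ne_zero.2 (Nat.succ_ne_zero i)
        apply mul_left_cancel₀ h5
        rw [h3, coef_succ]
        push_cast
        have h6 : ((i : ℂ) + 1) ≠ 0 := by exact_mod_cast h5
        field_simp
  rw [h2, Complex.ofReal_re]

end H35GS
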