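import Pool.Agent.H35J.GS.Qch
import Pool.Agent.H35J.GS.Sep

/-!
# The closed points of the affine line over the field with `p` elements; the values of random monic polynomials at closed points
of total degree at most the degree of the polynomials are independent
-/

set_option autoImplicit false
set_option linter.unusedSectionVars false

namespace H35GS

open Finset Polynomial
open Q282.CL

variable {p : ℕ} [hp : Fact p.Prime]

noncomputable instance instFintypeGF (n : ℕ) : Fintype (GaloisField p n) := Fintype.ofFinite _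

lemma card_GF (n : ℕ) (hn : n ≠ 0) : Fintype.card (GaloisField p n) = p ^ n := by
  rw [← Nat.card_eq_fintype_card, GaloisField.card p n hn]

variable (p) in
/-- the closed points of degree `e` of the affine line -/
def CP (e : ℕ) : Type := {P : (ZMod p)[X] // P.Monic ∧ Irreducible P ∧ P.natDegree = e}

lemma exists_rt {e : ℕ} (he : e ≠ 0) (P : CP p e) : ∃ x : GaloisField p e, aeval x P.1 = 0 := by
  obtain ⟨P, hm, hi, hd⟩ := P
  have : Fact (Irreducible P) := ⟨hi⟩
  have h1 : Module.finrank (ZMod p) (AdjoinRoot P) = e := by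
    rw [(AdjoinRoot.powerBasis hm.ne_zero).finrank, AdjoinRoot.powerBasis_dim, hd]
  obtain ⟨φ⟩ := FiniteField.nonempty_algHom_of_finrank_dvd (F := ZMod p) (K := AdjoinRoot P) (L := GaloisField p e)
    (by rw [h1, GaloisField.finrank p he])
  refine ⟨φ (AdjoinRoot.root P), ?_⟩
  show aeval (φ (AdjoinRoot.root P)) P = 0
  rw [aeval_algHom_apply, AdjoinRoot.aeval_eq, AdjoinRoot.mk_self, map_zero]

/-- a root -/
noncomputable def rt {e : ℕ} (P : CP p e) : GaloisField p e := open Classical in if h : e ≠ 0 then (exists_rt h P).choose else 0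

lemma aeval_rt {e : ℕ} (he : e ≠ 0) (P : CP p e) : aeval (rt P) P.1 = 0 := by
  unfold rt
  rw [dif_pos he]
  exact (exists_rt he P).choose_spec

lemma minpoly_rt {e : ℕ} (he : e ≠ 0) (P : CP p e) : minpoly (ZMod p) (rt P) = P.1 :=
  (minpoly.eq_of_irreducible_of_monic P.2.2.1 (aeval_rt he P) P.2.1).symm

lemma rt_inj {e : ℕ} (he : e ≠ 0) : Function.Injective (rt (p := p) (e := e)) := by
  intro P Q h
  apply Subtype.ext
  rw [← minpoly_rt he P, ← minpoly_rt he Q, h]

instance instFiniteCP (e : ℕ) : Finite (CP p e) := by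
  by_cases he : e ≠ 0
  · exact Finite.of_injective _ (rt_inj he)
  · rw [not_not] at he
    subst he
    have : IsEmpty (CP p 0) := by
      refine ⟨fun P => ?_⟩
      have h1 := P.2.2.1.natDegree_pos
      have h2 := P.2.2.2
      omega
    infer_instance

noncomputable instance instFintypeCP (e : ℕ) : Fintype (CP p e) := Fintype.ofFinite _

/-- every element of the residue field is the value of a polynomial of small degree -/
lemma gen {e : ℕ} (he : e ≠ 0) (P : CP p e) (z : GaloisField p e) : ∃ g : (ZMod p)[X], aeval (rt P) g = z ∧ g.degree < ((e : ℕ) : WithBot ℕ) := by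
  obtain ⟨ψ, hψ⟩ : ∃ ψ : (Fin e → ZMod p) → GaloisField p e, ∀ c, ψ c = aeval (rt P) (∑ i : Fin e, C (c i) * X ^ (i : ℕ)) :=
    ⟨_, fun _ => rfl⟩
  have hdeg : ∀ c : Fin e → ZMod p, (∑ i : Fin e, C (c i) * X ^ (i : ℕ)).degree < ((e : ℕ) : WithBot ℕ) := by
    intro c
    refine lt_of_le_of_lt (degree_sum_le _ _) ?_
    refine (Finset.sup_lt_iff (WithBot.bot_lt_coe e)).2 fun i _ => ?_
    refine lt_of_le_of_lt (degree_C_mul_X_pow_le _ _) ?_
    exact Nat.cast_lt.2 i.2
  have hcoef : ∀ (c : Fin e → ZMod p) (i : Fin e), (∑ i : Fin e, C (c i) * X ^ (i : ℕ)).coeff i = c i := by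
    intro c i
    rw [finsetSum_coeff, sum_eq_single i]
    · simp
    · intro j _ hj
      rw [coeff_C_mul, coeff_X_pow, if_neg, mul_zero]
      intro h
      exact hj (Fin.ext h.symm)
    · intro h
      exact absurd (mem_univ _) h
  have hinj : Function.Injective ψ := by
    intro c c' h
    rw [hψ, hψ, ← sub_eq_zero, ← map_sub] at h
    obtain ⟨D, hD⟩ : ∃ D, D = ∑ i : Fin e, C (c i) * X ^ (i : ℕ) - ∑ i : Fin e, C (c' i) * X ^ (i : ℕ) := ⟨_, rfl⟩
    rw [← hD] at h
    have hD0 : D = 0 := by
      by_contra hne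
      have h1 := minpoly.degree_le_of_ne_zero (ZMod p) (rt P) hne h
      rw [minpoly_rt he, degree_eq_natDegree P.2.1.ne_zero, P.2.2.2] at h1
      have h2 : D.degree < ((e : ℕ) : WithBot ℕ) := by
        rw [hD]
        exact lt_of_le_of_lt (degree_sub_le _ _) (max_lt (hdeg c) (hdeg c'))
      exact absurd h1 (not_le.2 h2)
    funext i
    have h1 : D.coeff i = 0 := by rw [hD0, coeff_zero]
    rw [hD, coeff_sub, hcoef, hcoef, sub_eq_zero] at h1
    exact h1
  have hsurj : Function.Surjective ψ := by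
    refine ((Fintype.bijective_iff_injective_and_card ψ).2 ⟨hinj, ?_⟩).2
    rw [Fintype.card_fun, ZMod.card, Fintype.card_fin, card_GF e he]
  obtain ⟨c, hc⟩ := hsurj z
  exact ⟨_, by rw [← hψ, hc], hdeg c⟩

lemma algHom_ext_rt {e j : ℕ} (he : e ≠ 0) (P : CP p e) (φ φ' : GaloisField p e →ₐ[ZMod p] GaloisField p j)
    (h : φ (rt P) = φ' (rt P)) : φ = φ' := by
  ext z
  obtain ⟨g, hg, _⟩ := gen he P z
  rw [← hg, ← aeval_algHom_apply, ← aeval_algHom_apply, h]

/-- the points over the field with `p ^ j` elements and the closed points -/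
theorem sum_points (j : ℕ) (hj : j ≠ 0) (g : GaloisField p j → ℝ) :
    ∑ x, g x = ∑ e ∈ j.divisors, ∑ P : CP p e, ∑ φ : GaloisField p e →ₐ[ZMod p] GaloisField p j, g (φ (rt P)) := by
  classical
  have hne : ∀ e : j.divisors, (e : ℕ) ≠ 0 := fun e => (Nat.pos_of_mem_divisors e.2).ne'
  obtain ⟨Φ, hΦ⟩ : ∃ Φ : (Σ e : j.divisors, CP p e × (GaloisField p e →ₐ[ZMod p] GaloisField p j)) → GaloisField p j,
      ∀ s, Φ s = s.2.2 (rt s.2.1) := ⟨fun s => s.2.2 (rt s.2.1), fun _ => rfl⟩
  have hmin : ∀ s, minpoly (ZMod p) (Φ s) = s.2.1.1 := by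
    intro s
    rw [hΦ]
    refine (minpoly.eq_of_irreducible_of_monic s.2.1.2.2.1 ?_ s.2.1.2.1).symm
    rw [aeval_algHom_apply, aeval_rt (hne s.1), map_zero]
  have hinj : Function.Injective Φ := by
    rintro ⟨e, P, φ⟩ ⟨e', P', φ'⟩ h
    have h1 := hmin ⟨e, P, φ⟩
    rw [h, hmin ⟨e', P', φ'⟩] at h1
    dsimp only at h1
    have h2 : e = e' := by
      apply Subtype.ext
      rw [← P.2.2.2, ← P'.2.2.2, h1]
    subst h2
    have h3 : P = P' := Subtype.ext h1.symm
    subst h3
    rw [hΦ, hΦ] at h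
    have h4 := algHom_ext_rt (hne e) P φ φ' h
    subst h4
    rfl
  have hsurj : Function.Surjective Φ := by
    intro x
    have hx : IsIntegral (ZMod p) x := Algebra.IsIntegral.isIntegral x
    obtain ⟨P, hP⟩ : ∃ P, P = minpoly (ZMod p) x := ⟨_, rfl⟩
    have hdvd : P.natDegree ∣ j := by
      have := minpoly.degree_dvd hx
      rwa [GaloisField.finrank p hj, ← hP] at this
    have hmem : P.natDegree ∈ j.divisors := Nat.mem_divisors.2 ⟨hdvd, hj⟩
    have he : P.natDegree ≠ 0 := (Nat.pos_of_mem_divisors hmem).ne'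
    obtain ⟨P', hP'⟩ : ∃ P' : CP p P.natDegree, P'.1 = P := ⟨⟨P, by rw [hP]; exact minpoly.monic hx, by rw [hP]; exact minpoly.irreducible hx, rfl⟩, rfl⟩
    have hroots : (univ.image fun φ : GaloisField p P.natDegree →ₐ[ZMod p] GaloisField p j => φ (rt P')) = (P.aroots (GaloisField p j)).toFinset := by
      have hP0 : P ≠ 0 := by
        rw [hP]
        exact minpoly.ne_zero hx
      refine eq_of_subset_of_card_le ?_ ?_
      · intro y hy
        rw [mem_image] at hy
        obtain ⟨φ, _, rfl⟩ := hy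
        rw [Multiset.mem_toFinset, mem_aroots]
        refine ⟨hP0, ?_⟩
        have h2 := aeval_rt he P'
        rw [hP'] at h2
        rw [aeval_algHom_apply, h2, map_zero]
      · rw [card_image_of_injective _ fun φ φ' h => algHom_ext_rt he P' φ φ' h, card_univ]
        have h1 : Fintype.card (GaloisField p P.natDegree →ₐ[ZMod p] GaloisField p j) = P.natDegree := by
          rw [← Nat.card_eq_fintype_card, FiniteField.natCard_algHom_of_finrank_dvd, GaloisField.finrank p he]
          rw [GaloisField.finrank p he, GaloisField.finrank p hj]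
          exact hdvd
        rw [h1]
        refine (Multiset.toFinset_card_le _).trans ?_
        refine (card_roots' _).trans ?_
        exact natDegree_map_le
    have hxr : x ∈ (P.aroots (GaloisField p j)).toFinset := by
      rw [Multiset.mem_toFinset, mem_aroots]
      refine ⟨by rw [hP]; exact minpoly.ne_zero hx, ?_⟩
      rw [hP]
      exact minpoly.aeval _ _
    rw [← hroots, mem_image] at hxr
    obtain ⟨φ, _, hφ⟩ := hxr
    exact ⟨⟨⟨P.natDegree, hmem⟩, P', φ⟩, by rw [hΦ]; exact hφ⟩
  rw [← Fintype.sum_equiv (Equiv.ofBijective Φ ⟨hinj, hsurj⟩) (fun s => g (Φ s)) g fun s => rfl, Fintype.sum_sigma,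
    ← Finset.sum_coe_sort j.divisors fun e => ∑ P : CP p e, ∑ φ : GaloisField p e →ₐ[ZMod p] GaloisField p j, g (φ (rt P))]
  refine sum_congr rfl fun e _ => ?_
  rw [Fintype.sum_prod_type]
  refine sum_congr rfl fun P _ => sum_congr rfl fun φ _ => ?_
  rw [hΦ]

lemma card_algHom {e j : ℕ} (he : e ≠ 0) (hj : j ≠ 0) (h : e ∣ j) : Fintype.card (GaloisField p e →ₐ[ZMod p] GaloisField p j) = e := by
  rw [← Nat.card_eq_fintype_card, FiniteField.natCard_algHom_of_finrank_dvd, GaloisField.finrank p he]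
  rw [GaloisField.finrank p he, GaloisField.finrank p hj]
  exact h

/-- the number of the closed points -/
theorem card_points (j : ℕ) (hj : j ≠ 0) : (p : ℝ) ^ j = ∑ e ∈ j.divisors, (e : ℝ) * Fintype.card (CP p e) := by
  have h := sum_points (p := p) j hj fun _ => 1
  rw [sum_const, card_univ, card_GF j hj, nsmul_eq_mul, mul_one] at h
  push_cast at h
  rw [h]
  refine sum_congr rfl fun e he => ?_
  have he0 : e ≠ 0 := (Nat.pos_of_mem_divisors he).ne'
  have hd : e ∣ j := (Nat.mem_divisors.1 he).1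
  simp only [sum_const, card_univ, nsmul_eq_mul, mul_one]
  rw [card_algHom he0 hj hd]
  ring

/-- the character sums over the points -/
theorem sum_qch (hp2 : p ≠ 2) (j : ℕ) (hj : j ≠ 0) (f : (ZMod p)[X]) :
    ∑ x : GaloisField p j, qch (aeval x f) = ∑ e ∈ j.divisors, ∑ P : CP p e, (e : ℝ) * qch (aeval (rt P) f) ^ (j / e) := by
  rw [sum_points j hj fun x => qch (aeval x f)]
  refine sum_congr rfl fun e he => sum_congr rfl fun P _ => ?_
  have he0 : e ≠ 0 := (Nat.pos_of_mem_divisors he).ne'
  have hd : e ∣ j := (Nat.mem_divisors.1 he).1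
  have h1 : ∀ φ : GaloisField p e →ₐ[ZMod p] GaloisField p j, qch (aeval (φ (rt P)) f) = qch (aeval (rt P) f) ^ (j / e) := by
    intro φ
    rw [aeval_algHom_apply]
    refine qch_map (φ : GaloisField p e →+* GaloisField p j) (j / e) ?_ ?_ _
    · rw [GaloisField.card p j hj, GaloisField.card p e he0, ← pow_mul, Nat.mul_div_cancel' hd]
    · rw [ringChar.eq (GaloisField p e) p]
      exact hp2
  rw [sum_congr rfl fun φ _ => h1 φ, sum_const, card_univ, nsmul_eq_mul, card_algHom he0 hj hd]

end H35GS
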