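import Pool.Agent.Q282.CL.Abs

/-!
# The quadratic character of a finite field, as a real function; extensions; translations
-/

set_option autoImplicit false
set_option linter.unusedSectionVars false

namespace H35GS

open Finset
open Q282.CL

open Classical in
/-- the quadratic character -/
noncomputable def qch {F : Type} [Field F] (a : F) : ℝ := if a = 0 then 0 else if IsSquare a then 1 else -1

section

variable {F : Type} [Field F]

lemma qch_zero : qch (0 : F) = 0 := by
  unfold qch
  rw [if_pos rfl]

lemma qch_abs (a : F) : |qch a| ≤ 1 := by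
  unfold qch
  split_ifs <;> simp

open Classical in
lemma qch_sq (a : F) : qch a ^ 2 = if a = 0 then 0 else 1 := by
  unfold qch
  split_ifs <;> simp

lemma qch_pow_odd (a : F) (m : ℕ) (hm : Odd m) : qch a ^ m = qch a := by
  obtain ⟨l, rfl⟩ := hm
  unfold qch
  split_ifs
  · rw [zero_pow (by omega)]
  · simp
  · rw [pow_add, pow_mul]
    simp

lemma qch_pow_even (a : F) (m : ℕ) (hm : Even m) (h0 : m ≠ 0) : qch a ^ m = qch a ^ 2 := by
  obtain ⟨l, rfl⟩ := hm
  unfold qch
  split_ifs
  · rw [zero_pow h0, zero_pow two_ne_zero]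
  · simp
  · rw [← two_mul, pow_mul]
    simp

lemma qch_eq [Fintype F] [DecidableEq F] (a : F) : qch a = (quadraticChar F a : ℝ) := by
  unfold qch
  rw [quadraticChar_apply, quadraticCharFun]
  split_ifs <;> simp_all

/-- the number of square roots -/
lemma card_sqrt [Finite F] (hF : ringChar F ≠ 2) (a : F) : (Nat.card {y : F // y ^ 2 = a} : ℝ) = 1 + qch a := by
  classical
  have := Fintype.ofFinite F
  have h := quadraticChar_card_sqrts hF a
  have h1 : (Nat.card {y : F // y ^ 2 = a} : ℤ) = quadraticChar F a + 1 := by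
    rw [← h, Set.toFinset_card, Nat.card_eq_fintype_card]
    rfl
  have h2 : ((Nat.card {y : F // y ^ 2 = a} : ℤ) : ℝ) = ((quadraticChar F a + 1 : ℤ) : ℝ) := by rw [h1]
  push_cast at h2
  rw [h2, qch_eq]
  ring

lemma av_qch [Fintype F] (hF : ringChar F ≠ 2) : av (fun a : F => qch a) = 0 := by
  classical
  unfold av
  have h := quadraticChar_sum_zero hF
  have h1 : ∑ a : F, qch a = 0 := by
    simp only [qch_eq]
    exact_mod_cast h
  rw [h1, zero_div]

lemma av_qch_sq [Fintype F] : av (fun a : F => qch a ^ 2) = 1 - 1 / Fintype.card F := by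
  classical
  unfold av
  simp only [qch_sq]
  have h1 : ∑ a : F, (if a = 0 then (0 : ℝ) else 1) = Fintype.card F - 1 := by
    rw [sum_ite, sum_const_zero, zero_add, sum_const, nsmul_eq_mul, mul_one]
    have h2 : (univ.filter fun a : F => ¬ a = 0) = univ.erase 0 := by
      ext a
      simp
    rw [h2, card_erase_of_mem (mem_univ _), card_univ, Nat.cast_sub Fintype.card_pos]
    simp
  rw [h1]
  have h3 : (Fintype.card F : ℝ) ≠ 0 := by exact_mod_cast Fintype.card_ne_zero
  field_simp

lemma av_zero_ind [Fintype F] [DecidableEq F] : av (fun a : F => if a = 0 then (1 : ℝ) else 0) = 1 / Fintype.card F := by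
  unfold av
  rw [sum_ite_eq' univ (0 : F), if_pos (mem_univ _)]

lemma av_pow_abs_le [Fintype F] (j : ℕ) : |av (fun a : F => qch a ^ j)| ≤ 1 := by
  refine (abs_av_le _).trans ?_
  refine (av_mono (g := fun _ => (1 : ℝ)) fun a => ?_).trans (le_of_eq (av_const 1))
  rw [abs_pow]
  exact pow_le_one₀ (abs_nonneg _) (qch_abs a)

/-- translations -/
lemma av_translate {B : Type} [AddGroup B] [Fintype B] (b : B) (f : B → ℝ) : av (fun z => f (z + b)) = av f := by
  unfold av
  congr 1
  exact Fintype.sum_equiv (Equiv.addRight b) _ _ fun z => rfl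

end

/-- the quadratic characters of an extension of finite fields -/
lemma qch_map {k K : Type} [Field k] [Field K] [Finite k] [Finite K] (φ : k →+* K) (m : ℕ) (hm : Nat.card K = Nat.card k ^ m)
    (hk : ringChar k ≠ 2) (a : k) : qch (φ a) = qch a ^ m := by
  classical
  have := Fintype.ofFinite k
  have := Fintype.ofFinite K
  have hK : ringChar K ≠ 2 := by
    have h1 : ringChar k = ringChar K := by
      have : CharP K (ringChar k) := (φ.charP_iff φ.injective (ringChar k)).1 inferInstance
      exact (ringChar.eq_iff.2 this).symm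
    rwa [← h1]
  rw [Nat.card_eq_fintype_card, Nat.card_eq_fintype_card] at hm
  obtain ⟨q, hq⟩ : ∃ q, q = Fintype.card k := ⟨_, rfl⟩
  rw [← hq] at hm
  have hqodd : q % 2 = 1 := by
    rw [hq]
    exact FiniteField.odd_card_of_char_ne_two hk
  have hm0 : m ≠ 0 := by
    rintro rfl
    rw [pow_zero] at hm
    have : 1 < Fintype.card K := Fintype.one_lt_card
    omega
  by_cases ha : a = 0
  · rw [ha, map_zero, qch_zero, qch_zero, zero_pow hm0]
  have hφa : φ a ≠ 0 := (map_ne_zero φ).2 ha
  have hhalf : q ^ m / 2 = q / 2 * ∑ i ∈ range m, q ^ i := by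
    have h1 : q ^ m = 2 * (q / 2 * ∑ i ∈ range m, q ^ i) + 1 := by
      have h2 := Nat.geomSum_eq (m := q) (by have : 1 < q := by { rw [hq]; exact Fintype.one_lt_card }; exact this) m
      have h3 : q = 2 * (q / 2) + 1 := by omega
      have h4 : (∑ i ∈ range m, q ^ i) * (q - 1) + 1 = q ^ m := by
        have h5 := Nat.geomSum_eq (m := q) (by have : 1 < q := by { rw [hq]; exact Fintype.one_lt_card }; exact this) m
        have h6 : (∑ i ∈ range m, q ^ i) * (q - 1) + 1 = q ^ m := by
          have := geom_sum_mul_add (q - 1) m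
          rw [Nat.sub_add_cancel (by omega : 1 ≤ q)] at this
          exact this
        exact h6
      rw [← h4]
      have h5 : q - 1 = 2 * (q / 2) := by omega
      rw [h5]
      ring
    rw [h1]
    omega
  have hsum : (∑ i ∈ range m, q ^ i) % 2 = m % 2 := by
    have : ∀ m : ℕ, (∑ i ∈ range m, q ^ i) % 2 = m % 2 := by
      intro m
      induction m with
      | zero => rfl
      | succ m ih =>
        rw [sum_range_succ, Nat.add_mod, ih]
        have h1 : q ^ m % 2 = 1 := by
          rw [Nat.pow_mod, hqodd, one_pow]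
          rfl
        rw [h1]
        omega
    exact this m
  have h1 := FiniteField.isSquare_iff hK hφa
  rw [hm, hhalf, pow_mul, ← map_pow, hq] at h1
  rcases FiniteField.pow_dichotomy hk ha with h2 | h2
  · have hsq : IsSquare a := (FiniteField.isSquare_iff hk ha).2 h2
    have e1 : qch a = 1 := by
      unfold qch
      rw [if_neg ha, if_pos hsq]
    have e2 : qch (φ a) = 1 := by
      unfold qch
      rw [if_neg hφa, if_pos (hsq.map φ)]
    rw [e1, e2, one_pow]
  · have hns : ¬ IsSquare a := by
      intro h
      have h3 := (FiniteField.isSquare_iff hk ha).1 h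
      rw [h2] at h3
      exact (Ring.neg_one_ne_one_of_char_ne_two hk) h3
    have e1 : qch a = -1 := by
      unfold qch
      rw [if_neg ha, if_neg hns]
    rw [e1]
    rw [h2, map_neg, map_one] at h1
    rcases Nat.mod_two_eq_zero_or_one m with h3 | h3
    · have h4 : Even (∑ i ∈ range m, Fintype.card k ^ i) := by
        rw [Nat.even_iff, ← hq, hsum, h3]
      rw [h4.neg_one_pow] at h1
      rw [(Nat.even_iff.2 h3).neg_one_pow]
      unfold qch
      rw [if_neg hφa, if_pos (h1.2 rfl)]
    · have h4 : Odd (∑ i ∈ range m, Fintype.card k ^ i) := by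
        rw [Nat.odd_iff, ← hq, hsum, h3]
      rw [h4.neg_one_pow] at h1
      rw [(Nat.odd_iff.2 h3).neg_one_pow]
      unfold qch
      rw [if_neg hφa, if_neg]
      intro h
      exact (Ring.neg_one_ne_one_of_char_ne_two hK) (h1.1 h)

end H35GS
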