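import Mathlib

/-!
# Polynomials of bounded weight
-/

set_option autoImplicit false
set_option linter.unusedSectionVars false

namespace H35GS

open MvPolynomial Finset

section

variable {σ : Type} {ω : σ → ℕ}

/-- all the monomials have the weight at most `w` -/
def Wt (ω : σ → ℕ) (w : ℕ) (P : MvPolynomial σ ℝ) : Prop := ∀ d, P.coeff d ≠ 0 → Finsupp.weight ω d ≤ w

lemma Wt.mono {w w' : ℕ} {P : MvPolynomial σ ℝ} (h : Wt ω w P) (hw : w ≤ w') : Wt ω w' P := fun d hd => (h d hd).trans hw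

lemma Wt.C (c : ℝ) : Wt ω 0 (C c) := by
  classical
  intro d hd
  rw [coeff_C] at hd
  split_ifs at hd with h
  · rw [← h]
    simp
  · exact absurd rfl hd

lemma Wt.one : Wt ω 0 1 := by
  rw [← MvPolynomial.C_1]
  exact Wt.C 1

lemma Wt.X (i : σ) : Wt ω (ω i) (X i) := by
  classical
  intro d hd
  rw [coeff_X] at hd
  split_ifs at hd with h
  · rw [← h, Finsupp.weight_apply]
    simp
  · exact absurd rfl hd

lemma Wt.sum {ι : Type} (s : Finset ι) (P : ι → MvPolynomial σ ℝ) (w : ℕ) (h : ∀ i ∈ s, Wt ω w (P i)) : Wt ω w (∑ i ∈ s, P i) := by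
  intro d hd
  rw [coeff_sum] at hd
  obtain ⟨i, hi, hi'⟩ := exists_ne_zero_of_sum_ne_zero hd
  exact h i hi d hi'

lemma Wt.mul {w w' : ℕ} {P Q : MvPolynomial σ ℝ} (hP : Wt ω w P) (hQ : Wt ω w' Q) : Wt ω (w + w') (P * Q) := by
  classical
  intro d hd
  rw [coeff_mul] at hd
  obtain ⟨x, hx, hx'⟩ := exists_ne_zero_of_sum_ne_zero hd
  rw [HasAntidiagonal.mem_antidiagonal] at hx
  rw [← hx, map_add]
  exact add_le_add (hP _ (left_ne_zero_of_mul hx')) (hQ _ (right_ne_zero_of_mul hx'))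

lemma Wt.prod {ι : Type} (s : Finset ι) (P : ι → MvPolynomial σ ℝ) (w : ι → ℕ) (h : ∀ i ∈ s, Wt ω (w i) (P i)) :
    Wt ω (∑ i ∈ s, w i) (∏ i ∈ s, P i) := by
  classical
  induction s using Finset.induction_on with
  | empty =>
    simp only [sum_empty, prod_empty]
    exact Wt.one
  | insert a s ha ih =>
    rw [sum_insert ha, prod_insert ha]
    exact (h a (mem_insert_self a s)).mul (ih fun i hi => h i (mem_insert_of_mem hi))

lemma Wt.pow {w : ℕ} {P : MvPolynomial σ ℝ} (h : Wt ω w P) (n : ℕ) : Wt ω (w * n) (P ^ n) := by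
  induction n with
  | zero =>
    rw [pow_zero, mul_zero]
    exact Wt.one
  | succ n ih =>
    rw [pow_succ, Nat.mul_succ]
    exact ih.mul h

end

end H35GS
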